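import Mathlib

set_option autoImplicit false

namespace Pool.Agent.Lib.helper7.CoHopf

noncomputable section

abbrev R : Type := ℤ →₀ ZMod 2

def IsP (d : ℤ) : Prop := ∃ k : ℕ, d = 2 ^ k

open Classical in
def g (d : ℤ) : ZMod 2 := if IsP d then 1 else 0

def γ : R →ₗ[ZMod 2] R →ₗ[ZMod 2] ZMod 2 :=
  Finsupp.linearCombination (ZMod 2) (fun a => Finsupp.linearCombination (ZMod 2) (fun b => g (a - b)))

def sh (n : ℤ) : R →ₗ[ZMod 2] R := Finsupp.lmapDomain _ _ (· + n)
def dbl : R →ₗ[ZMod 2] R := Finsupp.lmapDomain _ _ (2 * ·)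

@[simp] lemma γ_single (a b : ℤ) (p q : ZMod 2) :
    γ (Finsupp.single a p) (Finsupp.single b q) = p * q * g (a - b) := by
  simp [γ, mul_assoc]

@[simp] lemma sh_single (n a : ℤ) (p : ZMod 2) :
    sh n (Finsupp.single a p) = Finsupp.single (a + n) p := by simp [sh]

@[simp] lemma dbl_single (a : ℤ) (p : ZMod 2) :
    dbl (Finsupp.single a p) = Finsupp.single (2 * a) p := by simp [dbl]

@[simp] lemma sh_zero (r : R) : sh 0 r = r := by
  induction r using Finsupp.induction_linear with
  | zero => simp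
  | add a b ha hb => simp [ha, hb]
  | single a p => simp

@[simp] lemma sh_sh (n m : ℤ) (r : R) : sh n (sh m r) = sh (m + n) r := by
  induction r using Finsupp.induction_linear with
  | zero => simp
  | add a b ha hb => simp [ha, hb]
  | single a p => simp [add_assoc]

@[simp] lemma γ_sh (n : ℤ) (r s : R) : γ (sh n r) (sh n s) = γ r s := by
  induction r using Finsupp.induction_linear with
  | zero => simp
  | add a b ha hb => simp [ha, hb]
  | single a p =>
    induction s using Finsupp.induction_linear with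
    | zero => simp
    | add a b ha hb => rw [map_add, map_add, map_add, ha, hb]
    | single b q => simp

lemma isP_two_mul (d : ℤ) : IsP (2 * d) ↔ IsP d := by
  constructor
  · rintro ⟨k, hk⟩
    cases k with
    | zero => omega
    | succ k => exact ⟨k, by rw [pow_succ] at hk; omega⟩
  · rintro ⟨k, rfl⟩
    exact ⟨k + 1, by ring⟩

lemma γ_dbl (r s : R) : γ (dbl r) (dbl s) = γ r s := by
  induction r using Finsupp.induction_linear with
  | zero => simp
  | add a b ha hb => simp [ha, hb]
  | single a p =>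
    induction s using Finsupp.induction_linear with
    | zero => simp
    | add a b ha hb => rw [map_add, map_add, map_add, ha, hb]
    | single b q => rw [dbl_single, dbl_single, γ_single, γ_single, ← mul_sub, g, g, isP_two_mul]

lemma dbl_sh (n : ℤ) (r : R) : dbl (sh n r) = sh (2 * n) (dbl r) := by
  induction r using Finsupp.induction_linear with
  | zero => simp
  | add a b ha hb => simp [ha, hb]
  | single a p => simp [mul_add]

lemma add_self (r : R) : r + r = 0 := by
  ext a; simp [CharTwo.add_self_eq_zero]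

@[ext] structure G where
  r : R
  z : ZMod 2
  n : ℤ
  u : ZMod 3
  e : ℤˣ

instance : Mul G := ⟨fun x y => ⟨x.r + sh x.n y.r, x.z + y.z + γ x.r (sh x.n y.r), x.n + y.n,
  x.u + ((x.e : ℤ) : ZMod 3) * y.u, x.e * y.e⟩⟩
instance : One G := ⟨⟨0, 0, 0, 0, 1⟩⟩
instance : Inv G := ⟨fun x => ⟨sh (-x.n) x.r, x.z + γ x.r x.r, -x.n,
  -((x.e : ℤ) : ZMod 3) * x.u, x.e⟩⟩

@[simp] lemma mul_r (x y : G) : (x * y).r = x.r + sh x.n y.r := rfl
@[simp] lemma mul_z (x y : G) : (x * y).z = x.z + y.z + γ x.r (sh x.n y.r) := rfl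
@[simp] lemma mul_n (x y : G) : (x * y).n = x.n + y.n := rfl
@[simp] lemma mul_u (x y : G) : (x * y).u = x.u + ((x.e : ℤ) : ZMod 3) * y.u := rfl
@[simp] lemma mul_e (x y : G) : (x * y).e = x.e * y.e := rfl
@[simp] lemma one_r : (1 : G).r = 0 := rfl
@[simp] lemma one_z : (1 : G).z = 0 := rfl
@[simp] lemma one_n : (1 : G).n = 0 := rfl
@[simp] lemma one_u : (1 : G).u = 0 := rfl
@[simp] lemma one_e : (1 : G).e = 1 := rfl
@[simp] lemma inv_r (x : G) : x⁻¹.r = sh (-x.n) x.r := rfl
@[simp] lemma inv_z (x : G) : x⁻¹.z = x.z + γ x.r x.r := rfl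
@[simp] lemma inv_n (x : G) : x⁻¹.n = -x.n := rfl
@[simp] lemma inv_u (x : G) : x⁻¹.u = -((x.e : ℤ) : ZMod 3) * x.u := rfl
@[simp] lemma inv_e (x : G) : x⁻¹.e = x.e := rfl

instance : Group G := Group.ofLeftAxioms
  (fun a b c => by
    ext1
    · simp [add_assoc, add_comm b.n a.n]
    · have := γ_sh a.n b.r (sh b.n c.r)
      simp only [sh_sh] at this
      simp only [mul_z, mul_r, mul_n, map_add, LinearMap.add_apply, sh_sh, add_comm a.n b.n, this]
      ring
    · simp [add_assoc]
    · simp only [mul_u, mul_e, Units.val_mul, Int.cast_mul]; ring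
    · simp [mul_assoc])
  (fun a => by ext1 <;> simp)
  (fun a => by
    ext1
    · simp [add_self]
    · simp only [mul_z, inv_z, inv_r, inv_n, γ_sh, one_z]
      have h2 : (2 : ZMod 2) = 0 := rfl
      linear_combination (a.z + γ a.r a.r) * h2
    · simp
    · simp
    · simp)

def φ : G →* G where
  toFun x := ⟨dbl x.r, x.z, 2 * x.n, x.u, x.e⟩
  map_one' := by ext1 <;> simp
  map_mul' x y := by
    ext1
    · simp [dbl_sh]
    · simp [← dbl_sh, γ_dbl]
    · simp [mul_add]
    · simp
    · simp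

lemma φ_inj : Function.Injective φ := by
  intro x y h
  have h1 : dbl x.r = dbl y.r := congrArg G.r h
  have h3 : 2 * x.n = 2 * y.n := congrArg G.n h
  ext1
  · exact Finsupp.mapDomain_injective (fun a b (h : 2 * a = 2 * b) => by omega) h1
  · exact (congrArg G.z h :)
  · omega
  · exact (congrArg G.u h :)
  · exact (congrArg G.e h :)

lemma φ_not_surj : ¬ Function.Surjective φ := by
  intro h
  obtain ⟨x, hx⟩ := h ⟨0, 0, 1, 0, 1⟩
  have : 2 * x.n = 1 := congrArg G.n hx
  omega

def T : Subgroup G where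
  carrier := {x | x.e = x.n.negOnePow}
  mul_mem' := by
    intro x y hx hy
    simp only [Set.mem_ofPred_eq, mul_e, mul_n] at *
    rw [hx, hy, Int.negOnePow_add]
  one_mem' := by simp
  inv_mem' := by
    intro x hx
    simp only [Set.mem_ofPred_eq, inv_e, inv_n] at *
    rw [hx, Int.negOnePow_neg]

lemma mem_T {x : G} : x ∈ T ↔ x.e = x.n.negOnePow := Iff.rfl

def b (i : ℤ) : G := ⟨Finsupp.single i 1, 0, 0, 0, 1⟩
def c : G := ⟨0, 1, 0, 0, 1⟩
def a : G := ⟨0, 0, 0, 1, 1⟩
def t : G := ⟨0, 0, 1, 0, -1⟩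

lemma b_mem (i : ℤ) : b i ∈ T := by simp [mem_T, b]
lemma c_mem : c ∈ T := by simp [mem_T, c]
lemma a_mem : a ∈ T := by simp [mem_T, a]
lemma t_mem : t ∈ T := by simp [mem_T, t]

lemma tb (i : ℤ) : t * b i = b (i + 1) * t := by ext1 <;> simp [t, b]
lemma ta : t * a * a = a * t := by
  ext1 <;> simp [t, a]
  decide
lemma aaa : a * a * a = 1 := by
  ext1 <;> simp [a]
  decide
lemma not_isP_zero : ¬ IsP 0 := by rintro ⟨k, hk⟩; have : (0 : ℤ) < 2 ^ k := by positivity
                                   omega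
lemma bb (i : ℤ) : b i * b i = 1 := by
  ext1 <;> simp [b, add_self, g, not_isP_zero]

def s (d : ℤ) : ZMod 2 := g d + g (-d)

lemma bcomm (i : ℤ) : b i * b 0 = b 0 * b i * (if s i = 0 then 1 else c) := by
  have h : ∀ v w : ZMod 2, (v + w = 0 → v = w) ∧ (¬ v + w = 0 → v = w + 1) := by decide
  split_ifs with hs
  · ext1 <;> simp [b, add_comm]
    exact (h _ _).1 hs
  · ext1 <;> simp [b, c, add_comm]
    rw [add_comm]; exact (h _ _).2 hs

lemma s_one : s 1 ≠ 0 := by
  have h1 : IsP 1 := ⟨0, rfl⟩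
  have h2 : ¬ IsP (-1) := by rintro ⟨k, hk⟩; have : (0 : ℤ) < 2 ^ k := by positivity
                             omega
  simp [s, g, h1, h2]

lemma gen0 (K : Subgroup G) (hb : ∀ i, b i ∈ K) (hc : c ∈ K) (ha : a ∈ K) (x : G) (hn : x.n = 0)
    (he : x.e = 1) : x ∈ K := by
  have h1 : ∀ r : R, ∀ z, (⟨r, z, 0, 0, 1⟩ : G) ∈ K := by
    have hz : ∀ (x : G), x ∈ K → ∀ z, (⟨x.r, z, x.n, x.u, x.e⟩ : G) ∈ K := by
      intro x hx z
      have : z = x.z ∨ z = x.z + 1 := by revert z; generalize x.z = w; revert w; decide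
      rcases this with rfl | rfl
      · exact hx
      · convert mul_mem hx hc using 1
        ext1 <;> simp [c]
    intro r
    induction r using Finsupp.induction_linear with
    | zero => exact hz 1 (one_mem _)
    | add r r' h h' =>
      intro z
      convert hz _ (mul_mem (h 0) (h' 0)) z using 1
      ext1 <;> simp
    | single i p =>
      have : p = 0 ∨ p = 1 := by revert p; decide
      rcases this with rfl | rfl
      · simpa using hz 1 (one_mem _)
      · exact hz _ (hb i)
  have h2 : ∀ r z u, (⟨r, z, 0, u, 1⟩ : G) ∈ K := by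
    intro r z u
    have : u = 0 ∨ u = 1 ∨ u = 1 + 1 := by revert u; decide
    rcases this with rfl | rfl | rfl
    · exact h1 r z
    · convert mul_mem (h1 r z) ha using 1
      ext1 <;> simp [a]
    · convert mul_mem (mul_mem (h1 r z) ha) ha using 1
      ext1 <;> simp [a]
  convert h2 x.r x.z x.u using 1
  ext1 <;> simp [hn, he]

lemma gen (K : Subgroup G) (hb : ∀ i, b i ∈ K) (hc : c ∈ K) (ha : a ∈ K) (ht : t ∈ K) : T ≤ K := by
  have h3 : ∀ n : ℤ, (⟨0, 0, n, 0, n.negOnePow⟩ : G) ∈ K := by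
    intro n
    induction n using Int.induction_on with
    | zero => exact one_mem _
    | succ n ih =>
      convert mul_mem ih ht using 1
      ext1 <;> simp [t, Int.negOnePow_add]
    | pred n ih =>
      convert mul_mem ih (inv_mem ht) using 1
      ext1 <;> simp [t, Int.negOnePow_add, sub_eq_add_neg]
  intro x hx
  convert mul_mem (gen0 K hb hc ha ⟨x.r, x.z, 0, x.u, 1⟩ rfl rfl) (h3 x.n) using 1
  ext1 <;> simp [mem_T.1 hx]

lemma b_of (K : Subgroup G) (i0 : ℤ) (hb : b i0 ∈ K) (ht : t ∈ K) (i : ℤ) : b i ∈ K := by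
  have h1 : ∀ i, b (i + 1) = t * b i * t⁻¹ := fun i => by rw [tb]; group
  have h2 : ∀ i, b (i - 1) = t⁻¹ * b i * t := fun i => by
    have := h1 (i - 1); rw [sub_add_cancel] at this; rw [this]; group
  induction i using Int.inductionOn' (b := i0) with
  | zero => exact hb
  | succ k _ ih => rw [h1]; exact mul_mem (mul_mem ht ih) (inv_mem ht)
  | pred k _ ih => rw [h2]; exact mul_mem (mul_mem (inv_mem ht) ih) ht

lemma s_neg (d : ℤ) : s (-d) = s d := by simp [s, add_comm]

lemma s_pow (l : ℕ) : s (2 ^ l) = 1 := by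
  have h1 : IsP (2 ^ l) := ⟨l, rfl⟩
  have h2 : ¬ IsP (-2 ^ l) := by
    rintro ⟨k, hk⟩
    have : (0 : ℤ) < 2 ^ k := by positivity
    have : (0 : ℤ) < 2 ^ l := by positivity
    omega
  simp [s, g, h1, h2]

lemma s_ne {d : ℤ} (h : s d ≠ 0) : IsP d ∨ IsP (-d) := by
  by_contra hc
  push Not at hc
  simp [s, g, hc.1, hc.2] at h

lemma s_between {d : ℤ} {l : ℕ} (h1 : 2 ^ l < d) (h2 : d < 2 ^ (l + 1)) : s d = 0 := by
  by_contra h
  have h0 : (0 : ℤ) < 2 ^ l := by positivity
  rcases s_ne h with ⟨k, rfl⟩ | ⟨k, hk⟩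
  · have := (pow_lt_pow_iff_right₀ (by norm_num : (1 : ℤ) < 2)).1 h1
    have := (pow_lt_pow_iff_right₀ (by norm_num : (1 : ℤ) < 2)).1 h2
    omega
  · have : (0 : ℤ) < 2 ^ k := by positivity
    omega

lemma arith {k d : ℤ} {l : ℕ} (hk : Odd k) (h1 : d < 2 ^ l) (h2 : -2 ^ l < d)
    (h : IsP (k * 2 ^ (l + 1) + d)) : k = 1 := by
  obtain ⟨j, hj⟩ := h
  have h0 : (0 : ℤ) < 2 ^ l := by positivity
  rcases le_or_gt (l + 1) j with hl | hl
  · obtain ⟨i, rfl⟩ := Nat.exists_eq_add_of_le hl
    have e : (2 ^ i - k) * (2 * 2 ^ l) = d := by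
      rw [pow_add 2 (l + 1) i, pow_succ] at hj; linear_combination -hj
    have : 2 ^ i - k = 0 := by
      rcases lt_trichotomy (2 ^ i - k) 0 with h | h | h
      · nlinarith
      · exact h
      · nlinarith
    cases i with
    | zero => omega
    | succ i =>
      obtain ⟨m, hm⟩ := hk
      rw [pow_succ] at this; omega
  · have h3 : (2 : ℤ) ^ j ≤ 2 ^ l := pow_le_pow_right₀ (by norm_num) (by omega)
    have h4 : (0 : ℤ) < 2 ^ j := by positivity
    rw [pow_succ] at hj
    have : k = 0 := by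
      rcases lt_trichotomy k 0 with h | h | h
      · nlinarith
      · exact h
      · nlinarith
    obtain ⟨m, hm⟩ := hk
    omega

lemma beta (f : R) (m : ℤ) : γ (sh m f) f + γ f (sh m f) =
    ∑ a ∈ f.support, ∑ b ∈ f.support, s (m + a - b) := by
  have hf : f = ∑ a ∈ f.support, Finsupp.single a 1 := by
    conv_lhs => rw [← f.sum_single]
    refine Finset.sum_congr rfl fun a ha => ?_
    have : ∀ p : ZMod 2, p ≠ 0 → p = 1 := by decide
    rw [this _ (Finsupp.mem_support_iff.1 ha)]
  generalize f.support = S at hf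
  subst hf
  simp only [map_sum, LinearMap.sum_apply, sh_single, γ_single, one_mul, s, Finset.sum_add_distrib]
  congr 1
  · rw [Finset.sum_comm]
    refine Finset.sum_congr rfl fun a _ => Finset.sum_congr rfl fun b _ => ?_
    congr 1; ring
  · refine Finset.sum_congr rfl fun a _ => Finset.sum_congr rfl fun b _ => ?_
    congr 1; ring

lemma rigid {f : R} {k : ℤ} (hk : Odd k)
    (h : ∀ i, γ (sh (k * i) f) f + γ f (sh (k * i) f) = s i) :
    (k = 1 ∨ k = -1) ∧ ∃ j, f = Finsupp.single j 1 := by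
  have hne : f.support.Nonempty := by
    rw [Finsupp.support_nonempty_iff]
    rintro rfl
    exact s_one (by simpa using (h 1).symm)
  simp only [beta] at h
  set lo := f.support.min' hne
  set hi := f.support.max' hne
  have hlo : ∀ a ∈ f.support, lo ≤ a := fun a ha => Finset.min'_le _ _ ha
  have hhi : ∀ a ∈ f.support, a ≤ hi := fun a ha => Finset.le_max' _ _ ha
  have hlo' : lo ∈ f.support := Finset.min'_mem _ _
  have hhi' : hi ∈ f.support := Finset.max'_mem _ _
  obtain ⟨l, hl⟩ := pow_unbounded_of_one_lt (2 * (hi - lo)) (by norm_num : (1 : ℤ) < 2)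
  have hD := hlo hi hhi'
  have hk1 : k = 1 ∨ k = -1 := by
    have := h (2 ^ (l + 1))
    rw [s_pow] at this
    obtain ⟨a, ha, h1⟩ := Finset.exists_ne_zero_of_sum_ne_zero (this ▸ one_ne_zero)
    obtain ⟨b, hb, h2⟩ := Finset.exists_ne_zero_of_sum_ne_zero h1
    have := hlo a ha; have := hlo b hb; have := hhi a ha; have := hhi b hb
    rcases s_ne h2 with h3 | h3
    · exact Or.inl (arith (d := a - b) (l := l) hk (by omega) (by omega) (by convert h3 using 1; ring))
    · have := arith (d := b - a) (l := l) hk.neg (by omega) (by omega) (by convert h3 using 1; ring)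
      omega
  refine ⟨hk1, lo, ?_⟩
  have h' : ∀ m, ∑ a ∈ f.support, ∑ b ∈ f.support, s (m + a - b) = s m := by
    intro m
    rcases hk1 with rfl | rfl
    · simpa using h m
    · simpa [s_neg] using h (-m)
  have hD0 : hi = lo := by
    by_contra hne'
    have e2 : (2 : ℤ) ^ (l + 1) = 2 * 2 ^ l := by ring
    have := h' (2 ^ (l + 1) - (hi - lo))
    rw [s_between (l := l) (d := 2 ^ (l + 1) - (hi - lo)) (by omega) (by omega),
      Finset.sum_eq_single_of_mem hi hhi', Finset.sum_eq_single_of_mem lo hlo'] at this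
    · rw [show 2 ^ (l + 1) - (hi - lo) + hi - lo = 2 ^ (l + 1) by ring, s_pow] at this
      exact one_ne_zero this
    · intro b hb hne
      have := hlo b hb; have := hhi b hb
      exact s_between (l := l) (by omega) (by omega)
    · intro a ha hne
      refine Finset.sum_eq_zero fun b hb => ?_
      have := hlo a ha; have := hlo b hb; have := hhi a ha; have := hhi b hb
      exact s_between (l := l) (by omega) (by omega)
  have : ∀ p : ZMod 2, p ≠ 0 → p = 1 := by decide
  rw [Finsupp.eq_single_iff]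
  refine ⟨fun a ha => ?_, this _ (Finsupp.mem_support_iff.1 hlo')⟩
  have := hlo a ha; have := hhi a ha
  simp only [Finset.mem_singleton]; omega

theorem cohopf (ψ : T →* T) (hψ : Function.Injective ψ) : Function.Surjective ψ := by
  let F : T →* G := T.subtype.comp ψ
  have hF : ∀ x, F x ∈ T := fun x => (ψ x).2
  have hF1 : ∀ x, F x = 1 → x = 1 := fun x hx => hψ (by rw [map_one]; exact Subtype.ext hx)
  obtain ⟨A, hA⟩ : ∃ A, A = F ⟨a, a_mem⟩ := ⟨_, rfl⟩
  obtain ⟨C, hC⟩ : ∃ A, A = F ⟨c, c_mem⟩ := ⟨_, rfl⟩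
  obtain ⟨S, hS⟩ : ∃ A, A = F ⟨t, t_mem⟩ := ⟨_, rfl⟩
  obtain ⟨B, hB⟩ : ∃ B : ℤ → G, ∀ i, B i = F ⟨b i, b_mem i⟩ := ⟨_, fun _ => rfl⟩
  have r1 : A * A * A = 1 := by
    rw [hA, ← map_mul, ← map_mul, ← map_one F]; exact congrArg F (Subtype.ext aaa)
  have r2 : S * A * A = A * S := by
    rw [hA, hS, ← map_mul, ← map_mul, ← map_mul]; exact congrArg F (Subtype.ext ta)
  have r3 : ∀ i, B i * B i = 1 := fun i => by
    rw [hB, ← map_mul, ← map_one F]; congr 1; exact Subtype.ext (bb i)
  have r4 : ∀ i, S * B i = B (i + 1) * S := fun i => by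
    rw [hB, hB, hS, ← map_mul, ← map_mul]; congr 1; exact Subtype.ext (tb i)
  have r5 : ∀ i, B i * B 0 = B 0 * B i * (if s i = 0 then 1 else C) := fun i => by
    have := bcomm i
    split_ifs at this ⊢
    · rw [hB, hB, mul_one, ← map_mul, ← map_mul]; congr 1; exact Subtype.ext (by simpa using this)
    · rw [hB, hB, hC, ← map_mul, ← map_mul, ← map_mul]; congr 1; exact Subtype.ext this
  have An : A.n = 0 := by have := congrArg G.n r1; simp at this; omega
  have Ae : A.e = 1 := by rw [mem_T.1 (hA ▸ hF _ : A ∈ T), An]; rfl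
  have Ar : A.r = 0 := by simpa [An, add_self] using congrArg G.r r1
  have Az : A.z = 0 := by simpa [Ar, CharTwo.add_self_eq_zero] using congrArg G.z r1
  have Au : A.u ≠ 0 := fun h => by
    have := hF1 ⟨a, a_mem⟩ (by rw [← hA]; ext1 <;> simp [An, Ae, Ar, Az, h])
    have := congrArg (fun x : T => x.1.u) this
    simp [a] at this
  have Se : S.e = -1 := by
    rcases Int.units_eq_one_or S.e with h | h
    · have := congrArg G.u r2
      simp [h, Ae] at this
      exact absurd (by linear_combination this) Au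
    · exact h
  have hodd : Odd S.n := by
    rw [← Int.negOnePow_eq_neg_one_iff, ← mem_T.1 (hS ▸ hF _ : S ∈ T), Se]
  have Bn : ∀ i, (B i).n = 0 := fun i => by have := congrArg G.n (r3 i); simp at this; omega
  have Be : ∀ i, (B i).e = 1 := fun i => by rw [mem_T.1 (hB i ▸ hF _ : B i ∈ T), Bn]; rfl
  have Bu : ∀ i, (B i).u = 0 := fun i => by
    have := congrArg G.u (r3 i)
    simp only [mul_u, Be, one_u, Units.val_one, Int.cast_one, one_mul] at this
    revert this; generalize (B i).u = w; revert w; decide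
  have Br1 : ∀ i, (B (i + 1)).r = sh S.n (B i).r := fun i => by
    have := congrArg G.r (r4 i)
    simp only [mul_r, Bn, sh_zero] at this
    rw [add_comm] at this
    exact (add_right_cancel this).symm
  have Br : ∀ i, (B i).r = sh (S.n * i) (B 0).r := by
    intro i
    induction i using Int.induction_on with
    | zero => simp
    | succ i ih => rw [Br1, ih, sh_sh, mul_add, mul_one]
    | pred i ih =>
      have := Br1 (-i - 1)
      rw [sub_add_cancel, ih] at this
      have h2 := congrArg (sh (-S.n)) this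
      rw [sh_sh, sh_sh, add_neg_cancel, sh_zero] at h2
      rw [← h2]; congr 2; ring
  have hCc : C = c := by
    have := r5 1
    rw [if_neg s_one] at this
    have Cn : C.n = 0 := by simpa [Bn] using (congrArg G.n this).symm
    have Cr : C.r = 0 := by simpa [Bn, add_comm] using (congrArg G.r this).symm
    have Cu : C.u = 0 := by simpa [Bu, Be] using (congrArg G.u this).symm
    have Ce : C.e = 1 := by simpa [Be] using (congrArg G.e this).symm
    have Cz : C.z ≠ 0 := fun h => by
      have := hF1 ⟨c, c_mem⟩ (by rw [← hC]; ext1 <;> simp [Cn, Ce, Cr, Cu, h])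
      have := congrArg (fun x : T => x.1.z) this
      simp [c] at this
    have : ∀ p : ZMod 2, p ≠ 0 → p = 1 := by decide
    ext1 <;> simp [c, Cn, Cr, Cu, Ce, this _ Cz]
  obtain ⟨hk, j, hj⟩ := rigid (f := (B 0).r) hodd (fun i => by
    have := congrArg G.z (r5 i)
    rw [← Br, hCc] at *
    have h2 : (2 : ZMod 2) = 0 := rfl
    have h3 : ∀ p : ZMod 2, p ≠ 0 → p = 1 := by decide
    split_ifs at this with hs
    · simp only [mul_z, mul_one, Bn, sh_zero] at this
      rw [hs]; linear_combination this + γ (B 0).r (B i).r * h2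
    · simp only [mul_z, c, mul_n, Bn, sh_zero, map_zero, add_zero] at this
      rw [h3 _ hs]; linear_combination this + γ (B 0).r (B i).r * h2)
  have hc : c ∈ F.range := ⟨_, (hC.symm.trans hCc)⟩
  have ha : a ∈ F.range := by
    have hA' : A ∈ F.range := ⟨_, hA.symm⟩
    have : A.u = 1 ∨ A.u + A.u = 1 := by revert Au; generalize A.u = w; revert w; decide
    rcases this with h | h
    · convert hA' using 1; ext1 <;> simp [a, An, Ae, Ar, Az, h]
    · convert mul_mem hA' hA' using 1; ext1 <;> simp [a, An, Ae, Ar, Az, h]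
  have hb : ∀ i, b i ∈ F.range := by
    intro i
    have h1 : B (S.n * (i - j)) ∈ F.range := ⟨_, (hB _).symm⟩
    have h2 : (B (S.n * (i - j))).r = Finsupp.single i 1 := by
      rw [Br, hj, sh_single]; congr 1
      rcases hk with h | h <;> rw [h] <;> ring
    have : ∀ p : ZMod 2, p = 0 ∨ p + 1 = 0 := by decide
    rcases this (B (S.n * (i - j))).z with h | h
    · convert h1 using 1; ext1 <;> simp [b, Bn, Bu, Be, h2, h]
    · convert mul_mem h1 hc using 1; ext1 <;> simp [b, c, Bn, Bu, Be, h2, h]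
  have hN : ∀ x : G, x.n = 0 → x.e = 1 → x ∈ F.range := gen0 _ hb hc ha
  have ht : t ∈ F.range := by
    have hS' : S ∈ F.range := ⟨_, hS.symm⟩
    rcases hk with h | h
    · have := mul_mem (hN (t * S⁻¹) (by simp [t, h]) (by simp [t, Se])) hS'
      simpa using this
    · have := mul_mem (hN (t * S) (by simp [t, h]) (by simp [t, Se])) (inv_mem hS')
      simpa using this
  intro y
  obtain ⟨x, hx⟩ := gen _ hb hc ha ht y.2
  exact ⟨x, Subtype.ext hx⟩

end

end Pool.Agent.Lib.helper7.CoHopf
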