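import Mathlib

set_option autoImplicit false

namespace Pool.Agent.Lib.helper7.EC

open Filter Asymptotics Matrix

/-- A real two-dimensional representation in which `z` is diagonal and hyperbolic. -/
structure Diag (F : Type) [Group F] (z : F) where
  ρ : F →* Matrix (Fin 2) (Fin 2) ℝ
  lam : ℝ
  hlam : 1 < |lam|
  hz : ρ z = !![lam, 0; 0, lam⁻¹]
  h12 : ∀ g, ρ g 0 1 = 0 → Commute g z
  h21 : ∀ g, ρ g 1 0 = 0 → Commute g z

theorem bigO_step {f g : ℕ → ℝ} (h : f =o[atTop] g) (a b c d : ℝ) (hd : d ≠ 0) :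
    (fun m => a * f m + b * g m) =O[atTop] (fun m => c * f m + d * g m) := by
  have h1 : (fun m => a * f m + b * g m) =O[atTop] g :=
    (h.isBigO.const_mul_left a).add ((isBigO_refl g atTop).const_mul_left b)
  have h2 : g =O[atTop] (fun m => d * g m) := isBigO_self_const_mul hd g atTop
  have h3 : (fun m => c * f m) =o[atTop] (fun m => d * g m) :=
    (h.const_mul_left c).trans_isBigO h2
  exact (h1.trans h2).trans h3.right_isBigO_add

inductive Nf {G : Type} [Group G] (S : Bool → Subgroup G) (C : Subgroup G) : Bool → G → Prop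
  | base (t : Bool) (c : G) : c ∈ C → Nf S C t c
  | step (t : Bool) (x h : G) : x ∈ S t → x ∉ C → Nf S C t h → Nf S C (!t) (x * h)

theorem Nf.inv {G : Type} [Group G] {S : Bool → Subgroup G} {C : Subgroup G} {t : Bool} {h : G}
    (H : Nf S C t h) : h ∈ C ∨ ∃ x h', x ∈ S (!t) ∧ x ∉ C ∧ Nf S C (!t) h' ∧ h = x * h' := by
  cases H with
  | base t c hc => exact Or.inl hc
  | step t x h hx hxC hh => exact Or.inr ⟨x, h, by simpa using hx, hxC, by simpa using hh, rfl⟩

theorem exists_nf {G : Type} [Group G] (S : Bool → Subgroup G) (C : Subgroup G)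
    (hC : ∀ t, C ≤ S t) (hS : S true ⊔ S false = ⊤) (g : G) : ∃ t, Nf S C t g := by
  have key : ∀ g : G, ∃ t x h, x ∈ S t ∧ Nf S C t h ∧ g = x * h := by
    have step : ∀ (t' : Bool) (y : G), y ∈ S t' → ∀ g, (∃ t x h, x ∈ S t ∧ Nf S C t h ∧ g = x * h) →
        ∃ t x h, x ∈ S t ∧ Nf S C t h ∧ y * g = x * h := by
      rintro t' y hy g ⟨t, x, h, hx, hh, rfl⟩
      by_cases ht : t' = t
      · subst ht
        exact ⟨t', y * x, h, mul_mem hy hx, hh, by group⟩
      · have ht' : (!t) = t' := by cases t <;> cases t' <;> simp_all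
        by_cases hxC : x ∈ C
        · rcases hh.inv with h1 | ⟨x', h', hx', -, hh', rfl⟩
          · exact ⟨t', y * x, h, mul_mem hy (hC _ hxC), Nf.base _ _ h1, by group⟩
          · rw [ht'] at hx' hh'
            exact ⟨t', y * x * x', h', mul_mem (mul_mem hy (hC _ hxC)) hx', hh', by group⟩
        · exact ⟨t', y, x * h, hy, ht' ▸ Nf.step t x h hx hxC hh, rfl⟩
    intro g
    have hg : g ∈ Subgroup.closure ((S true : Set G) ∪ S false) := by
      rw [Subgroup.closure_union, Subgroup.closure_eq, Subgroup.closure_eq, hS]; trivial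
    induction hg using Subgroup.closure_induction_left with
    | one => exact ⟨true, 1, 1, one_mem _, Nf.base _ _ (one_mem _), by simp⟩
    | mul_left y hy g _ ih =>
      rcases hy with hy | hy
      · exact step _ y hy g ih
      · exact step _ y hy g ih
    | inv_mul_cancel y hy g _ ih =>
      rcases hy with hy | hy
      · exact step _ y⁻¹ (inv_mem hy) g ih
      · exact step _ y⁻¹ (inv_mem hy) g ih
  obtain ⟨t, x, h, hx, hh, rfl⟩ := key g
  by_cases hxC : x ∈ C
  · rcases hh.inv with h1 | ⟨x', h', hx', hx'C, hh', rfl⟩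
    · exact ⟨t, Nf.base _ _ (mul_mem hxC h1)⟩
    · refine ⟨!!t, ?_⟩
      rw [← mul_assoc]
      exact Nf.step _ _ _ (mul_mem (hC _ hxC) hx')
        (fun h => hx'C ((C.mul_mem_cancel_left hxC).mp h)) hh'
  · exact ⟨!t, Nf.step _ _ _ hx hxC hh⟩

section twist

variable {F : Type} [Group F] {z : F} (D : Diag F z)

theorem Diag.ne : D.lam ≠ 0 := by
  intro h
  have := D.hlam
  rw [h, abs_zero] at this
  linarith

theorem Diag.pow (m : ℕ) : D.ρ (z ^ m) = !![D.lam ^ m, 0; 0, (D.lam ^ m)⁻¹] := by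
  induction m with
  | zero => rw [pow_zero, map_one, pow_zero, inv_one, Matrix.one_fin_two]
  | succ m ih =>
    rw [pow_succ, map_mul, ih, D.hz, pow_succ]
    ext i j
    fin_cases i <;> fin_cases j <;> simp [Matrix.mul_apply, Fin.sum_univ_two, mul_comm]

theorem Diag.inv_pow (m : ℕ) : D.ρ (z ^ m)⁻¹ = !![(D.lam ^ m)⁻¹, 0; 0, D.lam ^ m] := by
  have h : D.ρ (z ^ m)⁻¹ * D.ρ (z ^ m) = 1 := by rw [← map_mul, inv_mul_cancel, map_one]
  have hs : D.lam ^ m ≠ 0 := pow_ne_zero _ D.ne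
  have h2 : D.ρ (z ^ m) * !![(D.lam ^ m)⁻¹, 0; 0, D.lam ^ m] = 1 := by
    rw [D.pow]
    ext i j
    fin_cases i <;> fin_cases j <;> simp [Matrix.mul_apply, Fin.sum_univ_two, hs]
  calc D.ρ (z ^ m)⁻¹ = D.ρ (z ^ m)⁻¹ * (D.ρ (z ^ m) * !![(D.lam ^ m)⁻¹, 0; 0, D.lam ^ m]) := by
        rw [h2, mul_one]
    _ = _ := by rw [← mul_assoc, h, one_mul]

theorem Diag.tend : Tendsto (fun m : ℕ => ‖D.lam ^ m‖) atTop atTop := by
  simp only [norm_pow, Real.norm_eq_abs]
  exact tendsto_pow_atTop_atTop_of_one_lt D.hlam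

theorem Diag.little (f : ℕ → ℝ) : f =o[atTop] (fun m => D.lam ^ m * f m) := by
  have h : (fun _ : ℕ => (1 : ℝ)) =o[atTop] (fun m => D.lam ^ m) :=
    isLittleO_const_left.2 (Or.inr D.tend)
  simpa using h.mul_isBigO (isBigO_refl f atTop)

/-- The target sets of the ping-pong. -/
def Diag.X : Bool → (ℕ → Fin 2 → ℝ) → Prop
  | true, v => (fun m => v m 1) =O[atTop] (fun m => v m 0)
  | false, v => (fun m => D.lam ^ m * (D.lam ^ m * v m 0)) =O[atTop] (fun m => v m 1)

/-- The source sets of the ping-pong. -/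
def Diag.Y : Bool → (ℕ → Fin 2 → ℝ) → Prop
  | true, v => (fun m => D.lam ^ m * v m 0) =O[atTop] (fun m => v m 1)
  | false, v => (fun m => v m 1) =O[atTop] (fun m => D.lam ^ m * v m 0)

theorem Diag.XY (t : Bool) (v : ℕ → Fin 2 → ℝ) (h : D.X (!t) v) : D.Y t v := by
  cases t
  · exact IsBigO.trans h (D.little _).isBigO
  · exact IsBigO.trans (D.little _).isBigO h

theorem Diag.Y0 (t : Bool) : D.Y t (fun m => ![1, D.lam ^ m]) := by
  cases t <;> simp [Diag.Y, isBigO_refl]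

theorem Diag.stepA (a : F) (ha : ¬ Commute a z) (v : ℕ → Fin 2 → ℝ) (h : D.Y true v) :
    D.X true (fun m => D.ρ a *ᵥ v m) := by
  have h1 : (fun m => v m 0) =o[atTop] (fun m => v m 1) := (D.little _).trans_isBigO h
  have := bigO_step h1 (D.ρ a 1 0) (D.ρ a 1 1) (D.ρ a 0 0) (D.ρ a 0 1) (fun h => ha (D.h12 a h))
  simpa [Diag.X, Matrix.mulVec, dotProduct, Fin.sum_univ_two] using this

theorem Diag.stepB (b : F) (hb : ¬ Commute b z) (v : ℕ → Fin 2 → ℝ) (h : D.Y false v) :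
    D.X false (fun m => D.ρ ((z ^ m)⁻¹ * b * z ^ m) *ᵥ v m) := by
  have h1 : (fun m => v m 1) =o[atTop] (fun m => D.lam ^ m * (D.lam ^ m * v m 0)) :=
    IsBigO.trans_isLittleO h (D.little _)
  have := bigO_step h1 (D.ρ b 0 1) (D.ρ b 0 0) (D.ρ b 1 1) (D.ρ b 1 0) (fun h => hb (D.h21 b h))
  refine IsBigO.congr this (fun m => ?_) (fun m => ?_)
  · have hs : D.lam ^ m ≠ 0 := pow_ne_zero _ D.ne
    simp only [map_mul, D.pow, D.inv_pow]
    generalize D.lam ^ m = s at hs ⊢
    simp [Matrix.mulVec, dotProduct, Fin.sum_univ_two, Matrix.mul_apply, Matrix.vecMul]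
    field_simp
    ring
  · have hs : D.lam ^ m ≠ 0 := pow_ne_zero _ D.ne
    simp only [map_mul, D.pow, D.inv_pow]
    generalize D.lam ^ m = s at hs ⊢
    simp [Matrix.mulVec, dotProduct, Fin.sum_univ_two, Matrix.mul_apply, Matrix.vecMul]
    field_simp
    ring

theorem Diag.final (t : Bool) (M : ℕ → F)
    (h : D.X t (fun m => D.ρ (M m) *ᵥ ![1, D.lam ^ m])) : ∀ᶠ m in atTop, M m ≠ 1 := by
  cases t
  · obtain ⟨c, hc⟩ := IsBigO.bound h
    filter_upwards [hc, D.tend.eventually_gt_atTop c] with m h1 h2 h3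
    have hs : 0 < ‖D.lam ^ m‖ := norm_pos_iff.2 (pow_ne_zero _ D.ne)
    simp only [h3, map_one, Matrix.one_mulVec, Matrix.cons_val_zero, mul_one, Matrix.cons_val_one,
      norm_mul] at h1
    nlinarith
  · obtain ⟨c, hc⟩ := IsBigO.bound h
    filter_upwards [hc, D.tend.eventually_gt_atTop c] with m h1 h2 h3
    simp only [h3, map_one, Matrix.one_mulVec, Matrix.cons_val_zero, mul_one, Matrix.cons_val_one,
      norm_one] at h1
    linarith

include D in
theorem twist {G : Type} [Group G] (A B C : Subgroup G) (hCA : C ≤ A) (hCB : C ≤ B)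
    (hAB : A ⊔ B = ⊤) {ι : Type} (l : Filter ι) (ψ : ι → ℕ → G →* F)
    (hA : ∀ i m, ∀ a ∈ A, ψ i m a = ψ i 0 a)
    (hB : ∀ i m, ∀ b ∈ B, ψ i m b = (z ^ m)⁻¹ * ψ i 0 b * z ^ m)
    (hA' : ∀ a ∈ A, a ∉ C → ∀ᶠ i in l, ¬ Commute (ψ i 0 a) z)
    (hB' : ∀ b ∈ B, b ∉ C → ∀ᶠ i in l, ¬ Commute (ψ i 0 b) z)
    (hC : ∀ c ∈ C, c ≠ 1 → ∀ᶠ i in l, ψ i 0 c ≠ 1) (g : G) (hg : g ≠ 1) :
    ∀ᶠ i in l, ∀ᶠ m in atTop, ψ i m g ≠ 1 := by
  let S : Bool → Subgroup G := fun t => cond t A B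
  have hS : ∀ t, C ≤ S t := by rintro (_ | _); exacts [hCB, hCA]
  have step : ∀ t, ∀ x ∈ S t, x ∉ C → ∀ᶠ i in l, ∀ v, D.Y t v →
      D.X t (fun m => D.ρ (ψ i m x) *ᵥ v m) := by
    rintro (_ | _) x hx hxC
    · filter_upwards [hB' x hx hxC] with i hi v hv
      have e : (fun m => D.ρ (ψ i m x) *ᵥ v m) =
          fun m => D.ρ ((z ^ m)⁻¹ * ψ i 0 x * z ^ m) *ᵥ v m := funext fun m => by rw [hB i m x hx]
      rw [e]
      exact D.stepB _ hi v hv
    · filter_upwards [hA' x hx hxC] with i hi v hv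
      have e : (fun m => D.ρ (ψ i m x) *ᵥ v m) =
          fun m => D.ρ (ψ i 0 x) *ᵥ v m := funext fun m => by rw [hA i m x hx]
      rw [e]
      exact D.stepA _ hi v hv
  have key : ∀ t h, Nf S C t h → h ∈ C ∨
      ∀ᶠ i in l, D.X (!t) (fun m => D.ρ (ψ i m h) *ᵥ ![1, D.lam ^ m]) := by
    intro t h H
    induction H with
    | base t c hc => exact Or.inl hc
    | step t x h hx hxC _ ih =>
      right
      rw [Bool.not_not]
      rcases ih with ih | ih
      · filter_upwards [step t (x * h) (mul_mem hx (hS t ih))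
          (fun h' => hxC ((C.mul_mem_cancel_right ih).mp h'))] with i hi
        exact hi _ (D.Y0 t)
      · filter_upwards [step t x hx hxC, ih] with i hi hi'
        have := hi _ (D.XY t _ hi')
        simpa only [map_mul, Matrix.mulVec_mulVec] using this
  obtain ⟨t, ht⟩ := exists_nf S C hS hAB g
  rcases key t g ht with h | h
  · filter_upwards [hC g h hg] with i hi
    exact Eventually.of_forall fun m => by rwa [hA i m g (hCA h)]
  · filter_upwards [h] with i hi
    exact D.final _ _ hi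

end twist

end Pool.Agent.Lib.helper7.EC
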