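import Pool.Agent.Lib.helper7.EC1

set_option autoImplicit false

namespace Pool.Agent.Lib.helper7.EC

open Matrix

/-- Integer 2 by 2 matrices of determinant one. -/
@[ext] structure M2 where
  a : ℤ
  b : ℤ
  c : ℤ
  d : ℤ
  h : a * d - b * c = 1

instance : Mul M2 := ⟨fun x y => ⟨x.a * y.a + x.b * y.c, x.a * y.b + x.b * y.d,
  x.c * y.a + x.d * y.c, x.c * y.b + x.d * y.d, by
    have h1 := x.h
    have h2 := y.h
    linear_combination (y.a * y.d - y.b * y.c) * h1 + h2⟩⟩

instance : One M2 := ⟨⟨1, 0, 0, 1, by norm_num⟩⟩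

instance : Inv M2 := ⟨fun x => ⟨x.d, -x.b, -x.c, x.a, by
    have h1 := x.h
    linear_combination h1⟩⟩

@[simp] theorem mul_a (x y : M2) : (x * y).a = x.a * y.a + x.b * y.c := rfl
@[simp] theorem mul_b (x y : M2) : (x * y).b = x.a * y.b + x.b * y.d := rfl
@[simp] theorem mul_c (x y : M2) : (x * y).c = x.c * y.a + x.d * y.c := rfl
@[simp] theorem mul_d (x y : M2) : (x * y).d = x.c * y.b + x.d * y.d := rfl
@[simp] theorem one_a : (1 : M2).a = 1 := rfl
@[simp] theorem one_b : (1 : M2).b = 0 := rfl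
@[simp] theorem one_c : (1 : M2).c = 0 := rfl
@[simp] theorem one_d : (1 : M2).d = 1 := rfl
@[simp] theorem inv_a (x : M2) : (x⁻¹).a = x.d := rfl
@[simp] theorem inv_b (x : M2) : (x⁻¹).b = -x.b := rfl
@[simp] theorem inv_c (x : M2) : (x⁻¹).c = -x.c := rfl
@[simp] theorem inv_d (x : M2) : (x⁻¹).d = x.a := rfl

instance : Group M2 where
  mul_assoc x y z := by ext <;> simp <;> ring
  one_mul x := by ext <;> simp
  mul_one x := by ext <;> simp
  inv_mul_cancel x := by
    have h1 := x.h
    ext <;> simp <;> linarith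

/-- Nonzero integer vectors. -/
@[ext] structure V where
  x : ℤ
  y : ℤ
  h : ¬ (x = 0 ∧ y = 0)

instance : SMul M2 V := ⟨fun g v => ⟨g.a * v.x + g.b * v.y, g.c * v.x + g.d * v.y, by
  rintro ⟨h1, h2⟩
  have h := g.h
  apply v.h
  constructor
  · linear_combination g.d * h1 - g.b * h2 - v.x * h
  · linear_combination g.a * h2 - g.c * h1 - v.y * h⟩⟩

@[simp] theorem smul_x (g : M2) (v : V) : (g • v).x = g.a * v.x + g.b * v.y := rfl
@[simp] theorem smul_y (g : M2) (v : V) : (g • v).y = g.c * v.x + g.d * v.y := rfl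

instance : MulAction M2 V where
  one_smul v := by ext <;> simp
  mul_smul g k v := by ext <;> simp <;> ring

def T : M2 := ⟨1, 1, 0, 1, by norm_num⟩
def U : M2 := ⟨1, 0, 4, 1, by norm_num⟩

def gen : Fin 2 → M2 := ![T, U]

def XT : Set V := {v | v.y = 0 ∨ (0 < v.y ∧ v.y ≤ 2 * v.x) ∨ (v.y < 0 ∧ 2 * v.x ≤ v.y)}
def YT : Set V := {v | (0 < v.y ∧ 2 * v.x < - v.y) ∨ (v.y < 0 ∧ - v.y < 2 * v.x)}
def XU : Set V := {v | (0 < v.y ∧ 0 ≤ v.x ∧ 2 * v.x < v.y) ∨ (v.y < 0 ∧ v.x ≤ 0 ∧ v.y < 2 * v.x)}
def YU : Set V := {v | (0 < v.y ∧ v.x < 0 ∧ - v.y ≤ 2 * v.x) ∨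
  (v.y < 0 ∧ 0 < v.x ∧ 2 * v.x ≤ - v.y)}

open Pointwise in
theorem rho_inj : Function.Injective (FreeGroup.lift gen) := by
  refine FreeGroup.injective_lift_of_ping_pong gen (α := V) ![XT, XU] ![YT, YU] ?_ ?_ ?_ ?_ ?_ ?_
  · intro i
    fin_cases i
    · exact ⟨⟨1, 0, by simp⟩, by simp [XT]⟩
    · exact ⟨⟨0, 1, by simp⟩, by simp [XU]⟩
  · intro i j hij
    fin_cases i <;> fin_cases j <;> simp [Function.onFun] at hij ⊢ <;>
      rw [Set.disjoint_left] <;> intro v h1 h2 <;>
      simp only [XT, XU, Set.mem_ofPred_eq] at h1 h2 <;> omega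
  · intro i j hij
    fin_cases i <;> fin_cases j <;> simp [Function.onFun] at hij ⊢ <;>
      rw [Set.disjoint_left] <;> intro v h1 h2 <;>
      simp only [YT, YU, Set.mem_ofPred_eq] at h1 h2 <;> omega
  · intro i j
    fin_cases i <;> fin_cases j <;> simp <;>
      rw [Set.disjoint_left] <;> intro v h1 h2 <;>
      simp only [XT, XU, YT, YU, Set.mem_ofPred_eq] at h1 h2 <;> omega
  · intro i
    fin_cases i
    · rintro w ⟨v, hv, rfl⟩
      have := v.h
      simp [gen, XT, YT, T] at hv ⊢
      omega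
    · rintro w ⟨v, hv, rfl⟩
      have := v.h
      simp [gen, XU, YU, U] at hv ⊢
      omega
  · intro i
    fin_cases i
    · rintro w ⟨v, hv, rfl⟩
      have := v.h
      simp [gen, XT, YT, T] at hv ⊢
      omega
    · rintro w ⟨v, hv, rfl⟩
      have := v.h
      simp [gen, XU, YU, U] at hv ⊢
      omega


/-- The real matrix of an element of `M2`. -/
def toR : M2 →* Matrix (Fin 2) (Fin 2) ℝ where
  toFun g := !![(g.a : ℝ), g.b; g.c, g.d]
  map_one' := by
    ext i j
    fin_cases i <;> fin_cases j <;> simp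
  map_mul' g k := by
    ext i j
    fin_cases i <;> fin_cases j <;> simp [Matrix.mul_apply, Fin.sum_univ_two]

theorem comm_of (g z : M2) (hc : z.c ≠ 0) (θ : ℝ) (hθ : Irrational θ)
    (h1 : θ ^ 2 + (z.d - z.a) * θ - z.b * z.c = 0)
    (h2 : (z.c : ℝ) * (g.a * θ + g.b * z.c) - θ * (g.c * θ + g.d * z.c) = 0) : Commute g z := by
  have e : θ * ((z.c * (g.a - g.d) - g.c * (z.a - z.d) : ℤ) : ℝ) =
      ((g.c * z.b * z.c - g.b * z.c ^ 2 : ℤ) : ℝ) := by
    push_cast
    linear_combination h2 + g.c * h1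
  have e1 : z.c * (g.a - g.d) - g.c * (z.a - z.d) = 0 := by
    by_contra h
    exact (hθ.mul_intCast h).ne_int _ e
  rw [e1, Int.cast_zero, mul_zero] at e
  have e2 : g.c * z.b * z.c - g.b * z.c ^ 2 = 0 := by exact_mod_cast e.symm
  have e3 : g.c * z.b - g.b * z.c = 0 := by
    apply mul_left_cancel₀ hc
    linear_combination e2
  have e4 : z.b * (g.a - g.d) - g.b * (z.a - z.d) = 0 := by
    apply mul_left_cancel₀ hc
    linear_combination z.b * e1 + (z.a - z.d) * e3
  change g * z = z * g
  ext <;> simp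
  · linear_combination -e3
  · linear_combination e4
  · linear_combination -e1
  · linear_combination e3

theorem exists_diag {F : Type} [Group F] (σ : F →* M2) (hσ : Function.Injective σ) (z : F)
    (hc : (σ z).c ≠ 0) (ht : 3 ≤ (σ z).a + (σ z).d)
    (hirr : Irrational √((((σ z).a + (σ z).d : ℤ) : ℝ) ^ 2 - 4)) : Nonempty (Diag F z) := by
  set w := σ z with hw
  set r := √(((w.a + w.d : ℤ) : ℝ) ^ 2 - 4) with hr
  have ht' : (3 : ℝ) ≤ w.a + w.d := by exact_mod_cast ht
  have hr2 : r ^ 2 = (w.a + w.d) ^ 2 - 4 := by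
    rw [hr, Real.sq_sqrt (by push_cast; nlinarith)]; push_cast; ring
  have hr0 : 0 < r := by
    rw [hr]; apply Real.sqrt_pos.2; push_cast; nlinarith
  have hdet : (w.a : ℝ) * w.d - w.b * w.c = 1 := by exact_mod_cast w.h
  have hc' : (w.c : ℝ) ≠ 0 := by exact_mod_cast hc
  let θ : ℝ := (w.a - w.d + r) / 2
  let θ' : ℝ := (w.a - w.d - r) / 2
  have i1 : Irrational θ := by
    have : θ = (r + ((w.a - w.d : ℤ) : ℝ)) / (2 : ℕ) := by simp only [θ]; push_cast; ring
    rw [this]
    exact (hirr.add_intCast _).div_natCast (by norm_num)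
  have i2 : Irrational θ' := by
    have : θ' = (((w.a - w.d : ℤ) : ℝ) - r) / (2 : ℕ) := by simp only [θ']; push_cast; ring
    rw [this]
    exact (hirr.intCast_sub _).div_natCast (by norm_num)
  have q1 : θ ^ 2 + (w.d - w.a) * θ - w.b * w.c = 0 := by
    simp only [θ]; linear_combination (1 / 4) * hr2 + hdet
  have q2 : θ' ^ 2 + (w.d - w.a) * θ' - w.b * w.c = 0 := by
    simp only [θ']; linear_combination (1 / 4) * hr2 + hdet
  have hd : θ - θ' = r := by simp only [θ, θ']; ring
  have hs : θ + θ' = w.a - w.d := by simp only [θ, θ']; ring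
  let P : Matrix (Fin 2) (Fin 2) ℝ := !![θ, θ'; w.c, w.c]
  let Q : Matrix (Fin 2) (Fin 2) ℝ := (w.c * r)⁻¹ • !![(w.c : ℝ), -θ'; -w.c, θ]
  have hPQ : P * Q = 1 := by
    ext i j
    fin_cases i <;> fin_cases j <;> simp [P, Q, Matrix.mul_apply, Fin.sum_univ_two] <;>
      field_simp <;> first | linear_combination hd | ring
  have hQP : Q * P = 1 := mul_eq_one_comm.1 hPQ
  let cj : Matrix (Fin 2) (Fin 2) ℝ →* Matrix (Fin 2) (Fin 2) ℝ :=
    { toFun := fun M => Q * M * P
      map_one' := by rw [mul_one, hQP]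
      map_mul' := fun M N => by
        calc Q * (M * N) * P = Q * M * (P * Q) * N * P := by rw [hPQ]; noncomm_ring
          _ = _ := by noncomm_ring }
  have hl : (θ + w.d) * (θ' + w.d) = 1 := by
    simp only [θ, θ']; linear_combination (-1 / 4) * hr2
  have hl1 : 1 < θ + w.d := by simp only [θ]; linarith
  have hinv : (θ + w.d)⁻¹ = θ' + w.d := inv_eq_of_mul_eq_one_right hl
  refine ⟨⟨cj.comp (toR.comp σ), θ + w.d, lt_of_lt_of_le hl1 (le_abs_self _), ?_, ?_, ?_⟩⟩
  · change Q * toR w * P = _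
    have : toR w * P = P * !![θ + w.d, 0; 0, θ' + w.d] := by
      ext i j
      fin_cases i <;> fin_cases j <;> simp [P, toR, Matrix.mul_apply, Fin.sum_univ_two]
      · linear_combination -q1
      · linear_combination -q2
      · ring
      · ring
    rw [mul_assoc, this, ← mul_assoc, hQP, one_mul, hinv]
  · intro g hg
    have : Commute (σ g) w := by
      apply comm_of _ _ hc θ' i2 q2
      change (Q * toR (σ g) * P) 0 1 = 0 at hg
      simp [P, Q, toR, Matrix.mul_apply, Fin.sum_univ_two, Matrix.vecMul, dotProduct] at hg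
      field_simp at hg
      linear_combination hg
    exact hσ (by rw [map_mul, map_mul]; exact this)
  · intro g hg
    have : Commute (σ g) w := by
      apply comm_of _ _ hc θ i1 q1
      change (Q * toR (σ g) * P) 1 0 = 0 at hg
      simp [P, Q, toR, Matrix.mul_apply, Fin.sum_univ_two, Matrix.vecMul, dotProduct] at hg
      field_simp at hg
      linear_combination -hg
    exact hσ (by rw [map_mul, map_mul]; exact this)

theorem cent {α : Type} (ε : FreeGroup α →* Multiplicative ℤ) (z a : FreeGroup α)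
    (hz : (ε z).toAdd = 1 ∨ (ε z).toAdd = -1) (h : Commute a z) : a ∈ Subgroup.zpowers z := by
  classical
  let K : Subgroup (FreeGroup α) := Subgroup.closure {a, z}
  have hK : ∀ p q : K, p * q = q * p := by
    intro p q
    apply Subtype.ext
    have hp := p.2
    have hq := q.2
    have : ∀ x ∈ K, Commute a x ∧ Commute z x := by
      intro x hx
      induction hx using Subgroup.closure_induction with
      | mem x hx =>
        rcases hx with rfl | rfl
        · exact ⟨Commute.refl _, h.symm⟩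
        · exact ⟨h, Commute.refl _⟩
      | one => exact ⟨Commute.one_right _, Commute.one_right _⟩
      | mul x y _ _ hx hy => exact ⟨hx.1.mul_right hy.1, hx.2.mul_right hy.2⟩
      | inv x _ hx => exact ⟨hx.1.inv_right, hx.2.inv_right⟩
    have h2 : ∀ x ∈ K, Commute x q.1 := by
      intro x hx
      induction hx using Subgroup.closure_induction with
      | mem x hx =>
        rcases hx with rfl | rfl
        · exact (this _ hq).1
        · exact (this _ hq).2
      | one => exact Commute.one_left _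
      | mul x y _ _ hx hy => exact hx.mul_left hy
      | inv x _ hx => exact hx.inv_left
    exact h2 _ hp
  let e := IsFreeGroup.toFreeGroup K
  have hsub : ∀ i j : IsFreeGroup.Generators K, i = j := by
    intro i j
    by_contra hij
    have h1 : FreeGroup.of i * FreeGroup.of j = FreeGroup.of j * FreeGroup.of i := by
      apply e.symm.injective
      rw [map_mul, map_mul, hK]
    have h2 := congrArg (FreeGroup.lift (fun k => if k = i then DihedralGroup.r (1 : ZMod 3)
      else DihedralGroup.sr 0)) h1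
    simp only [map_mul, FreeGroup.lift_apply_of, if_true, if_neg (Ne.symm hij)] at h2
    exact absurd h2 (by decide)
  have hcyc : ∃ r : FreeGroup (IsFreeGroup.Generators K), ∀ w, w ∈ Subgroup.zpowers r := by
    rcases isEmpty_or_nonempty (IsFreeGroup.Generators K) with hE | ⟨⟨i⟩⟩
    · exact ⟨1, fun w => by rw [Subsingleton.elim w 1]; exact one_mem _⟩
    · refine ⟨FreeGroup.of i, fun w => ?_⟩
      induction w using FreeGroup.induction_on with
      | C1 => exact one_mem _
      | of j => rw [hsub j i]; exact Subgroup.mem_zpowers _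
      | inv_of j hj => exact inv_mem hj
      | mul x y hx hy => exact mul_mem hx hy
  obtain ⟨r, hr⟩ := hcyc
  obtain ⟨j, hj⟩ := hr (e ⟨a, Subgroup.subset_closure (by simp)⟩)
  obtain ⟨k, hk⟩ := hr (e ⟨z, Subgroup.subset_closure (by simp)⟩)
  have ha : ((e.symm r : K) : FreeGroup α) ^ j = a := by
    have := congrArg (fun w => ((e.symm w : K) : FreeGroup α)) hj
    simpa using this
  have hz' : ((e.symm r : K) : FreeGroup α) ^ k = z := by
    have := congrArg (fun w => ((e.symm w : K) : FreeGroup α)) hk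
    simpa using this
  generalize ((e.symm r : K) : FreeGroup α) = ρ at ha hz'
  have hk1 : k = 1 ∨ k = -1 := by
    rw [← hz', map_zpow, toAdd_zpow, smul_eq_mul] at hz
    rcases hz with hz | hz
    · exact Int.eq_one_or_neg_one_of_mul_eq_one hz
    · exact Int.eq_one_or_neg_one_of_mul_eq_neg_one hz
  rw [← ha]
  apply zpow_mem
  rcases hk1 with rfl | rfl
  · rw [zpow_one] at hz'; rw [hz']; exact Subgroup.mem_zpowers _
  · rw [_root_.zpow_neg_one] at hz'
    rw [← inv_inv ρ, hz']; exact inv_mem (Subgroup.mem_zpowers _)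

end Pool.Agent.Lib.helper7.EC
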