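import Mathlib

namespace Pool.Agent.Lib.Helper7Fill

open Set Topology Filter

universe u v w

variable {I : Type u} {X : I → Type v} [∀ i, TopologicalSpace (X i)]

def Fill (D : Set (∀ i, X i)) : Prop :=
  ∀ J : Set I, J.Countable → ∀ a : ∀ i, X i, ∃ p ∈ D, ∀ i ∈ J, p i = a i

theorem basic {D : Set (∀ i, X i)} {W : Set D} {p : D} (h : W ∈ 𝓝 p) :
    ∃ (S : Finset I) (B : ∀ i, Set (X i)), (∀ i ∈ S, IsOpen (B i) ∧ p.1 i ∈ B i) ∧
      ∀ z : D, (∀ i ∈ S, z.1 i ∈ B i) → z ∈ W := by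
  obtain ⟨W', h1, h2, h3⟩ := mem_nhds_iff.1 h
  obtain ⟨O, hO, rfl⟩ := isOpen_induced_iff.1 h2
  obtain ⟨S, B, h4, h5⟩ := isOpen_pi_iff.1 hO p.1 h3
  exact ⟨S, B, h4, fun z hz => h1 (h5 hz)⟩

theorem game {D : Set (∀ i, X i)} (hD : Fill D) [ParacompactSpace D] {κ : Type w}
    (O : κ → Set (∀ i, X i)) (ho : ∀ k, IsOpen (O k)) (hc : ∀ p ∈ D, ∃ k, p ∈ O k) :
    ∃ (S : (∀ i, X i) → Finset I) (F : (∀ i, X i) → Finset κ), ∀ q ∈ D, ∃ k, q ∈ O k ∧
      ∃ (T : Finset I) (B : ∀ i, Set (X i)), (∀ i ∈ T, IsOpen (B i) ∧ q i ∈ B i) ∧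
        ∀ p ∈ D, (∀ i ∈ T, i ∈ S p → p i ∈ B i) → k ∈ F p := by
  classical
  obtain ⟨V, v1, v2, v3, v4⟩ := precise_refinement (fun k => (Subtype.val : D → ∀ i, X i) ⁻¹' O k)
    (fun k => (ho k).preimage continuous_subtype_val)
    (iUnion_eq_univ_iff.2 fun p => hc p.1 p.2)
  have : ∀ p : D, ∃ (S : Finset I) (F : Finset κ), ∀ z : D, (∀ i ∈ S, z.1 i = p.1 i) →
      ∀ k, z ∈ V k → k ∈ F := by
    intro p
    obtain ⟨W, hW, hf⟩ := v3 p
    obtain ⟨S, B, h1, h2⟩ := basic hW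
    exact ⟨S, hf.toFinset, fun z hz k hk => hf.mem_toFinset.2
      ⟨z, hk, h2 z fun i hi => hz i hi ▸ (h1 i hi).2⟩⟩
  choose S F hSF using this
  refine ⟨fun p => if h : p ∈ D then S ⟨p, h⟩ else ∅, fun p => if h : p ∈ D then F ⟨p, h⟩ else ∅,
    fun q hq => ?_⟩
  obtain ⟨k, hk⟩ := iUnion_eq_univ_iff.1 v2 ⟨q, hq⟩
  obtain ⟨T, B, h1, h2⟩ := basic ((v1 k).mem_nhds hk)
  refine ⟨k, v4 k hk, T, B, h1, fun p hp h => ?_⟩
  simp only [dif_pos hp] at h ⊢
  obtain ⟨z, hz, h3⟩ := hD (S ⟨p, hp⟩ ∪ T) ((Finset.countable_toSet _).union (Finset.countable_toSet _))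
    fun i => if i ∈ S ⟨p, hp⟩ then p i else q i
  refine hSF ⟨p, hp⟩ ⟨z, hz⟩ (fun i hi => ?_) k (h2 _ fun i hi => ?_)
  · simp [h3 i (Or.inl hi), hi]
  · simp only [h3 i (Or.inr hi)]
    split_ifs with h4
    · exact h i hi h4
    · exact (h1 i hi).2

theorem late {M : ℕ → Finset I} (hM : Monotone M) (T : Finset I) :
    ∃ n, ∀ i ∈ T, ∀ m, i ∈ M m → i ∈ M n := by
  classical
  have : ∀ i, ∃ n, ∀ m, i ∈ M m → i ∈ M n := fun i => by
    by_cases h : ∃ m, i ∈ M m
    · obtain ⟨m, hm⟩ := h; exact ⟨m, fun _ _ => hm⟩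
    · exact ⟨0, fun m hm => absurd ⟨m, hm⟩ h⟩
  choose n hn using this
  exact ⟨T.sup n, fun i hi m hm => hM (Finset.le_sup hi) (hn i m hm)⟩

/-- A cover by sets `p i ∈ U i` all missing a fixed point has no locally finite refinement. -/
theorem avoid {D : Set (∀ i, X i)} (hD : Fill D) [ParacompactSpace D] (a : ∀ i, X i)
    (U : ∀ i, Set (X i)) (hU : ∀ i, IsOpen (U i)) (ha : ∀ i, a i ∉ U i)
    (hc : ∀ p ∈ D, ∃ i, p i ∈ U i) : False := by
  classical
  obtain ⟨S, F, H⟩ := game hD (fun i => {p | p i ∈ U i})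
    (fun i => (hU i).preimage (continuous_apply i)) hc
  choose P hP1 hP2 using fun M : Finset I => hD M M.countable_toSet a
  let M : ℕ → Finset I := fun n => Nat.rec ∅ (fun _ m => m ∪ S (P m) ∪ F (P m)) n
  have e : ∀ n, M (n + 1) = M n ∪ S (P (M n)) ∪ F (P (M n)) := fun _ => rfl
  have mono : Monotone M := monotone_nat_of_le_succ fun n => by
    rw [e]; exact Finset.subset_union_left.trans Finset.subset_union_left
  have cM : (⋃ n : ℕ, {i : I | i ∈ M n}).Countable :=
    countable_iUnion fun n => (M n).countable_toSet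
  obtain ⟨q, hq, hqa⟩ := hD _ cM a
  obtain ⟨k, hk, T, B, h1, h2⟩ := H q hq
  obtain ⟨n, hn⟩ := late mono T
  have := h2 (P (M n)) (hP1 _) fun i hi hs => by
    have : i ∈ M n := hn i hi (n + 1) (by rw [e]; simp [hs])
    rw [hP2 _ i this, ← hqa i (mem_iUnion.2 ⟨n, this⟩)]
    exact (h1 i hi).2
  refine ha k ?_
  rw [← hqa k (mem_iUnion.2 ⟨n + 1, by rw [e]; simp [this]⟩)]
  exact hk

/-- One countably compact factor that is not compact. -/
theorem caseA {D : Set (∀ i, X i)} (hD : Fill D) [ParacompactSpace D] (a : ∀ i, X i) (i0 : I)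
    (h1 : ¬ CompactSpace (X i0)) (h2 : ∀ x : ℕ → X i0, ∃ y, MapClusterPt y atTop x) : False := by
  classical
  have : ¬ ∀ {ι : Type v} (U : ι → Set (X i0)), (∀ i, IsOpen (U i)) → (univ ⊆ ⋃ i, U i) →
      ∃ t : Finset ι, univ ⊆ ⋃ i ∈ t, U i := fun h => h1 ⟨isCompact_of_finite_subcover h⟩
  push Not at this
  obtain ⟨κ, U, hU, hc, hn⟩ := this
  obtain ⟨S, F, H⟩ := game hD (fun k => {p | p i0 ∈ U k})
    (fun k => (hU k).preimage (continuous_apply i0)) fun p _ => by
      simpa using hc (mem_univ (p i0))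
  have : ∀ K : Finset κ, ∃ x, ∀ k ∈ K, x ∉ U k := fun K => by
    obtain ⟨x, -, hx⟩ := not_subset.1 (hn K)
    exact ⟨x, by simpa using hx⟩
  choose x hx using this
  choose P hP1 hP2 using fun s : Finset I × Finset κ =>
    hD (insert i0 s.1) (s.1.countable_toSet.insert _) (Function.update a i0 (x s.2))
  let s : ℕ → Finset I × Finset κ := fun n =>
    Nat.rec (∅, ∅) (fun _ m => (m.1 ∪ S (P m), m.2 ∪ F (P m))) n
  have e : ∀ n, s (n + 1) = ((s n).1 ∪ S (P (s n)), (s n).2 ∪ F (P (s n))) := fun _ => rfl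
  have m1 : Monotone fun n => (s n).1 := monotone_nat_of_le_succ fun n => by
    rw [e]; exact Finset.subset_union_left
  have m2 : Monotone fun n => (s n).2 := monotone_nat_of_le_succ fun n => by
    rw [e]; exact Finset.subset_union_left
  obtain ⟨y, hy⟩ := h2 fun n => x (s n).2
  rw [mapClusterPt_iff_frequently] at hy
  obtain ⟨q, hq, hqa⟩ := hD (insert i0 (⋃ n, (s n).1))
    ((countable_iUnion fun n => Finset.countable_toSet _).insert _) (Function.update a i0 y)
  have q0 : q i0 = y := by rw [hqa i0 (mem_insert _ _), Function.update_self]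
  obtain ⟨k, hk, T, B, b1, b2⟩ := H q hq
  obtain ⟨N, hN⟩ := late m1 T
  have fr : ∃ᶠ n in atTop, i0 ∈ T → x (s n).2 ∈ B i0 := by
    by_cases h : i0 ∈ T
    · exact (hy _ ((b1 _ h).1.mem_nhds (q0 ▸ (b1 _ h).2))).mono fun _ h _ => h
    · exact Frequently.of_forall fun _ h' => absurd h' h
  obtain ⟨n, n1, n2⟩ := (fr.and_eventually (eventually_ge_atTop N)).exists
  have := b2 (P (s n)) (hP1 _) fun i hi hs => by
    by_cases h : i = i0
    · subst h
      rw [hP2 _ _ (mem_insert _ _), Function.update_self]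
      exact n1 hi
    · have : i ∈ (s n).1 := m1 n2 (hN i hi (n + 1) (by rw [e]; simp [hs]))
      have h3 := hqa i (Or.inr (mem_iUnion.2 ⟨n, this⟩))
      rw [Function.update_of_ne h] at h3
      rw [hP2 _ i (Or.inr this), Function.update_of_ne h, ← h3]
      exact (b1 i hi).2
  obtain ⟨m, a1, a2⟩ := ((hy _ ((hU k).mem_nhds (q0 ▸ hk))).and_eventually
    (eventually_ge_atTop (n + 1))).exists
  exact hx _ k (m2 a2 (by beta_reduce; rw [e]; simp [this])) a1

/-- Uncountably many factors, none of them countably compact. -/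
theorem caseB [Uncountable I] {D : Set (∀ i, X i)} (hD : Fill D) [ParacompactSpace D]
    (h : ∀ i, ∃ x : ℕ → X i, ∀ y, ¬ MapClusterPt y atTop x) : False := by
  classical
  choose x hx using h
  let G : ∀ i, ℕ → Set (X i) := fun i k => (closure (x i '' Ici k))ᶜ
  have cov : ∀ i (y : X i), ∃ k, y ∈ G i k := by
    intro i y
    have := hx i y
    rw [mapClusterPt_iff_frequently] at this
    push Not at this
    obtain ⟨s, hs, h⟩ := this
    obtain ⟨k, hk⟩ := eventually_atTop.1 h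
    refine ⟨k, fun hc => ?_⟩
    obtain ⟨_, h1, n, hn, rfl⟩ := mem_closure_iff_nhds.1 hc s hs
    exact hk n hn h1
  obtain ⟨S, F, H⟩ := game hD (κ := {K : ℕ × Finset I // K.1 < K.2.card})
    (fun K => ⋂ i ∈ K.1.2, {p | p i ∈ G i K.1.1})
    (fun K => isOpen_biInter_finset fun i _ =>
      isClosed_closure.isOpen_compl.preimage (continuous_apply i)) (fun p _ => by
      choose c hc using fun i => cov i (p i)
      have : ∃ k, (c ⁻¹' {k}).Infinite := by
        by_contra hn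
        push Not at hn
        refine not_countable_univ (α := I) ?_
        refine (countable_iUnion fun k => (hn k).countable).mono fun i _ => ?_
        exact mem_iUnion.2 ⟨c i, rfl⟩
      obtain ⟨k, hk⟩ := this
      obtain ⟨t, t1, t2⟩ := hk.exists_subset_card_eq (k + 1)
      refine ⟨⟨(k, t), by simp [t2]⟩, mem_iInter₂.2 fun i hi => ?_⟩
      have : c i = k := t1 hi
      exact this ▸ hc i)
  choose P hP1 hP2 using fun L : List I =>
    hD L.toFinset L.toFinset.countable_toSet fun i => x i (L.idxOf i)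
  let L : ℕ → List I := fun n =>
    Nat.rec [] (fun _ m => m ++ (S (P m) ∪ (F (P m)).biUnion fun K => K.1.2).toList) n
  have e : ∀ n, L (n + 1) = L n ++ (S (P (L n)) ∪ (F (P (L n))).biUnion fun K => K.1.2).toList :=
    fun _ => rfl
  have mono : Monotone fun n => (L n).toFinset := monotone_nat_of_le_succ fun n => by
    rw [e, List.toFinset_append]; exact Finset.subset_union_left
  have st : ∀ i n m, n ≤ m → i ∈ L n → (L m).idxOf i = (L n).idxOf i := by
    intro i n m hm hi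
    induction m, hm using Nat.le_induction with
    | base => rfl
    | succ m hm ih =>
      rw [e, List.idxOf_append_of_mem, ih]
      exact List.mem_toFinset.1 (mono hm (List.mem_toFinset.2 hi))
  have : ∀ i, ∃ r, ∀ n, i ∈ L n → (L n).idxOf i = r := fun i => by
    by_cases h : ∃ n, i ∈ L n
    · obtain ⟨n, hn⟩ := h
      refine ⟨(L n).idxOf i, fun m hm => ?_⟩
      rw [← st i n (max n m) (le_max_left _ _) hn, ← st i m (max n m) (le_max_right _ _) hm]
    · exact ⟨0, fun m hm => absurd ⟨m, hm⟩ h⟩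
  choose r hr using this
  obtain ⟨q, hq, hqa⟩ := hD (⋃ n, (L n).toFinset)
    (countable_iUnion fun n => Finset.countable_toSet _) fun i => x i (r i)
  obtain ⟨K, hk, T, B, h1, h2⟩ := H q hq
  obtain ⟨n, hn⟩ := late mono T
  have := h2 (P (L n)) (hP1 _) fun i hi hs => by
    have : i ∈ (L n).toFinset := hn i hi (n + 1) (by rw [e]; simp [hs])
    rw [hP2 _ i this, hr i n (List.mem_toFinset.1 this), ← hqa i (mem_iUnion.2 ⟨n, this⟩)]
    exact (h1 i hi).2
  have mem : ∀ i ∈ K.1.2, i ∈ L (n + 1) := fun i hi => by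
    rw [e]
    simp only [List.mem_append, Finset.mem_toList, Finset.mem_union, Finset.mem_biUnion]
    exact Or.inr (Or.inr ⟨K, this, hi⟩)
  have lt : ∀ i ∈ K.1.2, r i ∈ Finset.range K.1.1 := fun i hi => by
    have h3 : q i ∈ G i K.1.1 := mem_iInter₂.1 hk i hi
    rw [hqa i (mem_iUnion.2 ⟨n + 1, List.mem_toFinset.2 (mem i hi)⟩)] at h3
    rw [Finset.mem_range]
    by_contra h4
    exact h3 (subset_closure ⟨_, not_lt.1 h4, rfl⟩)
  have := Finset.card_le_card_of_injOn r lt fun i hi j hj h => by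
    rw [← hr i (n + 1) (mem i hi), ← hr j (n + 1) (mem j hj)] at h
    exact (List.idxOf_inj (mem i hi)).1 h
  rw [Finset.card_range] at this
  exact absurd K.2 (not_lt.2 this)

end Pool.Agent.Lib.Helper7Fill
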