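import Mathlib

set_option autoImplicit false

namespace Pool.Agent.Lib.helper7.FixPt

open Filter Topology

variable {Γ : Type} [Group Γ]

/-- Fixed point property of a subgroup for linear actions of the ambient group. -/
def FPS (K : Subgroup Γ) : Prop :=
  ∀ (ι : Type) (ρ : Γ →* Module.End ℝ (ι → ℝ)), (∀ g, Continuous (ρ g)) →
    ∀ C : Set (ι → ℝ), C.Nonempty → IsCompact C → Convex ℝ C →
      (∀ g ∈ K, ∀ x ∈ C, ρ g x ∈ C) → ∃ x ∈ C, ∀ g ∈ K, ρ g x = x

theorem FPS.bot : FPS (⊥ : Subgroup Γ) := by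
  rintro ι ρ - C ⟨x, hx⟩ - - -
  refine ⟨x, hx, fun g hg => ?_⟩
  rw [Subgroup.mem_bot.1 hg, map_one]; rfl

theorem FPS.map {Δ : Type} [Group Δ] {K : Subgroup Γ} (h : FPS K) (j : Γ →* Δ) :
    FPS (K.map j) := by
  intro ι ρ hc C h1 h2 h3 h4
  obtain ⟨x, hx, h5⟩ := h ι (ρ.comp j) (fun g => hc _) C h1 h2 h3
    fun g hg => h4 _ ⟨g, hg, rfl⟩
  refine ⟨x, hx, ?_⟩
  rintro _ ⟨g, hg, rfl⟩
  exact h5 g hg

def fixSub {ι : Type} (ρ : Γ →* Module.End ℝ (ι → ℝ)) (x : ι → ℝ) : Subgroup Γ where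
  carrier := {g | ρ g x = x}
  mul_mem' := by
    intro a b ha hb
    show ρ (a * b) x = x
    rw [map_mul, Module.End.mul_apply, hb, ha]
  one_mem' := by
    show ρ 1 x = x
    rw [map_one]; rfl
  inv_mem' := by
    intro a ha
    show ρ a⁻¹ x = x
    conv_lhs => rw [← ha]
    rw [← Module.End.mul_apply, ← map_mul, inv_mul_cancel, map_one]; rfl

theorem markov {ι : Type} (T : Module.End ℝ (ι → ℝ)) (hT : Continuous T) (C : Set (ι → ℝ))
    (h1 : C.Nonempty) (h2 : IsCompact C) (h3 : Convex ℝ C) (h4 : ∀ x ∈ C, T x ∈ C) :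
    ∃ x ∈ C, T x = x := by
  obtain ⟨x, hx⟩ := h1
  have hp : ∀ n : ℕ, (T ^ n) x ∈ C := by
    intro n
    induction n with
    | zero => exact hx
    | succ n ih => rw [pow_succ']; exact h4 _ ih
  let a : ℕ → ι → ℝ := fun n => ∑ i ∈ Finset.range (n + 1), ((n + 1 : ℝ)⁻¹) • (T ^ i) x
  have ha : ∀ n, a n ∈ C := fun n => h3.sum_mem (fun _ _ => by positivity)
    (by simp; field_simp) fun i _ => hp i
  have hd : ∀ n, T (a n) - a n = ((n + 1 : ℝ)⁻¹) • ((T ^ (n + 1)) x - x) := by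
    intro n
    simp only [a, map_sum, map_smul]
    rw [← Finset.smul_sum, ← Finset.smul_sum, ← smul_sub, ← Finset.sum_sub_distrib]
    congr 1
    have := Finset.sum_range_sub (fun i => (T ^ i) x) (n + 1)
    simp only [pow_zero, Module.End.one_apply] at this
    rw [← this]
    refine Finset.sum_congr rfl fun i _ => ?_
    rw [pow_succ']; rfl
  have h0 : Tendsto (fun n => T (a n) - a n) atTop (𝓝 0) := by
    rw [tendsto_pi_nhds]
    intro i
    obtain ⟨M, hM⟩ := (h2.image (continuous_apply i)).isBounded.exists_norm_le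
    simp only [hd, Pi.smul_apply, smul_eq_mul, Pi.zero_apply]
    have h5 : Tendsto (fun n : ℕ => (n + 1 : ℝ)⁻¹) atTop (𝓝 0) := by
      simpa using tendsto_one_div_add_atTop_nhds_zero_nat (𝕜 := ℝ)
    refine h5.zero_mul_isBoundedUnder_le ⟨2 * M, ?_⟩
    rw [eventually_map]
    refine Eventually.of_forall fun n => ?_
    have e1 := hM _ ⟨_, hp (n + 1), rfl⟩
    have e2 := hM _ ⟨_, hx, rfl⟩
    calc ‖((T ^ (n + 1)) x - x) i‖ ≤ ‖(T ^ (n + 1)) x i‖ + ‖x i‖ := norm_sub_le _ _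
      _ ≤ 2 * M := by linarith
  let U : Ultrafilter ℕ := Ultrafilter.of atTop
  have hU : (U : Filter ℕ) ≤ atTop := Ultrafilter.of_le _
  obtain ⟨y, hy, hl⟩ := h2.ultrafilter_le_nhds (U.map a) (by
    rw [le_principal_iff]
    exact Filter.mem_map.2 (Eventually.of_forall ha))
  have hl' : Tendsto a U (𝓝 y) := hl
  have h6 : Tendsto (fun n => T (a n) - a n) U (𝓝 (T y - y)) :=
    ((hT.tendsto y).comp hl').sub hl'
  exact ⟨y, hy, sub_eq_zero.1 (tendsto_nhds_unique h6 (h0.mono_left hU))⟩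

theorem FPS.zpowers (a : Γ) : FPS (Subgroup.zpowers a) := by
  intro ι ρ hc C h1 h2 h3 h4
  obtain ⟨x, hx, h5⟩ := markov (ρ a) (hc a) C h1 h2 h3 (h4 a (Subgroup.mem_zpowers a))
  exact ⟨x, hx, (Subgroup.zpowers_le (H := fixSub ρ x)).2 h5⟩

def Nm (N : Subgroup Γ) : Subgroup Γ where
  carrier := {h | ∀ n ∈ N, h * n * h⁻¹ ∈ N ∧ h⁻¹ * n * h ∈ N}
  mul_mem' := by
    intro a b ha hb n hn
    constructor
    · have := (ha _ (hb n hn).1).1
      convert this using 1; group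
    · have := (hb _ (ha n hn).2).2
      convert this using 1; group
  one_mem' := fun n hn => by simpa using hn
  inv_mem' := by
    intro a ha n hn
    rw [inv_inv]
    exact (ha n hn).symm

theorem le_Nm {K N : Subgroup Γ} (h : ∀ k ∈ K, ∀ n ∈ N, k * n * k⁻¹ ∈ N) : K ≤ Nm N :=
  fun k hk n hn => ⟨h k hk n hn, by simpa using h k⁻¹ (K.inv_mem hk) n hn⟩

theorem fix_props {ι : Type} (ρ : Γ →* Module.End ℝ (ι → ℝ)) (hc : ∀ g, Continuous (ρ g))
    (N : Subgroup Γ) : IsClosed {x | ∀ g ∈ N, ρ g x = x} ∧ Convex ℝ {x | ∀ g ∈ N, ρ g x = x} := by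
  constructor
  · have : {x | ∀ g ∈ N, ρ g x = x} = ⋂ g ∈ N, {x | ρ g x = x} := by ext; simp
    rw [this]
    exact isClosed_biInter fun g _ => isClosed_eq (hc g) continuous_id
  · intro x hx y hy a b _ _ _ g hg
    rw [map_add, map_smul, map_smul, hx g hg, hy g hg]

theorem FPS.sup {N H : Subgroup Γ} (hN : FPS N) (hH : FPS H) (hn : H ≤ Nm N) : FPS (N ⊔ H) := by
  intro ι ρ hc C h1 h2 h3 h4
  obtain ⟨x, hx, h5⟩ := hN ι ρ hc C h1 h2 h3 fun g hg => h4 g (Subgroup.mem_sup_left hg)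
  obtain ⟨y, hy, h6⟩ := hH ι ρ hc (C ∩ {x | ∀ g ∈ N, ρ g x = x}) ⟨x, hx, h5⟩
    (h2.inter_right (fix_props ρ hc N).1) (h3.inter (fix_props ρ hc N).2) (by
      rintro g hg z ⟨hz, hz'⟩
      refine ⟨h4 g (Subgroup.mem_sup_right hg) z hz, fun n hn' => ?_⟩
      conv_rhs => rw [← hz' _ (hn hg n hn').2]
      rw [← Module.End.mul_apply, ← Module.End.mul_apply, ← map_mul, ← map_mul]
      congr 2; group)
  exact ⟨y, hy.1, sup_le (c := fixSub ρ y) hy.2 h6⟩

theorem FPS.iSup {κ : Type} [Nonempty κ] {K : κ → Subgroup Γ} (hd : Directed (· ≤ ·) K)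
    (h : ∀ k, FPS (K k)) : FPS (⨆ k, K k) := by
  intro ι ρ hc C h1 h2 h3 h4
  obtain ⟨x, hx⟩ := IsCompact.nonempty_iInter_of_directed_nonempty_isCompact_isClosed
    (fun k => C ∩ {x | ∀ g ∈ K k, ρ g x = x})
    (fun a b => by
      obtain ⟨c, h5, h6⟩ := hd a b
      exact ⟨c, fun x hx => ⟨hx.1, fun g hg => hx.2 g (h5 hg)⟩,
        fun x hx => ⟨hx.1, fun g hg => hx.2 g (h6 hg)⟩⟩)
    (fun k => h k ι ρ hc C h1 h2 h3 fun g hg => h4 g (le_iSup K k hg))
    (fun k => h2.inter_right (fix_props ρ hc _).1)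
    (fun k => h2.isClosed.inter (fix_props ρ hc _).1)
  rw [Set.mem_iInter] at hx
  exact ⟨x, (hx (Classical.arbitrary κ)).1, iSup_le (a := fixSub ρ x) fun k => (hx k).2⟩

theorem FPS.of_finset {κ : Type} {K : κ → Subgroup Γ}
    (h : ∀ s : Finset κ, FPS (⨆ k ∈ s, K k)) : FPS (⨆ k, K k) := by
  classical
  rw [iSup_eq_iSup_finset]
  refine FPS.iSup (fun s t => ⟨s ∪ t, ?_, ?_⟩) h
  · exact biSup_mono fun _ hk => Finset.mem_union_left _ hk
  · exact biSup_mono fun _ hk => Finset.mem_union_right _ hk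

theorem FPS.of_comm {K : Subgroup Γ} (h : ∀ a ∈ K, ∀ b ∈ K, a * b = b * a) : FPS K := by
  classical
  have e : K = ⨆ a : K, Subgroup.zpowers (a : Γ) := by
    apply le_antisymm
    · intro a ha
      exact le_iSup (fun a : K => Subgroup.zpowers (a : Γ)) ⟨a, ha⟩ (Subgroup.mem_zpowers a)
    · exact iSup_le fun a => Subgroup.zpowers_le.2 a.2
  rw [e]
  refine FPS.of_finset fun s => ?_
  induction s using Finset.induction_on with
  | empty => simpa using FPS.bot
  | insert a s _ ih =>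
    rw [Finset.iSup_insert]
    refine (FPS.zpowers _).sup ih (le_Nm fun k hk n hn => ?_)
    have h1 : k ∈ K := iSup₂_le (a := K) (fun a _ => Subgroup.zpowers_le.2 a.2) hk
    have h2 : n ∈ K := Subgroup.zpowers_le.2 a.2 hn
    rw [h k h1 n h2, mul_inv_cancel_right]
    exact hn

theorem FPS.mean {G : Subgroup Γ} (h : FPS G) : ∃ m : Set G → ℝ,
    (∀ A, 0 ≤ m A) ∧ m Set.univ = 1 ∧
    (∀ A B : Set G, Disjoint A B → m (A ∪ B) = m A + m B) ∧
    (∀ (g : G) (A : Set G), m ((fun h => g * h) '' A) = m A) := by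
  classical
  let ρ : Γ →* Module.End ℝ (Set Γ → ℝ) :=
    { toFun := fun g => LinearMap.funLeft ℝ ℝ fun A => (fun h => g * h) ⁻¹' A
      map_one' := by ext μ A; simp
      map_mul' := fun a b => by
        ext μ A
        simp only [LinearMap.funLeft_apply, Module.End.mul_apply, Set.preimage_preimage, mul_assoc] }
  have hρ : ∀ g μ A, ρ g μ A = μ ((fun h => g * h) ⁻¹' A) := fun _ _ _ => rfl
  let C : Set (Set Γ → ℝ) := {μ | (∀ A, μ A ∈ Set.Icc (0 : ℝ) 1) ∧ μ G = 1 ∧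
    ∀ A B, Disjoint A B → μ (A ∪ B) = μ A + μ B}
  obtain ⟨μ, hμ, h1⟩ := h (Set Γ) ρ (fun g => continuous_pi fun A => continuous_apply _) C
    ⟨fun A => if (1 : Γ) ∈ A then 1 else 0, fun A => by by_cases h : (1 : Γ) ∈ A <;> simp [h], by simp,
      fun A B hAB => by
        by_cases ha : (1 : Γ) ∈ A
        · simp [ha, Set.disjoint_left.1 hAB ha]
        · simp [ha]⟩
    (by
      refine (isCompact_univ_pi fun _ : Set Γ => isCompact_Icc (a := (0 : ℝ)) (b := 1)).of_isClosed_subset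
        ?_ fun μ hμ A _ => hμ.1 A
      simp only [C, Set.setOf_and, Set.setOf_forall]
      refine (isClosed_iInter fun A => isClosed_Icc.preimage (continuous_apply A)).inter
        ((isClosed_eq (continuous_apply _) continuous_const).inter
          (isClosed_iInter fun A => isClosed_iInter fun B => isClosed_iInter fun _ =>
            isClosed_eq (continuous_apply _) (by fun_prop))))
    (by
      rintro μ ⟨m1, m2, m3⟩ ν ⟨n1, n2, n3⟩ a b ha hb hab
      refine ⟨fun A => convex_Icc 0 1 (m1 A) (n1 A) ha hb hab, by simp [m2, n2, hab], ?_⟩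
      intro A B hAB
      simp only [Pi.add_apply, Pi.smul_apply, smul_eq_mul, m3 A B hAB, n3 A B hAB]
      ring)
    (by
      rintro g hg μ ⟨m1, m2, m3⟩
      refine ⟨fun A => m1 _, ?_, fun A B hAB => ?_⟩
      · rw [hρ, ← m2]
        congr 1
        ext x
        exact G.mul_mem_cancel_left hg
      · rw [hρ, hρ, hρ, Set.preimage_union, m3 _ _ (hAB.preimage _)])
  refine ⟨fun A => μ (Subtype.val '' A), fun A => (hμ.1 _).1, by simpa using hμ.2.1, ?_, ?_⟩
  · intro A B hAB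
    simp only [Set.image_union]
    exact hμ.2.2 _ _ ((Set.disjoint_image_iff Subtype.val_injective).2 hAB)
  · intro g A
    have := congrFun (h1 g g.2) (Subtype.val '' ((fun h => g * h) '' A))
    rw [hρ] at this
    simp only
    rw [← this]
    congr 1
    ext x
    simp only [Set.mem_preimage, Set.mem_image]
    constructor
    · rintro ⟨_, ⟨a, ha, rfl⟩, h2⟩
      exact ⟨a, ha, mul_left_cancel h2⟩
    · rintro ⟨a, ha, rfl⟩
      exact ⟨_, ⟨a, ha, rfl⟩, rfl⟩

end Pool.Agent.Lib.helper7.FixPt
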