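import Mathlib

set_option autoImplicit false

namespace Pool.Agent.Lib.helper7.GenLatin

abbrev L := Fin 3 × ℕ × ℕ
abbrev R3 := L → L → L → Prop
abbrev R2 := L → L → Prop

structure Str (N : ℕ) (R : R3) : Prop where
  cyc : ∀ {x y z}, R x y z → R y z x
  col : ∀ {x y z}, R x y z → y.1 = x.1 + 1
  lat : ∀ {x y z z'}, R x y z → R x y z' → z = z'
  bd : ∀ {x y z}, R x y z → x.2.1 < N

structure Half (R : R3) (f : R2) : Prop where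
  fn : ∀ {x a b}, f x a → f x b → a = b
  cl : ∀ {x y z x' y'}, R x y z → f x x' → f y y' → ∃ z', f z z' ∧ R x' y' z'

structure Good (N : ℕ) (R : R3) (f : R2) : Prop where
  h1 : Half R f
  h2 : Half R (flip f)
  sh : ∃ s, ∀ x x', f x x' → x'.1 = x.1 + s
  bd : ∀ {x x'}, f x x' → x.2.1 < N ∧ x'.2.1 < N

structure Ext (N : ℕ) (R R' : R3) : Prop where
  sub : ∀ {x y z}, R x y z → R' x y z
  old : ∀ {x y z}, R' x y z → x.2.1 < N → y.2.1 < N → R x y z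

variable {N N' : ℕ} {R R' : R3} {f : R2}

theorem Good.flip (h : Good N R f) : Good N R (flip f) :=
  ⟨h.h2, h.h1, by
    obtain ⟨s, hs⟩ := h.sh
    exact ⟨-s, fun x x' k => by rw [hs _ _ k]; abel⟩, fun k => (h.bd k).symm⟩

theorem Half.ext (h : Half R f) (e : Ext N R R') (b : ∀ {x x'}, f x x' → x.2.1 < N) : Half R' f :=
  ⟨h.fn, fun k k1 k2 => by
    obtain ⟨z', a1, a2⟩ := h.cl (e.old k (b k1) (b k2)) k1 k2
    exact ⟨z', a1, e.sub a2⟩⟩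

theorem Good.ext (h : Good N R f) (e : Ext N R R') (hN : N ≤ N') : Good N' R' f :=
  ⟨h.h1.ext e fun k => (h.bd k).1, h.h2.ext e fun k => (h.bd k).2, h.sh,
    fun k => ⟨(h.bd k).1.trans_le hN, (h.bd k).2.trans_le hN⟩⟩

theorem Str.mono (h : Str N R) (hN : N ≤ N') : Str N' R :=
  ⟨h.cyc, h.col, h.lat, fun k => (h.bd k).trans_le hN⟩

theorem Ext.refl : Ext N R R := ⟨id, fun k _ _ => k⟩

def RG (R : R3) (g : L → L) : R3 :=
  fun a b c => R a b c ∨ ∃ x y z, R x y z ∧ a = g x ∧ b = g y ∧ c = g z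

def fG (N : ℕ) (g : L → L) : R2 := fun x x' => x.2.1 < N ∧ x' = g x

theorem amalg (hR : Str N R) (hf : Good N R f) : ∃ g : L → L, Function.Injective g ∧
    (∀ x x', f x x' → g x = x') ∧ (∀ x, (g x).2.1 < N → f x (g x)) ∧
    Str (N + 1) (RG R g) ∧ Ext N R (RG R g) ∧ Good (N + 1) (RG R g) (fG N g) := by
  classical
  obtain ⟨s, hs⟩ := hf.sh
  let g : L → L := fun x => if h : ∃ x', f x x' then h.choose else (x.1 + s, N, Encodable.encode x)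
  have g1 : ∀ x, (∃ x', f x x') → f x (g x) := fun x h => by
    simp only [g, dif_pos h]; exact h.choose_spec
  have g0 : ∀ x, (¬ ∃ x', f x x') → g x = (x.1 + s, N, Encodable.encode x) := fun x h => by
    simp only [g, dif_neg h]
  have g2 : ∀ x x', f x x' → g x = x' := fun x x' h => hf.h1.fn (g1 x ⟨_, h⟩) h
  have g3 : ∀ x, (g x).2.1 < N → f x (g x) := fun x h => g1 x (by
    by_contra hn
    rw [g0 x hn] at h
    exact lt_irrefl _ h)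
  have g4 : ∀ x, (g x).2.1 < N + 1 := fun x => by
    by_cases h : ∃ x', f x x'
    · exact (hf.bd (g1 x h)).2.trans (Nat.lt_succ_self _)
    · rw [g0 x h]; exact Nat.lt_succ_self _
  have g5 : ∀ x, (g x).1 = x.1 + s := fun x => by
    by_cases h : ∃ x', f x x'
    · exact hs _ _ (g1 x h)
    · rw [g0 x h]
  have gi : Function.Injective g := fun x y e => by
    by_cases h : (g x).2.1 < N
    · exact hf.h2.fn (g3 x h) (e ▸ g3 y (e ▸ h))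
    · have h' : ¬ (g y).2.1 < N := e ▸ h
      rw [g0 x fun k => h (hf.bd (g1 x k)).2, g0 y fun k => h' (hf.bd (g1 y k)).2] at e
      exact Encodable.encode_injective (congrArg (fun t : L => t.2.2) e)
  have K : ∀ {x y z}, R x y z → (g x).2.1 < N → (g y).2.1 < N → R (g x) (g y) (g z) := by
    intro x y z k k1 k2
    obtain ⟨z', a1, a2⟩ := hf.h1.cl k (g3 _ k1) (g3 _ k2)
    rwa [g2 _ _ a1]
  have E : Ext N R (RG R g) := ⟨Or.inl, by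
    rintro _ _ _ (k | ⟨x, y, z, k, rfl, rfl, rfl⟩) k1 k2
    exacts [k, K k k1 k2]⟩
  refine ⟨g, gi, g2, g3, ⟨?_, ?_, ?_, ?_⟩, E, ⟨⟨?_, ?_⟩, ⟨?_, ?_⟩, ⟨s, ?_⟩, ?_⟩⟩
  · rintro _ _ _ (k | ⟨x, y, z, k, rfl, rfl, rfl⟩)
    exacts [Or.inl (hR.cyc k), Or.inr ⟨_, _, _, hR.cyc k, rfl, rfl, rfl⟩]
  · rintro _ _ _ (k | ⟨x, y, z, k, rfl, rfl, rfl⟩)
    · exact hR.col k
    · rw [g5, g5, hR.col k]; abel
  · rintro a b c c' (k | ⟨x, y, z, k, rfl, rfl, rfl⟩) k'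
    · exact hR.lat k (E.old k' (hR.bd k) (hR.bd (hR.cyc k)))
    · rcases k' with k' | ⟨x', y', z', k', e1, e2, rfl⟩
      · exact hR.lat (K k (hR.bd k') (hR.bd (hR.cyc k'))) k'
      · rw [← gi e1, ← gi e2] at k'
        rw [hR.lat k k']
  · rintro _ _ _ (k | ⟨x, y, z, k, rfl, rfl, rfl⟩)
    exacts [(hR.bd k).trans (Nat.lt_succ_self _), g4 _]
  · rintro x _ _ ⟨_, rfl⟩ ⟨_, rfl⟩
    rfl
  · rintro x y z _ _ k ⟨k1, rfl⟩ ⟨k2, rfl⟩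
    have k' := E.old k k1 k2
    exact ⟨g z, ⟨hR.bd (hR.cyc (hR.cyc k')), rfl⟩, Or.inr ⟨_, _, _, k', rfl, rfl, rfl⟩⟩
  · rintro _ a b ⟨_, rfl⟩ ⟨_, e⟩
    exact gi e
  · rintro _ _ c x y k ⟨k1, rfl⟩ ⟨k2, rfl⟩
    rcases k with k | ⟨x', y', z', k, e1, e2, rfl⟩
    · obtain ⟨z, a1, a2⟩ := hf.h2.cl k (g3 _ (hR.bd k)) (g3 _ (hR.bd (hR.cyc k)))
      exact ⟨z, ⟨(hf.bd a1).1, (g2 _ _ a1).symm⟩, Or.inl a2⟩
    · rw [← gi e1, ← gi e2] at k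
      exact ⟨z', ⟨hR.bd (hR.cyc (hR.cyc k)), rfl⟩, Or.inl k⟩
  · rintro x _ ⟨_, rfl⟩
    exact g5 x
  · rintro x _ ⟨k, rfl⟩
    exact ⟨k.trans (Nat.lt_succ_self _), g4 _⟩

def Und (N : ℕ) (R : R3) (x y : L) : Prop :=
  x.2.1 < N ∧ y.2.1 < N ∧ y.1 = x.1 + 1 ∧ ¬ ∃ z, R x y z

def nw (N : ℕ) (x y : L) : L := (x.1 + 2, N, Encodable.encode (x, y))

theorem nw_inj {x y x' y' : L} (h : nw N x y = nw N x' y') : x = x' ∧ y = y' :=
  Prod.mk.inj (Encodable.encode_injective (congrArg (fun t : L => t.2.2) h))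

theorem nw_new {x y : L} : ¬ (nw N x y).2.1 < N := lt_irrefl _

def RP (N : ℕ) (R : R3) : R3 := fun a b c => R a b c ∨ (Und N R a b ∧ c = nw N a b) ∨
  (Und N R c a ∧ b = nw N c a) ∨ (Und N R b c ∧ a = nw N b c)

def fP (N : ℕ) (R : R3) (f : R2) : R2 := fun a b => f a b ∨ ∃ x y x' y', Und N R x y ∧
  Und N R x' y' ∧ f x x' ∧ f y y' ∧ a = nw N x y ∧ b = nw N x' y'

theorem RP_str (hR : Str N R) : Str (N + 1) (RP N R) := by
  have lt := Nat.lt_succ_self N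
  refine ⟨?_, ?_, ?_, ?_⟩
  · rintro a b c (k | k | k | k)
    exacts [Or.inl (hR.cyc k), Or.inr (Or.inr (Or.inl k)), Or.inr (Or.inr (Or.inr k)),
      Or.inr (Or.inl k)]
  · rintro a b c (k | ⟨k, rfl⟩ | ⟨k, rfl⟩ | ⟨k, rfl⟩)
    · exact hR.col k
    · exact k.2.2.1
    · rw [k.2.2.1]; exact (by decide : ∀ e : Fin 3, e + 2 = e + 1 + 1) _
    · exact (by decide : ∀ e : Fin 3, e = e + 2 + 1) _
  · rintro a b c c' (k | ⟨k, rfl⟩ | ⟨k, rfl⟩ | ⟨k, rfl⟩) (k' | ⟨k', e⟩ | ⟨k', e⟩ | ⟨k', e⟩)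
    · exact hR.lat k k'
    · exact absurd ⟨_, k⟩ k'.2.2.2
    · exact absurd (e ▸ hR.bd (hR.cyc k)) nw_new
    · exact absurd (e ▸ hR.bd k) nw_new
    · exact absurd ⟨_, k'⟩ k.2.2.2
    · exact e.symm
    · exact absurd (e ▸ k.2.1) nw_new
    · exact absurd (e ▸ k.1) nw_new
    · exact absurd (hR.bd (hR.cyc k')) nw_new
    · exact absurd k'.2.1 nw_new
    · exact (nw_inj e).1
    · exact absurd k'.1 nw_new
    · exact absurd (hR.bd k') nw_new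
    · exact absurd k'.1 nw_new
    · exact absurd k'.2.1 nw_new
    · exact (nw_inj e).2
  · rintro a b c (k | ⟨k, rfl⟩ | ⟨k, rfl⟩ | ⟨k, rfl⟩)
    exacts [(hR.bd k).trans lt, k.1.trans lt, k.2.1.trans lt, lt]

theorem fP_half (hR : Str N R) (hf : Good N R f) : Half (RP N R) (fP N R f) := by
  obtain ⟨s, hs⟩ := hf.sh
  have o : ∀ {a a'}, fP N R f a a' → a.2.1 < N → f a a' := by
    rintro a a' (k | ⟨x, y, x', y', -, -, -, -, rfl, -⟩) h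
    exacts [k, absurd h nw_new]
  have n : ∀ {x y a'}, fP N R f (nw N x y) a' →
      ∃ x' y', Und N R x' y' ∧ f x x' ∧ f y y' ∧ a' = nw N x' y' := by
    rintro x y a' (k | ⟨x1, y1, x', y', -, k1, k2, k3, e, rfl⟩)
    · exact absurd (hf.bd k).1 nw_new
    · obtain ⟨rfl, rfl⟩ := nw_inj e
      exact ⟨_, _, k1, k2, k3, rfl⟩
  constructor
  · rintro a b c (k | ⟨x, y, x', y', -, -, k1, k2, rfl, rfl⟩) k'
    · exact hf.h1.fn k (o k' (hf.bd k).1)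
    · obtain ⟨x2, y2, -, k3, k4, rfl⟩ := n k'
      rw [hf.h1.fn k1 k3, hf.h1.fn k2 k4]
  · rintro a b c a' b' (k | ⟨k, rfl⟩ | ⟨k, rfl⟩ | ⟨k, rfl⟩) k1 k2
    · obtain ⟨z, a1, a2⟩ := hf.h1.cl k (o k1 (hR.bd k)) (o k2 (hR.bd (hR.cyc k)))
      exact ⟨z, Or.inl a1, Or.inl a2⟩
    · have k3 := o k1 k.1
      have k4 := o k2 k.2.1
      have U : Und N R a' b' := ⟨(hf.bd k3).2, (hf.bd k4).2, by
        rw [hs _ _ k3, hs _ _ k4, k.2.2.1]; abel, fun ⟨z, hz⟩ => by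
          obtain ⟨w, -, hw⟩ := hf.h2.cl hz k3 k4
          exact k.2.2.2 ⟨w, hw⟩⟩
      exact ⟨_, Or.inr ⟨_, _, _, _, k, U, k3, k4, rfl, rfl⟩, Or.inr (Or.inl ⟨U, rfl⟩)⟩
    · obtain ⟨x', y', U, k3, k4, rfl⟩ := n k2
      obtain rfl := hf.h1.fn k4 (o k1 k.2.1)
      exact ⟨x', Or.inl k3, Or.inr (Or.inr (Or.inl ⟨U, rfl⟩))⟩
    · obtain ⟨x', y', U, k3, k4, rfl⟩ := n k1
      obtain rfl := hf.h1.fn k3 (o k2 k.1)
      exact ⟨y', Or.inl k4, Or.inr (Or.inr (Or.inr ⟨U, rfl⟩))⟩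

theorem fP_flip : flip (fP N R f) = fP N R (flip f) := by
  funext a b
  apply propext
  constructor <;> rintro (k | ⟨x, y, x', y', k1, k2, k3, k4, k5, k6⟩)
  exacts [Or.inl k, Or.inr ⟨x', y', x, y, k2, k1, k3, k4, k6, k5⟩, Or.inl k,
    Or.inr ⟨x', y', x, y, k2, k1, k3, k4, k6, k5⟩]

theorem fP_good (hR : Str N R) (hf : Good N R f) : Good (N + 1) (RP N R) (fP N R f) := by
  have lt := Nat.lt_succ_self N
  refine ⟨fP_half hR hf, fP_flip ▸ fP_half hR hf.flip, ?_, ?_⟩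
  · obtain ⟨s, hs⟩ := hf.sh
    refine ⟨s, ?_⟩
    rintro a b (k | ⟨x, y, x', y', -, -, k, -, rfl, rfl⟩)
    · exact hs _ _ k
    · show x'.1 + 2 = x.1 + 2 + s
      rw [hs _ _ k]; abel
  · rintro a b (k | ⟨x, y, x', y', -, -, k, -, rfl, rfl⟩)
    exacts [⟨(hf.bd k).1.trans lt, (hf.bd k).2.trans lt⟩, ⟨lt, lt⟩]

def Cell (R : R3) (t : Fin 3 → L) : Prop := ∀ e, R (t e) (t (e + 1)) (t (e + 2))

theorem Cell.col (hR : Str N R) {t : Fin 3 → L} (h : Cell R t) (e : Fin 3) :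
    (t e).1 = (t 0).1 + e := by
  have h1 := hR.col (h 0)
  have h2 := hR.col (h 1)
  fin_cases e
  · simp
  · exact h1
  · show (t (1 + 1)).1 = _
    rw [h2]
    show (t (0 + 1)).1 + 1 = _
    rw [h1, add_assoc]
    rfl

def On (R : R3) (p q : L) : Prop := ∃ c, R p q c ∨ R q p c

def Fr (R : R3) (a b : Fin 3 → L) : Prop :=
  ∀ e e', On R (a e) (b e') → a e = b e ∨ a e' = b e'

def cm {K : Type} (U W : K → Fin 3 → L) : R2 := fun a b => ∃ k e, a = U k e ∧ b = W k e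

theorem cm_half (hR : Str N R) {K : Type} {U W : K → Fin 3 → L} (hU : ∀ k, Cell R (U k))
    (hW : ∀ k, Cell R (W k)) (c0 : ∀ k k', (U k 0).1 = (U k' 0).1)
    (sh : ∀ k k' e, U k e = U k' e → W k e = W k' e) (fr : ∀ k k', Fr R (U k) (U k')) :
    Half R (cm U W) := by
  constructor
  · rintro _ _ _ ⟨k, e, rfl, rfl⟩ ⟨k', e', h, rfl⟩
    have := congrArg Prod.fst h
    rw [(hU k).col hR, (hU k').col hR, c0 k k', add_right_inj] at this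
    subst this
    exact sh _ _ _ h
  · rintro _ _ c _ _ h ⟨k, e, rfl, rfl⟩ ⟨k', e', rfl, rfl⟩
    have := hR.col h
    rw [(hU k).col hR, (hU k').col hR, c0 k k', add_assoc, add_right_inj] at this
    subst this
    rcases fr k k' e (e + 1) ⟨c, Or.inl h⟩ with a | a
    · rw [a] at h
      exact ⟨_, ⟨k', e + 2, hR.lat h (hU k' e), rfl⟩, sh _ _ _ a ▸ hW k' e⟩
    · rw [← a] at h
      exact ⟨_, ⟨k, e + 2, hR.lat h (hU k e), rfl⟩, sh _ _ _ a ▸ hW k e⟩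

theorem cm_good (hR : Str N R) {K : Type} (k0 : K) {U W : K → Fin 3 → L} (hU : ∀ k, Cell R (U k))
    (hW : ∀ k, Cell R (W k)) (c0 : ∀ k k', (U k 0).1 = (U k' 0).1)
    (c1 : ∀ k k', (W k 0).1 = (W k' 0).1)
    (sh : ∀ k k' e, U k e = U k' e ↔ W k e = W k' e) (fr : ∀ k k', Fr R (U k) (U k'))
    (fr' : ∀ k k', Fr R (W k) (W k')) : Good N R (cm U W) := by
  have fl : flip (cm U W) = cm W U := by
    funext a b
    exact propext ⟨fun ⟨k, e, h1, h2⟩ => ⟨k, e, h2, h1⟩, fun ⟨k, e, h1, h2⟩ => ⟨k, e, h2, h1⟩⟩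
  refine ⟨cm_half hR hU hW c0 (fun k k' e => (sh k k' e).1) fr,
    fl ▸ cm_half hR hW hU c1 (fun k k' e => (sh k k' e).2) fr', ⟨(W k0 0).1 - (U k0 0).1, ?_⟩, ?_⟩
  · rintro _ _ ⟨k, e, rfl, rfl⟩
    rw [(hU k).col hR, (hW k).col hR, c0 k k0, c1 k k0]
    abel
  · rintro _ _ ⟨k, e, rfl, rfl⟩
    exact ⟨hR.bd (hU k e), hR.bd (hW k e)⟩

theorem cm_one (hR : Str N R) {u w : Fin 3 → L} (hu : Cell R u) (hw : Cell R w) :
    Good N R (cm (fun _ : Unit => u) fun _ => w) :=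
  cm_good hR () (fun _ => hu) (fun _ => hw) (fun _ _ => rfl) (fun _ _ => rfl)
    (fun _ _ _ => ⟨fun _ => rfl, fun _ => rfl⟩) (fun _ _ _ _ _ => Or.inl rfl)
    fun _ _ _ _ _ => Or.inl rfl

structure Cond where
  N : ℕ
  R : R3
  m : ℕ
  f : ℕ → R2
  str : Str N R
  good : ∀ i, Good N R (f i)
  emp : ∀ i, m ≤ i → ∀ x y, ¬ f i x y

instance : Preorder Cond where
  le p q := (∀ x y z, p.R x y z → q.R x y z) ∧ ∀ i x y, p.f i x y → q.f i x y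
  le_refl _ := ⟨fun _ _ _ => id, fun _ _ _ => id⟩
  le_trans _ _ _ h k := ⟨fun _ _ _ a => k.1 _ _ _ (h.1 _ _ _ a), fun _ _ _ a => k.2 _ _ _ (h.2 _ _ _ a)⟩

theorem upd (q : Cond) (hR : Str N' R') (e : Ext q.N q.R R') (hN : q.N ≤ N') (i : ℕ)
    (hf : Good N' R' f) (hi : ∀ x y, q.f i x y → f x y) :
    ∃ q' : Cond, q ≤ q' ∧ q'.N = N' ∧ q'.R = R' ∧ q'.f i = f := by
  classical
  refine ⟨⟨N', R', max q.m (i + 1), Function.update q.f i f, hR, fun k => ?_, fun k hk x y => ?_⟩,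
    ⟨fun _ _ _ => e.sub, fun k x y h => ?_⟩, rfl, rfl, by simp⟩
  · by_cases h : k = i
    · subst h; simpa using hf
    · rw [Function.update_of_ne h]; exact (q.good k).ext e hN
  · rw [Function.update_of_ne (by omega)]
    exact q.emp k (by omega) x y
  · show Function.update q.f i f k x y
    by_cases h' : k = i
    · subst h'; simpa using hi _ _ h
    · rwa [Function.update_of_ne h']

theorem bump (q : Cond) (n : ℕ) : ∃ q' : Cond, q ≤ q' ∧ n < q'.N := by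
  obtain ⟨q', h1, h2, -⟩ := upd q (q.str.mono (N' := q.N + n + 1) (by omega)) Ext.refl (by omega) 0
    ((q.good 0).ext Ext.refl (by omega)) fun _ _ => id
  exact ⟨q', h1, by omega⟩

theorem taskA (q : Cond) (x y : L) (h : y.1 = x.1 + 1) : ∃ q' : Cond, q ≤ q' ∧ ∃ z, q'.R x y z := by
  obtain ⟨p, h1, h2⟩ := bump q (x.2.1 + y.2.1)
  by_cases k : ∃ z, p.R x y z
  · exact ⟨p, h1, k⟩
  · refine ⟨⟨p.N + 1, RP p.N p.R, p.m, fun i => fP p.N p.R (p.f i), RP_str p.str,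
      fun i => fP_good p.str (p.good i), ?_⟩, h1.trans ⟨fun _ _ _ => Or.inl, fun _ _ _ => Or.inl⟩,
      _, Or.inr (Or.inl ⟨⟨by omega, by omega, h, k⟩, rfl⟩)⟩
    rintro i hi a b (k | ⟨x, y, x', y', -, -, k, -⟩) <;> exact p.emp i hi _ _ k

theorem taskB (q : Cond) (i : ℕ) (x : L) : ∃ q' : Cond, q ≤ q' ∧ ∃ y, q'.f i x y := by
  obtain ⟨p, h1, h2⟩ := bump q x.2.1
  obtain ⟨g, -, g2, -, a1, a2, a3⟩ := amalg p.str (p.good i)
  obtain ⟨q', b1, -, -, b2⟩ := upd p a1 a2 (Nat.le_succ _) i a3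
    fun x y k => ⟨((p.good i).bd k).1, (g2 _ _ k).symm⟩
  exact ⟨q', h1.trans b1, g x, b2 ▸ ⟨h2, rfl⟩⟩

theorem taskC (q : Cond) (i : ℕ) (x : L) : ∃ q' : Cond, q ≤ q' ∧ ∃ y, q'.f i y x := by
  obtain ⟨p, h1, h2⟩ := bump q x.2.1
  obtain ⟨g, -, g2, -, a1, a2, a3⟩ := amalg p.str (p.good i).flip
  obtain ⟨q', b1, -, -, b2⟩ := upd p a1 a2 (Nat.le_succ _) i a3.flip
    fun x y k => ⟨((p.good i).bd k).2, (g2 _ _ k).symm⟩
  exact ⟨q', h1.trans b1, g x, b2 ▸ ⟨h2, rfl⟩⟩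

def Mp (q : Cond) (i : ℕ) (u w : Fin 3 → L) : Prop := ∀ e, q.f i (u e) (w e)

theorem Mp.mono {q q' : Cond} {i : ℕ} {u w : Fin 3 → L} (h : Mp q i u w) (k : q ≤ q') :
    Mp q' i u w := fun e => k.2 _ _ _ (h e)

theorem taskD (q : Cond) (u w : Fin 3 → L) (hu : Cell q.R u) (hw : Cell q.R w) :
    ∃ q' : Cond, q ≤ q' ∧ ∃ i, Mp q' i u w := by
  obtain ⟨q', b1, -, -, b2⟩ := upd q q.str Ext.refl le_rfl q.m (cm_one q.str hu hw)
    fun x y k => absurd k (q.emp _ le_rfl _ _)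
  exact ⟨q', b1, q.m, fun e => b2 ▸ ⟨(), e, rfl, rfl⟩⟩

theorem step (q : Cond) (u w : Fin 3 → L) (hu : Cell q.R u) (hw : Cell q.R w) :
    ∃ (q' : Cond) (g : L → L), q ≤ q' ∧ q'.N = q.N + 1 ∧ Function.Injective g ∧
      (∀ e, g (u e) = w e) ∧ (∀ x, (g x).2.1 < q.N → ∃ e, x = u e) ∧
      (∀ x, x.2.1 < q.N → q'.f q.m x (g x)) ∧ (∀ t, Cell q.R t → Cell q'.R (g ∘ t)) ∧
      ∀ a b, On q'.R a b → (a.2.1 < q.N → b.2.1 < q.N → On q.R a b) ∧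
        ((a.2.1 < q.N ∧ b.2.1 < q.N) ∨ ∃ x y, On q.R x y ∧ a = g x ∧ b = g y) := by
  obtain ⟨g, g1, g2, g3, a1, a2, a3⟩ := amalg q.str (cm_one q.str hu hw)
  obtain ⟨q', b1, b2, b3, b4⟩ := upd q a1 a2 (Nat.le_succ _) q.m a3
    fun x y k => absurd k (q.emp _ le_rfl _ _)
  refine ⟨q', g, b1, b2, g1, fun e => g2 _ _ ⟨(), e, rfl, rfl⟩, fun x h => ?_,
    fun x h => b4 ▸ ⟨h, rfl⟩, fun t ht e => b3 ▸ Or.inr ⟨_, _, _, ht e, rfl, rfl, rfl⟩, ?_⟩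
  · obtain ⟨_, e, h1, -⟩ := g3 x h
    exact ⟨e, h1⟩
  · rw [b3]
    rintro a b ⟨c, h⟩
    refine ⟨fun k1 k2 => ⟨c, h.imp (fun h => a2.old h k1 k2) fun h => a2.old h k2 k1⟩, ?_⟩
    rcases h with (h | ⟨x, y, z, h, rfl, rfl, -⟩) | (h | ⟨x, y, z, h, rfl, rfl, -⟩)
    · exact Or.inl ⟨q.str.bd h, q.str.bd (q.str.cyc h)⟩
    · exact Or.inr ⟨_, _, ⟨z, Or.inl h⟩, rfl, rfl⟩
    · exact Or.inl ⟨q.str.bd (q.str.cyc h), q.str.bd h⟩
    · exact Or.inr ⟨_, _, ⟨z, Or.inr h⟩, rfl, rfl⟩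

theorem Cell.idx (hR : Str N R) {a b : Fin 3 → L} (ha : Cell R a) (hb : Cell R b)
    (h0 : (a 0).1 = (b 0).1) {e e' : Fin 3} (h : a e = b e') : e = e' := by
  have := congrArg Prod.fst h
  rwa [ha.col hR, hb.col hR, h0, add_right_inj] at this

theorem Fr.symm {a b : Fin 3 → L} (h : Fr R a b) : Fr R b a := fun e e' ⟨c, k⟩ =>
  (h e' e ⟨c, k.symm⟩).symm.imp Eq.symm Eq.symm

theorem taskE (q : Cond) (u v w1 w2 : Fin 3 → L) (hu : Cell q.R u) (hv : Cell q.R v)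
    (h1 : Cell q.R w1) (h2 : Cell q.R w2) (c0 : (u 0).1 = (v 0).1)
    (c1 : (w1 0).1 = (w2 0).1) (hs : ∀ e, u e = v e → w1 e = w2 e) :
    ∃ q' : Cond, q ≤ q' ∧ ∃ i j k v' w, Cell q'.R v' ∧ Cell q'.R w ∧ Mp q' i u u ∧ Mp q' i v v' ∧
      Mp q' j v w1 ∧ Mp q' j v' w ∧ Mp q' k v w2 ∧ Mp q' k v' w := by
  have bd : ∀ (p : Cond) {t}, Cell p.R t → ∀ e, (t e).2.1 < p.N := fun p t h e => p.str.bd (h e)
  have mo : ∀ {p p' : Cond} {t}, p ≤ p' → Cell p.R t → Cell p'.R t :=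
    fun h k e => h.1 _ _ _ (k e)
  obtain ⟨p, g, l1, n1, gi, g1, g2, g3, g4, g5⟩ := step q u u hu hu
  have hv' := g4 v hv
  have s1 : ∀ e, u e = v e → v e = (g ∘ v) e := fun e h => by
    show v e = g (v e)
    rw [← h, g1]
  have s2 : ∀ e, ((g ∘ v) e).2.1 < q.N → u e = v e := fun e h => by
    obtain ⟨e', k⟩ := g2 _ h
    obtain rfl := Cell.idx q.str hv hu c0.symm k
    exact k.symm
  have f1 : Fr p.R v (g ∘ v) := fun e e' h => by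
    rcases (g5 _ _ h).2 with k | ⟨x, y, -, k, -⟩
    · exact Or.inr (s1 _ (s2 _ k.2))
    · obtain ⟨e2, rfl⟩ := g2 x (k ▸ bd q hv e)
      rw [g1] at k
      obtain rfl := Cell.idx q.str hv hu c0.symm k
      exact Or.inl (s1 _ k.symm)
  have c2 : (v 0).1 = ((g ∘ v) 0).1 := by
    obtain ⟨s, hs⟩ := (p.good q.m).sh
    have a1 := hs _ _ (g3 _ (bd q hu 0))
    have a2 := hs _ _ (g3 _ (bd q hv 0))
    rw [g1, left_eq_add] at a1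
    rw [a1, add_zero] at a2
    exact a2.symm
  obtain ⟨p', g', l2, n2, gi', g1', g2', g3', g4', g5'⟩ := step p v w1 (mo l1 hv) (mo l1 h1)
  have hw := g4' _ hv'
  have t1 : ∀ e, u e = v e → w2 e = (g' ∘ g ∘ v) e := fun e h => by
    show w2 e = g' ((g ∘ v) e)
    rw [← s1 e h, g1', hs e h]
  have t2 : ∀ e, ((g' ∘ g ∘ v) e).2.1 < p.N → u e = v e := fun e h => by
    obtain ⟨e', k⟩ := g2' _ h
    exact s2 e ((show (g ∘ v) e = v e' from k) ▸ bd q hv e')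
  have f2 : Fr p'.R v (g ∘ v) := fun e e' h =>
    f1 e e' ((g5' _ _ h).1 (bd p (mo l1 hv) e) (bd p hv' e'))
  have f3 : Fr p'.R w2 (g' ∘ g ∘ v) := fun e e' h => by
    rcases (g5' _ _ h).2 with k | ⟨x, y, k0, k, k'⟩
    · exact Or.inr (t1 _ (t2 _ k.2))
    · obtain ⟨e2, rfl⟩ := g2' x (k ▸ bd p (mo l1 h2) e)
      rw [g1'] at k
      obtain rfl := Cell.idx q.str h2 h1 c1.symm k
      obtain rfl := gi' k'
      rcases f1 e e' k0 with a | a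
      exacts [Or.inl (t1 _ (s2 _ (a ▸ bd q hv _))), Or.inr (t1 _ (s2 _ (a ▸ bd q hv _)))]
  have c3 : (w2 0).1 = ((g' ∘ g ∘ v) 0).1 := by
    obtain ⟨s, hs⟩ := (p'.good p.m).sh
    have a1 := hs _ _ (g3' _ (bd p (mo l1 hv) 0))
    have a2 := hs _ _ (g3' _ (bd p hv' 0))
    rw [g1', c1, c2] at a1
    exact a1.trans a2.symm
  have sh : ∀ e, v e = (g ∘ v) e ↔ w2 e = (g' ∘ g ∘ v) e := fun e =>
    ⟨fun a => t1 _ (s2 _ (a ▸ bd q hv _)), fun a => s1 _ (t2 _ (a ▸ bd p (mo l1 h2) _))⟩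
  have G : Good p'.N p'.R (cm (fun k : Bool => if k then v else g ∘ v)
      fun k => if k then w2 else g' ∘ g ∘ v) := by
    refine cm_good p'.str true ?_ ?_ ?_ ?_ ?_ ?_ ?_
    · rintro (_ | _)
      exacts [mo l2 hv', mo (l1.trans l2) hv]
    · rintro (_ | _)
      exacts [hw, mo (l1.trans l2) h2]
    · rintro (_ | _) (_ | _)
      exacts [rfl, c2.symm, c2, rfl]
    · rintro (_ | _) (_ | _)
      exacts [rfl, c3.symm, c3, rfl]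
    · rintro (_ | _) (_ | _) e
      exacts [⟨fun _ => rfl, fun _ => rfl⟩, eq_comm.trans ((sh e).trans eq_comm), sh e,
        ⟨fun _ => rfl, fun _ => rfl⟩]
    · rintro (_ | _) (_ | _)
      exacts [fun _ _ _ => Or.inl rfl, f2.symm, f2, fun _ _ _ => Or.inl rfl]
    · rintro (_ | _) (_ | _)
      exacts [fun _ _ _ => Or.inl rfl, f3.symm, f3, fun _ _ _ => Or.inl rfl]
  obtain ⟨r, l3, -, b1, b2⟩ := upd p' p'.str Ext.refl le_rfl p'.m G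
    fun x y k => absurd k (p'.emp _ le_rfl _ _)
  refine ⟨r, l1.trans (l2.trans l3), q.m, p.m, p'.m, g ∘ v, g' ∘ g ∘ v, mo (l2.trans l3) hv',
    mo l3 hw, Mp.mono (fun e => ?_) (l2.trans l3), Mp.mono (fun e => g3 _ (bd q hv e)) (l2.trans l3),
    Mp.mono (fun e => ?_) l3, Mp.mono (fun e => g3' _ (bd p hv' e)) l3,
    fun e => b2 ▸ ⟨true, e, rfl, rfl⟩, fun e => b2 ▸ ⟨false, e, rfl, rfl⟩⟩
  · have := g3 _ (bd q hu e)
    rwa [g1] at this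
  · have := g3' _ (bd p (mo l1 hv) e)
    rwa [g1'] at this

theorem generic {ι : Type} [Countable ι] (q0 : Cond) (hyp con : ι → Cond → Prop)
    (hm : ∀ i p q, p ≤ q → hyp i p → hyp i q) (hd : ∀ i p, hyp i p → ∃ q, p ≤ q ∧ con i q) :
    ∃ J : Set Cond, q0 ∈ J ∧ (∀ p ∈ J, ∀ q ∈ J, ∃ r ∈ J, p ≤ r ∧ q ≤ r) ∧
      ∀ i, ∀ p ∈ J, hyp i p → ∃ q ∈ J, con i q := by
  haveI := Encodable.ofCountable ι
  let D : ι → Order.Cofinal Cond := fun i => ⟨{q | con i q ∨ ∀ r, q ≤ r → ¬ hyp i r}, fun p => by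
    by_cases h : ∃ r, p ≤ r ∧ hyp i r
    · obtain ⟨r, h1, h2⟩ := h
      obtain ⟨q, h3, h4⟩ := hd i r h2
      exact ⟨q, Or.inl h4, h1.trans h3⟩
    · exact ⟨p, Or.inr fun r h1 h2 => h ⟨r, h1, h2⟩, le_rfl⟩⟩
  refine ⟨Order.idealOfCofinals q0 D, Order.mem_idealOfCofinals q0 D,
    (Order.idealOfCofinals q0 D).directed, fun i p hp h => ?_⟩
  obtain ⟨q, h1, h2⟩ := Order.cofinal_meets_idealOfCofinals q0 D i
  obtain ⟨r, -, h3, h4⟩ := (Order.idealOfCofinals q0 D).directed p hp q h2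
  exact ⟨q, h2, Or.resolve_right h1 fun k => k r h4 (hm i p r h3 h)⟩

theorem cell_of (cyc : ∀ {x y z}, R x y z → R y z x) {t : Fin 3 → L} (h : R (t 0) (t 1) (t 2)) :
    Cell R t := by
  intro e
  fin_cases e
  exacts [h, cyc h, cyc (cyc h)]

abbrev C3 := Fin 3 → L

def hyp : (L × L) ⊕ (ℕ × L) ⊕ (ℕ × L) ⊕ (C3 × C3) ⊕ (C3 × C3 × C3 × C3) → Cond → Prop
  | .inl t, _ => t.2.1 = t.1.1 + 1
  | .inr (.inl _), _ => True
  | .inr (.inr (.inl _)), _ => True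
  | .inr (.inr (.inr (.inl t))), q => Cell q.R t.1 ∧ Cell q.R t.2
  | .inr (.inr (.inr (.inr (u, v, w1, w2)))), q => Cell q.R u ∧ Cell q.R v ∧ Cell q.R w1 ∧
      Cell q.R w2 ∧ (u 0).1 = (v 0).1 ∧ (w1 0).1 = (w2 0).1 ∧ ∀ e, u e = v e → w1 e = w2 e

def con : (L × L) ⊕ (ℕ × L) ⊕ (ℕ × L) ⊕ (C3 × C3) ⊕ (C3 × C3 × C3 × C3) → Cond → Prop
  | .inl t, q => ∃ z, q.R t.1 t.2 z
  | .inr (.inl t), q => ∃ y, q.f t.1 t.2 y
  | .inr (.inr (.inl t)), q => ∃ y, q.f t.1 y t.2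
  | .inr (.inr (.inr (.inl t))), q => ∃ i, Mp q i t.1 t.2
  | .inr (.inr (.inr (.inr (u, v, w1, w2)))), q => ∃ i j k v' w, Cell q.R v' ∧ Cell q.R w ∧
      Mp q i u u ∧ Mp q i v v' ∧ Mp q j v w1 ∧ Mp q j v' w ∧ Mp q k v w2 ∧ Mp q k v' w

theorem exists_model (q0 : Cond) : ∃ (R : R3) (Φ : ℕ → L ≃ L),
    (∀ x y z, q0.R x y z → R x y z) ∧ (∀ {x y z}, R x y z → R y z x) ∧
    (∀ {x y z}, R x y z → y.1 = x.1 + 1) ∧ (∀ {x y z z'}, R x y z → R x y z' → z = z') ∧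
    (∀ x y, y.1 = x.1 + 1 → ∃ z, R x y z) ∧ (∀ i, ∃ s, ∀ x, (Φ i x).1 = x.1 + s) ∧
    (∀ i x y z, R x y z ↔ R (Φ i x) (Φ i y) (Φ i z)) ∧
    (∀ u w, Cell R u → Cell R w → ∃ i, Φ i ∘ u = w) ∧
    ∀ u v w1 w2, Cell R u → Cell R v → Cell R w1 → Cell R w2 → (u 0).1 = (v 0).1 →
      (w1 0).1 = (w2 0).1 → (∀ e, u e = v e → w1 e = w2 e) → ∃ i j k v' w, Cell R v' ∧
      Cell R w ∧ Φ i ∘ u = u ∧ Φ i ∘ v = v' ∧ Φ j ∘ v = w1 ∧ Φ j ∘ v' = w ∧ Φ k ∘ v = w2 ∧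
      Φ k ∘ v' = w := by
  have mo : ∀ {p p' : Cond} {t}, p ≤ p' → Cell p.R t → Cell p'.R t :=
    fun h k e => h.1 _ _ _ (k e)
  obtain ⟨J, j0, jd, jt⟩ := generic q0 hyp con (by
    rintro (t | t | t | t | ⟨u, v, w1, w2⟩) p q h k
    exacts [k, k, k, ⟨mo h k.1, mo h k.2⟩,
      ⟨mo h k.1, mo h k.2.1, mo h k.2.2.1, mo h k.2.2.2.1, k.2.2.2.2⟩]) (by
    rintro (t | t | t | t | ⟨u, v, w1, w2⟩) p k
    exacts [taskA p _ _ k, taskB p _ _, taskC p _ _, taskD p _ _ k.1 k.2,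
      taskE p _ _ _ _ k.1 k.2.1 k.2.2.1 k.2.2.2.1 k.2.2.2.2.1 k.2.2.2.2.2.1 k.2.2.2.2.2.2])
  let R : R3 := fun x y z => ∃ q ∈ J, q.R x y z
  let F : ℕ → R2 := fun i x y => ∃ q ∈ J, q.f i x y
  have two : ∀ {i x y x' y'}, F i x y → F i x' y' → ∃ q ∈ J, q.f i x y ∧ q.f i x' y' := by
    rintro i x y x' y' ⟨p, hp, h⟩ ⟨q, hq, k⟩
    obtain ⟨r, hr, a, b⟩ := jd p hp q hq
    exact ⟨r, hr, a.2 _ _ _ h, b.2 _ _ _ k⟩
  have fn : ∀ {i x y y'}, F i x y → F i x y' → y = y' := fun h k => by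
    obtain ⟨q, -, a, b⟩ := two h k
    exact (q.good _).h1.fn a b
  have fn' : ∀ {i x x' y}, F i x y → F i x' y → x = x' := fun h k => by
    obtain ⟨q, -, a, b⟩ := two h k
    exact (q.good _).h2.fn a b
  have tB : ∀ i x, ∃ y, F i x y := fun i x => by
    obtain ⟨q, hq, y, h⟩ := jt (.inr (.inl (i, x))) q0 j0 trivial
    exact ⟨y, q, hq, h⟩
  have tC : ∀ i x, ∃ y, F i y x := fun i x => by
    obtain ⟨q, hq, y, h⟩ := jt (.inr (.inr (.inl (i, x)))) q0 j0 trivial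
    exact ⟨y, q, hq, h⟩
  choose φ hφ using tB
  choose ψ hψ using tC
  let Φ : ℕ → L ≃ L := fun i =>
    ⟨φ i, ψ i, fun x => fn' (hψ i _) (hφ i x), fun x => fn (hφ i _) (hψ i x)⟩
  have mp : ∀ {q i u w}, q ∈ J → Mp q i u w → Φ i ∘ u = w := fun hq h =>
    funext fun e => fn (hφ _ _) ⟨_, hq, h e⟩
  have ce : ∀ {t}, Cell R t → ∃ q ∈ J, Cell q.R t := fun h => by
    obtain ⟨q, hq, k⟩ := h 0
    exact ⟨q, hq, cell_of q.str.cyc k⟩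
  have ec : ∀ {q t}, q ∈ J → Cell q.R t → Cell R t := fun hq h e => ⟨_, hq, h e⟩
  refine ⟨R, Φ, fun x y z h => ⟨q0, j0, h⟩, fun ⟨q, hq, h⟩ => ⟨q, hq, q.str.cyc h⟩,
    fun ⟨q, _, h⟩ => q.str.col h, ?_, fun x y h => ?_, fun i => ?_, fun i x y z => ⟨?_, ?_⟩,
    fun u w hu hw => ?_, fun u v w1 w2 hu hv h1 h2 c0 c1 hs => ?_⟩
  · rintro x y z z' ⟨p, hp, h⟩ ⟨q, hq, k⟩
    obtain ⟨r, -, a, b⟩ := jd p hp q hq
    exact r.str.lat (a.1 _ _ _ h) (b.1 _ _ _ k)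
  · obtain ⟨q, hq, z, k⟩ := jt (.inl (x, y)) q0 j0 h
    exact ⟨z, q, hq, k⟩
  · refine ⟨(φ i 0).1, fun x => ?_⟩
    obtain ⟨q, -, a, b⟩ := two (hφ i x) (hφ i 0)
    obtain ⟨s, hs⟩ := (q.good i).sh
    rw [hs _ _ b]
    show (φ i x).1 = _
    simpa using hs _ _ a
  · rintro ⟨p, hp, h⟩
    obtain ⟨q, hq, a, b⟩ := two (hφ i x) (hφ i y)
    obtain ⟨r, hr, k1, k2⟩ := jd p hp q hq
    obtain ⟨z', c, d⟩ := (r.good i).h1.cl (k1.1 _ _ _ h) (k2.2 _ _ _ a) (k2.2 _ _ _ b)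
    obtain rfl := fn (hφ i z) ⟨r, hr, c⟩
    exact ⟨r, hr, d⟩
  · rintro ⟨p, hp, h⟩
    obtain ⟨q, hq, a, b⟩ := two (hφ i x) (hφ i y)
    obtain ⟨r, hr, k1, k2⟩ := jd p hp q hq
    obtain ⟨z', c, d⟩ := (r.good i).h2.cl (k1.1 _ _ _ h) (k2.2 _ _ _ a) (k2.2 _ _ _ b)
    obtain rfl := fn' (hφ i z) ⟨r, hr, c⟩
    exact ⟨r, hr, d⟩
  · obtain ⟨p, hp, a⟩ := ce hu
    obtain ⟨q, hq, b⟩ := ce hw
    obtain ⟨r, hr, k1, k2⟩ := jd p hp q hq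
    obtain ⟨s, hs, i, k⟩ := jt (.inr (.inr (.inr (.inl (u, w))))) r hr ⟨mo k1 a, mo k2 b⟩
    exact ⟨i, mp hs k⟩
  · obtain ⟨p, hp, a⟩ := ce hu
    obtain ⟨q, hq, b⟩ := ce hv
    obtain ⟨p', hp', a'⟩ := ce h1
    obtain ⟨q', hq', b'⟩ := ce h2
    obtain ⟨r, hr, k1, k2⟩ := jd p hp q hq
    obtain ⟨r', hr', k3, k4⟩ := jd p' hp' q' hq'
    obtain ⟨t, ht, k5, k6⟩ := jd r hr r' hr'
    obtain ⟨s, hs, i, j, k, v', w, e1, e2, e3, e4, e5, e6, e7, e8⟩ :=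
      jt (.inr (.inr (.inr (.inr (u, v, w1, w2))))) t ht ⟨mo (k1.trans k5) a, mo (k2.trans k5) b,
        mo (k3.trans k6) a', mo (k4.trans k6) b', c0, c1, hs⟩
    exact ⟨i, j, k, v', w, ec hs e1, ec hs e2, mp hs e3, mp hs e4, mp hs e5, mp hs e6, mp hs e7,
      mp hs e8⟩

end Pool.Agent.Lib.helper7.GenLatin
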