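import Mathlib

set_option autoImplicit false

namespace Pool.Agent.Lib.helper7.Kok

universe u

/-- commutator -/
def cm {A : Type u} [NonUnitalNonAssocRing A] (a b : A) : A := a * b - b * a

def KokId (A : Type u) [NonUnitalNonAssocRing A] : Prop :=
  ∀ a b c : A, cm (cm a b) c + cm (cm b c) a + cm (cm c a) b =
    4 • ((a * b) * c - a * (b * c)) - cm (cm a c) b

/-- The plus algebra with product `a * b + b * a`. -/
def P (F : Type u) (A : Type u) : Type u := A

section
variable {F : Type u} {A : Type u} [Field F] [NonUnitalNonAssocRing A] [Module F A]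

instance : AddCommGroup (P F A) := inferInstanceAs (AddCommGroup A)
instance : Module F (P F A) := inferInstanceAs (Module F A)

def toP (F : Type u) {A : Type u} (a : A) : P F A := a
def ofP {F : Type u} {A : Type u} (a : P F A) : A := a

lemma two_cancel [h2 : Fact ((2 : F) ≠ 0)] {M : Type u} [AddCommGroup M] [Module F M] {x : M}
    (h : x + x = 0) : x = 0 := by
  have : (2 : F) • x = 0 := by rw [two_smul]; exact h
  exact (smul_eq_zero.1 this).resolve_left h2.out

lemma jassoc (F : Type u) [Field F] [Module F A] [Fact ((2 : F) ≠ 0)] (hK : KokId A) (a b c : A) :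
    (a * b + b * a) * c + c * (a * b + b * a) = a * (b * c + c * b) + (b * c + c * b) * a := by
  rw [← sub_eq_zero]
  apply two_cancel (F := F)
  have h1 := hK a b c
  have h2 := hK c b a
  simp only [cm, mul_add, add_mul, mul_sub, sub_mul] at h1 h2 ⊢
  linear_combination (norm := module) h2 - h1

lemma jleib (F : Type u) [Field F] [Module F A] [Fact ((2 : F) ≠ 0)] (hK : KokId A) (a b c : A) :
    cm (a * b + b * a) c = (a * cm b c + cm b c * a) + (b * cm a c + cm a c * b) := by
  rw [← sub_eq_zero]
  apply two_cancel (F := F)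
  apply two_cancel (F := F)
  have h1 := hK a b c
  have h2 := hK c b a
  have h3 := hK b c a
  have h4 := hK a c b
  have h5 := hK c a b
  have h6 := hK b a c
  simp only [cm, mul_add, add_mul, mul_sub, sub_mul] at h1 h2 h3 h4 h5 h6 ⊢
  linear_combination (norm := module) -h1 - h2 + h3 + h4 - h5 - h6

variable [IsScalarTower F A A] [SMulCommClass F A A] [Fact ((2 : F) ≠ 0)] [hK : Fact (KokId A)]

instance : NonUnitalCommRing (P F A) :=
  { (inferInstance : AddCommGroup (P F A)) with
    mul := fun a b => toP F (ofP a * ofP b + ofP b * ofP a)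
    left_distrib := fun a b c => by
      change (ofP a * (ofP b + ofP c) + (ofP b + ofP c) * ofP a : A) =
        (ofP a * ofP b + ofP b * ofP a) + (ofP a * ofP c + ofP c * ofP a)
      rw [mul_add, add_mul]; abel
    right_distrib := fun a b c => by
      change ((ofP a + ofP b) * ofP c + ofP c * (ofP a + ofP b) : A) =
        (ofP a * ofP c + ofP c * ofP a) + (ofP b * ofP c + ofP c * ofP b)
      rw [mul_add, add_mul]; abel
    zero_mul := fun a => by
      change ((0 : A) * ofP a + ofP a * 0 : A) = 0
      simp
    mul_zero := fun a => by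
      change (ofP a * 0 + (0 : A) * ofP a : A) = 0
      simp
    mul_assoc := fun a b c => jassoc F hK.out (ofP a) (ofP b) (ofP c)
    mul_comm := fun a b => add_comm (ofP a * ofP b) (ofP b * ofP a) }

lemma P_mul (a b : P F A) : a * b = toP F (ofP a * ofP b + ofP b * ofP a) := rfl

instance : IsScalarTower F (P F A) (P F A) := ⟨fun c a b => by
  change ((c • ofP a) * ofP b + ofP b * (c • ofP a) : A) = c • (ofP a * ofP b + ofP b * ofP a)
  rw [smul_add, smul_mul_assoc, mul_smul_comm]⟩

instance : SMulCommClass F (P F A) (P F A) := ⟨fun c a b => by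
  change (c • (ofP a * ofP b + ofP b * ofP a) : A) = ofP a * (c • ofP b) + (c • ofP b) * ofP a
  rw [smul_add, smul_mul_assoc, mul_smul_comm]⟩

variable (F A) in
abbrev U := Unitization F (P F A)

variable (F) in
/-- embedding in the unitization of the plus algebra -/
def ι : A →ₗ[F] U F A where
  toFun a := Unitization.inr (toP F a)
  map_add' a b := Unitization.inr_add F (toP F a) (toP F b)
  map_smul' c a := Unitization.inr_smul F c (toP F a)

variable (F) in
def sn : U F A →ₗ[F] A where
  toFun a := ofP a.snd
  map_add' _ _ := rfl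
  map_smul' _ _ := rfl

@[simp] lemma sn_ι (a : A) : sn F (ι F a) = a := rfl
@[simp] lemma fst_ι (a : A) : (ι F a).fst = 0 := rfl

lemma ι_inj : Function.Injective (ι F : A → U F A) := fun a b h => by
  have := congrArg (sn F) h
  simpa using this

lemma ι_sn {v : U F A} (h : v.fst = 0) : ι F (sn F v) = v := by
  ext
  · simp [h]
  · rfl

lemma ι_j (a b : A) : ι F (a * b + b * a) = ι F a * ι F b :=
  Unitization.inr_mul F (toP F a) (toP F b)

lemma decomp (v : U F A) : v = algebraMap F (U F A) v.fst + ι F (sn F v) :=
  (Unitization.inl_fst_add_inr_snd_eq v).symm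

variable (F) in
def br (v w : U F A) : U F A := ι F (cm (sn F v) (sn F w))

lemma br_ι (a b : A) : br F (ι F a) (ι F b) = ι F (cm a b) := rfl
@[simp] lemma fst_br (v w : U F A) : (br F v w).fst = 0 := rfl

lemma br_skew (v w : U F A) : br F v w = -br F w v := by
  rw [br, br, ← map_neg, cm, cm, neg_sub]

lemma br_add (v v' w : U F A) : br F (v + v') w = br F v w + br F v' w := by
  simp only [br, map_add, cm, mul_add, add_mul, map_sub]; abel

lemma br_smul (c : F) (v w : U F A) : br F (c • v) w = c • br F v w := by
  simp only [br, map_smul, cm, smul_mul_assoc, mul_smul_comm, map_sub, smul_sub]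

lemma br_zero (w : U F A) : br F 0 w = 0 := by simp [br, cm]

lemma br_neg (v w : U F A) : br F (-v) w = -br F v w := by
  have := br_smul (-1 : F) v w
  simpa using this

lemma br_sub (v v' w : U F A) : br F (v - v') w = br F v w - br F v' w := by
  rw [sub_eq_add_neg, br_add, br_neg, sub_eq_add_neg]

lemma br_alg (c : F) (w : U F A) : br F (algebraMap F (U F A) c) w = 0 := by
  have : sn F (algebraMap F (U F A) c) = 0 := rfl
  simp [br, this, cm]

lemma br_self (v : U F A) : br F v v = 0 := by simp [br, cm]

lemma br_mul (v v' w : U F A) : br F (v * v') w = v * br F v' w + v' * br F v w := by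
  have key : ∀ a b : A, br F (ι F a * ι F b) w = ι F a * br F (ι F b) w + ι F b * br F (ι F a) w := by
    intro a b
    rw [← ι_j]
    simp only [br, sn_ι]
    rw [jleib F hK.out, map_add, ι_j, ι_j]
  rw [decomp v, decomp v']
  generalize sn F v = a
  generalize sn F v' = b
  generalize v.fst = c
  generalize v'.fst = d
  have e : (algebraMap F (U F A) c + ι F a) * (algebraMap F (U F A) d + ι F b) =
      algebraMap F (U F A) (c * d) + c • ι F b + d • ι F a + ι F a * ι F b := by
    simp only [Algebra.smul_def, map_mul]; ring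
  rw [e]
  simp only [br_add, br_alg, br_smul, key, Algebra.smul_def, zero_add]
  have e1 := br_smul c (ι F b) w
  have e2 := br_smul d (ι F a) w
  rw [Algebra.smul_def, Algebra.smul_def] at e1 e2
  rw [e1, e2]; ring

lemma br_mul' (w v v' : U F A) : br F w (v * v') = v * br F w v' + v' * br F w v := by
  rw [br_skew, br_mul, br_skew v' w, br_skew v w]; ring

lemma br_one (w : U F A) : br F 1 w = 0 := by
  have := br_alg (1 : F) w
  rwa [map_one] at this

lemma br_pow (v w : U F A) (n : ℕ) : br F (v ^ (n + 1)) w = (n + 1 : ℕ) * v ^ n * br F v w := by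
  induction n with
  | zero => simp
  | succ n ih => rw [pow_succ, br_mul, ih]; push_cast; ring

lemma two_ι_mul (a b : A) : ι F (a * b) + ι F (a * b) = ι F a * ι F b + br F (ι F a) (ι F b) := by
  rw [br_ι, ← ι_j, ← map_add, ← map_add, cm]; congr 1; abel

lemma br_mem_pow (N : Ideal (U F A)) (w : U F A) : ∀ (k : ℕ) (v : U F A), v ∈ N ^ (k + 1) →
    br F v w ∈ N ^ k := by
  intro k
  induction k with
  | zero => intro v _; simp
  | succ k ih =>
    intro v hv
    rw [pow_succ] at hv
    refine Submodule.mul_induction_on hv (fun a ha b hb => ?_) (fun a b ha hb => ?_)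
    · rw [br_mul]
      refine add_mem (Ideal.mul_mem_right _ _ ha) ?_
      rw [pow_succ']
      exact Ideal.mul_mem_mul hb (ih a ha)
    · rw [br_add]; exact add_mem ha hb

lemma br_mem_pow2 (N : Ideal (U F A)) (v : U F A) (hv : v ∈ N ^ 2) :
    ∀ (k : ℕ) (w : U F A), w ∈ N ^ k → br F v w ∈ N ^ k := by
  intro k
  induction k with
  | zero => intro w _; simp
  | succ k ih =>
    intro w hw
    rw [pow_succ] at hw
    refine Submodule.mul_induction_on hw (fun a ha b hb => ?_) (fun a b ha hb => ?_)
    · rw [br_mul', pow_succ]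
      refine add_mem (Ideal.mul_mem_mul ha ?_) ?_
      · simpa using br_mem_pow N b 1 v hv
      · rw [mul_comm b]; exact Ideal.mul_mem_mul (ih a ha) hb
    · rw [br_skew, br_add]
      refine neg_mem (add_mem ?_ ?_)
      · rw [br_skew]; exact neg_mem ha
      · rw [br_skew]; exact neg_mem hb

end

end Pool.Agent.Lib.helper7.Kok
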