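import Pool.Agent.Lib.helper7.Kok1

set_option autoImplicit false

namespace Pool.Agent.Lib.helper7.Kok

universe u

/-- `B` satisfies all identities in `S`. -/
def Sat (F : Type u) [Field F] (S : Set (FreeNonUnitalNonAssocAlgebra F ℕ)) (B : Type u)
    [NonUnitalNonAssocRing B] [Module F B] [IsScalarTower F B B] [SMulCommClass F B B] : Prop :=
  ∀ f ∈ S, ∀ φ : ℕ → B, FreeNonUnitalNonAssocAlgebra.lift F φ f = 0

/-- Every finitely generated subalgebra is nilpotent. -/
def LocNil (F : Type u) [Field F] (B : Type u)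
    [NonUnitalNonAssocRing B] [Module F B] [IsScalarTower F B B] [SMulCommClass F B B] : Prop :=
  ∀ s : Finset B, ∃ n : ℕ, 1 ≤ n ∧
    ∀ w : FreeMagma (NonUnitalAlgebra.adjoin F (s : Set B)), w.length = n →
      FreeMagma.lift (fun x : NonUnitalAlgebra.adjoin F (s : Set B) => (x : B)) w = 0

/-- Every anticommutative algebra of the variety defined by `S` is locally nilpotent. -/
def LocAdm (F : Type u) [Field F] (S : Set (FreeNonUnitalNonAssocAlgebra F ℕ)) : Prop :=
  ∀ (B : Type u) [NonUnitalNonAssocRing B] [Module F B] [IsScalarTower F B B]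
    [SMulCommClass F B B], Sat F S B → (∀ x : B, x * x = 0) → LocNil F B

def IsSimple (F : Type u) [Field F] (A : Type u) [NonUnitalNonAssocRing A] [Module F A] : Prop :=
  (∃ a b : A, a * b ≠ 0) ∧
    ∀ I : Submodule F A, (∀ a : A, ∀ x ∈ I, a * x ∈ I ∧ x * a ∈ I) → I = ⊥ ∨ I = ⊤

variable {F : Type u} [Field F] {S : Set (FreeNonUnitalNonAssocAlgebra F ℕ)}

section tr
variable {C D : Type u} [NonUnitalNonAssocRing C] [Module F C] [IsScalarTower F C C]
  [SMulCommClass F C C] [NonUnitalNonAssocRing D] [Module F D] [IsScalarTower F D D]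
  [SMulCommClass F D D]

lemma lift_comp (π : C →ₙₐ[F] D) (φ : ℕ → C) (f : FreeNonUnitalNonAssocAlgebra F ℕ) :
    π (FreeNonUnitalNonAssocAlgebra.lift F φ f) =
      FreeNonUnitalNonAssocAlgebra.lift F (fun i => π (φ i)) f := by
  have : π.comp (FreeNonUnitalNonAssocAlgebra.lift F φ) =
      FreeNonUnitalNonAssocAlgebra.lift F (fun i => π (φ i)) := by
    apply FreeNonUnitalNonAssocAlgebra.hom_ext
    intro x; simp
  exact DFunLike.congr_fun this f

lemma Sat.of_inj (h : Sat F S D) (π : C →ₙₐ[F] D) (hπ : Function.Injective π) : Sat F S C := by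
  intro f hf φ
  apply hπ
  rw [lift_comp, h f hf, map_zero]

lemma Sat.of_surj (h : Sat F S C) (π : C →ₙₐ[F] D) (hπ : Function.Surjective π) : Sat F S D := by
  intro f hf φ
  choose ψ hψ using fun i => hπ (φ i)
  have : φ = fun i => π (ψ i) := funext fun i => (hψ i).symm
  rw [this, ← lift_comp, h f hf, map_zero]

lemma Sat.pi (h : Sat F S C) (I : Type u) : Sat F S (I → C) := by
  intro f hf φ
  funext i
  let π : (I → C) →ₙₐ[F] C :=
    { toFun := fun g => g i
      map_smul' := fun _ _ => rfl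
      map_zero' := rfl
      map_add' := fun _ _ => rfl
      map_mul' := fun _ _ => rfl }
  have := lift_comp π φ f
  rw [h f hf] at this
  exact this

def Qt (J : Submodule F C) (_ : ∀ a : C, ∀ x ∈ J, a * x ∈ J ∧ x * a ∈ J) : Type u := C ⧸ J

variable (J : Submodule F C) (hJ : ∀ a : C, ∀ x ∈ J, a * x ∈ J ∧ x * a ∈ J)

instance : AddCommGroup (Qt J hJ) := inferInstanceAs (AddCommGroup (C ⧸ J))
instance : Module F (Qt J hJ) := inferInstanceAs (Module F (C ⧸ J))

def qmul : Qt J hJ →ₗ[F] Qt J hJ →ₗ[F] Qt J hJ :=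
  ((LinearMap.mul F C).compr₂ J.mkQ).liftQ₂ J J
    (fun x hx => by
      ext a
      simpa using (hJ a x hx).2)
    (fun x hx => by
      ext a
      simpa using (hJ a x hx).1)

instance : NonUnitalNonAssocRing (Qt J hJ) :=
  { (inferInstance : AddCommGroup (Qt J hJ)) with
    mul := fun a b => qmul J hJ a b
    left_distrib := fun a b c => (qmul J hJ a).map_add b c
    right_distrib := fun a b c => LinearMap.map_add₂ (qmul J hJ) a b c
    zero_mul := fun a => LinearMap.map_zero₂ (qmul J hJ) a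
    mul_zero := fun a => (qmul J hJ a).map_zero }

instance : IsScalarTower F (Qt J hJ) (Qt J hJ) :=
  ⟨fun c a b => LinearMap.map_smul₂ (qmul J hJ) c a b⟩

instance : SMulCommClass F (Qt J hJ) (Qt J hJ) :=
  ⟨fun c a b => ((qmul J hJ a).map_smul c b).symm⟩

def qmk : C →ₙₐ[F] Qt J hJ where
  toFun := J.mkQ
  map_smul' := J.mkQ.map_smul
  map_zero' := J.mkQ.map_zero
  map_add' := J.mkQ.map_add
  map_mul' _ _ := rfl

include hJ in
lemma rel_nil (hLA : LocAdm F S) (hC : Sat F S C) (hsq : ∀ x : C, x * x ∈ J) (h z : C) :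
    ∃ k, (fun y => h * y)^[k] z ∈ J := by
  classical
  have hs : Function.Surjective (qmk J hJ) := J.mkQ_surjective
  have hk : ∀ x, qmk J hJ x = 0 ↔ x ∈ J := fun x => Submodule.Quotient.mk_eq_zero J
  obtain ⟨n, hn, H⟩ := hLA (Qt J hJ) (hC.of_surj _ hs) (fun x => by
    obtain ⟨y, rfl⟩ := hs x
    rw [← map_mul, hk]; exact hsq y) {qmk J hJ h, qmk J hJ z}
  obtain ⟨k, rfl⟩ : ∃ k, n = k + 1 := ⟨n - 1, by omega⟩
  refine ⟨k, (hk _).1 ?_⟩
  let h' : NonUnitalAlgebra.adjoin F (({qmk J hJ h, qmk J hJ z} : Finset (Qt J hJ)) : Set (Qt J hJ)) :=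
    ⟨qmk J hJ h, NonUnitalAlgebra.subset_adjoin F (by simp)⟩
  let z' : NonUnitalAlgebra.adjoin F (({qmk J hJ h, qmk J hJ z} : Finset (Qt J hJ)) : Set (Qt J hJ)) :=
    ⟨qmk J hJ z, NonUnitalAlgebra.subset_adjoin F (by simp)⟩
  have key : ∀ j : ℕ, ((fun w => FreeMagma.of h' * w)^[j] (FreeMagma.of z')).length = j + 1 ∧
      FreeMagma.lift (fun x : NonUnitalAlgebra.adjoin F
        (({qmk J hJ h, qmk J hJ z} : Finset (Qt J hJ)) : Set (Qt J hJ)) => (x : Qt J hJ))
        ((fun w => FreeMagma.of h' * w)^[j] (FreeMagma.of z')) =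
        qmk J hJ ((fun y => h * y)^[j] z) := by
    intro j
    induction j with
    | zero => exact ⟨rfl, by simp [z']⟩
    | succ j ih =>
      rw [Function.iterate_succ_apply', Function.iterate_succ_apply']
      refine ⟨?_, ?_⟩
      · change 1 + _ = _
        rw [ih.1]; ring
      · rw [map_mul, ih.2, map_mul]; simp [h']
  rw [← (key k).2]
  exact H _ (key k).1

end tr

section main
variable {B : Type u} [NonUnitalNonAssocRing B] [Module F B] [IsScalarTower F B B]
  [SMulCommClass F B B] [h2 : Fact ((2 : F) ≠ 0)] [Fact (KokId B)]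

lemma half_mem (I : Ideal (U F B)) {x : U F B} (h : x + x ∈ I) : x ∈ I := by
  have : x = algebraMap F (U F B) (2⁻¹) * (x + x) := by
    rw [← Algebra.smul_def, ← two_smul F x, smul_smul, inv_mul_cancel₀ h2.out, one_smul]
  rw [this]; exact I.mul_mem_left _ h

lemma main (hLA : LocAdm F S) (hB : Sat F S B) (N : Ideal (U F B)) (X Y : B)
    (hX : ι F X ∈ N) (hY : ι F Y ∈ N) : ∃ m, br F (ι F X) (ι F Y) ^ m ∈ N := by
  have p43 : N ^ 4 ≤ N ^ 3 := Ideal.pow_le_pow_right (by norm_num)
  let C : NonUnitalSubalgebra F B :=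
    { carrier := {b | ι F b ∈ N ^ 2}
      add_mem' := fun {a b} ha hb => by
        change ι F (a + b) ∈ N ^ 2
        rw [map_add]; exact add_mem ha hb
      zero_mem' := by change ι F (0 : B) ∈ N ^ 2; simp
      mul_mem' := fun {a b} ha hb => by
        change ι F (a * b) ∈ N ^ 2
        apply half_mem
        rw [two_ι_mul]
        exact add_mem (Ideal.mul_mem_right _ _ ha) (br_mem_pow2 N _ ha 2 _ hb)
      smul_mem' := fun c a ha => by
        change ι F (c • a) ∈ N ^ 2
        rw [map_smul, Algebra.smul_def]; exact Ideal.mul_mem_left _ _ ha }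
  let J : Submodule F C :=
    { carrier := {b | ι F (b : B) ∈ N ^ 3}
      add_mem' := fun {a b} ha hb => by
        change ι F ((a : B) + b) ∈ N ^ 3
        rw [map_add]; exact add_mem ha hb
      zero_mem' := by change ι F (0 : B) ∈ N ^ 3; simp
      smul_mem' := fun c a ha => by
        change ι F (c • (a : B)) ∈ N ^ 3
        rw [map_smul, Algebra.smul_def]; exact Ideal.mul_mem_left _ _ ha }
  have hJ : ∀ a : C, ∀ x ∈ J, a * x ∈ J ∧ x * a ∈ J := by
    intro a x hx
    constructor
    · change ι F ((a : B) * x) ∈ N ^ 3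
      apply half_mem
      rw [two_ι_mul]
      exact add_mem (Ideal.mul_mem_left _ _ hx) (br_mem_pow2 N _ a.2 3 _ hx)
    · change ι F ((x : B) * a) ∈ N ^ 3
      apply half_mem
      rw [two_ι_mul, br_skew]
      exact add_mem (Ideal.mul_mem_right _ _ hx) (neg_mem (br_mem_pow2 N _ a.2 3 _ hx))
  have m22 : ∀ a ∈ N ^ 2, ∀ b ∈ N ^ 2, a * b ∈ N ^ 3 := by
    intro a ha b hb
    apply p43
    rw [show 4 = 2 + 2 from rfl, pow_add]; exact Ideal.mul_mem_mul ha hb
  have hsq : ∀ x : C, x * x ∈ J := by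
    intro x
    change ι F ((x : B) * x) ∈ N ^ 3
    apply half_mem
    rw [two_ι_mul, br_self, add_zero]
    exact m22 _ x.2 _ x.2
  set x := ι F X with hx
  set y := ι F Y with hy
  have hxy : x * y ∈ N ^ 2 := by rw [pow_two]; exact Ideal.mul_mem_mul hX hY
  have hxx : x * x ∈ N ^ 2 := by rw [pow_two]; exact Ideal.mul_mem_mul hX hX
  let h : C := ⟨X * Y + Y * X, by change ι F _ ∈ N ^ 2; rw [ι_j]; exact hxy⟩
  let z : C := ⟨X * X + X * X, by change ι F _ ∈ N ^ 2; rw [ι_j]; exact hxx⟩
  obtain ⟨k, hk⟩ := rel_nil J hJ hLA (hB.of_inj (NonUnitalSubalgebraClass.subtype C)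
    Subtype.val_injective) hsq h z
  set v := br F x y with hv
  have key : ∀ j : ℕ, ι F (((fun w => h * w)^[j] z : C) : B) - (-v) ^ j * (x * x) ∈ N ^ 3 := by
    intro j
    induction j with
    | zero =>
      have : ι F (z : B) = x * x := ι_j X X
      simp [this]
    | succ j ih =>
      rw [Function.iterate_succ_apply']
      set t : C := (fun w => h * w)^[j] z with ht
      apply half_mem
      have e1 : ι F ((h * t : C) : B) + ι F ((h * t : C) : B) =
          x * y * ι F (t : B) + br F (x * y) (ι F (t : B)) := by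
        have := two_ι_mul (F := F) (h : B) (t : B)
        rw [show ι F (h : B) = x * y from ι_j X Y] at this
        exact this
      have e2 : br F (x * y) (ι F (t : B)) = br F (x * y) (ι F (t : B) - (-v) ^ j * (x * x)) +
          (x * x) * br F (x * y) ((-v) ^ j) + ((-v) ^ (j + 1) * (x * x) + (-v) ^ (j + 1) * (x * x)) := by
        rw [br_skew _ (_ - _), br_sub, br_skew (ι F (t : B)), br_skew ((-v) ^ j * (x * x)),
          br_mul' _ ((-v) ^ j), br_mul' _ x x, br_mul x y x, br_self, br_skew y x, ← hv]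
        ring
      have : ι F ((h * t : C) : B) - (-v) ^ (j + 1) * (x * x) +
          (ι F ((h * t : C) : B) - (-v) ^ (j + 1) * (x * x)) = x * y * ι F (t : B) +
          br F (x * y) (ι F (t : B) - (-v) ^ j * (x * x)) + (x * x) * br F (x * y) ((-v) ^ j) := by
        linear_combination e1 + e2
      rw [this]
      refine add_mem (add_mem (m22 _ hxy _ t.2) (br_mem_pow2 N _ hxy 3 _ ih)) ?_
      rw [pow_succ]
      exact Ideal.mul_mem_mul hxx (by simpa using br_mem_pow N _ 1 _ hxy)
  have c3 : (-v) ^ k * (x * x) ∈ N ^ 3 := by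
    have := sub_mem (show ι F (((fun w => h * w)^[k] z : C) : B) ∈ N ^ 3 from hk) (key k)
    simpa using this
  have c1 := br_mem_pow N y 1 _ (br_mem_pow N y 2 _ c3)
  generalize hc : (-v) ^ k = c at c1
  simp only [br_mul, br_add, ← hv, pow_one] at c1
  refine ⟨2 * k + 2, ?_⟩
  have c4 : c * v * v ∈ N := by
    apply half_mem
    have := sub_mem c1 (N.mul_mem_right (c * br F v y + c * br F v y + v * br F c y + v * br F c y +
      x * br F (br F c y) y + br F c y * v + br F c y * v) hX)
    convert this using 1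
    ring
  have : v ^ (2 * k + 2) = c * (c * v * v) := by
    rw [← hc, ← mul_assoc, ← mul_assoc, ← mul_pow]; ring
  rw [this]; exact N.mul_mem_left _ c4

end main

end Pool.Agent.Lib.helper7.Kok
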