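import Pool.Agent.Lib.helper7.Kok2

set_option autoImplicit false

namespace Pool.Agent.Lib.helper7.Kok

universe u

variable {F : Type u} [Field F] {S : Set (FreeNonUnitalNonAssocAlgebra F ℕ)}
  {A : Type u} [NonUnitalNonAssocRing A] [Module F A] [IsScalarTower F A A] [SMulCommClass F A A]

omit [IsScalarTower F A A] [SMulCommClass F A A] in
lemma gen (hs : IsSimple F A) (a : A) (G : (A → A) → Prop) (g0 : G (fun _ => 0))
    (gadd : ∀ f g, G f → G g → G (fun x => f x + g x))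
    (gsm : ∀ (c : F) f, G f → G (fun x => c • f x))
    (gl : ∀ b f, G f → G (fun x => b * f x)) (gr : ∀ b f, G f → G (fun x => f x * b))
    (hne : ∃ f, G f ∧ f a ≠ 0) : ∃ f, G f ∧ f a = a := by
  let I : Submodule F A :=
    { carrier := {y | ∃ f, G f ∧ f a = y}
      zero_mem' := ⟨_, g0, rfl⟩
      add_mem' := by
        rintro _ _ ⟨f, hf, rfl⟩ ⟨g, hg, rfl⟩
        exact ⟨_, gadd f g hf hg, rfl⟩
      smul_mem' := by
        rintro c _ ⟨f, hf, rfl⟩
        exact ⟨_, gsm c f hf, rfl⟩ }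
  rcases hs.2 I (by
    rintro b _ ⟨f, hf, rfl⟩
    exact ⟨⟨_, gl b f hf, rfl⟩, ⟨_, gr b f hf, rfl⟩⟩) with h | h
  · obtain ⟨f, hf, hfa⟩ := hne
    have : f a ∈ I := ⟨f, hf, rfl⟩
    rw [h] at this
    exact absurd this hfa
  · have : a ∈ I := by rw [h]; trivial
    exact this

/-- filtration used in the anticommutative case -/
def HH (F : Type u) [Field F] [Module F A] [IsScalarTower F A A] [SMulCommClass F A A]
    (Z : Finset A) : ℕ → Submodule F A
  | 0 => (NonUnitalAlgebra.adjoin F (Z : Set A)).toSubmodule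
  | j + 1 => Submodule.span F {t | ∃ y ∈ HH F Z j, ∃ b ∈ Z, t = y * b}

lemma HH_succ_le (Z : Finset A) : ∀ j, HH F Z (j + 1) ≤ HH F Z j := by
  intro j
  induction j with
  | zero =>
    refine Submodule.span_le.2 ?_
    rintro _ ⟨y, hy, b, hb, rfl⟩
    exact (NonUnitalAlgebra.adjoin F (Z : Set A)).mul_mem hy
      (NonUnitalAlgebra.subset_adjoin F hb)
  | succ j ih =>
    refine Submodule.span_mono ?_
    rintro _ ⟨y, hy, b, hb, rfl⟩
    exact ⟨y, ih hy, b, hb, rfl⟩

lemma anti_case (hLA : LocAdm F S) (hA : Sat F S A) (hs : IsSimple F A)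
    (hsq : ∀ x : A, x * x = 0) : False := by
  classical
  have skew : ∀ x y : A, x * y = -(y * x) := by
    intro x y
    have := hsq (x + y)
    rw [mul_add, add_mul, add_mul, hsq, hsq, zero_add, add_zero] at this
    exact eq_neg_of_add_eq_zero_right this
  obtain ⟨a, b0, hab⟩ := hs.1
  have gr : ∀ (b : A) (f : A → A), (∃ Z0 : Finset A, ∀ Z, Z0 ⊆ Z → ∀ j, ∀ x ∈ HH F Z j,
      f x ∈ HH F Z (j + 1)) → (∃ Z0 : Finset A, ∀ Z, Z0 ⊆ Z → ∀ j, ∀ x ∈ HH F Z j,
      f x * b ∈ HH F Z (j + 1)) := by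
    rintro b f ⟨Z0, h⟩
    refine ⟨insert b Z0, fun Z hZ j x hx => HH_succ_le Z _ (Submodule.subset_span
      ⟨_, h Z ((Finset.subset_insert _ _).trans hZ) j x hx, b, hZ (by simp), rfl⟩)⟩
  obtain ⟨f, ⟨Z0, hf⟩, hfa⟩ := gen hs a
    (fun f => ∃ Z0 : Finset A, ∀ Z, Z0 ⊆ Z → ∀ j, ∀ x ∈ HH F Z j, f x ∈ HH F Z (j + 1))
    ⟨∅, fun _ _ _ _ _ => zero_mem _⟩
    (by
      rintro f g ⟨Z1, h1⟩ ⟨Z2, h2⟩
      exact ⟨Z1 ∪ Z2, fun Z hZ j x hx => add_mem (h1 Z (Finset.subset_union_left.trans hZ) j x hx)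
        (h2 Z (Finset.subset_union_right.trans hZ) j x hx)⟩)
    (by
      rintro c f ⟨Z1, h1⟩
      exact ⟨Z1, fun Z hZ j x hx => Submodule.smul_mem _ _ (h1 Z hZ j x hx)⟩)
    (by
      intro b f hf
      obtain ⟨Z1, h1⟩ := gr b f hf
      exact ⟨Z1, fun Z hZ j x hx => by
        change b * f x ∈ _
        rw [skew]; exact neg_mem (h1 Z hZ j x hx)⟩)
    gr
    ⟨fun x => x * b0, ⟨{b0}, fun Z hZ j x hx =>
      Submodule.subset_span ⟨x, hx, b0, hZ (by simp), rfl⟩⟩, hab⟩
  set Z := insert a Z0 with hZ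
  have ha : ∀ j, a ∈ HH F Z j := by
    intro j
    induction j with
    | zero => exact NonUnitalAlgebra.subset_adjoin F (by simp [hZ])
    | succ j ih => rw [← hfa]; exact hf Z (Finset.subset_insert _ _) j a ih
  obtain ⟨n, hn, H⟩ := hLA A hA hsq Z
  have key : ∀ j, HH F Z j ≤ Submodule.span F {t | ∃ w : FreeMagma
      (NonUnitalAlgebra.adjoin F (Z : Set A)), w.length = j + 1 ∧
      FreeMagma.lift (fun x : NonUnitalAlgebra.adjoin F (Z : Set A) => (x : A)) w = t} := by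
    intro j
    induction j with
    | zero =>
      intro y hy
      exact Submodule.subset_span ⟨FreeMagma.of ⟨y, hy⟩, rfl, by simp⟩
    | succ j ih =>
      refine Submodule.span_le.2 ?_
      rintro _ ⟨y, hy, b, hb, rfl⟩
      have := ih hy
      refine Submodule.span_induction (p := fun y _ => y * b ∈ _) ?_ ?_ ?_ ?_ this
      · rintro _ ⟨w, hw, rfl⟩
        refine Submodule.subset_span ⟨w * FreeMagma.of ⟨b, NonUnitalAlgebra.subset_adjoin F hb⟩,
          ?_, by simp⟩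
        change w.length + 1 = _
        rw [hw]
      · simp
      · intro x y _ _ hx hy; rw [add_mul]; exact add_mem hx hy
      · intro c x _ hx; rw [smul_mul_assoc]; exact Submodule.smul_mem _ _ hx
  have h0 := key (n - 1) (ha _)
  have : Submodule.span F {t | ∃ w : FreeMagma
      (NonUnitalAlgebra.adjoin F (Z : Set A)), w.length = n - 1 + 1 ∧
      FreeMagma.lift (fun x : NonUnitalAlgebra.adjoin F (Z : Set A) => (x : A)) w = t} = ⊥ := by
    rw [Submodule.span_eq_bot]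
    rintro _ ⟨w, hw, rfl⟩
    exact H w (by omega)
  rw [this, Submodule.mem_bot] at h0
  exact hab (by rw [h0, zero_mul])

variable [h2 : Fact ((2 : F) ≠ 0)] [Fact (KokId A)]

lemma ideal_of (I : Ideal (U F A)) (hI : ∀ v ∈ I, ∀ w, br F v w ∈ I) (a x : A) (hx : ι F x ∈ I) :
    ι F (a * x) ∈ I ∧ ι F (x * a) ∈ I := by
  constructor
  · apply half_mem
    rw [two_ι_mul, br_skew]
    exact add_mem (I.mul_mem_left _ hx) (neg_mem (hI _ hx _))
  · apply half_mem
    rw [two_ι_mul]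
    exact add_mem (I.mul_mem_right _ hx) (hI _ hx _)

lemma simple_ideal (hs : IsSimple F A) (I : Ideal (U F A)) (hI : ∀ v ∈ I, ∀ w, br F v w ∈ I) :
    (∀ x : A, ι F x ∈ I → x = 0) ∨ ∀ x : A, ι F x ∈ I := by
  rcases hs.2 ((I.restrictScalars F).comap (ι F)) (fun a x hx => ideal_of I hI a x hx) with h | h
  · left
    intro x hx
    have : x ∈ (I.restrictScalars F).comap (ι F) := hx
    rwa [h] at this
  · right
    intro x
    have : x ∈ (I.restrictScalars F).comap (ι F) := by rw [h]; trivial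
    exact this

open Classical in
noncomputable def GG (F : Type u) [Field F] [Module F A] [IsScalarTower F A A] [SMulCommClass F A A]
    [Fact ((2 : F) ≠ 0)] [Fact (KokId A)] (Z : Finset A) : ℕ → Finset (U F A)
  | 0 => Z.image (ι F)
  | k + 1 => Finset.image₂ (fun g b => br F g (ι F b)) (GG F Z k) Z

def EE (F : Type u) [Field F] [Module F A] [IsScalarTower F A A] [SMulCommClass F A A]
    [Fact ((2 : F) ≠ 0)] [Fact (KokId A)] (Z : Finset A) : ℕ → ℕ → Ideal (U F A)
  | 0, _ => ⊤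
  | n + 1, l => Ideal.span {t | ∃ k j, k + j ≤ l ∧ ∃ g ∈ GG F Z k, ∃ y ∈ EE F Z n j, t = g * y}

lemma EE_mono (Z : Finset A) (n : ℕ) {l l' : ℕ} (h : l ≤ l') : EE F Z n l ≤ EE F Z n l' := by
  cases n with
  | zero => exact le_rfl
  | succ n =>
    refine Ideal.span_mono ?_
    rintro _ ⟨k, j, hkj, r⟩
    exact ⟨k, j, hkj.trans h, r⟩

lemma EE_br (Z : Finset A) (b : A) (hb : b ∈ Z) : ∀ (n l : ℕ), ∀ v ∈ EE F Z n l,
    br F v (ι F b) ∈ EE F Z n (l + 1) := by
  classical
  intro n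
  induction n with
  | zero => intro l v _; trivial
  | succ n ih =>
    intro l v hv
    refine Submodule.span_induction (p := fun v _ => br F v (ι F b) ∈ EE F Z (n + 1) (l + 1))
      ?_ ?_ ?_ ?_ hv
    · rintro _ ⟨k, j, hkj, g, hg, y, hy, rfl⟩
      rw [br_mul]
      refine add_mem (Ideal.subset_span ⟨k, j + 1, by omega, g, hg, _, ih j y hy, rfl⟩)
        (Ideal.subset_span ⟨k + 1, j, by omega, br F g (ι F b), ?_, y, hy, mul_comm _ _⟩)
      exact Finset.mem_image₂_of_mem hg hb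
    · rw [br_zero]; exact zero_mem _
    · intro x y _ _ hx hy; rw [br_add]; exact add_mem hx hy
    · intro c x hx0 hx
      rw [smul_eq_mul, br_mul]
      exact add_mem (Ideal.mul_mem_left _ _ hx)
        (Ideal.mul_mem_right _ _ (EE_mono Z (n + 1) (Nat.le_succ l) hx0))

lemma EE_le (Z : Finset A) (m : ℕ) (T : Ideal (U F A))
    (hT : ∀ k ≤ m, ∀ g ∈ GG F Z k, g ∈ T) : ∀ (n l q : ℕ), (m + 1) * q + l ≤ (m + 1) * n →
    EE F Z n l ≤ T ^ q := by
  intro n
  induction n with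
  | zero =>
    intro l q h
    have : q = 0 := by
      rcases q with _ | q
      · rfl
      · simp at h
    simp [this]
  | succ n ih =>
    intro l q h
    rcases q with _ | q
    · simp
    refine Ideal.span_le.2 ?_
    rintro _ ⟨k, j, hkj, g, hg, y, hy, rfl⟩
    rw [mul_add, mul_add] at h
    by_cases hk : k ≤ m
    · rw [pow_succ']
      exact Ideal.mul_mem_mul (hT k hk g hg) (ih j q (by omega) hy)
    · exact Ideal.mul_mem_left _ _ (ih j (q + 1) (by rw [mul_add]; omega) hy)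

lemma nil_case (hs : IsSimple F A) (hnil : ∀ x : A, IsNilpotent (ι F x))
    (a b0 : A) (hab : ι F a * ι F b0 ≠ 0) : False := by
  classical
  let G : (A → A) → Prop := fun f => ∃ (Z0 : Finset A) (m : ℕ), ∀ Z, Z0 ⊆ Z → ∀ n l x,
      ι F x ∈ EE F Z n l → ι F (f x) ∈ EE F Z (n + 1) (l + m)
  have glr : ∀ (b : A) (f : A → A), G f → G (fun x => b * f x) ∧ G (fun x => f x * b) := by
    rintro b f ⟨Z0, m, h⟩
    have k1 : ∀ Z, insert b Z0 ⊆ Z → ∀ n l x, ι F x ∈ EE F Z n l →
        ι F (f x) ∈ EE F Z (n + 1) (l + (m + 1)) ∧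
        br F (ι F (f x)) (ι F b) ∈ EE F Z (n + 1) (l + (m + 1)) := by
      intro Z hZ n l x hx
      have := h Z ((Finset.subset_insert _ _).trans hZ) n l x hx
      exact ⟨EE_mono Z _ (by omega) this, EE_br Z b (hZ (by simp)) _ _ _ this⟩
    constructor
    · refine ⟨insert b Z0, m + 1, fun Z hZ n l x hx => half_mem _ ?_⟩
      rw [two_ι_mul, br_skew]
      exact add_mem (Ideal.mul_mem_left _ _ (k1 Z hZ n l x hx).1) (neg_mem (k1 Z hZ n l x hx).2)
    · refine ⟨insert b Z0, m + 1, fun Z hZ n l x hx => half_mem _ ?_⟩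
      rw [two_ι_mul]
      exact add_mem (Ideal.mul_mem_right _ _ (k1 Z hZ n l x hx).1) (k1 Z hZ n l x hx).2
  obtain ⟨f, ⟨Z, m, hf⟩, hfa⟩ := gen hs a G
    ⟨∅, 0, fun _ _ _ _ _ _ => by simp⟩
    (by
      rintro f g ⟨Z1, m1, h1⟩ ⟨Z2, m2, h2⟩
      refine ⟨Z1 ∪ Z2, m1 + m2, fun Z hZ n l x hx => ?_⟩
      rw [map_add]
      exact add_mem (EE_mono Z _ (by omega) (h1 Z (Finset.subset_union_left.trans hZ) n l x hx))
        (EE_mono Z _ (by omega) (h2 Z (Finset.subset_union_right.trans hZ) n l x hx)))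
    (by
      rintro c f ⟨Z1, m1, h1⟩
      refine ⟨Z1, m1, fun Z hZ n l x hx => ?_⟩
      rw [map_smul, Algebra.smul_def]
      exact Ideal.mul_mem_left _ _ (h1 Z hZ n l x hx))
    (fun b f hf => (glr b f hf).1) (fun b f hf => (glr b f hf).2)
    ⟨fun x => b0 * x + x * b0, ⟨{b0}, 0, fun Z hZ n l x hx => by
      rw [ι_j]
      exact Ideal.subset_span ⟨0, l, by omega, ι F b0,
        Finset.mem_image_of_mem _ (hZ (by simp)), _, hx, rfl⟩⟩, fun e => hab (by
      rw [mul_comm, ← ι_j, show b0 * a + a * b0 = 0 from e, map_zero])⟩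
  have ha : ∀ n, ι F a ∈ EE F Z n (n * m) := by
    intro n
    induction n with
    | zero => trivial
    | succ n ih =>
      have := hf Z subset_rfl n _ a ih
      rw [hfa] at this
      rwa [add_mul, one_mul]
  let T : Ideal (U F A) := Ideal.span ((Finset.range (m + 1)).biUnion (GG F Z) : Finset (U F A))
  have hT : IsNilpotent T := by
    refine (Ideal.FG.isNilpotent_iff_le_nilradical ⟨_, rfl⟩).2 (Ideal.span_le.2 ?_)
    intro g hg
    simp only [Finset.coe_biUnion, Set.mem_iUnion, Finset.mem_coe] at hg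
    obtain ⟨k, _, hk⟩ := hg
    cases k with
    | zero =>
      obtain ⟨x, _, rfl⟩ := Finset.mem_image.1 hk
      exact hnil x
    | succ k =>
      obtain ⟨g', _, b, _, rfl⟩ := Finset.mem_image₂.1 hk
      exact hnil _
  obtain ⟨q, hq⟩ := hT
  have := EE_le Z m T (fun k hk g hg => Ideal.subset_span (by
    simp only [Finset.coe_biUnion, Set.mem_iUnion, Finset.mem_coe]
    exact ⟨k, Finset.mem_range.2 (by omega), hg⟩)) ((m + 1) * q) _ q (le_of_eq (by ring))
    (ha ((m + 1) * q))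
  rw [hq] at this
  have h0 : ι F a = 0 := this
  exact hab (by rw [h0, zero_mul])

end Pool.Agent.Lib.helper7.Kok
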