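import Pool.Agent.Lib.helper7.Kok3

set_option autoImplicit false

namespace Pool.Agent.Lib.helper7.Kok

universe u

variable {F : Type u} [Field F] {S : Set (FreeNonUnitalNonAssocAlgebra F ℕ)}
  {A : Type u} [NonUnitalNonAssocRing A] [Module F A] [IsScalarTower F A A] [SMulCommClass F A A]

variable (F A) in
/-- the centroid -/
def Cen : Subalgebra F (Module.End F A) where
  carrier := {g | ∀ a b : A, g (a * b) = g a * b ∧ g (a * b) = a * g b}
  mul_mem' := fun {f g} hf hg a b => ⟨by simp [(hg a b).1, (hf _ b).1], by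
    simp [(hg a b).2, (hf a _).2]⟩
  add_mem' := fun {f g} hf hg a b => ⟨by simp [(hg a b).1, (hf a b).1, add_mul], by
    rw [LinearMap.add_apply, LinearMap.add_apply, (hg a b).2, (hf a b).2, mul_add]⟩
  algebraMap_mem' := fun c a b => ⟨by simp [smul_mul_assoc], by simp [mul_smul_comm]⟩

lemma span_mul (hs : IsSimple F A) : Submodule.span F {t : A | ∃ a b, t = a * b} = ⊤ := by
  rcases hs.2 (Submodule.span F {t : A | ∃ a b, t = a * b}) (fun a x _ =>
    ⟨Submodule.subset_span ⟨a, x, rfl⟩, Submodule.subset_span ⟨x, a, rfl⟩⟩) with h | h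
  · obtain ⟨a, b, hab⟩ := hs.1
    have : a * b ∈ Submodule.span F {t : A | ∃ a b, t = a * b} := Submodule.subset_span ⟨a, b, rfl⟩
    rw [h] at this
    exact absurd this hab
  · exact h

lemma cen_field (hs : IsSimple F A) : IsField (Cen F A) := by
  obtain ⟨a0, b0, hab⟩ := hs.1
  refine ⟨⟨0, 1, fun h => hab ?_⟩, fun f g => ?_, fun {f} hf => ?_⟩
  · have := congrArg (fun g : Cen F A => (g : Module.End F A) (a0 * b0)) h
    simpa using this.symm
  · apply Subtype.ext
    refine LinearMap.ext_on (span_mul hs) ?_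
    rintro _ ⟨a, b, rfl⟩
    simp only [MulMemClass.coe_mul, Module.End.mul_apply]
    rw [(g.2 a b).2, (f.2 a _).1, (f.2 a b).1, (g.2 _ b).2]
  · have hk : LinearMap.ker (f : Module.End F A) = ⊥ := by
      rcases hs.2 (LinearMap.ker (f : Module.End F A)) (fun a x hx => ⟨by
        rw [LinearMap.mem_ker] at hx ⊢
        rw [(f.2 a x).2, hx, mul_zero], by
        rw [LinearMap.mem_ker] at hx ⊢
        rw [(f.2 x a).1, hx, zero_mul]⟩) with h | h
      · exact h
      · exact absurd (Subtype.ext (LinearMap.ker_eq_top.1 h)) hf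
    have hr : LinearMap.range (f : Module.End F A) = ⊤ := by
      rcases hs.2 (LinearMap.range (f : Module.End F A)) (by
        rintro a _ ⟨x, rfl⟩
        exact ⟨⟨a * x, (f.2 a x).2⟩, ⟨x * a, (f.2 x a).1⟩⟩) with h | h
      · exact absurd (Subtype.ext (LinearMap.range_eq_bot.1 h)) hf
      · exact h
    let e := LinearEquiv.ofBijective (f : Module.End F A)
      ⟨LinearMap.ker_eq_bot.1 hk, LinearMap.range_eq_top.1 hr⟩
    have he : ∀ x, (f : Module.End F A) (e.symm x) = x := fun x => e.apply_symm_apply x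
    refine ⟨⟨e.symm.toLinearMap, fun a b => ⟨e.injective ?_, e.injective ?_⟩⟩, ?_⟩
    · change (f : Module.End F A) (e.symm _) = (f : Module.End F A) (e.symm a * b)
      rw [he, (f.2 _ _).1, he]
    · change (f : Module.End F A) (e.symm _) = (f : Module.End F A) (a * e.symm b)
      rw [he, (f.2 _ _).2, he]
    · apply Subtype.ext
      ext x
      exact he x

variable [h2 : Fact ((2 : F) ≠ 0)] [Fact (KokId A)]

lemma cen_j (g : Cen F A) (a b : A) :
    ι F ((g : Module.End F A) a) * ι F b = ι F ((g : Module.End F A) (sn F (ι F a * ι F b))) := by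
  rw [← ι_j, ← ι_j, sn_ι, map_add (g : Module.End F A), (g.2 a b).1, (g.2 b a).2]

lemma cen_br (g : Cen F A) (a b : A) :
    cm ((g : Module.End F A) a) b = (g : Module.End F A) (cm a b) := by
  rw [cm, cm, map_sub, (g.2 a b).1, (g.2 b a).2]

/-- multiplication operator of the plus algebra -/
def LL (v : U F A) : Module.End F A := sn F ∘ₗ LinearMap.mulLeft F v ∘ₗ ι F

lemma ι_LL (v : U F A) (a : A) : ι F (LL v a) = v * ι F a := ι_sn (by simp)

lemma LL_mul (v w : U F A) : LL (v * w) = LL v * LL w := by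
  ext a; apply ι_inj (F := F); simp [ι_LL, mul_assoc]

lemma LL_pow (v : U F A) (n : ℕ) : LL (v ^ n) = LL v ^ n := by
  induction n with
  | zero => ext a; apply ι_inj (F := F); simp [ι_LL]
  | succ n ih => rw [pow_succ, LL_mul, ih, pow_succ]

lemma LL_cen (v : U F A) (hv : ∀ w, br F v w = 0) : LL v ∈ Cen F A := by
  intro a b
  have k : ∀ c : A, c + c = 0 → c = 0 := fun c => two_cancel (F := F)
  constructor
  · rw [← sub_eq_zero]; apply k; apply ι_inj (F := F)
    have e1 := two_ι_mul (F := F) a b
    have e2 := two_ι_mul (F := F) (LL v a) b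
    rw [ι_LL, br_mul, hv] at e2
    simp only [map_add, map_sub, ι_LL, map_zero]
    linear_combination v * e1 - e2
  · rw [← sub_eq_zero]; apply k; apply ι_inj (F := F)
    have e1 := two_ι_mul (F := F) a b
    have e2 := two_ι_mul (F := F) a (LL v b)
    rw [ι_LL, br_mul', br_skew _ v, hv] at e2
    simp only [map_add, map_sub, ι_LL, map_zero]
    linear_combination v * e1 - e2

lemma cen_LL (g : Cen F A) (x : A) : Commute (LL (ι F x)) (g : Module.End F A) := by
  ext a
  apply ι_inj (F := F)
  simp only [Module.End.mul_apply, ι_LL]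
  rw [mul_comm, cen_j, mul_comm]; rfl

lemma fin_case (hLA : LocAdm F S) (hA : Sat F S A) (hs : IsSimple F A) [Finite (Cen F A)]
    (x y : A) : IsNilpotent (ι F (cm x y)) := by
  letI : Field (Cen F A) := (cen_field hs).toField
  haveI : Finite F := Finite.of_injective _ (algebraMap F (Cen F A)).injective
  obtain ⟨p, hp⟩ := CharP.exists F
  haveI : Fact p.Prime := ⟨CharP.char_is_prime F p⟩
  haveI : CharP (Cen F A) p := charP_of_injective_algebraMap (algebraMap F (Cen F A)).injective p
  haveI : Nontrivial A := by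
    obtain ⟨a, b, hab⟩ := hs.1
    exact ⟨⟨_, _, hab⟩⟩
  haveI : CharP (Module.End F A) p :=
    charP_of_injective_algebraMap (algebraMap F (Module.End F A)).injective p
  have hpU : ((p : ℕ) : U F A) = 0 := by
    rw [← map_natCast (algebraMap F (U F A)), CharP.cast_eq_zero, map_zero]
  have nil : ∀ x : A, ∃ d : Cen F A, ∀ w : A,
      IsNilpotent (ι F x * ι F w - ι F ((d : Module.End F A) w)) := by
    intro x
    obtain ⟨q, hq⟩ : ∃ q, p = q + 1 := ⟨p - 1, by have := (Fact.out : p.Prime).pos; omega⟩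
    have hc : LL (ι F x ^ p) ∈ Cen F A := LL_cen _ (fun w => by
      rw [hq, br_pow, ← hq, hpU]; simp)
    obtain ⟨d, hd⟩ := (Finite.injective_iff_surjective.1 (frobenius (Cen F A) p).injective)
      ⟨_, hc⟩
    refine ⟨d, fun w => ?_⟩
    set L : Module.End F A := LL (ι F x) - d with hL
    have hLp : L ^ p = 0 := by
      rw [hL, sub_pow_char_of_commute _ (cen_LL d x), ← LL_pow, sub_eq_zero]
      exact (congrArg Subtype.val hd).symm
    have l1 : ∀ a b : A, ι F (L a) * ι F b = ι F (L (sn F (ι F a * ι F b))) := by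
      intro a b
      simp only [hL, LinearMap.sub_apply, map_sub, ι_LL, sub_mul, cen_j]
      rw [ι_sn (by simp), mul_assoc]
    have l2 : ∀ (k : ℕ) (a b : A), ι F ((L ^ k) a) * ι F b =
        ι F ((L ^ k) (sn F (ι F a * ι F b))) := by
      intro k
      induction k with
      | zero => intro a b; simp only [pow_zero, Module.End.one_apply]; rw [ι_sn (by simp)]
      | succ k ih =>
        intro a b
        rw [pow_succ', Module.End.mul_apply, l1, ih, sn_ι, Module.End.mul_apply]
    have l3 : ∀ k : ℕ, ∃ v : A, ι F (L w) ^ (k + 1) = ι F ((L ^ k) v) := by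
      intro k
      induction k with
      | zero => exact ⟨L w, by simp⟩
      | succ k ih =>
        obtain ⟨v, hv⟩ := ih
        refine ⟨sn F (ι F v * ι F w), ?_⟩
        rw [pow_succ', hv, l1, mul_comm (ι F w), l2, sn_ι, pow_succ', Module.End.mul_apply]
    obtain ⟨v, hv⟩ := l3 p
    refine ⟨p + 1, ?_⟩
    have : ι F x * ι F w - ι F ((d : Module.End F A) w) = ι F (L w) := by
      simp [hL, ι_LL]
    rw [this, hv, hLp]; simp
  obtain ⟨d, hd⟩ := nil x
  obtain ⟨e, he⟩ := nil y
  set c := cm x y with hc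
  set X : A := sn F (ι F x * ι F c) - (d : Module.End F A) c with hX
  set Y : A := sn F (ι F y * ι F c) - (e : Module.End F A) c with hY
  have iX : ι F X = ι F x * ι F c - ι F ((d : Module.End F A) c) := by
    rw [hX, map_sub, ι_sn (by simp)]
  have iY : ι F Y = ι F y * ι F c - ι F ((e : Module.End F A) c) := by
    rw [hY, map_sub, ι_sn (by simp)]
  obtain ⟨m, hm⟩ := main hLA hA (nilradical (U F A)) X Y (by rw [iX]; exact hd c)
    (by rw [iY]; exact he c)
  have hn : IsNilpotent (br F (ι F X) (ι F Y)) := IsNilpotent.of_pow hm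
  have b1 : br F (ι F ((d : Module.End F A) c)) (ι F Y) =
      ι F ((d : Module.End F A) (cm c Y)) := by rw [br_ι, cen_br]
  have b2 : br F (ι F ((e : Module.End F A) c)) (ι F x) =
      ι F ((e : Module.End F A) (cm c x)) := by rw [br_ι, cen_br]
  have e1 : br F (ι F X) (ι F Y) = (ι F x * ι F (cm c Y) - ι F ((d : Module.End F A) (cm c Y))) -
      ι F c * (ι F y * ι F (cm c x) - ι F ((e : Module.End F A) (cm c x))) + ι F c ^ 3 := by
    rw [iX, br_sub, br_mul, b1, br_ι c Y, br_skew (ι F x) (ι F Y), iY, br_sub, br_mul, b2,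
      br_ι c x, br_skew (ι F y), br_ι x y, ← hc]
    ring
  have e2 : ι F c ^ 3 ∈ nilradical (U F A) := by
    have : ι F c ^ 3 = br F (ι F X) (ι F Y) -
        (ι F x * ι F (cm c Y) - ι F ((d : Module.End F A) (cm c Y))) +
        ι F c * (ι F y * ι F (cm c x) - ι F ((e : Module.End F A) (cm c x))) := by
      rw [e1]; ring
    rw [this]
    exact add_mem (sub_mem hn (hd _)) (Ideal.mul_mem_left _ _ (he _))
  exact IsNilpotent.of_pow e2

/-- monomial functions -/
def mono (i j : ℕ) : A →ₗ[F] (Cen F A × Cen F A → A) :=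
  LinearMap.pi fun p => ((p.1 ^ i * p.2 ^ j : Cen F A) : Module.End F A)

omit h2 [Fact (KokId A)] in
lemma mono_apply (i j : ℕ) (a : A) (p : Cen F A × Cen F A) :
    mono i j a p = ((p.1 ^ i * p.2 ^ j : Cen F A) : Module.End F A) a := rfl

omit h2 [Fact (KokId A)] in
lemma mono_mul (hs : IsSimple F A) (i j k l : ℕ) (a b : A) :
    mono (F := F) i j a * mono (F := F) k l b = mono (F := F) (i + k) (j + l) (a * b) := by
  letI : Field (Cen F A) := (cen_field hs).toField
  funext p
  have : (p.1 ^ (i + k) * p.2 ^ (j + l) : Cen F A) = (p.1 ^ i * p.2 ^ j) * (p.1 ^ k * p.2 ^ l) := by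
    ring
  rw [Pi.mul_apply, mono_apply, mono_apply, mono_apply, this, MulMemClass.coe_mul _ (p.1 ^ i * p.2 ^ j),
    Module.End.mul_apply, ((p.1 ^ k * p.2 ^ l).2 a b).2, ((p.1 ^ i * p.2 ^ j).2 a _).1]

noncomputable def rep : ((ℕ × ℕ) →₀ A) →ₗ[F] (Cen F A × Cen F A → A) :=
  Finsupp.lsum F fun m => mono m.1 m.2

omit h2 [Fact (KokId A)] in
lemma rep_inj (hs : IsSimple F A) [Infinite (Cen F A)] :
    Function.Injective (rep (F := F) (A := A)) := by
  classical
  letI : Field (Cen F A) := (cen_field hs).toField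
  rw [← LinearMap.ker_eq_bot, LinearMap.ker_eq_bot']
  intro c hc
  ext m
  rw [Finsupp.zero_apply, ← Module.forall_dual_apply_eq_zero_iff (Cen F A)]
  intro l
  let e : ℕ × ℕ → (Fin 2 →₀ ℕ) := fun m => Finsupp.single 0 m.1 + Finsupp.single 1 m.2
  have he : Function.Injective e := by
    intro a b h
    have h0 := DFunLike.congr_fun h 0
    have h1 := DFunLike.congr_fun h 1
    simp [e] at h0 h1
    exact Prod.ext h0 h1
  let Q : MvPolynomial (Fin 2) (Cen F A) := ∑ k ∈ c.support, MvPolynomial.monomial (e k) (l (c k))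
  have hQ : Q = 0 := by
    apply MvPolynomial.funext
    intro pt
    have := congrArg l (congrFun hc (pt 0, pt 1))
    simp only [rep, Finsupp.lsum_apply, Finsupp.sum, Finset.sum_apply, map_sum, Pi.zero_apply,
      map_zero] at this
    rw [map_zero, ← this]
    simp only [Q, map_sum]
    refine Finset.sum_congr rfl fun k _ => ?_
    have h3 : mono k.1 k.2 (c k) (pt 0, pt 1) = (pt 0 ^ k.1 * pt 1 ^ k.2 : Cen F A) • c k := rfl
    rw [h3, map_smul, MvPolynomial.eval_monomial, Finsupp.prod_add_index' (by simp)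
      (by intros; rw [pow_add])]
    simp [mul_comm]
  have := congrArg (MvPolynomial.coeff (e m)) hQ
  simp only [Q, MvPolynomial.coeff_sum, MvPolynomial.coeff_monomial, he.eq_iff,
    MvPolynomial.coeff_zero, Finset.sum_ite_eq', Finsupp.mem_support_iff] at this
  by_cases h : c m = 0
  · rw [h, map_zero]
  · simpa [h] using this

lemma inf_case (hLA : LocAdm F S) (hA : Sat F S A) (hs : IsSimple F A) [Infinite (Cen F A)]
    (x y : A) : IsNilpotent (ι F (cm x y)) := by
  have hrs : ∀ i j (a : A), rep (Finsupp.single (i, j) a) = mono (F := F) i j a := by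
    intro i j a; simp [rep]
  have ind : ∀ (Q : ((ℕ × ℕ) →₀ A) → Prop), Q 0 → (∀ a b, Q a → Q b → Q (a + b)) →
      (∀ i j a, Q (Finsupp.single (i, j) a)) → ∀ c, Q c := by
    intro Q h0 h1 h2 c
    induction c using Finsupp.induction_linear with
    | zero => exact h0
    | add a b ha hb => exact h1 a b ha hb
    | single m a => exact h2 m.1 m.2 a
  let B : NonUnitalSubalgebra F (Cen F A × Cen F A → A) :=
    { (LinearMap.range (rep (F := F) (A := A))) with
      mul_mem' := by
        rintro _ _ ⟨c, rfl⟩ ⟨d, rfl⟩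
        change rep c * rep d ∈ LinearMap.range (rep (F := F) (A := A))
        refine ind (fun c => rep c * rep d ∈ LinearMap.range (rep (F := F) (A := A))) (by simp)
          (fun a b ha hb => by rw [map_add, add_mul]; exact add_mem ha hb) (fun i j a => ?_) c
        refine ind (fun d => rep (Finsupp.single (i, j) a) * rep d ∈
          LinearMap.range (rep (F := F) (A := A))) (by simp)
          (fun a b ha hb => by rw [map_add, mul_add]; exact add_mem ha hb) (fun k l b => ?_) d
        exact ⟨Finsupp.single (i + k, j + l) (a * b), by rw [hrs, hrs, hrs, mono_mul hs]⟩ }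
  haveI : Fact (KokId B) := ⟨fun a b c => by
    apply Subtype.ext
    funext p
    exact (Fact.out : KokId A) (a.1 p) (b.1 p) (c.1 p)⟩
  have hB : Sat F S B := (hA.pi _).of_inj (NonUnitalSubalgebraClass.subtype B)
    Subtype.val_injective
  let E : ((ℕ × ℕ) →₀ A) ≃ₗ[F] B := LinearEquiv.ofInjective _ (rep_inj hs)
  let ev0 : ((ℕ × ℕ) →₀ A) →ₗ[F] U F A :=
    Finsupp.lsum F fun m => LinearMap.mulLeft F (ι F x ^ m.1 * ι F y ^ m.2) ∘ₗ ι F
  let ev : B →ₗ[F] U F A := ev0 ∘ₗ E.symm.toLinearMap
  let mo : ℕ → ℕ → A → B := fun i j a => E (Finsupp.single (i, j) a)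
  have ev_mo : ∀ i j a, ev (mo i j a) = ι F x ^ i * ι F y ^ j * ι F a := by
    intro i j a; simp [ev, mo, ev0, mul_assoc]
  have mo_mul : ∀ i j k l a b, mo i j a * mo k l b = mo (i + k) (j + l) (a * b) := by
    intro i j k l a b
    apply Subtype.ext
    change rep _ * rep _ = rep _
    rw [hrs, hrs, hrs, mono_mul hs]
  have mo_add : ∀ i j a b, mo i j (a + b) = mo i j a + mo i j b := by
    intro i j a b; simp [mo, Finsupp.single_add]
  have mo_sub : ∀ i j a b, mo i j (a - b) = mo i j a - mo i j b := by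
    intro i j a b; simp [mo, Finsupp.single_sub]
  have ev_j : ∀ f g : B, ev (f * g + g * f) = ev f * ev g := by
    intro f g
    obtain ⟨c, rfl⟩ := E.surjective f
    obtain ⟨d, rfl⟩ := E.surjective g
    refine ind (fun c => ev (E c * E d + E d * E c) = ev (E c) * ev (E d)) (by simp)
      (fun a b ha hb => ?_) (fun i j a => ?_) c
    · simp only [map_add, add_mul, mul_add] at ha hb ⊢
      linear_combination ha + hb
    · refine ind (fun d => ev (mo i j a * E d + E d * mo i j a) = ev (mo i j a) * ev (E d)) (by simp)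
        (fun a b ha hb => ?_) (fun k l b => ?_) d
      · simp only [map_add, add_mul, mul_add] at ha hb ⊢
        linear_combination ha + hb
      · change ev (mo i j a * mo k l b + mo k l b * mo i j a) = ev (mo i j a) * ev (mo k l b)
        rw [mo_mul, mo_mul, add_comm k i, add_comm l j, ← mo_add, ev_mo, ev_mo, ev_mo, ι_j]
        ring
  let evP : P F B →ₙₐ[F] U F A :=
    { toFun := fun f => ev (ofP f)
      map_smul' := fun c f => ev.map_smul c (ofP f)
      map_zero' := ev.map_zero
      map_add' := fun f g => ev.map_add (ofP f) (ofP g)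
      map_mul' := fun f g => ev_j (ofP f) (ofP g) }
  let ψ : U F B →ₐ[F] U F A := Unitization.lift evP
  have hψ : ∀ f : B, ψ (ι F f) = ev f := fun f => by
    change Unitization.lift evP (Unitization.inr (toP F f)) = _
    simp [evP]; rfl
  set c := cm x y with hc
  let X : B := mo 0 0 (sn F (ι F x * ι F c)) - mo 1 0 c
  let Y : B := mo 0 0 (sn F (ι F y * ι F c)) - mo 0 1 c
  obtain ⟨m, hm⟩ := main hLA hB (RingHom.ker ψ) X Y (by
      rw [RingHom.mem_ker, hψ, map_sub, ev_mo, ev_mo, ι_sn (by simp)]; ring) (by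
      rw [RingHom.mem_ker, hψ, map_sub, ev_mo, ev_mo, ι_sn (by simp)]; ring)
  rw [RingHom.mem_ker, map_pow, br_ι, hψ] at hm
  have cmm : ∀ i j k l a b, cm (mo i j a) (mo k l b) = mo (i + k) (j + l) (cm a b) := by
    intro i j k l a b
    rw [cm, mo_mul, mo_mul, add_comm k i, add_comm l j, ← mo_sub, cm]
  have cms : ∀ p q r s : B, cm (p - q) (r - s) = cm p r - cm p s - cm q r + cm q s := by
    intro p q r s; simp only [cm, mul_sub, sub_mul]; abel
  have : ev (cm X Y) = ι F c ^ 3 := by
    rw [cms, cmm, cmm, cmm, cmm]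
    simp only [map_add, map_sub, ev_mo, ← br_ι]
    rw [ι_sn (by simp), ι_sn (by simp)]
    simp only [br_mul, br_mul', br_self]
    rw [br_skew (ι F x) (ι F c), br_ι x y, ← hc]
    ring
  rw [this, ← pow_mul] at hm
  exact ⟨_, hm⟩

theorem final (hLA : LocAdm F S) (hA : Sat F S A) (hs : IsSimple F A) :
    (∀ a b : A, a * b = b * a) ∧ (∀ a b c : A, a * b * c = a * (b * c)) ∧
      ∃ e : A, e ≠ 0 ∧ (∀ a, e * a = a) ∧ ∀ a : A, a ≠ 0 → ∃ b, a * b = e := by
  have nil : ∀ x y : A, IsNilpotent (ι F (cm x y)) := by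
    rcases finite_or_infinite (Cen F A) with h | h
    · exact fin_case hLA hA hs
    · exact inf_case hLA hA hs
  have k : ∀ c : A, c + c = 0 → c = 0 := fun c => two_cancel (F := F)
  rcases simple_ideal hs (nilradical (U F A)) (fun v _ w => nil _ _) with h | h
  swap
  · exfalso
    by_cases hj : ∀ a b : A, ι F a * ι F b = 0
    · refine anti_case hLA hA hs (fun x => k _ (ι_inj (F := F) ?_))
      rw [ι_j, hj, map_zero]
    · push Not at hj
      obtain ⟨a, b, hab⟩ := hj
      exact nil_case hs h a b hab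
  have comm : ∀ a b : A, a * b = b * a := fun a b => sub_eq_zero.1 (h _ (nil a b))
  have assoc : ∀ a b c : A, a * b * c = a * (b * c) := by
    intro a b c
    have := jassoc F (Fact.out : KokId A) a b c
    rw [← sub_eq_zero]; apply k; apply k
    rw [comm b a, comm c b, comm c, comm (b * c + b * c) a, add_mul, mul_add] at this
    linear_combination (norm := module) this
  have surj : ∀ a : A, a ≠ 0 → ∀ b, ∃ c, a * c = b := by
    intro a ha b
    rcases hs.2 (LinearMap.range (LinearMap.mulLeft F a)) (by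
      rintro r _ ⟨x, rfl⟩
      refine ⟨⟨r * x, ?_⟩, ⟨x * r, ?_⟩⟩
      · simp only [LinearMap.mulLeft_apply]
        rw [← assoc, comm a r, assoc]
      · simp only [LinearMap.mulLeft_apply]
        rw [assoc]) with h1 | h1
    · exfalso
      have h3 : ∀ r, a * r = 0 := fun r => by
        have : a * r ∈ LinearMap.range (LinearMap.mulLeft F a) := ⟨r, rfl⟩
        rwa [h1] at this
      rcases hs.2 (Submodule.span F {a}) (by
        intro r x hx
        obtain ⟨t, rfl⟩ := Submodule.mem_span_singleton.1 hx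
        rw [mul_smul_comm, smul_mul_assoc, comm r a, h3, smul_zero]
        exact ⟨zero_mem _, zero_mem _⟩) with h4 | h4
      · exact ha (Submodule.span_singleton_eq_bot.1 h4)
      · obtain ⟨p, q, hpq⟩ := hs.1
        have : p ∈ Submodule.span F {a} := by rw [h4]; trivial
        obtain ⟨t, rfl⟩ := Submodule.mem_span_singleton.1 this
        exact hpq (by rw [smul_mul_assoc, h3, smul_zero])
    · have : b ∈ LinearMap.range (LinearMap.mulLeft F a) := by rw [h1]; trivial
      exact this
  obtain ⟨p, q, hpq⟩ := hs.1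
  obtain ⟨e, he⟩ := surj _ hpq (p * q)
  refine ⟨comm, assoc, e, fun h0 => hpq (by rw [← he, h0, mul_zero]), fun a => ?_,
    fun a ha => surj a ha e⟩
  obtain ⟨c, rfl⟩ := surj _ hpq a
  rw [← assoc, comm e, he]

end Pool.Agent.Lib.helper7.Kok
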