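import Mathlib

set_option autoImplicit false

namespace Pool.Agent.Lib.helper7.LAut

/-- the irrational numbers -/
abbrev Irr : Type := {x : ℝ // Irrational x}

/-- the universal cover of the projective line, irrational points -/
abbrev L : Type := ℤ ×ₗ Irr

def kk (l : L) : ℤ := (ofLex l).1
def tt (l : L) : ℝ := (ofLex l).2.1
def mkL (k : ℤ) (t : ℝ) (h : Irrational t) : L := toLex (k, ⟨t, h⟩)

@[simp] theorem kk_mk (k : ℤ) (t : ℝ) (h : Irrational t) : kk (mkL k t h) = k := rfl
@[simp] theorem tt_mk (k : ℤ) (t : ℝ) (h : Irrational t) : tt (mkL k t h) = t := rfl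
theorem tt_irr (l : L) : Irrational (tt l) := (ofLex l).2.2
theorem tt_ne (l : L) : tt l ≠ 0 := (tt_irr l).ne_zero
theorem L_lt (l l' : L) : l < l' ↔ kk l < kk l' ∨ kk l = kk l' ∧ tt l < tt l' :=
  Prod.Lex.lt_iff
theorem L_ext {l l' : L} (h1 : kk l = kk l') (h2 : tt l = tt l') : l = l' :=
  ofLex.injective (Prod.ext h1 (Subtype.ext h2))

noncomputable def sf (l : L) : L :=
  mkL (if tt l < 0 then kk l else kk l + 1) (-(tt l)⁻¹) (tt_irr l).inv.neg
noncomputable def sg (l : L) : L :=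
  mkL (if 0 < tt l then kk l else kk l - 1) (-(tt l)⁻¹) (tt_irr l).inv.neg

theorem sf_mono : StrictMono sf := by
  intro l l' h
  rw [L_lt] at h ⊢
  simp only [sf, kk_mk, tt_mk]
  have h0 := tt_ne l
  have h0' := tt_ne l'
  by_cases h1 : tt l < 0 <;> by_cases h2 : tt l' < 0 <;> simp only [h1, h2, if_true, if_false]
  · rcases h with h | ⟨h, h'⟩
    · exact Or.inl h
    · refine Or.inr ⟨h, ?_⟩
      rw [neg_lt_neg_iff]
      exact (inv_lt_inv_of_neg h2 h1).2 h'
  · left
    rcases h with h | ⟨h, h'⟩ <;> omega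
  · have h1' : 0 < tt l := lt_of_le_of_ne (not_lt.1 h1) h0.symm
    rcases h with h | ⟨h, h'⟩
    · rcases lt_or_eq_of_le (Int.add_one_le_of_lt h) with h3 | h3
      · exact Or.inl h3
      · refine Or.inr ⟨h3, ?_⟩
        have := inv_pos.2 h1'
        have := inv_lt_zero.2 h2
        linarith
    · linarith
  · have h1' : 0 < tt l := lt_of_le_of_ne (not_lt.1 h1) h0.symm
    have h2' : 0 < tt l' := lt_of_le_of_ne (not_lt.1 h2) h0'.symm
    rcases h with h | ⟨h, h'⟩
    · left; omega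
    · refine Or.inr ⟨by omega, ?_⟩
      rw [neg_lt_neg_iff]
      exact (inv_lt_inv₀ h2' h1').2 h'

theorem sf_sg (l : L) : sf (sg l) = l := by
  refine L_ext ?_ ?_
  · simp only [sf, sg, kk_mk, tt_mk, neg_lt_zero, inv_pos]
    split_ifs <;> omega
  · simp [sf, sg]

noncomputable def S : L ≃o L := sf_mono.orderIsoOfRightInverse sf sg sf_sg

theorem kk_S (l : L) : kk (S l) = if tt l < 0 then kk l else kk l + 1 := rfl
theorem tt_S (l : L) : tt (S l) = -(tt l)⁻¹ := rfl

noncomputable def T : L ≃o L :=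
  StrictMono.orderIsoOfRightInverse
    (fun l => mkL (kk l) (tt l + 1) (by simpa using (tt_irr l).add_natCast 1))
    (by
      intro l l' h
      rw [L_lt] at h ⊢
      simpa using h)
    (fun l => mkL (kk l) (tt l - 1) (by simpa using (tt_irr l).sub_natCast 1))
    (fun l => L_ext rfl (by simp))

theorem kk_T (l : L) : kk (T l) = kk l := rfl
theorem tt_T (l : L) : tt (T l) = tt l + 1 := rfl

theorem kk_SS (l : L) : kk (S (S l)) = kk l + 1 := by
  have h0 := tt_ne l
  simp only [kk_S, tt_S, neg_lt_zero, inv_pos]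
  rcases lt_or_gt_of_ne h0 with h | h
  · simp [h, not_lt.2 h.le]
  · simp [h, not_lt.2 h.le]

theorem tt_SS (l : L) : tt (S (S l)) = tt l := by
  simp [tt_S]

theorem rel3 : (S * T) ^ 3 = S ^ 4 := by
  refine RelIso.ext fun l => ?_
  have h0 := tt_ne l
  have h1 : tt l + 1 ≠ 0 := tt_ne (T l)
  have e1 : tt (T (S (T l))) = tt l / (tt l + 1) := by
    simp only [tt_T, tt_S]; field_simp; ring
  have e2 : tt (T (S (T (S (T l))))) = -(tt l)⁻¹ := by
    rw [tt_T, tt_S, e1]; field_simp; ring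
  simp only [pow_succ, pow_zero, one_mul, RelIso.mul_apply]
  refine L_ext ?_ ?_
  · rw [kk_SS, kk_SS, kk_S, e2, kk_T, kk_S, e1, kk_T, kk_S, kk_T, tt_T]
    simp only [neg_lt_zero, inv_pos]
    rcases lt_or_gt_of_ne h0 with h | h
    · rcases lt_or_gt_of_ne h1 with h' | h'
      · have : 0 < tt l / (tt l + 1) := div_pos_of_neg_of_neg h h'
        simp [h', not_lt.2 h.le, not_lt.2 this.le]
      · have : tt l / (tt l + 1) < 0 := div_neg_of_neg_of_pos h h'
        simp [not_lt.2 h'.le, not_lt.2 h.le, this]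
    · have h' : 0 < tt l + 1 := by linarith
      have : 0 < tt l / (tt l + 1) := div_pos h h'
      simp [not_lt.2 h'.le, h, not_lt.2 this.le]
  · rw [tt_SS, tt_SS, tt_S, e2]; simp

theorem T_comm : T ∈ Subgroup.centralizer {S * S} := by
  rw [Subgroup.mem_centralizer_singleton_iff]
  refine RelIso.ext fun l => L_ext ?_ ?_
  · simp only [RelIso.mul_apply, kk_SS, kk_T]
  · simp only [RelIso.mul_apply, tt_SS, tt_T]

theorem lt_S (l : L) : l < S l := by
  rw [L_lt, kk_S, tt_S]
  split_ifs with h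
  · refine Or.inr ⟨rfl, ?_⟩
    have := inv_lt_zero.2 h
    linarith
  · left; omega

theorem lt_S_pow (l : L) (c : ℤ) (hc : 0 < c) : l < (S ^ c) l := by
  obtain ⟨n, rfl⟩ : ∃ n : ℕ, c = (n + 1 : ℕ) := ⟨(c - 1).toNat, by omega⟩
  rw [zpow_natCast]
  clear hc
  induction n with
  | zero => simpa using lt_S l
  | succ n ih => rw [pow_succ', RelIso.mul_apply]; exact ih.trans (lt_S _)


/-- order automorphisms of a chain, to be ordered pointwise -/
def Aut (Ω : Type) [LinearOrder Ω] : Type := Ω ≃o Ω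

section
variable {Ω : Type} [LinearOrder Ω]

instance : Group (Aut Ω) := inferInstanceAs (Group (Ω ≃o Ω))

/-- the underlying order isomorphism -/
def Aut.iso (f : Aut Ω) : Ω ≃o Ω := f

theorem Aut.mul_iso (f g : Aut Ω) (x : Ω) : (f * g).iso x = f.iso (g.iso x) := rfl
theorem Aut.one_iso (x : Ω) : (1 : Aut Ω).iso x = x := rfl
theorem Aut.ext' {f g : Aut Ω} (h : ∀ x, f.iso x = g.iso x) : f = g := RelIso.ext h

noncomputable def Aut.sup (f g : Aut Ω) : Aut Ω :=
  StrictMono.orderIsoOfRightInverse (fun x => max (f.iso x) (g.iso x))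
    (fun _ _ h => max_lt_max (f.iso.strictMono h) (g.iso.strictMono h))
    (fun y => min (f.iso.symm y) (g.iso.symm y))
    (fun y => by
      show max (f.iso (min _ _)) (g.iso (min _ _)) = y
      rw [f.iso.monotone.map_min, g.iso.monotone.map_min, f.iso.apply_symm_apply,
        g.iso.apply_symm_apply]
      rcases le_total (f.iso.symm y) (g.iso.symm y) with h | h
      · have h1 := f.iso.monotone h
        rw [f.iso.apply_symm_apply] at h1
        rw [min_eq_left h1]
        exact max_eq_left (min_le_right _ _)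
      · have h1 := g.iso.monotone h
        rw [g.iso.apply_symm_apply] at h1
        rw [min_eq_right h1]
        exact max_eq_right (min_le_left _ _))

noncomputable def Aut.inf (f g : Aut Ω) : Aut Ω :=
  StrictMono.orderIsoOfRightInverse (fun x => min (f.iso x) (g.iso x))
    (fun _ _ h => min_lt_min (f.iso.strictMono h) (g.iso.strictMono h))
    (fun y => max (f.iso.symm y) (g.iso.symm y))
    (fun y => by
      show min (f.iso (max _ _)) (g.iso (max _ _)) = y
      rw [f.iso.monotone.map_max, g.iso.monotone.map_max, f.iso.apply_symm_apply,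
        g.iso.apply_symm_apply]
      rcases le_total (f.iso.symm y) (g.iso.symm y) with h | h
      · have h1 := g.iso.monotone h
        rw [g.iso.apply_symm_apply] at h1
        rw [max_eq_right h1]
        exact min_eq_right (le_max_left _ _)
      · have h1 := f.iso.monotone h
        rw [f.iso.apply_symm_apply] at h1
        rw [max_eq_left h1]
        exact min_eq_left (le_max_right _ _))

noncomputable instance : Lattice (Aut Ω) where
  le f g := ∀ x, f.iso x ≤ g.iso x
  le_refl _ _ := le_rfl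
  le_trans _ _ _ h1 h2 x := (h1 x).trans (h2 x)
  le_antisymm _ _ h1 h2 := Aut.ext' fun x => le_antisymm (h1 x) (h2 x)
  sup := Aut.sup
  le_sup_left _ _ _ := le_max_left _ _
  le_sup_right _ _ _ := le_max_right _ _
  sup_le _ _ _ h1 h2 x := max_le (h1 x) (h2 x)
  inf := Aut.inf
  inf_le_left _ _ _ := min_le_left _ _
  inf_le_right _ _ _ := min_le_right _ _
  le_inf _ _ _ h1 h2 x := le_min (h1 x) (h2 x)

theorem Aut.le_def (f g : Aut Ω) : f ≤ g ↔ ∀ x, f.iso x ≤ g.iso x := Iff.rfl

instance : MulLeftMono (Aut Ω) := ⟨fun f _ _ h x => f.iso.monotone (h x)⟩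
instance : MulRightMono (Aut Ω) := ⟨fun f _ _ h x => h (f.iso x)⟩

end

section
variable {D : Type*} [Group D] [Lattice D] [MulLeftMono D] [MulRightMono D]

theorem mul_eq_sup {x y : D} (h : x ⊓ y = 1) : x * y = x ⊔ y := by
  have h1 : x * (x ⊓ y)⁻¹ * y = x ⊔ y := by
    rw [inv_inf, mul_sup, sup_mul, mul_inv_cancel, one_mul, inv_mul_cancel_right, sup_comm]
  rwa [h, inv_one, mul_one] at h1

theorem comm_of_disj {x y : D} (h : x ⊓ y = 1) : x * y = y * x := by
  rw [mul_eq_sup h, mul_eq_sup (by rw [inf_comm]; exact h), sup_comm]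

theorem disj_mul {y c c' : D} (h : y ⊓ c = 1) (h' : y ⊓ c' = 1) : y ⊓ (c * c') = 1 := by
  have h1 : 1 ≤ c' := h' ▸ inf_le_right
  have h2 : y ≤ y * c' := le_mul_of_one_le_right' h1
  calc y ⊓ (c * c') = y ⊓ (y * c') ⊓ (c * c') := by rw [inf_eq_left.2 h2]
    _ = y ⊓ ((y ⊓ c) * c') := by rw [inf_assoc, inf_mul]
    _ = 1 := by rw [h, one_mul, h']

theorem disj_mono {y c c' : D} (h : y ⊓ c = 1) (h1 : 1 ≤ c') (h2 : c' ≤ c) : y ⊓ c' = 1 := by
  have hy : 1 ≤ y := h ▸ inf_le_left
  exact le_antisymm (h ▸ inf_le_inf_left y h2) (le_inf hy h1)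

theorem disj_conj {y a b t : D} (ha : y ⊓ a = 1) (hb : y ⊓ b = 1) (h1 : 1 ≤ t) (h2 : t ≤ b * y) :
    y ⊓ (t * a * t⁻¹) = 1 := by
  have hy : 1 ≤ y := ha ▸ inf_le_left
  have hb1 : 1 ≤ b := hb ▸ inf_le_right
  set u := t ⊓ b with hu
  set v := u⁻¹ * t with hv
  have hv' : v = 1 ⊔ b⁻¹ * t := by rw [hv, hu, inv_inf, sup_mul, inv_mul_cancel]
  have hv1 : 1 ≤ v := hv' ▸ le_sup_left
  have hv2 : v ≤ y := by
    rw [hv']
    exact sup_le hy (inv_mul_le_iff_le_mul.2 h2)
  have hva : a * v = v * a := comm_of_disj (disj_mono (by rw [inf_comm]; exact ha) hv1 hv2)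
  have huy : y * u = u * y := comm_of_disj (disj_mono hb (le_inf h1 hb1) inf_le_right)
  have ht : t = u * v := by rw [hv, mul_inv_cancel_left]
  have e1 : t * a * t⁻¹ = u * a * u⁻¹ := by
    rw [ht, mul_assoc u, ← hva]; group
  have e2 : y = u * y * u⁻¹ := by rw [← huy]; group
  rw [e1, e2, ← inf_mul, ← mul_inf, ha]; simp

end

/-- the three automorphisms, as elements of the lattice-ordered group -/
noncomputable def s : Aut L := S
noncomputable def t : Aut L := T

theorem st_comm : Commute (s * s) t := (Subgroup.mem_centralizer_singleton_iff.1 T_comm).symm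

theorem s_eq : s = (s * t * s⁻¹) * t * (s * t * s⁻¹) := by
  have h : (s * t) ^ 3 = s ^ 4 := rel3
  have h1 : t = (s * s) * t * (s * s)⁻¹ := by rw [st_comm.eq]; group
  have h2 : s * t * s⁻¹ = s * ((s * s) * t * (s * s)⁻¹) * s⁻¹ := by rw [← h1]
  calc s = (s * t) ^ 3 * (s ^ 3)⁻¹ := by rw [h]; group
    _ = (s * t * s⁻¹) * ((s * s) * t * (s * s)⁻¹) * (s * ((s * s) * t * (s * s)⁻¹) * s⁻¹) := by
      simp only [pow_succ, pow_zero]; group
    _ = _ := by rw [← h2, ← h1]

theorem one_le_s : 1 ≤ s := fun l => (lt_S l).le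

theorem kk_t_zpow (n : ℤ) (l : L) : kk ((t ^ n).iso l) = kk l ∧ tt ((t ^ n).iso l) = tt l + n := by
  induction n using Int.induction_on generalizing l with
  | zero => simp [Aut.one_iso]
  | succ n ih =>
    rw [zpow_add_one, Aut.mul_iso, (ih _).1, (ih _).2]
    refine ⟨rfl, ?_⟩
    rw [show tt (t.iso l) = tt l + 1 from rfl]; push_cast; ring
  | pred n ih =>
    rw [zpow_sub_one, Aut.mul_iso, (ih _).1, (ih _).2]
    refine ⟨rfl, ?_⟩
    rw [show tt (t⁻¹.iso l) = tt l - 1 from rfl]; push_cast; ring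

theorem kk_s_zpow (n : ℤ) (l : L) :
    kk (((s * s) ^ n).iso l) = kk l + n ∧ tt (((s * s) ^ n).iso l) = tt l := by
  have h1 : ∀ l : L, kk ((s * s).iso l) = kk l + 1 := kk_SS
  have h2 : ∀ l : L, tt ((s * s).iso l) = tt l := tt_SS
  induction n using Int.induction_on generalizing l with
  | zero => simp [Aut.one_iso]
  | succ n ih =>
    rw [zpow_add_one, Aut.mul_iso, (ih _).1, (ih _).2, h1, h2]
    exact ⟨by ring, rfl⟩
  | pred n ih =>
    have h3 := h1 ((s * s)⁻¹.iso l)
    have h4 := h2 ((s * s)⁻¹.iso l)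
    rw [← Aut.mul_iso, mul_inv_cancel, Aut.one_iso] at h3 h4
    rw [zpow_sub_one, Aut.mul_iso, (ih _).1, (ih _).2]
    exact ⟨by omega, h4.symm⟩

/-- the lexicographic plane -/
abbrev A : Type := Multiplicative (ℤ ×ₗ ℤ)

def A1 (x : A) : ℤ := (ofLex x.toAdd).1
def A2 (x : A) : ℤ := (ofLex x.toAdd).2

theorem A_le (x y : A) : x ≤ y ↔ A1 x < A1 y ∨ A1 x = A1 y ∧ A2 x ≤ A2 y := Prod.Lex.le_iff

theorem A_ext {x y : A} (h1 : A1 x = A1 y) (h2 : A2 x = A2 y) : x = y :=
  Multiplicative.toAdd.injective (ofLex.injective (Prod.ext h1 h2))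

noncomputable def gC : A →* Aut L where
  toFun x := (s * s) ^ A1 x * t ^ A2 x
  map_one' := by simp [A1, A2]
  map_mul' x y := by
    rw [show A1 (x * y) = A1 x + A1 y from rfl, show A2 (x * y) = A2 x + A2 y from rfl,
      zpow_add, zpow_add, mul_assoc, mul_assoc, ← mul_assoc ((s * s) ^ A1 y),
      (st_comm.zpow_zpow (A1 y) (A2 x)).eq, mul_assoc]

theorem gC_apply (x : A) (l : L) :
    kk ((gC x).iso l) = kk l + A1 x ∧ tt ((gC x).iso l) = tt l + A2 x := by
  show kk (((s * s) ^ A1 x * t ^ A2 x).iso l) = _ ∧ tt (((s * s) ^ A1 x * t ^ A2 x).iso l) = _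
  rw [Aut.mul_iso, (kk_s_zpow _ _).1, (kk_s_zpow _ _).2, (kk_t_zpow _ _).1, (kk_t_zpow _ _).2]
  exact ⟨rfl, rfl⟩

theorem gC_mono : Monotone gC := by
  intro x y h l
  rw [← not_lt, L_lt, (gC_apply x l).1, (gC_apply x l).2, (gC_apply y l).1, (gC_apply y l).2]
  rw [A_le] at h
  rintro (h1 | ⟨h1, h2⟩)
  · omega
  · have h3 : A2 y < A2 x := by exact_mod_cast (show (A2 y : ℝ) < A2 x by linarith)
    omega

theorem gC_inj : Function.Injective gC := by
  intro x y h
  have l : L := mkL 0 (√2) irrational_sqrt_two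
  have hx := gC_apply x l
  have hy := gC_apply y l
  rw [h] at hx
  refine A_ext (by have := hx.1; have := hy.1; omega) ?_
  have : (A2 x : ℝ) = A2 y := by have := hx.2; have := hy.2; linarith
  exact_mod_cast this

def fB : A →* A × Multiplicative ℤ where
  toFun x := (x, Multiplicative.ofAdd (A1 x))
  map_one' := rfl
  map_mul' _ _ := rfl

theorem fB_mono : Monotone fB := by
  intro x y h
  refine ⟨h, ?_⟩
  rw [A_le] at h
  show A1 x ≤ A1 y
  omega

theorem fB_inj : Function.Injective fB := fun _ _ h => congrArg Prod.fst h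

theorem no_amalgam {D : Type*} [Group D] [Lattice D] [MulLeftMono D] [MulRightMono D]
    (f' : A × Multiplicative ℤ →* D) (g' : Aut L →* D) (hf : Function.Injective f')
    (hfi : ∀ x y, f' (x ⊓ y) = f' x ⊓ f' y) (hgi : ∀ x y, g' (x ⊓ y) = g' x ⊓ g' y) :
    f'.comp fB ≠ g'.comp gC := by
  intro h
  have hm : ∀ x y, x ≤ y → g' x ≤ g' y := fun x y hxy => by
    rw [← inf_eq_left, ← hgi, inf_eq_left.2 hxy]
  let a : A := Multiplicative.ofAdd (toLex (0, 1))
  let b : A := Multiplicative.ofAdd (toLex (1, 0))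
  have ha1 : (1 : A) ≤ a := (A_le _ _).2 (Or.inr ⟨rfl, by decide⟩)
  have hb1 : (1 : A) ≤ b := (A_le _ _).2 (Or.inl (by decide))
  let y : A × Multiplicative ℤ := (1, Multiplicative.ofAdd 1)
  have hy1 : (1 : Multiplicative ℤ) ≤ Multiplicative.ofAdd 1 := by decide
  have ea : f' (a, 1) = g' t := by
    have := DFunLike.congr_fun h a
    have e : gC a = t := by
      show (s * s) ^ (0 : ℤ) * t ^ (1 : ℤ) = t
      simp
    rw [← e]; exact this
  have eb : f' (b, 1) * f' y = g' (s * s) := by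
    have := DFunLike.congr_fun h b
    have e : gC b = s * s := by
      show (s * s) ^ (1 : ℤ) * t ^ (0 : ℤ) = s * s
      simp
    rw [← e, ← map_mul]; exact this
  have d1 : f' y ⊓ g' t = 1 := by
    rw [← ea, ← hfi, ← map_one f']
    exact congrArg f' (Prod.ext (inf_eq_left.2 ha1) (inf_eq_right.2 hy1))
  have d2 : f' y ⊓ f' (b, 1) = 1 := by
    rw [← hfi, ← map_one f']
    exact congrArg f' (Prod.ext (inf_eq_left.2 hb1) (inf_eq_right.2 hy1))
  have hs1 : 1 ≤ g' s := by rw [← map_one g']; exact hm _ _ one_le_s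
  have hs2 : g' s ≤ f' (b, 1) * f' y := by
    rw [eb, map_mul]; exact le_mul_of_one_le_right' hs1
  have d3 := disj_conj d1 d2 hs1 hs2
  have d4 : f' y ⊓ g' s = 1 := by
    have := disj_mul (disj_mul d3 d1) d3
    rwa [← map_inv, ← map_mul, ← map_mul, ← map_mul, ← map_mul, ← s_eq] at this
  have d5 := disj_mul d4 d4
  rw [← map_mul, ← eb] at d5
  have h6 : f' y ≤ f' (b, 1) * f' y := le_mul_of_one_le_left' (d2 ▸ inf_le_right)
  rw [inf_eq_left.2 h6, ← map_one f'] at d5
  have := congrArg Prod.snd (hf d5)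
  exact absurd this (by decide)

end Pool.Agent.Lib.helper7.LAut
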