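import Mathlib

namespace Pool.Agent.Lib.H7Lam

open Finset

/-- amplitudes -/
noncomputable def h (m : ℕ) : ℝ := 1 / (m + 3).factorial

theorem h_pos (m : ℕ) : 0 < h m := by unfold h; positivity

theorem h_succ (m : ℕ) : h m = (m + 4) * h (m + 1) := by
  unfold h
  rw [show m + 1 + 3 = (m + 3) + 1 by ring, Nat.factorial_succ (m + 3)]
  push_cast
  field_simp
  ring

theorem h_anti : Antitone h := antitone_nat_of_succ_le fun m => by
  have := h_pos (m + 1)
  have h2 : (0 : ℝ) ≤ m := Nat.cast_nonneg m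
  rw [h_succ m]
  nlinarith

theorem h_le (m : ℕ) : h m ≤ 1 / (m + 3) := by
  unfold h
  have : ((m + 3 : ℕ) : ℝ) ≤ (m + 3).factorial := by exact_mod_cast Nat.self_le_factorial _
  push_cast at this
  gcongr

/-- basic facts of a node -/
def Base (c : ℕ → ℝ) (m l r : ℕ) : Prop :=
  l < r ∧ |∑ p ∈ Ico l r, c p| = h m ∧ ∀ v, l ≤ v → v ≤ r → |∑ p ∈ Ico l v, c p| ≤ 2 * h m

/-- nodes of the hierarchy -/
def Node (c : ℕ → ℝ) : ℕ → ℕ → ℕ → ℕ → Prop
  | 0, m, l, r => Base c m l r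
  | d + 1, m, l, r => Base c m l r ∧ ∃ (N : ℕ) (q : ℕ → ℕ), (m + 1) * (2 * l + 1) + 2 ≤ N ∧
      q 0 = l ∧ q N = r ∧ ∀ i < N, Node c d (m + 1) (q i) (q (i + 1))

theorem Node.base {c : ℕ → ℝ} {d m l r : ℕ} (H : Node c d m l r) : Base c m l r := by
  cases d
  · exact H
  · exact H.1

theorem Node.anti {c : ℕ → ℝ} {d : ℕ} : ∀ {m l r : ℕ}, Node c (d + 1) m l r → Node c d m l r := by
  induction d with
  | zero => intro m l r H; exact H.1
  | succ d ih =>
    rintro m l r ⟨h1, N, q, h2, h3, h4, h5⟩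
    exact ⟨h1, N, q, h2, h3, h4, fun i hi => ih (h5 i hi)⟩

theorem Node.le {c : ℕ → ℝ} {d d' m l r : ℕ} (hd : d ≤ d') (H : Node c d' m l r) :
    Node c d m l r := by
  induction hd with
  | refl => exact H
  | step _ ih => exact ih H.anti

theorem q_mono {q : ℕ → ℕ} {N : ℕ} (H : ∀ i < N, q i < q (i + 1)) {i j : ℕ} (hij : i ≤ j)
    (hj : j ≤ N) : q i ≤ q j := by
  induction hij with
  | refl => exact le_rfl
  | step _ ih => exact (ih (by omega)).trans (H _ (by omega)).le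

theorem q_find {q : ℕ → ℕ} {p : ℕ} (h0 : q 0 ≤ p) {i : ℕ} (hi : p < q i) :
    ∃ j < i, q j ≤ p ∧ p < q (j + 1) := by
  induction i with
  | zero => omega
  | succ i ih =>
    rcases lt_or_ge p (q i) with h1 | h1
    · obtain ⟨j, a, b⟩ := ih h1
      exact ⟨j, by omega, b⟩
    · exact ⟨i, by omega, h1, hi⟩

open Classical in
/-- the abstract filling process -/
structure Sys where
  c : ℕ → ℝ
  adj : ℕ → Prop
  x : ℕ → Bool → ℕ → Prop
  tot : ℕ → ℝ
  D : ℕ → Finset (Bool × ℕ)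
  B : ℕ
  mono1 : ∀ t b p, x t b p → x (t + 1) b p
  one : ∀ t b p b' p', x (t + 1) b p → ¬ x t b p → x (t + 1) b' p' → ¬ x t b' p' → p = p'
  fin : ∀ t, ∃ M, ∀ u, M ≤ u → tot t =
    ∑ p ∈ range u, ((if x t true p then c p else 0) - if x t false p then c p else 0)
  hD : ∀ t b p, adj p → ¬ (x t b p ↔ x t b (p + 1)) → (b, p) ∈ D t
  hB : ∀ t, (D t).card ≤ B

namespace Sys

variable (S : Sys)

open Classical in
/-- contribution of a folded position -/
noncomputable def F (t p : ℕ) : ℝ :=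
  (if S.x t true p then S.c p else 0) - if S.x t false p then S.c p else 0

/-- contribution of a final region -/
noncomputable def Reg (u t : ℕ) : ℝ := S.tot t - ∑ p ∈ range u, S.F t p

/-- boundaries in a final region -/
def k (t u : ℕ) : ℕ := ((S.D t).filter fun q => u ≤ q.2).card

/-- boundaries in an interval -/
def kk (t l r : ℕ) : ℕ := ((S.D t).filter fun q => l ≤ q.2 ∧ q.2 < r).card

/-- node inside one segment -/
def NodeA (d m l r : ℕ) : Prop := Node S.c d m l r ∧ ∀ p, l ≤ p → p + 1 < r → S.adj p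

/-- the region from `u` on is cut into nodes -/
def Good (d m u : ℕ) : Prop := ∃ P : ℕ → Prop, P u ∧ ∀ y, P y → ∃ z, S.NodeA d m y z ∧ P z

/-- one side of an interval is filled while the other one does not move -/
def Fill (b : Bool) (l r t1 t2 : ℕ) : Prop :=
  ∀ p, l ≤ p → p < r → ¬ S.x t1 b p ∧ S.x t2 b p ∧ (S.x t1 (!b) p ↔ S.x t2 (!b) p)

variable {S}

theorem mono {t t' : ℕ} (H : t ≤ t') {b : Bool} {p : ℕ} (hx : S.x t b p) : S.x t' b p := by
  induction H with
  | refl => exact hx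
  | step _ ih => exact S.mono1 _ _ _ ih

theorem Good.step {d m u : ℕ} (H : S.Good d m u) : ∃ z, S.NodeA d m u z ∧ S.Good d m z := by
  obtain ⟨P, h1, h2⟩ := H
  obtain ⟨z, h3, h4⟩ := h2 u h1
  exact ⟨z, h3, P, h4, h2⟩

theorem Good.cons {d m u z : ℕ} (h1 : S.NodeA d m u z) (H : S.Good d m z) : S.Good d m u := by
  refine ⟨fun y => y = u ∨ S.Good d m y, Or.inl rfl, ?_⟩
  rintro y (rfl | hy)
  · exact ⟨z, h1, Or.inr H⟩
  · obtain ⟨w, a, b⟩ := hy.step
    exact ⟨w, a, Or.inr b⟩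

theorem NodeA.kids {d m l r : ℕ} (H : S.NodeA (d + 1) m l r) : ∃ (N : ℕ) (q : ℕ → ℕ),
    (m + 1) * (2 * l + 1) + 2 ≤ N ∧ q 0 = l ∧ q N = r ∧
      ∀ i < N, S.NodeA d (m + 1) (q i) (q (i + 1)) := by
  obtain ⟨⟨-, N, q, h2, h3, h4, h5⟩, h6⟩ := H
  have hq : ∀ i < N, q i < q (i + 1) := fun i hi => (h5 i hi).base.1
  refine ⟨N, q, h2, h3, h4, fun i hi => ⟨h5 i hi, fun p a b => h6 p ?_ ?_⟩⟩
  · exact h3 ▸ (q_mono hq (Nat.zero_le i) hi.le).trans a
  · exact h4 ▸ b.trans_le (q_mono hq hi le_rfl)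

theorem Good.refine {d m u : ℕ} (H : S.Good (d + 1) m u) : S.Good d (m + 1) u := by
  refine ⟨fun y => ∃ (N : ℕ) (q : ℕ → ℕ) (i : ℕ), i ≤ N ∧ y = q i ∧ S.Good (d + 1) m (q N) ∧
    ∀ i < N, S.NodeA d (m + 1) (q i) (q (i + 1)), ⟨0, fun _ => u, 0, le_rfl, rfl, H, by simp⟩, ?_⟩
  rintro y ⟨N, q, i, h1, rfl, h2, h3⟩
  rcases h1.lt_or_eq with h4 | rfl
  · exact ⟨_, h3 i h4, N, q, i + 1, h4, rfl, h2, h3⟩
  · obtain ⟨z, a, b⟩ := h2.step
    obtain ⟨N', q', c1, c2, c3, c4⟩ := a.kids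
    exact ⟨q' 1, c2 ▸ c4 0 (by omega), N', q', 1, by omega, rfl, c3 ▸ b, c4⟩

theorem Good.kids {d m N : ℕ} {q : ℕ → ℕ} (H : S.Good d m (q N))
    (h : ∀ i < N, S.NodeA d m (q i) (q (i + 1))) : ∀ j ≤ N, S.Good d m (q j) := by
  intro j hj
  induction hj using Nat.decreasingInduction with
  | self => exact H
  | of_succ i hi ih => exact Good.cons (h i hi) ih

theorem const_of {t l r : ℕ} {b : Bool} (ha : ∀ p, l ≤ p → p + 1 < r → S.adj p)
    (hn : ∀ p, l ≤ p → p < r → (b, p) ∉ S.D t) {p : ℕ} (h1 : l ≤ p) (h2 : p < r) :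
    S.x t b p ↔ S.x t b l := by
  induction h1 with
  | refl => rfl
  | @step p h1 ih =>
    rw [← ih (by omega)]
    by_contra hc
    exact hn p h1 (by omega) (S.hD t b p (ha p h1 h2) fun e => hc e.symm)

theorem touched {t l r : ℕ} {b : Bool} (ha : ∀ p, l ≤ p → p + 1 < r → S.adj p)
    (h1 : ¬ ∀ p, l ≤ p → p < r → S.x t b p) (h2 : ¬ ∀ p, l ≤ p → p < r → ¬ S.x t b p) :
    ∃ p, l ≤ p ∧ p < r ∧ (b, p) ∈ S.D t := by
  by_contra hc
  push Not at hc h1 h2
  obtain ⟨p, a1, a2, a3⟩ := h1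
  obtain ⟨p', b1, b2, b3⟩ := h2
  exact a3 ((const_of ha hc a1 a2).2 ((const_of ha hc b1 b2).1 b3))

open Classical in
theorem seg_bound {t l r : ℕ} {b : Bool} {g : ℝ} (hlr : l < r)
    (ha : ∀ p, l ≤ p → p + 1 < r → S.adj p)
    (hg : ∀ v, l ≤ v → v ≤ r → |∑ p ∈ Ico l v, S.c p| ≤ g) :
    |∑ p ∈ Ico l r, if S.x t b p then S.c p else 0| ≤ g * (1 + S.kk t l r) := by
  have g0 : 0 ≤ g := (abs_nonneg _).trans (hg l le_rfl hlr.le)
  have key : ∀ v, l ≤ v → v < r → |(∑ p ∈ Ico l (v + 1), if S.x t b p then S.c p else 0) -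
      if S.x t b v then ∑ p ∈ Ico l (v + 1), S.c p else 0| ≤ g * S.kk t l v := by
    intro v hv
    induction hv with
    | refl =>
      intro _
      simp only [Nat.Ico_succ_singleton, sum_singleton, sub_self, abs_zero]
      positivity
    | @step v hv ih =>
      intro hr
      have ih := ih (by omega)
      have hv' : l ≤ v + 1 := Nat.le_succ_of_le hv
      have m1 : S.kk t l v ≤ S.kk t l (v + 1) :=
        card_le_card fun q hq => by
          rw [mem_filter] at hq ⊢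
          exact ⟨hq.1, hq.2.1, by omega⟩
      have m1' : (S.kk t l v : ℝ) ≤ S.kk t l (v + 1) := by exact_mod_cast m1
      show |(∑ p ∈ Ico l (v + 1 + 1), _) - if _ then ∑ p ∈ Ico l (v + 1 + 1), _ else _| ≤
        g * S.kk t l (v + 1)
      rw [sum_Ico_succ_top hv', sum_Ico_succ_top hv']
      by_cases e : S.x t b v ↔ S.x t b (v + 1)
      · refine le_trans (le_of_eq ?_) (ih.trans (by gcongr))
        by_cases e1 : S.x t b v
        · simp [e1, e.1 e1]
        · simp [e1, mt e.2 e1]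
      · have m2 : S.kk t l v < S.kk t l (v + 1) := by
          refine card_lt_card ⟨fun q hq => ?_, fun hs => ?_⟩
          · rw [mem_filter] at hq ⊢
            exact ⟨hq.1, hq.2.1, by omega⟩
          · have := hs (mem_filter.2 ⟨S.hD t b v (ha v hv hr) e, hv, by simp⟩)
            simp at this
        have m2' : (S.kk t l v : ℝ) + 1 ≤ S.kk t l (v + 1) := by exact_mod_cast m2
        have h3 := abs_le.1 (hg (v + 1) hv' (by omega))
        have h4 := abs_le.1 ih
        have h5 : g * (S.kk t l v + 1) ≤ g * S.kk t l (v + 1) := by gcongr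
        by_cases e1 : S.x t b v
        · have e2 : ¬ S.x t b (v + 1) := fun e2 => e ⟨fun _ => e2, fun _ => e1⟩
          simp only [e1, e2, if_true, if_false] at h4 ⊢
          rw [abs_le]
          constructor <;> linarith
        · have e2 : S.x t b (v + 1) := by
            by_contra e2
            exact e ⟨fun e3 => absurd e3 e1, fun e3 => absurd e3 e2⟩
          simp only [e1, e2, if_true, if_false] at h4 ⊢
          rw [abs_le]
          constructor <;> linarith
  obtain ⟨v, rfl⟩ : ∃ v, r = v + 1 := ⟨r - 1, by omega⟩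
  have h1 := abs_le.1 (key v (by omega) (by omega))
  have h2 := abs_le.1 (hg (v + 1) (by omega) le_rfl)
  have m1 : S.kk t l v ≤ S.kk t l (v + 1) :=
    card_le_card fun q hq => by
      rw [mem_filter] at hq ⊢
      exact ⟨hq.1, hq.2.1, by omega⟩
  have m1' : (S.kk t l v : ℝ) ≤ S.kk t l (v + 1) := by exact_mod_cast m1
  have h5 : g * S.kk t l v ≤ g * S.kk t l (v + 1) := by gcongr
  rw [abs_le]
  split_ifs at h1 <;> constructor <;> linarith

theorem node_small {d m l r t1 t2 : ℕ} (H : S.NodeA d m l r) (ht : t1 ≤ t2)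
    (hn : ∀ b, ¬ S.Fill b l r t1 t2) :
    |∑ p ∈ Ico l r, S.F t2 p - ∑ p ∈ Ico l r, S.F t1 p| ≤
      12 * h m * (S.kk t1 l r + S.kk t2 l r) := by
  classical
  have hp := h_pos m
  obtain ⟨h1, -, h3⟩ := H.1.base
  rcases Nat.eq_zero_or_pos (S.kk t1 l r + S.kk t2 l r) with h0 | h0
  · have z : ∀ t, S.kk t l r = 0 → ∀ b p, l ≤ p → p < r → (S.x t b p ↔ S.x t b l) :=
      fun t e b p a1 a2 => const_of H.2 (fun p b1 b2 hm => by
        have h5 : (b, p) ∈ (S.D t).filter fun q => l ≤ q.2 ∧ q.2 < r :=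
          mem_filter.2 ⟨hm, b1, b2⟩
        rw [card_eq_zero.1 e] at h5
        exact notMem_empty _ h5) a1 a2
    have z1 := z t1 (by omega)
    have z2 := z t2 (by omega)
    have : ∑ p ∈ Ico l r, S.F t2 p = ∑ p ∈ Ico l r, S.F t1 p := by
      refine sum_congr rfl fun p hp => ?_
      rw [mem_Ico] at hp
      have n1 := hn true
      have n2 := hn false
      simp only [Fill, not_forall] at n1 n2
      obtain ⟨p1, a1, a2, a3⟩ := n1
      obtain ⟨p2, b1, b2, b3⟩ := n2
      rw [z1 _ _ a1 a2, z2 _ _ a1 a2, z1 _ _ a1 a2, z2 _ _ a1 a2] at a3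
      rw [z1 _ _ b1 b2, z2 _ _ b1 b2, z1 _ _ b1 b2, z2 _ _ b1 b2] at b3
      have c1 := mono (S := S) ht (b := true) (p := l)
      have c2 := mono (S := S) ht (b := false) (p := l)
      simp only [F, z1 _ _ hp.1 hp.2, z2 _ _ hp.1 hp.2]
      simp only [Bool.not_true, Bool.not_false] at a3 b3
      by_cases e1 : S.x t1 true l <;> by_cases e2 : S.x t2 true l <;>
        by_cases e3 : S.x t1 false l <;> by_cases e4 : S.x t2 false l <;> simp_all
    rw [this, sub_self, abs_zero]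
    positivity
  · have h0' : (1 : ℝ) ≤ S.kk t1 l r + S.kk t2 l r := by exact_mod_cast h0
    have a1 := abs_le.1 (seg_bound (t := t1) (b := true) h1 H.2 h3)
    have a2 := abs_le.1 (seg_bound (t := t1) (b := false) h1 H.2 h3)
    have a3 := abs_le.1 (seg_bound (t := t2) (b := true) h1 H.2 h3)
    have a4 := abs_le.1 (seg_bound (t := t2) (b := false) h1 H.2 h3)
    simp only [F, sum_sub_distrib]
    rw [abs_le]
    constructor <;> nlinarith

theorem k_split {t l r : ℕ} (h : l ≤ r) : S.k t l = S.kk t l r + S.k t r := by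
  unfold k kk
  rw [← card_filter_add_card_filter_not (s := (S.D t).filter fun q => l ≤ q.2)
    (fun q => q.2 < r), filter_filter, filter_filter]
  congr 2
  refine filter_congr fun q _ => ?_
  omega

theorem small {d m t1 t2 : ℕ} (ht : t1 ≤ t2) {u : ℕ} (H : S.Good d m u)
    (hn : ∀ b l r, u ≤ l → S.NodeA d m l r → S.Good d m r → ¬ S.Fill b l r t1 t2) :
    |S.Reg u t2 - S.Reg u t1| ≤ 24 * S.B * h m := by
  have hp := h_pos m
  obtain ⟨M1, e1⟩ := S.fin t1
  obtain ⟨M2, e2⟩ := S.fin t2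
  have key : ∀ n y, M1 + M2 ≤ y + n → u ≤ y → S.Good d m y →
      |S.Reg y t2 - S.Reg y t1| ≤ 12 * h m * (S.k t1 y + S.k t2 y) := by
    intro n
    induction n with
    | zero =>
      intro y a _ _
      have b1 : S.Reg y t1 = 0 := sub_eq_zero.2 (e1 y (by omega))
      have b2 : S.Reg y t2 = 0 := sub_eq_zero.2 (e2 y (by omega))
      rw [b1, b2, sub_self, abs_zero]
      positivity
    | succ n ih =>
      intro y a a2 a3
      obtain ⟨z, b1, b2⟩ := a3.step
      have lt := b1.1.base.1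
      have c1 := abs_le.1 (ih z (by omega) (by omega) b2)
      have c2 := abs_le.1 (node_small b1 ht fun b => hn b y z a2 b1 b2)
      rw [k_split lt.le, k_split (t := t2) lt.le]
      unfold Reg at c1 ⊢
      rw [← sum_range_add_sum_Ico _ lt.le, ← sum_range_add_sum_Ico _ lt.le] at c1
      push_cast
      rw [abs_le]
      constructor <;> linarith
  refine (key (M1 + M2) u (by omega) le_rfl H).trans ?_
  have a1 : (S.k t1 u : ℝ) ≤ S.B := by exact_mod_cast (card_filter_le _ _).trans (S.hB t1)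
  have a2 : (S.k t2 u : ℝ) ≤ S.B := by exact_mod_cast (card_filter_le _ _).trans (S.hB t2)
  nlinarith

theorem k_drop {t l l' p : ℕ} {b : Bool} (h1 : l ≤ p) (h2 : p < l') (h3 : (b, p) ∈ S.D t) :
    S.k t l' < S.k t l := by
  refine card_lt_card ⟨fun q hq => ?_, fun hs => ?_⟩
  · rw [mem_filter] at hq ⊢
    exact ⟨hq.1, by omega⟩
  · have := (mem_filter.1 (hs (mem_filter.2 ⟨h3, h1⟩))).2
    simp only at this
    omega

theorem F_congr {t t' p : ℕ} (H : ∀ b, S.x t b p ↔ S.x t' b p) : S.F t p = S.F t' p := by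
  unfold F
  rw [propext (H true), propext (H false)]

end Sys

end Pool.Agent.Lib.H7Lam
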