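import Pool.Agent.Lib.helper7.LamA

namespace Pool.Agent.Lib.H7Lam

open Finset

namespace Sys

variable {S : Sys}

/-- a window in which the early part does not move and one child is completely filled -/
theorem window {b : Bool} {l N t1 t2 : ℕ} {q : ℕ → ℕ} (hN : (S.B + 1) * (2 * l + 1) ≤ N)
    (hq : ∀ i < N, q i < q (i + 1))
    (ha : ∀ i < N, ∀ p, q i ≤ p → p + 1 < q (i + 1) → S.adj p) (ht : t1 ≤ t2)
    (h1 : ∀ p, q 0 ≤ p → p < q N → ¬ S.x t1 b p) (h2 : ∀ p, q 0 ≤ p → p < q N → S.x t2 b p) :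
    ∃ t t', t1 ≤ t ∧ t ≤ t' ∧ t' ≤ t2 ∧ (∀ b' p, p < l → (S.x t b' p ↔ S.x t' b' p)) ∧
      ∃ i < N, (∀ p, q i ≤ p → p < q (i + 1) → ¬ S.x t b p) ∧
        ∀ p, q i ≤ p → p < q (i + 1) → S.x t' b p := by
  classical
  let Φ : ℕ → Finset ℕ := fun t => (range N).filter fun i => ∀ p, q i ≤ p → p < q (i + 1) → S.x t b p
  let E : ℕ → Finset (Bool × ℕ) := fun t => (univ ×ˢ range l).filter fun z => S.x t z.1 z.2
  have disj : ∀ i < N, ∀ j < N, ∀ p, q i ≤ p → p < q (i + 1) → q j ≤ p → p < q (j + 1) → i = j := by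
    intro i hi j hj p a1 a2 a3 a4
    rcases lt_trichotomy i j with h | h | h
    · have : q (i + 1) ≤ q j := q_mono hq h hj.le
      omega
    · exact h
    · have : q (j + 1) ≤ q i := q_mono hq h hi.le
      omega
  have Esub : ∀ t t', t ≤ t' → E t ⊆ E t' := fun t t' h z hz => by
    rw [mem_filter] at hz ⊢
    exact ⟨hz.1, mono h hz.2⟩
  have Ele : ∀ t, (E t).card ≤ 2 * l := fun t => (card_filter_le _ _).trans (by simp)
  have step : ∀ t, (Φ (t + 1)).card ≤ (Φ t).card + 1 := by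
    intro t
    have : (Φ (t + 1) \ Φ t).card ≤ 1 := by
      rw [card_le_one]
      intro i hi j hj
      simp only [Φ, mem_sdiff, mem_filter, mem_range, not_and, not_forall] at hi hj
      obtain ⟨p, a1, a2, a3⟩ := hi.2 hi.1.1
      obtain ⟨p', b1, b2, b3⟩ := hj.2 hj.1.1
      have := S.one t b p b p' (hi.1.2 p a1 a2) a3 (hj.1.2 p' b1 b2) b3
      subst this
      exact disj i hi.1.1 j hj.1.1 p a1 a2 b1 b2
    have h3 := le_card_sdiff (Φ t) (Φ (t + 1))
    omega
  have ex : ∃ t t', t1 ≤ t ∧ t ≤ t' ∧ t' ≤ t2 ∧ (E t).card = (E t').card ∧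
      (Φ t).card + S.B + 1 ≤ (Φ t').card := by
    by_contra hc
    push Not at hc
    have key : ∀ t, t1 ≤ t → t ≤ t2 → ∃ α, t1 ≤ α ∧ α ≤ t ∧ (E α).card = (E t).card ∧
        (Φ α).card ≤ (S.B + 1) * (E α).card := by
      intro t h
      induction h with
      | refl =>
        intro _
        refine ⟨t1, le_rfl, le_rfl, rfl, ?_⟩
        have : Φ t1 = ∅ := filter_eq_empty_iff.2 fun i hi h => by
          rw [mem_range] at hi
          exact h1 (q i) (q_mono hq (Nat.zero_le _) hi.le)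
            ((hq i hi).trans_le (q_mono hq hi le_rfl)) (h _ le_rfl (hq i hi))
        simp [this]
      | @step t h ih =>
        intro h3
        obtain ⟨α, a1, a2, a3, a4⟩ := ih (by omega)
        rcases (card_le_card (Esub t (t + 1) (by omega))).eq_or_lt with e | e
        · exact ⟨α, a1, by omega, a3.trans e, a4⟩
        · refine ⟨t + 1, Nat.le_succ_of_le h, le_rfl, rfl, ?_⟩
          have b1 := hc α t a1 a2 (by omega) a3
          have b2 := step t
          have b3 : (S.B + 1) * ((E t).card + 1) ≤ (S.B + 1) * (E (t + 1)).card := by gcongr; omega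
          rw [a3] at a4
          rw [mul_add] at b3
          omega
    obtain ⟨α, a1, a2, a3, a4⟩ := key t2 ht le_rfl
    have b1 := hc α t2 a1 a2 le_rfl a3
    have b2 : Φ t2 = range N := filter_true_of_mem fun i hi p c1 c2 => by
      rw [mem_range] at hi
      exact h2 p ((q_mono hq (Nat.zero_le _) hi.le).trans c1) (c2.trans_le (q_mono hq hi le_rfl))
    rw [b2, card_range] at b1
    have b3 : (S.B + 1) * (E α).card ≤ (S.B + 1) * (2 * l) := by gcongr; exact Ele α
    rw [mul_add] at hN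
    omega
  obtain ⟨t, t', a1, a2, a3, a4, a5⟩ := ex
  refine ⟨t, t', a1, a2, a3, fun b' p hp => ⟨mono a2, fun hx => ?_⟩, ?_⟩
  · have := eq_of_subset_of_card_le (Esub t t' a2) a4.ge
    have h3 : (b', p) ∈ E t' := mem_filter.2 ⟨by simpa using hp, hx⟩
    rw [← this] at h3
    exact (mem_filter.1 h3).2
  · by_contra hc
    have : ∀ i, i ∈ Φ t' \ Φ t → ∃ p, q i ≤ p ∧ p < q (i + 1) ∧ (b, p) ∈ S.D t := by
      intro i hi
      simp only [Φ, mem_sdiff, mem_filter, mem_range, not_and] at hi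
      exact touched (ha i hi.1.1) (hi.2 hi.1.1) fun h => hc ⟨i, hi.1.1, h, hi.1.2⟩
    choose! f f1 f2 f3 using this
    have h3 := card_le_card_of_injOn (s := Φ t' \ Φ t) (t := S.D t) (fun i => (b, f i))
      (fun i hi => f3 i hi) fun i hi j hj e => by
        have e2 : f i = f j := congrArg Prod.snd e
        have hi' := mem_range.1 (mem_filter.1 (mem_sdiff.1 hi).1).1
        have hj' := mem_range.1 (mem_filter.1 (mem_sdiff.1 hj).1).1
        exact disj i hi' j hj' (f i) (f1 i hi) (f2 i hi) (e2 ▸ f1 j hj) (e2 ▸ f2 j hj)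
    have h4 := le_card_sdiff (Φ t) (Φ t')
    have h5 := S.hB t
    omega

theorem R {ε L : ℝ} {t0 m0 m1 : ℕ} (hε : ∀ t, t0 ≤ t → |S.tot t - L| ≤ ε) (hm0 : S.B ≤ m0)
    (cond : ∀ j, m0 ≤ j → j ≤ m1 → 2 * ε + 72 * S.B * h (j + 1) < h j) (k : ℕ) :
    ∀ (d m l r : ℕ) (b : Bool) (t1 t2 : ℕ), m0 ≤ m → m + 2 * k ≤ m1 → 2 * k + 1 ≤ d →
      S.NodeA d m l r → S.Good d m r → t0 ≤ t1 → t1 ≤ t2 → S.Fill b l r t1 t2 →
      (∀ t, t1 < t → t < t2 → S.k t l < k) → False := by
  classical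
  induction k with
  | zero =>
    intro d m l r b t1 t2 _ _ hd hN _ _ ht hF hk
    obtain ⟨d, rfl⟩ : ∃ e, d = e + 1 := ⟨d - 1, by omega⟩
    obtain ⟨N, q, a1, a2, a3, a4⟩ := hN.kids
    have hq : ∀ i < N, q i < q (i + 1) := fun i hi => (a4 i hi).1.base.1
    have b1 : q 0 < q 1 := hq 0 (by omega)
    have b2 : q 1 < q 2 := hq 1 (by omega)
    have b3 := q_mono hq (show 2 ≤ N by omega) le_rfl
    have c1 := hF l le_rfl (by omega)
    have c2 := hF (l + 1) (by omega) (by omega)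
    rcases ht.eq_or_lt with e | e
    · exact c1.1 (e ▸ c1.2.1)
    rcases (Nat.succ_le_of_lt e).eq_or_lt with e2 | e2
    · subst e2
      have := S.one t1 b l b (l + 1) c1.2.1 c1.1 c2.2.1 c2.1
      omega
    · exact absurd (hk (t1 + 1) (by omega) e2) (by omega)
  | succ k ih =>
    intro d m l r b t1 t2 hm hm1 hd hN hG ht0 ht hF hk
    obtain ⟨d, rfl⟩ : ∃ e, d = e + 2 := ⟨d - 2, by omega⟩
    obtain ⟨N, q, a1, rfl, rfl, a4⟩ := hN.kids
    have hq : ∀ i < N, q i < q (i + 1) := fun i hi => (a4 i hi).1.base.1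
    have hNB : (S.B + 1) * (2 * q 0 + 1) ≤ N :=
      le_trans (by gcongr; omega) ((Nat.le_add_right _ 2).trans a1)
    obtain ⟨t, t', b1, b2, b3, b4, b5⟩ := window (b := b) hNB hq (fun i hi => (a4 i hi).2) ht
      (fun p c1 c2 => (hF p c1 c2).1) fun p c1 c2 => (hF p c1 c2).2.1
    let emp : ℕ → ℕ → Prop := fun τ i => ∀ p, q i ≤ p → p < q (i + 1) → ¬ S.x τ b p
    let full : ℕ → ℕ → Prop := fun τ i => ∀ p, q i ≤ p → p < q (i + 1) → S.x τ b p
    have emp_mono : ∀ τ τ' i, τ ≤ τ' → emp τ' i → emp τ i :=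
      fun τ τ' i h1 h2 p c1 c2 c3 => h2 p c1 c2 (mono h1 c3)
    have hex : ∃ e, ∃ i < N, emp t i ∧ full e i := ⟨t', b5⟩
    obtain ⟨i, hi, ei, fi⟩ := Nat.find_spec hex
    have hmin : ∀ τ < Nat.find hex, ∀ j < N, emp t j → ¬ full τ j :=
      fun τ hτ j hj c1 c2 => Nat.find_min hex hτ ⟨j, hj, c1, c2⟩
    have he2 : Nat.find hex ≤ t' := Nat.find_min' hex b5
    generalize Nat.find hex = e at *
    have he1 : t ≤ e := by
      by_contra hc
      exact ei _ le_rfl (hq i hi) (mono (not_le.1 hc).le (fi _ le_rfl (hq i hi)))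
    have es : emp (Nat.findGreatest (fun τ => emp τ i) e) i :=
      Nat.findGreatest_spec (P := fun τ => emp τ i) he1 ei
    have hs1 : t ≤ Nat.findGreatest (fun τ => emp τ i) e := Nat.le_findGreatest he1 ei
    have hs2 : Nat.findGreatest (fun τ => emp τ i) e ≤ e := Nat.findGreatest_le _
    have hs3 : ∀ τ, Nat.findGreatest (fun τ => emp τ i) e < τ → τ ≤ e → ¬ emp τ i :=
      fun τ c1 c2 => Nat.findGreatest_is_greatest (P := fun τ => emp τ i) c1 c2
    generalize Nat.findGreatest (fun τ => emp τ i) e = s at *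
    have hax : ∃ a, s ≤ a ∧ (a = e ∨ ∀ j < i, ¬ emp s j → full a j) := ⟨e, hs2, Or.inl rfl⟩
    obtain ⟨ha1, ha2⟩ := Nat.find_spec hax
    have ha3 : Nat.find hax ≤ e := Nat.find_min' hax ⟨hs2, Or.inl rfl⟩
    have ha4 : ∀ τ, s ≤ τ → τ < Nat.find hax → ∃ j < i, ¬ emp s j ∧ ¬ full τ j := by
      intro τ c1 c2
      by_contra hc
      push Not at hc
      exact Nat.find_min hax c2 ⟨c1, Or.inr hc⟩
    generalize Nat.find hax = a at *
    have hb1 : ∀ j < i, emp s j →
        emp (Nat.findGreatest (fun τ => ∀ j < i, emp s j → emp τ j) e) j :=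
      Nat.findGreatest_spec (P := fun τ => ∀ j < i, emp s j → emp τ j) hs2 fun _ _ h => h
    have hb2 : Nat.findGreatest (fun τ => ∀ j < i, emp s j → emp τ j) e ≤ e :=
      Nat.findGreatest_le _
    have hb3 : ∀ τ, Nat.findGreatest (fun τ => ∀ j < i, emp s j → emp τ j) e < τ → τ ≤ e →
        ∃ j < i, emp s j ∧ ¬ emp τ j := by
      intro τ c1 c2
      have := Nat.findGreatest_is_greatest c1 c2
      push Not at this
      exact this
    generalize Nat.findGreatest (fun τ => ∀ j < i, emp s j → emp τ j) e = b0 at *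
    have G1 := Good.kids hG.refine a4
    have rc : ∀ j ≤ N, ∀ u v, s ≤ u → u ≤ v → v ≤ e →
        (∀ τ, u < τ → τ < v → ∃ j' < j, ¬ full τ j' ∧ ¬ emp τ j') →
        |S.Reg (q j) v - S.Reg (q j) u| ≤ 24 * S.B * h (m + 1 + 1) := by
      intro j hj u v c1 c2 c3 c4
      refine small c2 (G1 j hj).refine fun b' l' r' d1 d2 d3 d4 => ?_
      refine ih d (m + 1 + 1) l' r' b' u v (by omega) (by omega) (by omega) d2 d3 (by omega) c2 d4
        fun τ e1 e2 => ?_
      obtain ⟨j', f1, f2, f3⟩ := c4 τ e1 e2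
      obtain ⟨p, g1, g2, g3⟩ := touched (a4 j' (by omega)).2 f2 f3
      have g4 := q_mono hq (Nat.zero_le j') (by omega)
      have g5 : q (j' + 1) ≤ q j := q_mono hq f1 hj
      have := k_drop (l := q 0) (l' := l') (by omega) (by omega) g3
      have := hk τ (by omega) (by omega)
      omega
    have r1 := abs_le.1 (rc i hi.le s a le_rfl ha1 ha3 fun τ c1 c2 => by
      obtain ⟨j, d1, d2, d3⟩ := ha4 τ c1.le c2
      exact ⟨j, d1, d3, fun h => d2 (emp_mono _ _ _ c1.le h)⟩)
    have r2 := abs_le.1 (rc i hi.le (max a b0) e (ha1.trans (le_max_left _ _)) (max_le ha3 hb2)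
      le_rfl fun τ c1 c2 => by
      obtain ⟨j, d1, d2, d3⟩ := hb3 τ ((le_max_right _ _).trans_lt c1) c2.le
      exact ⟨j, d1, hmin τ c2 j (by omega) (emp_mono _ _ _ hs1 d2), d3⟩)
    have r3 := abs_le.1 (rc (i + 1) hi s e le_rfl hs2 le_rfl fun τ c1 c2 =>
      ⟨i, by omega, hmin τ c2 i hi ei, hs3 τ c1 c2.le⟩)
    have other : ∀ τ τ', t1 ≤ τ → τ ≤ τ' → τ' ≤ t2 → ∀ p, q 0 ≤ p → p < q N →
        (S.x τ (!b) p ↔ S.x τ' (!b) p) := fun τ τ' c1 c2 c3 p c4 c5 =>
      ⟨mono c2, fun h => mono c1 ((hF p c4 c5).2.2.2 (mono c3 h))⟩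
    have both : ∀ τ τ' p, (S.x τ b p ↔ S.x τ' b p) → (S.x τ (!b) p ↔ S.x τ' (!b) p) →
        S.F τ p = S.F τ' p := fun τ τ' p c1 c2 => F_congr fun b' => by
      cases b <;> cases b' <;> assumption
    have qi := q_mono hq hi.le le_rfl
    have r4 : ∑ p ∈ range (q i), S.F a p = ∑ p ∈ range (q i), S.F (max a b0) p := by
      rcases le_or_gt b0 a with c | c
      · rw [max_eq_left c]
      rw [max_eq_right c.le]
      refine sum_congr rfl fun p hp => ?_
      rw [mem_range] at hp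
      rcases lt_or_ge p (q 0) with d | d
      · exact F_congr fun b' => ⟨mono c.le, fun h =>
          mono (by omega) ((b4 b' p d).2 (mono (by omega) h))⟩
      · refine both _ _ _ ⟨mono c.le, fun h => ?_⟩
          (other _ _ (by omega) c.le (by omega) p d (by omega))
        obtain ⟨j, d1, d2, d3⟩ := q_find d hp
        by_cases d4 : emp s j
        · exact absurd h (hb1 j d1 d4 p d2 d3)
        · exact ha2.resolve_left (by omega) j d1 d4 p d2 d3
    have r5 : |∑ p ∈ Ico (q i) (q (i + 1)), S.F e p - ∑ p ∈ Ico (q i) (q (i + 1)), S.F s p| =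
        h (m + 1) := by
      rw [← (a4 i hi).1.base.2.1, ← sum_sub_distrib]
      have qi1 : q (i + 1) ≤ q N := q_mono hq hi le_rfl
      have q0 := q_mono hq (Nat.zero_le i) hi.le
      have : ∀ p ∈ Ico (q i) (q (i + 1)), S.F e p - S.F s p = (if b then 1 else -1) * S.c p := by
        intro p hp
        rw [mem_Ico] at hp
        have d1 := es p hp.1 hp.2
        have d2 := fi p hp.1 hp.2
        have d3 := other s e (by omega) hs2 (by omega) p (by omega) (by omega)
        unfold F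
        cases b
        · simp only [Bool.not_false] at d3
          simp [d1, d2, d3]
        · simp only [Bool.not_true] at d3
          simp [d1, d2, d3]
      rw [sum_congr rfl this, ← mul_sum, abs_mul]
      cases b <;> simp
    have r6 := abs_le.1 (hε a (by omega))
    have r7 := abs_le.1 (hε (max a b0) (le_trans (by omega) (le_max_left _ _)))
    have r8 := cond (m + 1) (by omega) (by omega)
    unfold Reg at r1 r2 r3
    rw [← sum_range_add_sum_Ico _ (hq i hi).le, ← sum_range_add_sum_Ico _ (hq i hi).le] at r3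
    rcases abs_cases (∑ p ∈ Ico (q i) (q (i + 1)), S.F e p -
      ∑ p ∈ Ico (q i) (q (i + 1)), S.F s p) with c | c <;> linarith [c.1]

theorem main (S : Sys) (ht : Filter.Tendsto S.tot Filter.atTop (nhds 1))
    (hG : ∀ d M, ∃ u, M ≤ u ∧ S.Good d 0 u) (hall : ∀ b p, ∃ t, S.x t b p) : False := by
  classical
  have hB : (0 : ℝ) ≤ S.B := Nat.cast_nonneg _
  set m0 := 144 * S.B with hm0
  set m1 := m0 + 2 * (S.B + 1) with hm1
  have p1 := h_pos m1
  obtain ⟨t0, ht0⟩ := Filter.eventually_atTop.1 (Metric.tendsto_nhds.1 ht (h m1 / 8) (by positivity))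
  have hε : ∀ t, t0 ≤ t → |S.tot t - 1| ≤ h m1 / 8 := fun t h => (ht0 t h).le
  obtain ⟨M, hM⟩ := S.fin t0
  obtain ⟨u, hu, G⟩ := hG (2 * (S.B + 1) + 1 + m0) M
  have ref : ∀ j d, S.Good (d + j) 0 u → S.Good d j u := by
    intro j
    induction j with
    | zero => intro d H; exact H
    | succ j ih => intro d H; exact (ih (d + 1) (by rwa [add_assoc, add_comm 1 j])).refine
  choose T hT using hall
  let t1 := t0 + (univ ×ˢ range u).sup fun z : Bool × ℕ => T z.1 z.2
  have all : ∀ b p, p < u → S.x t1 b p := fun b p hp => mono (le_trans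
    (le_sup (f := fun z : Bool × ℕ => T z.1 z.2) (b := (b, p)) (by simpa using hp))
    (Nat.le_add_left _ _)) (hT b p)
  have sm := abs_le.1 (small (t1 := t0) (t2 := t1) (Nat.le_add_right _ _) (ref _ _ G)
    fun b l r _ c2 c3 c4 => R hε (m0 := m0) (m1 := m1) (by omega) (fun j d1 d2 => by
      have e1 := h_anti d2
      have e2 := h_succ j
      have e3 := h_pos (j + 1)
      have e4 : (144 * S.B : ℝ) ≤ j := by exact_mod_cast d1
      nlinarith) (S.B + 1) _ m0 l r b t0 t1 le_rfl le_rfl le_rfl c2 c3 le_rfl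
      (Nat.le_add_right _ _) c4 fun t _ _ =>
        Nat.lt_succ_of_le ((card_filter_le _ _).trans (S.hB t)))
  have e1 : S.Reg u t0 = 0 := sub_eq_zero.2 (hM u hu)
  have e2 : S.Reg u t1 = S.tot t1 := by
    unfold Reg
    rw [sum_eq_zero, sub_zero]
    intro p hp
    rw [mem_range] at hp
    simp [F, all _ p hp]
  have e3 := abs_le.1 (hε t1 (Nat.le_add_right _ _))
  have e4 := h_le m0
  have e5 := h_le m1
  have e6 : (m0 : ℝ) = 144 * S.B := by rw [hm0]; push_cast; ring
  have e7 : h m1 ≤ 1 := e5.trans (div_le_one_of_le₀ (by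
    have : (0 : ℝ) ≤ m1 := Nat.cast_nonneg _
    linarith) (by positivity))
  rw [le_div_iff₀ (by positivity), e6] at e4
  have e8 := h_pos m0
  rw [e1, e2] at sm
  nlinarith

end Sys

end Pool.Agent.Lib.H7Lam
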