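import Pool.Agent.Lib.helper7.LamB

namespace Pool.Agent.Lib.H7Lam

open Finset Filter Topology
open scoped ZeroAtInfty

theorem Node.congr {c c' : ℕ → ℝ} {d : ℕ} : ∀ {m l r : ℕ}, Node c d m l r →
    (∀ p < r, c' p = c p) → Node c' d m l r := by
  have hb : ∀ {m l r : ℕ}, Base c m l r → (∀ p < r, c' p = c p) → Base c' m l r := by
    rintro m l r ⟨h1, h2, h3⟩ H
    have : ∀ v ≤ r, ∑ p ∈ Ico l v, c' p = ∑ p ∈ Ico l v, c p := fun v hv =>
      sum_congr rfl fun p hp => H p ((mem_Ico.1 hp).2.trans_le hv)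
    exact ⟨h1, by rw [this r le_rfl, h2], fun v a b => by rw [this v b]; exact h3 v a b⟩
  induction d with
  | zero => exact fun H => hb H
  | succ d ih =>
    rintro m l r ⟨h1, N, q, h2, h3, h4, h5⟩ H
    have hq : ∀ i < N, q i < q (i + 1) := fun i hi => (h5 i hi).base.1
    exact ⟨hb h1 H, N, q, h2, h3, h4, fun i hi => ih (h5 i hi) fun p hp =>
      H p (h4 ▸ hp.trans_le (q_mono hq hi le_rfl))⟩

theorem exists_node (d : ℕ) : ∀ (m l : ℕ) (s : ℝ) (c0 : ℕ → ℝ), (s = 1 ∨ s = -1) →
    ∃ (r : ℕ) (c : ℕ → ℝ), (∀ p < l, c p = c0 p) ∧ Node c d m l r ∧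
      ∑ p ∈ Ico l r, c p = s * h m ∧ ∀ p, l ≤ p → p < r → |c p| ≤ h (m + d) := by
  induction d with
  | zero =>
    intro m l s c0 hs
    have hp := h_pos m
    have e : |s * h m| = h m := by rcases hs with rfl | rfl <;> simp [abs_of_pos hp]
    refine ⟨l + 1, Function.update c0 l (s * h m), fun p hp => Function.update_of_ne hp.ne _ _,
      ⟨by omega, by simpa using e, fun v a b => ?_⟩, by simp, fun p a b => ?_⟩
    · rcases a.eq_or_lt with rfl | a
      · simp [hp.le]
      · obtain rfl : v = l + 1 := by omega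
        simp only [Nat.Ico_succ_singleton, sum_singleton, Function.update_self, e]
        linarith
    · obtain rfl : p = l := by omega
      simp only [Function.update_self, e, add_zero, le_refl]
  | succ d ih =>
    intro m l s c0 hs
    have hp := h_pos (m + 1)
    let P : ℕ → ℝ := fun i => if i ≤ m + 4 then s * i else
      s * (m + 4) + if (i - (m + 4)) % 2 = 1 then 1 else 0
    have P1 : ∀ i, P (i + 1) - P i = 1 ∨ P (i + 1) - P i = -1 := by
      intro i
      rcases lt_trichotomy i (m + 4) with c | c | c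
      · simp only [P, if_pos c.le, if_pos (Nat.succ_le_of_lt c)]
        push_cast
        rcases hs with rfl | rfl
        · left; ring
        · right; ring
      · subst c
        left
        simp [P]
      · simp only [P, if_neg (not_le.2 c), if_neg (show ¬ i + 1 ≤ m + 4 by omega)]
        rcases Nat.mod_two_eq_zero_or_one (i - (m + 4)) with e | e
        · left
          rw [if_pos (by omega), if_neg (by omega)]
          ring
        · right
          rw [if_neg (by omega), if_pos e]
          ring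
    have P2 : ∀ i, |P i| ≤ m + 5 := by
      intro i
      have hm : (0 : ℝ) ≤ m := Nat.cast_nonneg m
      have hi : (0 : ℝ) ≤ i := Nat.cast_nonneg i
      simp only [P]
      rw [abs_le]
      split_ifs with c1 c2
      · have : (i : ℝ) ≤ m + 4 := by exact_mod_cast c1
        rcases hs with rfl | rfl <;> constructor <;> linarith
      · rcases hs with rfl | rfl <;> constructor <;> linarith
      · rcases hs with rfl | rfl <;> constructor <;> linarith
    have key : ∀ i : ℕ, ∃ (c : ℕ → ℝ) (q : ℕ → ℕ), q 0 = l ∧ (∀ p < l, c p = c0 p) ∧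
        ∀ j < i, Node c d (m + 1) (q j) (q (j + 1)) ∧
          ∑ p ∈ Ico (q j) (q (j + 1)), c p = (P (j + 1) - P j) * h (m + 1) ∧
          ∀ p, q j ≤ p → p < q (j + 1) → |c p| ≤ h (m + 1 + d) := by
      intro i
      induction i with
      | zero => exact ⟨c0, fun _ => l, rfl, fun _ _ => rfl, by simp⟩
      | succ i ih2 =>
        obtain ⟨c, q, a1, a2, a3⟩ := ih2
        obtain ⟨r, c', b1, b2, b3, b4⟩ := ih (m + 1) (q i) _ c (P1 i)
        have hq : ∀ j < i, q j < q (j + 1) := fun j hj => (a3 j hj).1.base.1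
        refine ⟨c', Function.update q (i + 1) r, by simpa using a1, fun p hp => ?_, fun j hj => ?_⟩
        · rw [b1 p (hp.trans_le (a1 ▸ q_mono hq (Nat.zero_le i) le_rfl)), a2 p hp]
        · rcases (Nat.le_of_lt_succ hj).eq_or_lt with rfl | hj
          · rw [Function.update_of_ne (by omega), Function.update_self]
            exact ⟨b2, b3, b4⟩
          · rw [Function.update_of_ne (by omega), Function.update_of_ne (by omega)]
            have e : ∀ p < q (j + 1), c' p = c p := fun p hp =>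
              b1 p (hp.trans_le (q_mono hq hj le_rfl))
            obtain ⟨d1, d2, d3⟩ := a3 j hj
            refine ⟨d1.congr e, ?_, fun p x y => e p y ▸ d3 p x y⟩
            rw [← d2]
            exact sum_congr rfl fun p hp => e p (mem_Ico.1 hp).2
    obtain ⟨c, q, rfl, a2, a3⟩ := key (m + 4 + 2 * ((m + 1) * (2 * l + 1) + 2))
    generalize hN : m + 4 + 2 * ((m + 1) * (2 * q 0 + 1) + 2) = N at *
    have hq : ∀ j < N, q j < q (j + 1) := fun j hj => (a3 j hj).1.base.1
    have S1 : ∀ j ≤ N, ∑ p ∈ Ico (q 0) (q j), c p = P j * h (m + 1) := by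
      intro j hj
      induction j with
      | zero => simp [P]
      | succ j ih3 =>
        rw [← sum_Ico_consecutive _ (q_mono hq (Nat.zero_le j) (by omega)) (hq j hj).le,
          ih3 (by omega), (a3 j hj).2.1]
        ring
    have S2 : ∑ p ∈ Ico (q 0) (q N), c p = s * h m := by
      rw [S1 N le_rfl, h_succ m]
      simp only [P]
      rw [if_neg (by omega), if_neg (by omega)]
      ring
    have hp0 := h_pos m
    have e : |s * h m| = h m := by rcases hs with rfl | rfl <;> simp [abs_of_pos hp0]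
    refine ⟨q N, c, a2, ⟨⟨(hq 0 (by omega)).trans_le (q_mono hq (by omega) le_rfl),
      by rw [S2, e], fun v x y => ?_⟩, N, q, by omega, rfl, rfl, fun j hj => (a3 j hj).1⟩, S2,
      fun p x y => ?_⟩
    · rcases y.eq_or_lt with rfl | y
      · rw [S2, e]
        linarith
      · obtain ⟨j, b1, b2, b3⟩ := q_find x y
        rw [← sum_Ico_consecutive _ (q_mono hq (Nat.zero_le j) b1.le) b2, S1 j b1.le]
        have b4 := (a3 j b1).1.base.2.2 v b2 b3.le
        have b5 : |P j * h (m + 1)| ≤ (m + 5) * h (m + 1) := by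
          rw [abs_mul, abs_of_pos hp]
          gcongr
          exact P2 j
        have hm : (0 : ℝ) ≤ m := Nat.cast_nonneg m
        refine (abs_add_le _ _).trans ?_
        rw [h_succ m]
        nlinarith
    · obtain ⟨j, b1, b2, b3⟩ := q_find x y
      rw [show m + (d + 1) = m + 1 + d by ring]
      exact (a3 j b1).2.2 p b2 b3

theorem exists_c : ∃ (c : ℕ → ℝ) (u : ℕ → ℕ), u 0 = 0 ∧ StrictMono u ∧
    ∀ n, Node c n 0 (u n) (u (n + 1)) ∧ ∑ p ∈ Ico (u n) (u (n + 1)), c p = h 0 ∧
      ∀ p, u n ≤ p → p < u (n + 1) → |c p| ≤ h n := by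
  choose r c h1 h2 h3 h4 using fun (n : ℕ) (z : ℕ × (ℕ → ℝ)) =>
    exists_node n 0 z.1 1 z.2 (Or.inl rfl)
  let sq : ℕ → ℕ × (ℕ → ℝ) := fun n => Nat.rec (0, 0) (fun n z => (r n z, c n z)) n
  have hu : StrictMono fun n => (sq n).1 := strictMono_nat_of_lt_succ fun n => (h2 n (sq n)).base.1
  have ag : ∀ n n', n ≤ n' → ∀ p < (sq n).1, (sq n').2 p = (sq n).2 p := by
    intro n n' H
    induction H with
    | refl => exact fun _ _ => rfl
    | @step n' H ih =>
      intro p hp
      rw [← ih p hp]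
      exact h1 n' (sq n') p (hp.trans_le (hu.monotone H))
  have ag2 : ∀ n, ∀ p < (sq n).1, (sq (p + 1)).2 p = (sq n).2 p := by
    intro n p hp
    rcases le_total n (p + 1) with H | H
    · exact ag _ _ H p hp
    · exact (ag _ _ H p (hu.le_apply (x := p + 1))).symm
  refine ⟨fun p => (sq (p + 1)).2 p, fun n => (sq n).1, rfl, hu, fun n =>
    ⟨(h2 n (sq n)).congr (ag2 (n + 1)), ?_, fun p a b => ?_⟩⟩
  · rw [← one_mul (h 0), ← h3 n (sq n)]
    exact sum_congr rfl fun p hp => ag2 (n + 1) p (mem_Ico.1 hp).2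
  · have := h4 n (sq n) p a b
    rw [zero_add] at this
    show |(sq (p + 1)).2 p| ≤ _
    rw [ag2 (n + 1) p b]
    exact this

/-- evaluation functional -/
noncomputable def evl (i : ℕ) : C₀(ℕ, ℝ) →L[ℝ] ℝ :=
  LinearMap.mkContinuous
    { toFun := fun s => s i, map_add' := fun _ _ => rfl, map_smul' := fun _ _ => rfl } 1
    fun s => by
      rw [one_mul, ← ZeroAtInftyContinuousMap.norm_toBCF_eq_norm]
      exact s.toBCF.norm_coe_le_norm i

theorem bdd_blocks (σ : Equiv.Perm ℕ) (H : ∀ b : ℕ → ℝ,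
    (∃ M : ℝ, Tendsto (fun n => ∑ i ∈ range n, b i) atTop (𝓝 M)) →
    ∃ M : ℝ, Tendsto (fun n => ∑ i ∈ range n, b (σ i)) atTop (𝓝 M)) :
    ∃ B : ℕ, ∀ t, ∃ D : Finset ℕ, D.card ≤ B ∧
      ∀ i, ¬ (σ.symm i < t ↔ σ.symm (i + 1) < t) → i ∈ D := by
  classical
  have cc : cocompact ℕ = atTop := by rw [cocompact_eq_cofinite, Nat.cofinite_eq_atTop]
  obtain ⟨C, hC⟩ := banach_steinhaus
    (g := fun t : ℕ => ∑ j ∈ range t, (evl (σ j + 1) - evl (σ j))) fun s => by
      have t0 : Tendsto s atTop (𝓝 0) := cc ▸ s.zero_at_infty'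
      obtain ⟨M, hM⟩ := H (fun i => s (i + 1) - s i)
        ⟨0 - s 0, by simpa only [sum_range_sub] using t0.sub_const (s 0)⟩
      obtain ⟨C, hC⟩ := hM.norm.bddAbove_range
      exact ⟨C, fun t => by
        rw [_root_.sum_apply]
        exact hC ⟨t, rfl⟩⟩
  obtain ⟨B, hB⟩ := exists_nat_ge C
  refine ⟨B, fun t => ?_⟩
  obtain ⟨K, hK⟩ : ∃ K, ∀ i, σ.symm i < t → i < K :=
    ⟨(range t).sup σ + 1, fun i hi => Nat.lt_succ_of_le (by
      simpa using le_sup (f := σ) (mem_range.2 hi))⟩
  refine ⟨(range K).filter fun i => ¬ (σ.symm i < t ↔ σ.symm (i + 1) < t), ?_, fun i hi => ?_⟩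
  · let χ : ℕ → ℝ := fun i => if σ.symm i < t then 1 else 0
    let s0 : ℕ → ℝ := fun i => if i = 0 then 0 else χ (i - 1) - χ i
    have z : ∀ i, K ≤ i → χ i = 0 := fun i hi => if_neg fun h => absurd (hK i h) (by omega)
    let s : C₀(ℕ, ℝ) := ⟨⟨s0, continuous_of_discreteTopology⟩, by
      rw [cc]
      refine tendsto_const_nhds.congr' ?_
      filter_upwards [eventually_ge_atTop (K + 1)] with i hi
      simp only [s0]
      rw [if_neg (by omega), z _ (by omega), z _ (by omega), sub_zero]⟩
    have n1 : ‖s‖ ≤ 1 := by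
      rw [← ZeroAtInftyContinuousMap.norm_toBCF_eq_norm]
      refine (BoundedContinuousFunction.norm_le zero_le_one).2 fun i => ?_
      show ‖s0 i‖ ≤ 1
      simp only [s0, χ]
      split_ifs <;> simp
    have e1 : ∀ n, ∑ i ∈ range n, χ i * (s0 (i + 1) - s0 i) =
        ∑ i ∈ range n, (χ i - χ (i + 1)) ^ 2 + χ n * s0 n := by
      intro n
      induction n with
      | zero => simp [s0]
      | succ n ih =>
        rw [sum_range_succ, sum_range_succ, ih]
        have : s0 (n + 1) = χ n - χ (n + 1) := by simp [s0]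
        rw [this]
        ring
    have e2 : ∑ j ∈ range t, (s0 (σ j + 1) - s0 (σ j)) =
        ∑ i ∈ range K, χ i * (s0 (i + 1) - s0 i) := by
      simp only [χ, ite_mul, one_mul, zero_mul]
      rw [← sum_filter]
      refine sum_bij' (fun j _ => σ j) (fun i _ => σ.symm i) (fun j hj => ?_) (fun i hi => ?_)
        (by simp) (by simp) fun _ _ => rfl
      · rw [mem_range] at hj
        exact mem_filter.2 ⟨mem_range.2 (hK _ (by simpa using hj)), by simpa using hj⟩
      · exact mem_range.2 (mem_filter.1 hi).2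
    have e3 : ∑ i ∈ range K, (χ i - χ (i + 1)) ^ 2 =
        (((range K).filter fun i => ¬ (σ.symm i < t ↔ σ.symm (i + 1) < t)).card : ℝ) := by
      rw [card_filter]
      push_cast
      refine sum_congr rfl fun i _ => ?_
      simp only [χ]
      by_cases c1 : σ.symm i < t <;> by_cases c2 : σ.symm (i + 1) < t <;> simp [c1, c2]
    have e4 := (∑ j ∈ range t, (evl (σ j + 1) - evl (σ j))).le_opNorm s
    rw [_root_.sum_apply] at e4
    have e5 : ∑ j ∈ range t, (evl (σ j + 1) - evl (σ j)) s =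
      ∑ j ∈ range t, (s0 (σ j + 1) - s0 (σ j)) := rfl
    rw [e5, e2, e1, e3, z K le_rfl, zero_mul, add_zero] at e4
    have e6 := hC t
    have e7 : ‖∑ j ∈ range t, (evl (σ j + 1) - evl (σ j))‖ * ‖s‖ ≤ B * 1 := by
      gcongr
      exact e6.trans hB
    have := (le_abs_self _).trans (e4.trans e7)
    rw [mul_one] at this
    exact_mod_cast this
  · refine mem_filter.2 ⟨mem_range.2 ?_, hi⟩
    by_contra hc
    exact hi ⟨fun h => absurd (hK _ h) hc, fun h => absurd (hK _ h) (by omega)⟩

end Pool.Agent.Lib.H7Lam
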