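import Mathlib

namespace Pool.Agent.Lib.Helper7Merge

theorem card_quot_congr {D : Type} {r s : D → D → Prop}
    (h1 : ∀ a b, r a b → Relation.EqvGen s a b) (h2 : ∀ a b, s a b → Relation.EqvGen r a b) :
    Nat.card (Quot r) = Nat.card (Quot s) := by
  refine Nat.card_congr ⟨Quot.lift (Quot.mk s) (fun a b h => Quot.eq.2 (h1 a b h)),
    Quot.lift (Quot.mk r) (fun a b h => Quot.eq.2 (h2 a b h)), ?_, ?_⟩
  · rintro ⟨a⟩; rfl
  · rintro ⟨a⟩; rfl

def mg (l : ℕ → ℕ) (a b : ℕ) : ℕ → ℕ :=
  fun z => if l z = min (l a) (l b) then max (l a) (l b) else l z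

def merges : List (ℕ × ℕ) → (ℕ → ℕ) → ℕ
  | [], _ => 0
  | (a, b) :: L, l => (if l a = l b then 0 else 1) + merges L (mg l a b)

theorem card_quot_merges {D : Type} [Fintype D] (ν : D → ℕ) (L : List (D × D)) (l : ℕ → ℕ) :
    Nat.card (Quot (fun x y => l (ν x) = l (ν y) ∨ (x, y) ∈ L)) +
      merges (L.map (Prod.map ν ν)) l = (Finset.univ.image (fun x => l (ν x))).card := by
  induction L generalizing l with
  | nil =>
    simp only [List.not_mem_nil, or_false, List.map_nil, merges, add_zero]
    have e := Setoid.quotientKerEquivRange (fun x => l (ν x))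
    have : Nat.card (Quot fun x y => l (ν x) = l (ν y)) =
        Nat.card (Set.range (fun x => l (ν x))) := Nat.card_congr e
    rw [this, ← Set.ncard_coe_finset]
    simp only [Finset.coe_image, Finset.coe_univ, Set.image_univ]
    rfl
  | cons p L ih =>
    obtain ⟨a, b⟩ := p
    have h1 := ih (mg l (ν a) (ν b))
    have h2 : Nat.card (Quot (fun x y => l (ν x) = l (ν y) ∨ (x, y) ∈ (a, b) :: L)) =
        Nat.card (Quot (fun x y => mg l (ν a) (ν b) (ν x) = mg l (ν a) (ν b) (ν y) ∨
          (x, y) ∈ L)) := by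
      apply card_quot_congr
      · rintro x y (h | h)
        · exact .rel _ _ (Or.inl (by simp only [mg, h]))
        · rcases List.mem_cons.1 h with h | h
          · obtain ⟨rfl, rfl⟩ := Prod.mk.inj h
            refine .rel _ _ (Or.inl ?_)
            simp only [mg]
            split_ifs <;> omega
          · exact .rel _ _ (Or.inr h)
      · have hab : Relation.EqvGen
            (fun x y => l (ν x) = l (ν y) ∨ (x, y) ∈ (a, b) :: L) a b :=
          .rel _ _ (Or.inr (by simp))
        have key : ∀ x y, l (ν x) = l (ν a) → l (ν y) = l (ν b) → Relation.EqvGen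
            (fun x y => l (ν x) = l (ν y) ∨ (x, y) ∈ (a, b) :: L) x y := fun x y hx hy =>
          .trans _ _ _ (.rel _ _ (Or.inl hx)) (.trans _ _ _ hab (.rel _ _ (Or.inl hy.symm)))
        rintro x y (h | h)
        · by_cases hxy : l (ν x) = l (ν y)
          · exact .rel _ _ (Or.inl hxy)
          · have : (l (ν x) = l (ν a) ∧ l (ν y) = l (ν b)) ∨
                (l (ν y) = l (ν a) ∧ l (ν x) = l (ν b)) := by
              simp only [mg] at h
              split_ifs at h <;> omega
            rcases this with h3 | h3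
            · exact key _ _ h3.1 h3.2
            · exact .symm _ _ (key _ _ h3.1 h3.2)
        · exact .rel _ _ (Or.inr (List.mem_cons_of_mem _ h))
    rw [h2]
    simp only [List.map_cons, Prod.map, merges]
    have h3 : (Finset.univ.image (fun x => mg l (ν a) (ν b) (ν x))).card +
        (if l (ν a) = l (ν b) then 0 else 1) = (Finset.univ.image (fun x => l (ν x))).card := by
      split_ifs with h
      · rw [add_zero]
        congr 2
        funext x
        simp only [mg]
        split_ifs <;> omega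
      · have hm : min (l (ν a)) (l (ν b)) ∈ Finset.univ.image (fun x => l (ν x)) := by
          rcases min_choice (l (ν a)) (l (ν b)) with h4 | h4 <;> rw [h4] <;>
            exact Finset.mem_image_of_mem _ (Finset.mem_univ _)
        rw [← Finset.card_erase_add_one hm]
        congr 2
        ext z
        simp only [Finset.mem_image, Finset.mem_univ, true_and, Finset.mem_erase, mg]
        constructor
        · rintro ⟨x, rfl⟩
          split_ifs with h5
          · refine ⟨by omega, ?_⟩
            rcases max_choice (l (ν a)) (l (ν b)) with h4 | h4 <;> rw [h4] <;> exact ⟨_, rfl⟩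
          · exact ⟨h5, x, rfl⟩
        · rintro ⟨h5, x, rfl⟩
          exact ⟨x, by rw [if_neg h5]⟩
    omega

theorem card_quot_of_list {D : Type} [Fintype D] (ν : D → ℕ) (hν : Function.Injective ν)
    (r : D → D → Prop) (L : List (D × D)) (h1 : ∀ a b, r a b → (a, b) ∈ L ∨ (b, a) ∈ L)
    (h2 : ∀ a b, (a, b) ∈ L → r a b) :
    Nat.card (Quot r) + merges (L.map (Prod.map ν ν)) id = Fintype.card D := by
  have h := card_quot_merges ν L id
  simp only [id] at h
  rw [Finset.card_image_of_injective _ hν, Finset.card_univ] at h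
  rw [← h]
  congr 1
  apply card_quot_congr
  · intro a b hab
    rcases h1 a b hab with h3 | h3
    · exact .rel _ _ (Or.inr h3)
    · exact .symm _ _ (.rel _ _ (Or.inr h3))
  · rintro a b (h3 | h3)
    · rw [hν h3]; exact .refl _
    · exact .rel _ _ (h2 a b h3)

def force {α : Type} (n : ℕ) (k : ℕ → α) : α :=
  match n with
  | 0 => k 0
  | m + 1 => k (Nat.succ m)

theorem force_eq {α : Type} (n : ℕ) (k : ℕ → α) : force n k = k n := by cases n <;> rfl

def forceL {α : Type} : List ℕ → (List ℕ → α) → α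
  | [], k => k []
  | a :: t, k => force a (fun a' => forceL t (fun t' => k (a' :: t')))

theorem forceL_eq {α : Type} (l : List ℕ) (k : List ℕ → α) : forceL l k = k l := by
  induction l generalizing k with
  | nil => rfl
  | cons a t ih => simp only [forceL, force_eq, ih]

def forceI {α : Type} (n : ℤ) (k : ℤ → α) : α :=
  match n with
  | Int.ofNat m => force m (fun m' => k (Int.ofNat m'))
  | Int.negSucc m => force m (fun m' => k (Int.negSucc m'))

theorem forceI_eq {α : Type} (n : ℤ) (k : ℤ → α) : forceI n k = k n := by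
  cases n <;> simp only [forceI, force_eq]

def mgL (s : List ℕ) (a b : ℕ) : List ℕ :=
  force (min (s.getD a 0) (s.getD b 0)) fun lo =>
  force (max (s.getD a 0) (s.getD b 0)) fun hi =>
  s.map (fun z => if z = lo then hi else z)

theorem mgL_length (s : List ℕ) (a b : ℕ) : (mgL s a b).length = s.length := by
  simp [mgL, force_eq]

theorem mgL_getD (s : List ℕ) (a b z : ℕ) (hz : z < s.length) :
    (mgL s a b).getD z 0 = mg (fun x => s.getD x 0) a b z := by
  simp only [mgL, mg, force_eq]
  rw [List.getD_eq_getElem _ _ (by simpa using hz), List.getElem_map,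
    List.getD_eq_getElem _ _ hz]

def mergesL : List (ℕ × ℕ) → List ℕ → ℕ
  | [], _ => 0
  | (a, b) :: L, s => force a fun a => force b fun b => forceL (mgL s a b) fun s' =>
      (if s.getD a 0 = s.getD b 0 then 0 else 1) + mergesL L s'

theorem merges_congr (P : ℕ → Prop) (L : List (ℕ × ℕ)) (hL : ∀ p ∈ L, P p.1 ∧ P p.2)
    (l l' : ℕ → ℕ) (h : ∀ x, P x → l x = l' x) : merges L l = merges L l' := by
  induction L generalizing l l' with
  | nil => rfl
  | cons p L ih =>
    obtain ⟨a, b⟩ := p
    have ha := h a (hL (a, b) (by simp)).1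
    have hb := h b (hL (a, b) (by simp)).2
    simp only [merges, ha, hb]
    congr 1
    apply ih (fun p hp => hL p (List.mem_cons_of_mem _ hp))
    intro x hx
    simp only [mg, ha, hb, h x hx]

theorem mergesL_eq (L : List (ℕ × ℕ)) (s : List ℕ)
    (hL : ∀ p ∈ L, p.1 < s.length ∧ p.2 < s.length) :
    mergesL L s = merges L (fun x => s.getD x 0) := by
  induction L generalizing s with
  | nil => rfl
  | cons p L ih =>
    obtain ⟨a, b⟩ := p
    simp only [mergesL, merges, force_eq, forceL_eq]
    congr 1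
    rw [ih _ (fun p hp => by rw [mgL_length]; exact hL p (List.mem_cons_of_mem _ hp))]
    exact merges_congr (fun x => x < s.length) L (fun p hp => hL p (List.mem_cons_of_mem _ hp))
      _ _ (fun x hx => mgL_getD s a b x hx)

theorem merges_id (L : List (ℕ × ℕ)) (n : ℕ) (hL : ∀ p ∈ L, p.1 < n ∧ p.2 < n) :
    merges L id = mergesL L (List.range n) := by
  rw [mergesL_eq _ _ (by simpa using hL)]
  apply merges_congr (fun x => x < n) L hL
  intro x hx
  rw [List.getD_eq_getElem _ _ (by simpa using hx)]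
  simp

abbrev Quad := ℕ × ℕ × ℕ × ℕ

def sg (l : ℕ → ℕ) (a b : ℕ) : ℤ := if l a = l b then 1 else -1

def W : List Quad → (ℕ → ℕ) → ℤ
  | [], _ => 1
  | (a, b, c, d) :: es, l =>
      sg l a b * sg (mg l a b) c d * W es (mg (mg l a b) c d) -
      sg l a c * sg (mg l a c) d b * W es (mg (mg l a c) d b)

def prs (q : Quad) (t : Prop) [Decidable t] : List (ℕ × ℕ) :=
  if t then [(q.1, q.2.2.1), (q.2.2.2, q.2.1)] else [(q.1, q.2.1), (q.2.2.1, q.2.2.2)]

theorem sg_pow (l : ℕ → ℕ) (a b : ℕ) : (-1 : ℤ) ^ (if l a = l b then 0 else 1) = sg l a b := by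
  unfold sg; split_ifs <;> simp

theorem sum_eq_W {E : Type} [DecidableEq E] (q : E → Quad) (es : List E) (hes : es.Nodup)
    (l : ℕ → ℕ) :
    ∑ X ∈ es.toFinset.powerset, (-1 : ℤ) ^ X.card *
      (-1) ^ merges (es.flatMap (fun e => prs (q e) (e ∈ X))) l = W (es.map q) l := by
  induction es generalizing l with
  | nil => simp [merges, W]
  | cons e es ih =>
    have he : e ∉ es.toFinset := by simpa using (List.nodup_cons.1 hes).1
    have hes' := (List.nodup_cons.1 hes).2
    rw [List.toFinset_cons, Finset.sum_powerset_insert he]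
    rcases hq : q e with ⟨a, b, c, d⟩
    simp only [List.map_cons, hq, W, List.flatMap_cons]
    rw [← ih hes', ← ih hes', Finset.mul_sum, Finset.mul_sum, sub_eq_add_neg,
      ← Finset.sum_neg_distrib]
    congr 1
    · refine Finset.sum_congr rfl fun X hX => ?_
      have heX : e ∉ X := fun h => he (Finset.mem_powerset.1 hX h)
      simp only [prs, heX, if_false, List.cons_append, List.nil_append, merges, pow_add, sg_pow]
      ring
    · refine Finset.sum_congr rfl fun X hX => ?_
      have heX : e ∉ X := fun h => he (Finset.mem_powerset.1 hX h)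
      have e1 : es.flatMap (fun e' => prs (q e') (e' ∈ insert e X)) =
          es.flatMap (fun e' => prs (q e') (e' ∈ X)) := by
        apply List.flatMap_congr
        intro e' he'
        have : e' ≠ e := fun h => he (by simpa [← h] using he')
        simp [prs, this]
      rw [e1, Finset.card_insert_of_notMem heX]
      simp only [prs, Finset.mem_insert_self, if_true, List.cons_append, List.nil_append, merges,
        pow_add, sg_pow]
      ring

def QP (P : ℕ → Prop) (q : Quad) : Prop := P q.1 ∧ P q.2.1 ∧ P q.2.2.1 ∧ P q.2.2.2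

theorem mg_congr {P : ℕ → Prop} {l l' : ℕ → ℕ} (h : ∀ x, P x → l x = l' x) {a b : ℕ}
    (ha : P a) (hb : P b) : ∀ x, P x → mg l a b x = mg l' a b x := by
  intro x hx
  simp only [mg, h a ha, h b hb, h x hx]

theorem sg_congr {P : ℕ → Prop} {l l' : ℕ → ℕ} (h : ∀ x, P x → l x = l' x) {a b : ℕ}
    (ha : P a) (hb : P b) : sg l a b = sg l' a b := by
  simp only [sg, h a ha, h b hb]

theorem W_congr (P : ℕ → Prop) (es : List Quad) (hes : ∀ q ∈ es, QP P q) (l l' : ℕ → ℕ)
    (h : ∀ x, P x → l x = l' x) : W es l = W es l' := by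
  induction es generalizing l l' with
  | nil => rfl
  | cons q es ih =>
    obtain ⟨a, b, c, d⟩ := q
    obtain ⟨ha, hb, hc, hd⟩ := hes (a, b, c, d) (by simp)
    have ih' := ih (fun q hq => hes q (List.mem_cons_of_mem _ hq))
    simp only [W]
    rw [sg_congr h ha hb, sg_congr h ha hc, sg_congr (mg_congr h ha hb) hc hd,
      sg_congr (mg_congr h ha hc) hd hb, ih' _ _ (mg_congr (mg_congr h ha hb) hc hd),
      ih' _ _ (mg_congr (mg_congr h ha hc) hd hb)]

def dg (s i : ℕ) : ℕ := s / 64 ^ i % 64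

noncomputable def rl (lo hi : ℕ) (f : ℕ) : ℕ → ℕ :=
  Nat.rec (motive := fun _ => ℕ → ℕ) (fun _ => 0)
    (fun _ ih t => force (t % 64) fun d => force (t / 64) fun t' =>
      (bif Nat.beq d lo then hi else d) + 64 * ih t') f

theorem rl_succ (lo hi f t : ℕ) : rl lo hi (f + 1) t =
    force (t % 64) fun d => force (t / 64) fun t' =>
      (bif Nat.beq d lo then hi else d) + 64 * rl lo hi f t' := rfl

theorem dg_zero (a r : ℕ) (ha : a < 64) : dg (a + 64 * r) 0 = a := by
  simp only [dg, pow_zero, Nat.div_one]; omega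

theorem dg_succ (s i : ℕ) : dg s (i + 1) = dg (s / 64) i := by
  simp only [dg, pow_succ', Nat.div_div_eq_div_mul]

theorem dg_rl (lo hi : ℕ) (hhi : hi < 64) (f t i : ℕ) (h : i < f) :
    dg (rl lo hi f t) i = if dg t i = lo then hi else dg t i := by
  induction f generalizing t i with
  | zero => omega
  | succ f ih =>
    simp only [rl_succ, force_eq]
    have h1 : (bif Nat.beq (t % 64) lo then hi else t % 64) =
        if t % 64 = lo then hi else t % 64 := by
      by_cases h2 : t % 64 = lo
      · simp [h2]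
      · have : Nat.beq (t % 64) lo = false := by
          rw [← Bool.not_eq_true, Nat.beq_eq]; exact h2
        simp [h2, this]
    have h3 : (if t % 64 = lo then hi else t % 64) < 64 := by split_ifs <;> omega
    rw [h1]
    cases i with
    | zero =>
      rw [dg_zero _ _ h3]
      simp only [dg, pow_zero, Nat.div_one]
    | succ i =>
      rw [dg_succ, dg_succ, ← ih _ _ (by omega)]
      congr 1
      omega

noncomputable def mgN (n s a b : ℕ) : ℕ :=
  force (dg s a) fun u => force (dg s b) fun v => force (min u v) fun lo =>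
    force (max u v) fun hi => rl lo hi n s

theorem dg_mgN (n s a b z : ℕ) (hz : z < n) : dg (mgN n s a b) z = mg (dg s) a b z := by
  simp only [mgN, force_eq, mg]
  apply dg_rl _ _ _ _ _ _ hz
  have h1 : dg s a < 64 := Nat.mod_lt _ (by norm_num)
  have h2 : dg s b < 64 := Nat.mod_lt _ (by norm_num)
  omega

def kill (k s : ℕ) : ℕ := s / 64 ^ k

theorem dg_kill (k s x : ℕ) : dg (kill k s) x = dg s (k + x) := by
  simp only [dg, kill, pow_add, ← Nat.div_div_eq_div_mul]

def sh (k s : ℕ) : ℕ → ℕ := fun x => dg s (x - k)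

inductive Tr : Type
  | leaf : Tr
  | node : Tr → ℕ → ℤ → Tr → Tr

def Tr.val (g : ℕ → ℤ) : Tr → ℤ
  | .leaf => 0
  | .node l t v r => l.val g + v * g t + r.val g

noncomputable def ins (s : ℕ) (w : ℤ) (T : Tr) : (Tr → Tr) → Tr :=
  Tr.rec (motive := fun _ => (Tr → Tr) → Tr) (fun k => k (.node .leaf s w .leaf))
    (fun l t v r ihl ihr k => bif Nat.beq s t then forceI (v + w) fun v' => k (.node l t v' r)
      else bif Nat.ble s t then ihl (fun l' => k (.node l' t v r))
      else ihr (fun r' => k (.node l t v r'))) T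

theorem ins_spec (g : ℕ → ℤ) (s : ℕ) (w : ℤ) (T : Tr) :
    ∃ T' : Tr, T'.val g = w * g s + T.val g ∧ ∀ k, ins s w T k = k T' := by
  induction T with
  | leaf => exact ⟨.node .leaf s w .leaf, by simp [Tr.val], fun k => rfl⟩
  | node l t v r ihl ihr =>
    have e : ∀ k, ins s w (.node l t v r) k =
        bif Nat.beq s t then forceI (v + w) fun v' => k (.node l t v' r)
        else bif Nat.ble s t then ins s w l (fun l' => k (.node l' t v r))
        else ins s w r (fun r' => k (.node l t v r')) := fun k => rfl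
    obtain ⟨l', hl1, hl2⟩ := ihl
    obtain ⟨r', hr1, hr2⟩ := ihr
    cases h : Nat.beq s t
    · cases h' : Nat.ble s t
      · refine ⟨.node l t v r', by simp only [Tr.val, hr1]; ring, fun k => ?_⟩
        rw [e, h, h', cond_false, cond_false, hr2]
      · refine ⟨.node l' t v r, by simp only [Tr.val, hl1]; ring, fun k => ?_⟩
        rw [e, h, h', cond_false, cond_true, hl2]
    · refine ⟨.node l t (v + w) r, ?_, fun k => ?_⟩
      · rw [Nat.beq_eq] at h
        subst h
        simp only [Tr.val]; ring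
      · rw [e, h, cond_true, forceI_eq]

noncomputable def one (n a b c d k s : ℕ) (w : ℤ) (acc : Tr) (K : Tr → Tr) : Tr :=
    force (mgN n s a b) fun s1 =>
    force (mgN n s a c) fun s2 =>
    force (kill k (mgN n s1 c d)) fun t1 =>
    force (kill k (mgN n s2 d b)) fun t2 =>
    forceI (w * (sg (dg s) a b * sg (dg s1) c d)) fun w1 =>
    forceI (-(w * (sg (dg s) a c * sg (dg s2) d b))) fun w2 =>
    ins t2 w2 acc fun acc1 => ins t1 w1 acc1 K

noncomputable def stepT (n a b c d k : ℕ) (T : Tr) : Tr → (Tr → Tr) → Tr :=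
  Tr.rec (motive := fun _ => Tr → (Tr → Tr) → Tr) (fun acc K => K acc)
    (fun _ s w _ ihl ihr acc K => one n a b c d k s w acc fun acc1 => ihl acc1 fun acc2 =>
      ihr acc2 K) T

theorem stepT_spec (n a b c d k0 k : ℕ) (es : List Quad)
    (hq : QP (fun x => k0 ≤ x ∧ x < n) (a, b, c, d)) (hk : k0 ≤ k)
    (hes : ∀ q ∈ es, QP (fun x => k ≤ x ∧ x < n) q) (T acc : Tr) :
    ∃ T' : Tr, T'.val (fun s => W es (sh k s)) = T.val (fun s => W ((a, b, c, d) :: es) (sh k0 s)) +
      acc.val (fun s => W es (sh k s)) ∧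
      ∀ K, stepT (n - k0) (a - k0) (b - k0) (c - k0) (d - k0) (k - k0) T acc K = K T' := by
  obtain ⟨n', hn⟩ : ∃ n', n' = n - k0 := ⟨_, rfl⟩
  obtain ⟨a', ha'⟩ : ∃ a', a' = a - k0 := ⟨_, rfl⟩
  obtain ⟨b', hb'⟩ : ∃ b', b' = b - k0 := ⟨_, rfl⟩
  obtain ⟨c', hc'⟩ : ∃ c', c' = c - k0 := ⟨_, rfl⟩
  obtain ⟨d', hd'⟩ : ∃ d', d' = d - k0 := ⟨_, rfl⟩
  obtain ⟨k', hk'⟩ : ∃ k', k' = k - k0 := ⟨_, rfl⟩
  rw [← hn, ← ha', ← hb', ← hc', ← hd', ← hk']
  induction T generalizing acc with
  | leaf => exact ⟨acc, by simp [Tr.val], fun K => rfl⟩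
  | node l s w r ihl ihr =>
    obtain ⟨ha, hb, hc, hd⟩ := hq
    have e : ∀ K, stepT n' a' b' c' d' k' (.node l s w r) acc K =
      one n' a' b' c' d' k' s w acc fun acc1 =>
      stepT n' a' b' c' d' k' l acc1 fun acc2 => stepT n' a' b' c' d' k' r acc2 K := fun K => rfl
    simp only [one, forceI_eq, force_eq] at e
    obtain ⟨T1, h1, h1'⟩ := ins_spec (fun s => W es (sh k s))
      (kill k' (mgN n' (mgN n' s a' c') d' b'))
      (-(w * (sg (dg s) a' c' * sg (dg (mgN n' s a' c')) d' b'))) acc
    obtain ⟨T2, h2, h2'⟩ := ins_spec (fun s => W es (sh k s))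
      (kill k' (mgN n' (mgN n' s a' b') c' d'))
      (w * (sg (dg s) a' b' * sg (dg (mgN n' s a' b')) c' d')) T1
    obtain ⟨T3, h3, h3'⟩ := ihl T2
    obtain ⟨T4, h4, h4'⟩ := ihr T3
    refine ⟨T4, ?_, fun K => by rw [e, h1', h2', h3', h4']⟩
    rw [h4, h3, h2, h1]
    have k1 : ∀ s u v x, (k0 ≤ x ∧ x < n) → sh k0 (mgN n' s (u - k0) (v - k0)) x =
        mg (sh k0 s) u v x := fun s u v x hx => dg_mgN n' s _ _ _ (by omega)
    have k2 : ∀ u v u' v', (k0 ≤ u' ∧ u' < n) → (k0 ≤ v' ∧ v' < n) →
        W es (sh k (kill k' (mgN n' (mgN n' s (u - k0) (v - k0)) (u' - k0) (v' - k0))))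
        = W es (mg (mg (sh k0 s) u v) u' v') := by
      intro u v u' v' hu hv
      apply W_congr _ es hes
      intro x hx
      have e1 : k' + (x - k) = x - k0 := by omega
      have hx' : k0 ≤ x ∧ x < n := by omega
      rw [sh, dg_kill, e1]
      exact (k1 _ _ _ x hx').trans
        (mg_congr (P := fun x => k0 ≤ x ∧ x < n) (k1 s u v) hu hv x hx')
    have k3 : ∀ u v u' v', (k0 ≤ u' ∧ u' < n) → (k0 ≤ v' ∧ v' < n) →
        sg (dg (mgN n' s (u - k0) (v - k0))) (u' - k0) (v' - k0) =
        sg (mg (sh k0 s) u v) u' v' := fun u v u' v' hu hv =>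
      sg_congr (P := fun x => k0 ≤ x ∧ x < n) (k1 s u v) hu hv
    have k4 : ∀ u v, sg (dg s) (u - k0) (v - k0) = sg (sh k0 s) u v := fun u v => rfl
    subst ha' hb' hc' hd'
    rw [k2 _ _ _ _ hc hd, k2 _ _ _ _ hd hb, k3 _ _ _ _ hc hd, k3 _ _ _ _ hd hb, k4, k4]
    simp only [Tr.val, W]
    ring

noncomputable def dpT (n : ℕ) : List (Quad × ℕ) → ℕ → Tr → Tr
  | [], _, T => T
  | ((a, b, c, d), k) :: es, k0, T =>
    force (n - k0) fun n' => force (a - k0) fun a' => force (b - k0) fun b' =>
    force (c - k0) fun c' => force (d - k0) fun d' => force (k - k0) fun k' =>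
    stepT n' a' b' c' d' k' T .leaf (dpT n es k)

noncomputable def dp (n : ℕ) (es : List (Quad × ℕ)) (s0 : ℕ) : ℤ :=
  (dpT n es 0 (.node .leaf s0 1 .leaf)).val (fun _ => 1)

def inR (k n : ℕ) (q : Quad) : Bool :=
  decide (k ≤ q.1 ∧ q.1 < n ∧ k ≤ q.2.1 ∧ q.2.1 < n ∧ k ≤ q.2.2.1 ∧ q.2.2.1 < n ∧
    k ≤ q.2.2.2 ∧ q.2.2.2 < n)

def good (n : ℕ) : List (Quad × ℕ) → ℕ → Bool
  | [], _ => true
  | (q, k) :: es, k0 => inR k0 n q && decide (k0 ≤ k) && es.all (fun p => inR k n p.1) &&
      good n es k

theorem dp_eq (n : ℕ) (es : List (Quad × ℕ)) (k0 : ℕ) (hes : good n es k0 = true) (T : Tr) :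
    (dpT n es k0 T).val (fun _ => 1) = T.val (fun s => W (es.map Prod.fst) (sh k0 s)) := by
  induction es generalizing T k0 with
  | nil => simp [dpT, W]
  | cons p es ih =>
    obtain ⟨⟨a, b, c, d⟩, k⟩ := p
    simp only [good, Bool.and_eq_true, decide_eq_true_eq, List.all_eq_true, inR] at hes
    obtain ⟨⟨⟨h1, h2⟩, h3⟩, h4⟩ := hes
    simp only [dpT, List.map_cons, force_eq]
    obtain ⟨T', h5, h6⟩ := stepT_spec n a b c d k0 k (es.map Prod.fst)
      ⟨⟨h1.1, h1.2.1⟩, ⟨h1.2.2.1, h1.2.2.2.1⟩, ⟨h1.2.2.2.2.1, h1.2.2.2.2.2.1⟩,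
        h1.2.2.2.2.2.2⟩ h2 (by
        intro q' hq'
        obtain ⟨p, hp, rfl⟩ := List.mem_map.1 hq'
        have := h3 p hp
        exact ⟨by omega, by omega, by omega, by omega⟩) T .leaf
    rw [h6, ih k h4, h5]
    simp [Tr.val]

theorem W_id (n s0 : ℕ) (hs : ∀ x < n, dg s0 x = x) (es : List (Quad × ℕ))
    (hes : good n es 0 = true) (h : es.all (fun p => inR 0 n p.1) = true) :
    W (es.map Prod.fst) id = dp n es s0 := by
  rw [dp, dp_eq n es 0 hes]
  simp only [Tr.val, one_mul, add_zero, zero_add]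
  apply W_congr (· < n)
  · intro q hq
    obtain ⟨p, hp, rfl⟩ := List.mem_map.1 hq
    simp only [List.all_eq_true, inR, decide_eq_true_eq] at h
    have := h p hp
    exact ⟨by omega, by omega, by omega, by omega⟩
  · intro x hx
    exact (hs x hx).symm

end Pool.Agent.Lib.Helper7Merge
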