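import Mathlib

set_option autoImplicit false

namespace Pool.Agent.Lib.helper7.NR

abbrev Wd : Type := List (Fin 3)

section Ops
variable {K : Type} [CommRing K]

/-- Left slice. -/
def Lw (K : Type) [CommRing K] (u : Wd) : Module.End K (Wd → K) where
  toFun θ := fun y => θ (u ++ y)
  map_add' _ _ := rfl
  map_smul' _ _ := rfl

/-- Right slice. -/
def Rw (K : Type) [CommRing K] (u : Wd) : Module.End K (Wd → K) where
  toFun θ := fun y => θ (y ++ u)
  map_add' _ _ := rfl
  map_smul' _ _ := rfl

/-- Restriction to words of one length. -/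
def cut (K : Type) [CommRing K] (w : ℕ) : Module.End K (Wd → K) where
  toFun θ := fun y => if y.length = w then θ y else 0
  map_add' _ _ := by funext y; by_cases h : y.length = w <;> simp [h]
  map_smul' _ _ := by funext y; by_cases h : y.length = w <;> simp [h]

@[simp] theorem Lw_apply (u y : Wd) (θ : Wd → K) : Lw K u θ y = θ (u ++ y) := rfl
@[simp] theorem Rw_apply (u y : Wd) (θ : Wd → K) : Rw K u θ y = θ (y ++ u) := rfl
theorem cut_apply (w : ℕ) (y : Wd) (θ : Wd → K) :
    cut K w θ y = if y.length = w then θ y else 0 := rfl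

/-- The operator of an integral combination of words. -/
noncomputable def Lf (K : Type) [CommRing K] (f : Wd →₀ ℤ) : Module.End K (Wd → K) :=
  ∑ μ ∈ f.support, f μ • Lw K μ

theorem Lf_apply (f : Wd →₀ ℤ) (θ : Wd → K) (y : Wd) :
    Lf K f θ y = ∑ μ ∈ f.support, f μ • θ (μ ++ y) := by
  simp [Lf, LinearMap.sum_apply, Finset.sum_apply]

theorem Lf_apply' (f : Wd →₀ ℤ) (θ : Wd → K) :
    Lf K f θ = ∑ μ ∈ f.support, f μ • Lw K μ θ := by
  simp [Lf, LinearMap.sum_apply]

theorem pow_Rw (f : Wd →₀ ℤ) (j : ℕ) (θ : Wd → K) (v : Wd) :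
    (Lf K f ^ j) (Rw K v θ) = Rw K v ((Lf K f ^ j) θ) := by
  induction j with
  | zero => rfl
  | succ j ih =>
    rw [pow_succ', Module.End.mul_apply, Module.End.mul_apply, ih]
    funext y
    simp [Lf_apply]

theorem pow_at (f : Wd →₀ ℤ) (j : ℕ) (θ : Wd → K) (v : Wd) :
    (Lf K f ^ j) θ v = (Lf K f ^ j) (Rw K v θ) [] := by
  rw [pow_Rw]; simp

theorem pow_zero_of_short (f : Wd →₀ ℤ) (hf : f [] = 0) (j : ℕ) (θ : Wd → K)
    (h : ∀ y : Wd, j ≤ y.length → θ y = 0) : (Lf K f ^ j) θ = 0 := by
  induction j generalizing θ with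
  | zero => funext y; exact h y (Nat.zero_le _)
  | succ j ih =>
    rw [pow_succ, Module.End.mul_apply]
    apply ih
    intro y hy
    rw [Lf_apply]
    apply Finset.sum_eq_zero
    intro μ hμ
    have : μ ≠ [] := by
      rintro rfl
      exact (Finsupp.mem_support_iff.mp hμ) hf
    have h1 : 0 < μ.length := List.length_pos_iff.mpr this
    rw [h _ (by simp; omega), smul_zero]

/-- The block conditions on a function. -/
def Blk (f : Wd →₀ ℤ) (D w : ℕ) (φ : Wd → K) : Prop :=
  ∀ (q s μ : Wd) (j : ℕ), s.length ≤ D → μ.length ≤ D → j ≤ w →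
    (Lf K f ^ j) (Lw K s (cut K w (Rw K q φ))) μ = 0

theorem inner (f : Wd →₀ ℤ) (hf : f [] = 0) (D w : ℕ) (hD : ∀ μ ∈ f.support, μ.length ≤ D)
    (hw : D < w) (φ : Wd → K) (H : Blk f D w φ) (s : Wd) (hs : s.length ≤ D) :
    (Lf K f ^ w) (Lw K s φ) = 0 := by
  obtain ⟨e, he⟩ : ∃ e, w = s.length + e := ⟨w - s.length, by omega⟩
  have key : ∀ j, j ≤ w → ∀ v : Wd, (Lf K f ^ j) (Rw K v (Lw K s φ)) [] =
      (Lf K f ^ j) (fun y => if y.length < e then φ (s ++ (y ++ v)) else 0) [] := by
    intro j
    induction j with
    | zero =>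
      intro _ v
      have : 0 < e := by omega
      simp [this]
    | succ j ih =>
      intro hj v
      rw [pow_succ', Module.End.mul_apply, Module.End.mul_apply, Lf_apply, Lf_apply]
      apply Finset.sum_congr rfl
      intro μ hμ
      congr 1
      rw [List.append_nil, pow_at, pow_at f j _ μ]
      have e1 : Rw K μ (Rw K v (Lw K s φ)) = Rw K (μ ++ v) (Lw K s φ) := by
        funext y; simp
      rw [e1, ih (by omega)]
      have e2 : (fun y : Wd => if y.length < e then φ (s ++ (y ++ (μ ++ v))) else 0) =
          Rw K μ (fun y => if y.length < e then φ (s ++ (y ++ v)) else 0) +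
            ∑ d ∈ Finset.Ico (e - μ.length) e,
              Rw K (μ.take (e - d)) (Lw K s (cut K w (Rw K (μ.drop (e - d) ++ v) φ))) := by
        funext y
        rw [Pi.add_apply, Finset.sum_apply]
        have e3 : ∀ d ∈ Finset.Ico (e - μ.length) e,
            Rw K (μ.take (e - d)) (Lw K s (cut K w (Rw K (μ.drop (e - d) ++ v) φ))) y =
              if y.length = d then φ (s ++ (y ++ (μ ++ v))) else 0 := by
          intro d hd
          rw [Finset.mem_Ico] at hd
          rw [Rw_apply, Lw_apply, cut_apply, Rw_apply]
          have l1 : (μ.take (e - d)).length = e - d := by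
            rw [List.length_take]; omega
          by_cases hy : y.length = d
          · rw [if_pos hy, if_pos (by simp only [List.length_append, l1]; omega)]
            congr 1
            simp only [List.append_assoc]
            rw [← List.append_assoc (μ.take (e - d)), List.take_append_drop]
          · rw [if_neg hy, if_neg (by simp only [List.length_append, l1]; omega)]
        rw [Finset.sum_congr rfl e3, Finset.sum_ite_eq, Rw_apply]
        simp only [List.length_append, Finset.mem_Ico, List.append_assoc]
        by_cases h1 : y.length + μ.length < e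
        · rw [if_pos h1, if_pos (by omega), if_neg (by omega), add_zero]
        · by_cases h2 : y.length < e
          · rw [if_pos h2, if_neg h1, if_pos (by omega), zero_add]
          · rw [if_neg h2, if_neg h1, if_neg (by omega), add_zero]
      rw [e2, map_add, map_sum, Pi.add_apply, Finset.sum_apply, Finset.sum_eq_zero, add_zero]
      intro d _
      rw [← pow_at]
      apply H _ _ _ _ hs _ (by omega)
      rw [List.length_take]
      exact le_trans (min_le_right _ _) (hD μ hμ)
  funext v
  rw [pow_at, key w le_rfl v, pow_zero_of_short f hf]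
  · rfl
  · intro y hy
    rw [if_neg (by omega)]

theorem outer (f : Wd →₀ ℤ) (hf : f [] = 0) (D w : ℕ) (hD : ∀ μ ∈ f.support, μ.length ≤ D)
    (hw : D < w) (φ : Wd → K) (H : ∀ p : Wd, w ∣ p.length → Blk f D w (Lw K p φ)) (u : Wd) :
    (Lf K f ^ (w + w)) (Lw K u φ) = 0 := by
  have key : ∀ b, w ∣ b → ∀ (t : ℕ) (u : Wd), b ≤ u.length + t → u.length ≤ b + D →
      (Lf K f ^ (t + w)) (Lw K u φ) = 0 := by
    intro b hb t
    have big : ∀ (t : ℕ) (u : Wd), b ≤ u.length → u.length ≤ b + D →
        (Lf K f ^ (t + w)) (Lw K u φ) = 0 := by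
      intro t u h1 h2
      have e1 : Lw K u φ = Lw K (u.drop b) (Lw K (u.take b) φ) := by
        funext y
        simp only [Lw_apply]
        rw [← List.append_assoc, List.take_append_drop]
      rw [pow_add, Module.End.mul_apply, e1, inner f hf D w hD hw _
        (H _ (by rw [List.length_take, min_eq_left h1]; exact hb)) _
        (by rw [List.length_drop]; omega), map_zero]
    induction t with
    | zero => intro u h1 h2; exact big 0 u h1 h2
    | succ t ih =>
      intro u h1 h2
      by_cases h3 : b ≤ u.length
      · exact big _ u h3 h2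
      · rw [show t + 1 + w = (t + w) + 1 by ring, pow_succ, Module.End.mul_apply, Lf_apply',
          map_sum]
        apply Finset.sum_eq_zero
        intro μ hμ
        have : μ ≠ [] := by
          rintro rfl
          exact (Finsupp.mem_support_iff.mp hμ) hf
        have h4 : 0 < μ.length := List.length_pos_iff.mpr this
        have h5 := hD μ hμ
        have e1 : Lw K μ (Lw K u φ) = Lw K (u ++ μ) φ := by
          funext y; simp
        rw [map_zsmul, e1, ih _ (by simp; omega) (by simp; omega), smul_zero]
  have hw0 : 0 < w := by omega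
  have h1 := Nat.div_add_mod u.length w
  have h2 := Nat.mod_lt u.length hw0
  apply key (w * (u.length / w + 1)) (dvd_mul_right _ _) w u
  · rw [mul_add, mul_one]; omega
  · rw [mul_add, mul_one]; omega

end Ops

end Pool.Agent.Lib.helper7.NR
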