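import Pool.Agent.Lib.helper7.NR1

set_option autoImplicit false

namespace Pool.Agent.Lib.helper7.NR

open MvPolynomial

abbrev PP : Type := MvPolynomial (Fin 2) ℚ

noncomputable def tt : Fin 3 → PP := ![1, X 1, X 0]

/-- Value of a function on the powers of the generic linear form. -/
noncomputable def ev : ℕ → ((Wd → ℚ) →ₗ[ℚ] PP)
  | 0 => (Algebra.linearMap ℚ PP).comp (LinearMap.proj ([] : Wd))
  | n + 1 => ∑ i : Fin 3, (LinearMap.mulLeft ℚ (tt i)).comp ((ev n).comp (Lw ℚ [i]))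

theorem ev_zero (φ : Wd → ℚ) : ev 0 φ = C (φ []) := rfl

theorem ev_succ (n : ℕ) (φ : Wd → ℚ) :
    ev (n + 1) φ = ∑ i : Fin 3, tt i * ev n (Lw ℚ [i] φ) := by
  simp [ev, LinearMap.sum_apply]

def ten (n : ℕ) (φ ψ : Wd → ℚ) : Wd → ℚ := fun y => φ (y.take n) * ψ (y.drop n)

theorem ev_ten (n n' : ℕ) (φ ψ : Wd → ℚ) : ev (n + n') (ten n φ ψ) = ev n φ * ev n' ψ := by
  induction n generalizing φ with
  | zero =>
    have : ten 0 φ ψ = φ [] • ψ := by funext y; simp [ten]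
    rw [this, zero_add, map_smul, ev_zero, smul_eq_C_mul]
  | succ n ih =>
    rw [show n + 1 + n' = (n + n') + 1 by ring, ev_succ, ev_succ, Finset.sum_mul]
    apply Finset.sum_congr rfl
    intro i _
    have : Lw ℚ [i] (ten (n + 1) φ ψ) = ten n (Lw ℚ [i] φ) ψ := by funext y; simp [ten]
    rw [this, ih, mul_assoc]

theorem ev_deg (n : ℕ) (φ : Wd → ℚ) : (ev n φ).totalDegree ≤ n := by
  induction n generalizing φ with
  | zero => rw [ev_zero, totalDegree_C]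
  | succ n ih =>
    rw [ev_succ]
    apply totalDegree_finsetSum_le
    intro i _
    refine (totalDegree_mul _ _).trans ?_
    have : (tt i).totalDegree ≤ 1 := by
      fin_cases i <;> simp [tt]
    have := ih (Lw ℚ [i] φ)
    omega

theorem ev_eq_zero (n : ℕ) (φ : Wd → ℚ) (h : ∀ y : Wd, y.length = n → φ y = 0) : ev n φ = 0 := by
  induction n generalizing φ with
  | zero => rw [ev_zero, h [] rfl, map_zero]
  | succ n ih =>
    rw [ev_succ]
    apply Finset.sum_eq_zero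
    intro i _
    rw [ih (Lw ℚ [i] φ) (fun y hy => h ([i] ++ y) (by simp [hy])), mul_zero]

abbrev Con : Type := ℕ × (Wd →₀ ℤ) × ℕ

def Adm (Γ : Set Con) (φ : Wd → ℚ) : Prop :=
  ∀ c ∈ Γ, ∀ p : Wd, c.1 ∣ p.length → Blk c.2.1 c.2.2 c.1 (Lw ℚ p φ)

def SA (Γ : Set Con) (n : ℕ) : Submodule ℚ (Wd → ℚ) where
  carrier := {φ | (∀ y : Wd, y.length ≠ n → φ y = 0) ∧ Adm Γ φ}
  zero_mem' := ⟨fun _ _ => rfl, fun c _ p _ q s μ j _ _ _ => by simp⟩
  add_mem' := by
    rintro φ ψ ⟨h1, h2⟩ ⟨g1, g2⟩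
    refine ⟨fun y hy => by simp [h1 y hy, g1 y hy], fun c hc p hp q s μ j a1 a2 a3 => ?_⟩
    simp only [map_add, Pi.add_apply, h2 c hc p hp q s μ j a1 a2 a3,
      g2 c hc p hp q s μ j a1 a2 a3, add_zero]
  smul_mem' := by
    rintro r φ ⟨h1, h2⟩
    refine ⟨fun y hy => by simp [h1 y hy], fun c hc p hp q s μ j a1 a2 a3 => ?_⟩
    simp only [map_smul, Pi.smul_apply, h2 c hc p hp q s μ j a1 a2 a3, smul_zero]

theorem cut_long (n w : ℕ) (φ : Wd → ℚ) (h : ∀ y : Wd, y.length ≠ n → φ y = 0) (p q : Wd)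
    (hw : n < p.length + w + q.length) : cut ℚ w (Rw ℚ q (Lw ℚ p φ)) = 0 := by
  funext y
  rw [cut_apply]
  split_ifs with hy
  · exact h _ (by simp; omega)
  · rfl

theorem ten_mem (Γ : Set Con) (n n' : ℕ) (hn : ∀ c ∈ Γ, c.1 ∣ n) (φ ψ : Wd → ℚ)
    (hφ : φ ∈ SA Γ n) (hψ : ψ ∈ SA Γ n') : ten n φ ψ ∈ SA Γ (n + n') := by
  constructor
  · intro y hy
    by_cases h : n ≤ y.length
    · rw [ten, hψ.1 _ (by rw [List.length_drop]; omega), mul_zero]
    · rw [ten, hφ.1 _ (by rw [List.length_take]; omega), zero_mul]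
  · intro c hc p hp q s μ j a1 a2 a3
    by_cases h : n ≤ p.length
    · have e : cut ℚ c.1 (Rw ℚ q (Lw ℚ p (ten n φ ψ))) =
          φ (p.take n) • cut ℚ c.1 (Rw ℚ q (Lw ℚ (p.drop n) ψ)) := by
        funext y
        simp only [Pi.smul_apply, cut_apply, Rw_apply, Lw_apply, ten, smul_eq_mul]
        rw [List.take_append_of_le_length h, List.drop_append_of_le_length h]
        split_ifs <;> simp
      rw [e, map_smul, map_smul, Pi.smul_apply,
        hψ.2 c hc _ (by rw [List.length_drop]; exact Nat.dvd_sub hp (hn c hc)) q s μ j a1 a2 a3,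
        smul_zero]
    · have h2 : p.length + c.1 ≤ n := by
        have := Nat.le_of_dvd (by omega) (Nat.dvd_sub (hn c hc) hp)
        omega
      have e : cut ℚ c.1 (Rw ℚ q (Lw ℚ p (ten n φ ψ))) =
          ψ (q.drop (n - (p.length + c.1))) •
            cut ℚ c.1 (Rw ℚ (q.take (n - (p.length + c.1))) (Lw ℚ p φ)) := by
        funext y
        simp only [Pi.smul_apply, cut_apply, Rw_apply, Lw_apply, ten, smul_eq_mul]
        split_ifs with hy
        · have l : (p ++ y).length ≤ n := by simp; omega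
          rw [← List.append_assoc, List.take_append, List.drop_append, List.take_of_length_le l,
            List.drop_of_length_le l, List.length_append, hy, List.nil_append, List.append_assoc,
            mul_comm]
        · simp
      rw [e, map_smul, map_smul, Pi.smul_apply, hφ.2 c hc p hp _ s μ j a1 a2 a3, smul_zero]

def PS (Γ : Set Con) (n : ℕ) (p : PP) : Prop := ∃ φ ∈ SA Γ n, ev n φ = p

theorem PS.mul {Γ : Set Con} {n n' : ℕ} (hn : ∀ c ∈ Γ, c.1 ∣ n) {p p' : PP} (h : PS Γ n p)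
    (h' : PS Γ n' p') : PS Γ (n + n') (p * p') := by
  obtain ⟨φ, h1, rfl⟩ := h
  obtain ⟨ψ, h2, rfl⟩ := h'
  exact ⟨_, ten_mem Γ n n' hn φ ψ h1 h2, ev_ten _ _ _ _⟩

theorem PS.pow {Γ : Set Con} {n : ℕ} (h0 : 0 < n) (hn : ∀ c ∈ Γ, c.1 ∣ n) {p : PP} (h : PS Γ n p)
    (j : ℕ) : PS Γ (j * n) (p ^ j) := by
  induction j with
  | zero =>
    have hs : ∀ y : Wd, y.length ≠ 0 * n → (fun y : Wd => if y = [] then (1 : ℚ) else 0) y = 0 := by
      intro y hy
      exact if_neg (by rintro rfl; simp at hy)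
    refine ⟨fun y => if y = [] then 1 else 0, ⟨hs, ?_⟩, by simp [ev_zero]⟩
    intro c hc p _ q s μ j _ _ _
    have := Nat.pos_of_dvd_of_pos (hn c hc) h0
    rw [cut_long _ _ _ hs p q (by omega)]
    simp
  | succ j ih =>
    rw [pow_succ, add_mul, one_mul]
    exact ih.mul (fun c hc => (hn c hc).mul_left j) h

noncomputable abbrev dg (p : PP) : Fin 2 →₀ ℕ := MonomialOrder.lex.degree p

theorem indep {J : Type} [Fintype J] (q : J → PP) (h0 : ∀ i, q i ≠ 0)
    (hinj : Function.Injective (fun i => dg (q i))) (c : J → ℚ) (hc : ∑ i, c i • q i = 0) :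
    c = 0 := by
  classical
  by_contra hne
  have hT : (Finset.univ.filter (fun i => c i ≠ 0)).Nonempty := by
    obtain ⟨i, hi⟩ := Function.ne_iff.mp hne
    exact ⟨i, by simpa using hi⟩
  obtain ⟨i0, hi0, hmax⟩ := Finset.exists_max_image _
    (fun i => MonomialOrder.lex.toSyn (dg (q i))) hT
  have h1 := congrArg (coeff (dg (q i0))) hc
  rw [coeff_sum, coeff_zero, Finset.sum_eq_single i0] at h1
  · rw [coeff_smul, smul_eq_mul, mul_eq_zero] at h1
    rcases h1 with h1 | h1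
    · simp [h1] at hi0
    · exact (MonomialOrder.coeff_degree_ne_zero_iff.mpr (h0 i0)) h1
  · intro i _ hi
    by_cases hci : c i = 0
    · simp [hci]
    · rw [coeff_smul, MonomialOrder.coeff_eq_zero_of_lt (m := MonomialOrder.lex), smul_zero]
      refine lt_of_le_of_ne (hmax i (by simpa using hci)) (fun h => hi (hinj ?_))
      exact MonomialOrder.lex.toSyn.injective h
  · simp

def Good (n : ℕ) (Γ : Set Con) : Prop :=
  0 < n ∧ (∀ c ∈ Γ, c.1 ∣ n) ∧ ∃ p0 p1 p2 : PP, PS Γ n p0 ∧ PS Γ n p1 ∧ PS Γ n p2 ∧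
    p0 ≠ 0 ∧ p1 ≠ 0 ∧ p2 ≠ 0 ∧ dg p0 0 = dg p1 0 ∧ dg p0 1 ≠ dg p1 1 ∧ dg p2 0 ≠ dg p0 0

theorem good_base : Good 1 ∅ := by
  have h : ∀ i : Fin 3, PS ∅ 1 (tt i) := by
    intro i
    refine ⟨fun y => if y = [i] then 1 else 0, ⟨fun y hy => if_neg (by rintro rfl; simp at hy),
      fun c hc => hc.elim⟩, ?_⟩
    rw [ev_succ, Finset.sum_eq_single i]
    · simp [ev_zero]
    · intro j _ hj
      simp [ev_zero, hj]
    · simp
  refine ⟨one_pos, fun c hc => hc.elim, tt 0, tt 1, tt 2, h 0, h 1, h 2, ?_, ?_, ?_, ?_, ?_, ?_⟩ <;>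
    simp [tt, dg, MonomialOrder.degree_X]

theorem step (n : ℕ) (Γ : Set Con) (hG : Good n Γ) (f : Wd →₀ ℤ) (D : ℕ) :
    ∃ n', n < n' ∧ D < n' ∧ Good n' (insert (n', f, D) Γ) := by
  classical
  obtain ⟨hn, hdv, p0, p1, p2, s0, s1, s2, z0, z1, z2, d1, d2, d3⟩ := hG
  obtain ⟨S, hS⟩ : ∃ S : Finset Wd, ∀ y : Wd, y.length ≤ D → y ∈ S :=
    ⟨(List.finite_length_le (Fin 3) D).toFinset, fun y hy => by simpa using hy⟩
  obtain ⟨ρ, hρ⟩ : ∃ ρ, ρ = (S.card * S.card + 1) * (2 * n + 1) + D := ⟨_, rfl⟩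
  have hρ1 : D + 1 ≤ ρ := by rw [hρ]; nlinarith [Nat.zero_le (S.card * S.card)]
  obtain ⟨N, hN⟩ : ∃ N, N = 2 * ρ * n := ⟨_, rfl⟩
  have hdvN : ∀ c ∈ insert (N, f, D) Γ, c.1 ∣ N := by
    rintro c (rfl | hc)
    · exact dvd_rfl
    · rw [hN]; exact (hdv c hc).mul_left _
  refine ⟨N, by rw [hN]; nlinarith, by rw [hN]; nlinarith, by rw [hN]; nlinarith, hdvN, ?_⟩
  by_contra hcon
  let E : Set (Fin 2 →₀ ℕ) := {e | ∃ p, PS (insert (N, f, D) Γ) N p ∧ p ≠ 0 ∧ dg p = e}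
  obtain ⟨i, hi⟩ : ∃ i : Fin 2, Set.InjOn (fun e : Fin 2 →₀ ℕ => e i) E := by
    by_cases h : Set.InjOn (fun e : Fin 2 →₀ ℕ => e 0) E
    · exact ⟨0, h⟩
    · refine ⟨1, ?_⟩
      rw [Set.InjOn] at h
      push Not at h
      obtain ⟨_, ⟨a, a1, a2, rfl⟩, _, ⟨b, b1, b2, rfl⟩, h1, h2⟩ := h
      have h3 : dg a 1 ≠ dg b 1 := by
        intro h3
        apply h2
        ext k
        fin_cases k
        · exact h1
        · exact h3
      have h4 : ∀ e ∈ E, e 0 = dg a 0 := by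
        rintro _ ⟨c, c1, c2, rfl⟩
        by_contra h5
        exact hcon ⟨a, b, c, a1, b1, c1, a2, b2, c2, h1, h3, h5⟩
      intro e he e' he' h5
      ext k
      fin_cases k
      · exact (h4 e he).trans (h4 e' he').symm
      · exact h5
  let q : Fin (ρ + 1) × Fin (ρ + 1) → PP :=
    fun x => p0 ^ (2 * ρ - x.1 - x.2) * p1 ^ (x.1 : ℕ) * p2 ^ (x.2 : ℕ)
  have hq : ∀ x, PS Γ N (q x) := by
    intro x
    have h1 := x.1.2
    have h2 := x.2.2
    have : N = (2 * ρ - x.1 - x.2) * n + x.1 * n + x.2 * n := by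
      rw [hN, ← add_mul, ← add_mul]
      congr 1
      omega
    rw [this]
    refine PS.mul (fun c hc => ?_) (PS.mul (fun c hc => (hdv c hc).mul_left _)
      (s0.pow hn hdv _) (s1.pow hn hdv _)) (s2.pow hn hdv _)
    exact dvd_add ((hdv c hc).mul_left _) ((hdv c hc).mul_left _)
  have hq0 : ∀ x, q x ≠ 0 := fun x =>
    mul_ne_zero (mul_ne_zero (pow_ne_zero _ z0) (pow_ne_zero _ z1)) (pow_ne_zero _ z2)
  have hqd : ∀ x k, dg (q x) k =
      (2 * ρ - x.1 - x.2) * dg p0 k + x.1 * dg p1 k + x.2 * dg p2 k := by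
    intro x k
    simp only [q, dg]
    rw [MonomialOrder.degree_mul (mul_ne_zero (pow_ne_zero _ z0) (pow_ne_zero _ z1))
      (pow_ne_zero _ z2), MonomialOrder.degree_mul (pow_ne_zero _ z0) (pow_ne_zero _ z1),
      MonomialOrder.degree_pow, MonomialOrder.degree_pow, MonomialOrder.degree_pow]
    simp
  have hinj : Function.Injective (fun x => dg (q x)) := by
    intro x y hxy
    have e0 : dg (q x) 0 = dg (q y) 0 := by rw [show dg (q x) = dg (q y) from hxy]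
    have e1 : dg (q x) 1 = dg (q y) 1 := by rw [show dg (q x) = dg (q y) from hxy]
    rw [hqd, hqd] at e0 e1
    have x1 := x.1.2
    have x2 := x.2.2
    have y1 := y.1.2
    have y2 := y.2.2
    have cx : ((2 * ρ - x.1 - x.2 : ℕ) : ℤ) = 2 * ρ - (x.1 : ℕ) - (x.2 : ℕ) := by omega
    have cy : ((2 * ρ - y.1 - y.2 : ℕ) : ℤ) = 2 * ρ - (y.1 : ℕ) - (y.2 : ℕ) := by omega
    zify at e0 e1 d1 d2 d3
    rw [cx, cy] at e0 e1
    have f2 : (((x.2 : ℕ) : ℤ) - (y.2 : ℕ)) * ((dg p2 0 : ℤ) - dg p0 0) = 0 := by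
      rw [← d1] at e0
      linear_combination e0
    have g2 : ((x.2 : ℕ) : ℤ) = (y.2 : ℕ) :=
      sub_eq_zero.mp ((mul_eq_zero.mp f2).resolve_right (sub_ne_zero.mpr d3))
    have f1 : (((x.1 : ℕ) : ℤ) - (y.1 : ℕ)) * ((dg p0 1 : ℤ) - dg p1 1) = 0 := by
      rw [g2] at e1
      linear_combination -e1
    have g1 : ((x.1 : ℕ) : ℤ) = (y.1 : ℕ) :=
      sub_eq_zero.mp ((mul_eq_zero.mp f1).resolve_right (sub_ne_zero.mpr d2))
    exact Prod.ext (Fin.ext (by exact_mod_cast g1)) (Fin.ext (by exact_mod_cast g2))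
  choose Φ hΦ1 hΦ2 using hq
  let comb : (Fin (ρ + 1) × Fin (ρ + 1) → ℚ) →ₗ[ℚ] (Wd → ℚ) := Fintype.linearCombination ℚ Φ
  have hcomb : ∀ c, comb c = ∑ x, c x • Φ x := fun c => Fintype.linearCombination_apply _ _ _
  let g : ℕ → (Fin 2 →₀ ℕ) := Function.invFunOn (fun e : Fin 2 →₀ ℕ => e i) E
  let κ : (Fin (ρ + 1) × Fin (ρ + 1) → ℚ) →ₗ[ℚ] (S × S × Fin (N + 1) → ℚ) :=
    LinearMap.pi fun x => (LinearMap.proj (x.2.1 : Wd)).comp
      ((Lf ℚ f ^ (x.2.2 : ℕ)).comp ((Lw ℚ x.1).comp ((cut ℚ N).comp comb)))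
  let τ : (Fin (ρ + 1) × Fin (ρ + 1) → ℚ) →ₗ[ℚ] (Fin (N + 1) → ℚ) :=
    LinearMap.pi fun v => (lcoeff ℚ (g v)).comp ((ev N).comp comb)
  have hinj2 : Function.Injective (κ.prod τ) := by
    rw [injective_iff_map_eq_zero]
    intro c hc
    have hκ : κ c = 0 := congrArg Prod.fst hc
    have hτ : τ c = 0 := congrArg Prod.snd hc
    have m1 : comb c ∈ SA Γ N := by
      rw [hcomb]
      exact Submodule.sum_mem _ (fun x _ => Submodule.smul_mem _ _ (hΦ1 x))
    have m2 : comb c ∈ SA (insert (N, f, D) Γ) N := by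
      refine ⟨m1.1, ?_⟩
      rintro c' (rfl | hc')
      · intro p _ q' s μ j a1 a2 a3
        by_cases h : N < p.length + N + q'.length
        · rw [cut_long N N _ m1.1 p q' h]
          simp
        · have hp : p = [] := List.length_eq_zero_iff.mp (by omega)
          have hq' : q' = [] := List.length_eq_zero_iff.mp (by omega)
          have e : Rw ℚ q' (Lw ℚ p (comb c)) = comb c := by
            funext y; simp [hp, hq']
          rw [e]
          exact congrFun hκ (⟨s, hS s a1⟩, ⟨μ, hS μ a2⟩, ⟨j, Nat.lt_succ_of_le a3⟩)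
      · exact m1.2 c' hc'
    apply indep q hq0 hinj
    have e : ev N (comb c) = ∑ x, c x • q x := by
      rw [hcomb, map_sum]
      exact Finset.sum_congr rfl (fun x _ => by rw [map_smul, hΦ2])
    rw [← e]
    by_contra hne
    have hE : dg (ev N (comb c)) ∈ E := ⟨_, ⟨_, m2, rfl⟩, hne, rfl⟩
    have hle : dg (ev N (comb c)) i ≤ N :=
      (monomial_le_degreeOf i (MonomialOrder.degree_mem_support hne)).trans
        ((degreeOf_le_totalDegree _ _).trans (ev_deg _ _))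
    have h1 : coeff (g (dg (ev N (comb c)) i)) (ev N (comb c)) = 0 :=
      congrFun hτ ⟨_, Nat.lt_succ_of_le hle⟩
    have h2 : g (dg (ev N (comb c)) i) = dg (ev N (comb c)) := hi.leftInvOn_invFunOn hE
    rw [h2] at h1
    exact (MonomialOrder.coeff_degree_ne_zero_iff.mpr hne) h1
  have hcard := LinearMap.finrank_le_finrank_of_injective hinj2
  simp only [Module.finrank_prod, Module.finrank_fintype_fun_eq_card, Fintype.card_prod,
    Fintype.card_fin, Fintype.card_coe] at hcard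
  generalize S.card = C at hρ hcard
  have h1 : (C * C + 1) * (2 * n + 1) ≤ ρ := by omega
  have h2 : ρ * ((C * C + 1) * (2 * n + 1)) ≤ ρ * ρ := Nat.mul_le_mul_left _ h1
  have h3 : (C * C + 1) * 1 ≤ (C * C + 1) * ρ := Nat.mul_le_mul_left _ (by omega)
  rw [hN] at hcard
  nlinarith

theorem main : ∃ G : Set (Wd → ℚ),
    (∀ f : Wd →₀ ℤ, f [] = 0 → ∃ N, ∀ φ ∈ G, ∀ u, (Lf ℚ f ^ N) (Lw ℚ u φ) = 0) ∧
    ∀ n0 : ℕ, ∃ n, n0 < n ∧ ∃ φ ∈ G, (∀ y : Wd, y.length ≠ n → φ y = 0) ∧ ev n φ ≠ 0 := by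
  classical
  obtain ⟨F, hF⟩ := exists_surjective_nat (Wd →₀ ℤ)
  choose nx h1 h2 h3 using step
  let s : ℕ → {x : ℕ × Set Con // Good x.1 x.2} := fun k =>
    Nat.rec ⟨(1, ∅), good_base⟩ (fun k x =>
      ⟨(nx x.1.1 x.1.2 x.2 (F k) ((F k).support.sup List.length),
        insert (nx x.1.1 x.1.2 x.2 (F k) ((F k).support.sup List.length), F k,
          (F k).support.sup List.length) x.1.2), h3 _ _ _ _ _⟩) k
  have s1 : ∀ k, (s k).1.1 < (s (k + 1)).1.1 := fun k => h1 _ _ _ _ _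
  have s2 : ∀ k, (F k).support.sup List.length < (s (k + 1)).1.1 := fun k => h2 _ _ _ _ _
  have s3 : ∀ k, (s (k + 1)).1.2 =
      insert ((s (k + 1)).1.1, F k, (F k).support.sup List.length) (s k).1.2 := fun k => rfl
  have s4 : ∀ k l, (s k).1.2 ⊆ (s (k + l)).1.2 ∧ (s k).1.1 ≤ (s (k + l)).1.1 ∧
      ∀ c ∈ (s (k + l)).1.2, c ∈ (s k).1.2 ∨ (s k).1.1 < c.1 := by
    intro k l
    induction l with
    | zero => exact ⟨subset_rfl, le_rfl, fun c hc => Or.inl hc⟩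
    | succ l ih =>
      rw [← add_assoc]
      refine ⟨ih.1.trans (by rw [s3]; exact Set.subset_insert _ _), ih.2.1.trans (s1 _).le, ?_⟩
      rw [s3]
      rintro c (rfl | hc)
      · exact Or.inr (lt_of_le_of_lt ih.2.1 (s1 _))
      · exact ih.2.2 c hc
  have s5 : ∀ k, k < (s k).1.1 := by
    intro k
    induction k with
    | zero => exact one_pos
    | succ k ih => exact lt_of_le_of_lt ih (s1 k)
  refine ⟨{φ | ∀ k, Adm (s k).1.2 φ}, ?_, ?_⟩
  · intro f hf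
    obtain ⟨k, rfl⟩ := hF f
    refine ⟨_, fun φ hφ u => outer (F k) hf _ _ (fun μ hμ => Finset.le_sup hμ) (s2 k) φ ?_ u⟩
    exact hφ (k + 1) _ (by rw [s3]; exact Set.mem_insert _ _)
  · intro n0
    obtain ⟨-, -, p0, -, -, ⟨φ, hφ, rfl⟩, -, -, z0, -⟩ := (s n0).2
    refine ⟨_, s5 n0, φ, ?_, hφ.1, z0⟩
    intro k c hc
    have hc' := (s4 k n0).1 hc
    rw [add_comm] at hc'
    rcases (s4 n0 k).2.2 c hc' with h | h
    · exact hφ.2 c h
    · intro p _ q s μ j _ _ _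
      rw [cut_long _ _ _ hφ.1 p q (by omega)]
      simp

end Pool.Agent.Lib.helper7.NR
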