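import Pool.Agent.Lib.helper7.NR2

set_option autoImplicit false

namespace Pool.Agent.Lib.helper7.NR

variable {K : Type} [Field K] [CharZero K]

def cst (K : Type) [Field K] (φ : Wd → ℚ) : Wd → K := fun y => (φ y : K)

theorem Lf_cst (f : Wd →₀ ℤ) (N : ℕ) (θ : Wd → ℚ) :
    (Lf K f ^ N) (cst K θ) = cst K ((Lf ℚ f ^ N) θ) := by
  induction N with
  | zero => rfl
  | succ N ih =>
    rw [pow_succ', pow_succ', Module.End.mul_apply, Module.End.mul_apply, ih]
    funext y
    simp [Lf_apply, cst]

abbrev AA (K : Type) [Field K] : Type := MonoidAlgebra K (FreeMonoid (Fin 3))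

def pm (K : Type) [Field K] : FreeMonoid (Fin 3) →* Module.End K (Wd → K) where
  toFun y := Lw K y.toList.reverse
  map_one' := by ext θ z; simp
  map_mul' x y := by ext θ z; simp

noncomputable def pp (K : Type) [Field K] : AA K →ₐ[K] Module.End K (Wd → K) :=
  MonoidAlgebra.lift K _ _ (pm K)

omit [CharZero K] in
theorem pp_single (y : FreeMonoid (Fin 3)) (r : K) :
    pp K (MonoidAlgebra.single y r) = r • Lw K y.toList.reverse :=
  MonoidAlgebra.lift_single _ _ _

noncomputable def BB (K : Type) [Field K] : AddSubgroup (AA K) :=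
  AddSubgroup.closure {x | ∃ y : FreeMonoid (Fin 3), y ≠ 1 ∧ x = MonoidAlgebra.single y 1}

omit [CharZero K] in
theorem BB_mul (x y : AA K) (hx : x ∈ BB K) (hy : y ∈ BB K) : x * y ∈ BB K := by
  induction hx using AddSubgroup.closure_induction with
  | mem x hx =>
    induction hy using AddSubgroup.closure_induction with
    | mem y hy =>
      obtain ⟨u, hu, rfl⟩ := hx
      obtain ⟨v, _, rfl⟩ := hy
      refine AddSubgroup.subset_closure ⟨u * v, fun h => hu ?_, by
        rw [MonoidAlgebra.single_mul_single, one_mul]⟩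
      have := congrArg FreeMonoid.toList h
      simp only [FreeMonoid.toList_mul, FreeMonoid.toList_one, List.append_eq_nil_iff] at this
      exact FreeMonoid.toList.injective this.1
    | zero => rw [mul_zero]; exact zero_mem _
    | add y z _ _ h1 h2 => rw [mul_add]; exact add_mem h1 h2
    | neg y _ h1 => rw [mul_neg]; exact neg_mem h1
  | zero => rw [zero_mul]; exact zero_mem _
  | add y z _ _ h1 h2 => rw [add_mul]; exact add_mem h1 h2
  | neg y _ h1 => rw [neg_mul]; exact neg_mem h1

omit [CharZero K] in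
theorem BB_Lf (x : AA K) (hx : x ∈ BB K) : ∃ f : Wd →₀ ℤ, f [] = 0 ∧ pp K x = Lf K f := by
  have e : ∀ f : Wd →₀ ℤ, Lf K f = Finsupp.linearCombination ℤ (Lw K) f := fun f => by
    rw [Finsupp.linearCombination_apply]; rfl
  induction hx using AddSubgroup.closure_induction with
  | mem x hx =>
    obtain ⟨u, hu, rfl⟩ := hx
    refine ⟨Finsupp.single u.toList.reverse 1, ?_, by rw [e, pp_single]; simp⟩
    apply Finsupp.single_eq_of_ne
    intro h
    apply hu
    apply FreeMonoid.toList.injective
    simpa using h.symm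
  | zero => exact ⟨0, rfl, by rw [e, map_zero, map_zero]⟩
  | add y z _ _ h1 h2 =>
    obtain ⟨f, f1, f2⟩ := h1
    obtain ⟨g, g1, g2⟩ := h2
    exact ⟨f + g, by simp [f1, g1], by rw [map_add, f2, g2, e, e, e, map_add]⟩
  | neg y _ h1 =>
    obtain ⟨f, f1, f2⟩ := h1
    exact ⟨-f, by simp [f1], by rw [map_neg, f2, e, e, map_neg]⟩

omit [CharZero K] in
theorem pp_Rw (x : AA K) (θ : Wd → K) (v : Wd) : pp K x (Rw K v θ) = Rw K v (pp K x θ) := by
  induction x using MonoidAlgebra.induction_linear with
  | zero => simp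
  | add x y hx hy => simp [hx, hy]
  | single y r => rw [pp_single]; funext z; simp

omit [CharZero K] in
theorem pp_bound (b : AA K) : ∃ n0 : ℕ, ∀ θ : Wd → K, (∀ y : Wd, y.length ≤ n0 → θ y = 0) →
    pp K b θ [] = 0 := by
  induction b using MonoidAlgebra.induction_linear with
  | zero => exact ⟨0, fun θ _ => by simp⟩
  | add x y hx hy =>
    obtain ⟨a, ha⟩ := hx
    obtain ⟨b, hb⟩ := hy
    refine ⟨a + b, fun θ h => ?_⟩
    simp [ha θ (fun y hy => h y (by omega)), hb θ (fun y hy => h y (by omega))]
  | single y r =>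
    refine ⟨y.toList.length, fun θ h => ?_⟩
    rw [pp_single]
    simp [h y.toList.reverse (by simp)]

noncomputable def aa (ι : PP →+* K) : AA K :=
  ∑ i : Fin 3, ι (tt i) • MonoidAlgebra.single (FreeMonoid.of i) 1

theorem pp_aa (ι : PP →+* K) (n : ℕ) (φ : Wd → ℚ) :
    pp K (aa ι ^ n) (cst K φ) [] = ι (ev n φ) := by
  induction n generalizing φ with
  | zero =>
    rw [ev_zero, pow_zero, map_one]
    exact (eq_ratCast (ι.comp MvPolynomial.C) (φ [])).symm
  | succ n ih =>
    have e : pp K (aa ι) (cst K φ) = ∑ i : Fin 3, ι (tt i) • cst K (Lw ℚ [i] φ) := by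
      rw [aa, map_sum, LinearMap.sum_apply]
      apply Finset.sum_congr rfl
      intro i _
      rw [map_smul, pp_single, one_smul]
      rfl
    rw [pow_succ, map_mul, Module.End.mul_apply, e, map_sum, Finset.sum_apply, ev_succ, map_sum]
    apply Finset.sum_congr rfl
    intro i _
    rw [map_smul, Pi.smul_apply, ih, map_mul, smul_eq_mul]

theorem exists_ideal (ι : PP →+* K) (hι : Function.Injective ι) :
    ∃ M : Ideal (AA K), M.IsMaximal ∧ 1 - aa ι ∈ M ∧
      ∀ x ∈ BB K, ∃ N : ℕ, ∀ y : AA K, x ^ N * y ∈ M := by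
  obtain ⟨G, hG1, hG2⟩ := main
  let Q : Submodule K (Wd → K) := Submodule.span K {θ | ∃ φ ∈ G, ∃ u, θ = Lw K u (cst K φ)}
  have hQ : ∀ (x : AA K) (θ : Wd → K), θ ∈ Q → pp K x θ ∈ Q := by
    intro x θ hθ
    induction x using MonoidAlgebra.induction_linear with
    | zero => simp
    | add x y hx hy => rw [map_add, LinearMap.add_apply]; exact add_mem hx hy
    | single y r =>
      rw [pp_single, LinearMap.smul_apply]
      apply Submodule.smul_mem
      induction hθ using Submodule.span_induction with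
      | mem θ h =>
        obtain ⟨φ, hφ, u, rfl⟩ := h
        exact Submodule.subset_span ⟨φ, hφ, u ++ y.toList.reverse, by funext z; simp⟩
      | zero => simp
      | add a b _ _ h1 h2 => rw [map_add]; exact add_mem h1 h2
      | smul c a _ h1 => rw [map_smul]; exact Submodule.smul_mem _ _ h1
  let I : Ideal (AA K) :=
    { carrier := {x | ∀ θ ∈ Q, pp K x θ = 0}
      zero_mem' := fun θ _ => by simp
      add_mem' := fun {x y} hx hy θ hθ => by simp [hx θ hθ, hy θ hθ]
      smul_mem' := fun c x hx θ hθ => by simp [hx θ hθ] }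
  have hI : ∀ x ∈ BB K, ∃ N : ℕ, ∀ y : AA K, x ^ N * y ∈ I := by
    intro x hx
    obtain ⟨f, f1, f2⟩ := BB_Lf x hx
    obtain ⟨N, hN⟩ := hG1 f f1
    refine ⟨N, fun y θ hθ => ?_⟩
    rw [map_mul, Module.End.mul_apply, map_pow, f2]
    have h := hQ y θ hθ
    generalize pp K y θ = η at h
    induction h using Submodule.span_induction with
    | mem θ h =>
      obtain ⟨φ, hφ, u, rfl⟩ := h
      have : Lw K u (cst K φ) = cst K (Lw ℚ u φ) := rfl
      rw [this, Lf_cst, hN φ hφ u]
      funext z
      simp [cst]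
    | zero => simp
    | add a b _ _ h1 h2 => rw [map_add, h1, h2, add_zero]
    | smul c a _ h1 => rw [map_smul, h1, smul_zero]
  have hJ : I ⊔ Ideal.span {1 - aa ι} ≠ ⊤ := by
    rw [Ne, Ideal.eq_top_iff_one, Submodule.mem_sup]
    rintro ⟨x, hx, z, hz, h1⟩
    obtain ⟨b, rfl⟩ := Ideal.mem_span_singleton'.mp hz
    obtain ⟨n0, hn0⟩ := pp_bound b
    obtain ⟨n, hn, φ, hφ, hs, hev⟩ := hG2 n0
    have hc : cst K φ ∈ Q := Submodule.subset_span ⟨φ, hφ, [], rfl⟩
    have key : ∀ j : ℕ, ι (ev j φ) = pp K (b * aa ι ^ j) (cst K φ) [] -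
        pp K (b * aa ι ^ (j + 1)) (cst K φ) [] := by
      intro j
      have e : aa ι ^ j = x * aa ι ^ j + (b * aa ι ^ j - b * aa ι ^ (j + 1)) := by
        calc aa ι ^ j = (x + b * (1 - aa ι)) * aa ι ^ j := by rw [h1, one_mul]
          _ = _ := by rw [pow_succ']; noncomm_ring
      have e2 : pp K (x * aa ι ^ j) (cst K φ) = 0 := by
        rw [map_mul, Module.End.mul_apply]
        exact hx _ (hQ _ _ hc)
      rw [← pp_aa]
      conv_lhs => rw [e]
      rw [map_add, LinearMap.add_apply, e2, zero_add, map_sub, LinearMap.sub_apply, Pi.sub_apply]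
    have z1 : ∀ j, j ≤ n → pp K (b * aa ι ^ j) (cst K φ) [] = 0 := by
      intro j
      induction j with
      | zero =>
        intro _
        rw [pow_zero, mul_one]
        apply hn0
        intro y hy
        simp [cst, hs y (by omega)]
      | succ j ih =>
        intro hj
        have := key j
        rw [ih (by omega), ev_eq_zero j φ (fun y hy => hs y (by omega)), map_zero] at this
        simpa using this
    have z2 : pp K (aa ι ^ (n + 1)) (cst K φ) = 0 := by
      funext y
      have e1 : pp K (aa ι ^ (n + 1)) (cst K φ) y =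
          pp K (aa ι ^ (n + 1)) (cst K (Rw ℚ y φ)) [] := by
        have : cst K (Rw ℚ y φ) = Rw K y (cst K φ) := rfl
        rw [this, pp_Rw]
        simp
      rw [e1, pp_aa, ev_eq_zero (n + 1) (Rw ℚ y φ) (fun z hz => hs (z ++ y) (by simp; omega)), map_zero]
      rfl
    have := key n
    rw [z1 n le_rfl, map_mul, Module.End.mul_apply, z2, map_zero] at this
    apply hev
    apply hι
    simpa using this
  obtain ⟨M, hM, hle⟩ := Ideal.exists_le_maximal _ hJ
  refine ⟨M, hM, hle (Submodule.mem_sup_right (Ideal.subset_span rfl)), fun x hx => ?_⟩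
  obtain ⟨N, hN⟩ := hI x hx
  exact ⟨N, fun y => hle (Submodule.mem_sup_left (hN y))⟩

theorem final (ι : PP →+* K) (hι : Function.Injective ι)
    (H : ∀ (G : Type) [Group G] (V : Type) [AddCommGroup V] [Module K V]
      (ρ : Representation K G V), Nontrivial V →
      (∀ W : Submodule K V, (∀ g : G, ∀ v ∈ W, ρ g v ∈ W) → W = ⊥ ∨ W = ⊤) →
      (∀ g : G, ∀ v : V, ∃ n : ℕ, ((ρ g - 1) ^ n) v = 0) → ∀ g : G, ρ g = 1) : False := by
  obtain ⟨M, hM, hMa, hMn⟩ := exists_ideal ι hι
  let V : Type := AA K ⧸ (M : Submodule (AA K) (AA K))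
  have hs : IsSimpleModule (AA K) V :=
    isSimpleModule_iff_isCoatom.mpr (Ideal.isMaximal_def.mp hM)
  let act : AA K →ₐ[K] Module.End K V := Algebra.lsmul K K V
  have hact : ∀ x v, act x v = x • v := fun _ _ => rfl
  have hnil : ∀ x ∈ BB K, ∃ N : ℕ, act x ^ N = 0 := by
    intro x hx
    obtain ⟨N, hN⟩ := hMn x hx
    refine ⟨N, ?_⟩
    rw [← map_pow]
    apply LinearMap.ext
    intro v
    obtain ⟨y, rfl⟩ := Submodule.Quotient.mk_surjective _ v
    rw [hact, ← Submodule.Quotient.mk_smul]
    exact (Submodule.Quotient.mk_eq_zero _).mpr (hN y)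
  let G : Subgroup (Module.End K V)ˣ :=
    { carrier := {u | ∃ x ∈ BB K, (u : Module.End K V) = 1 + act x}
      one_mem' := ⟨0, zero_mem _, by simp⟩
      mul_mem' := by
        rintro u v ⟨x, hx, hu⟩ ⟨y, hy, hv⟩
        refine ⟨x + y + x * y, add_mem (add_mem hx hy) (BB_mul _ _ hx hy), ?_⟩
        rw [Units.val_mul, hu, hv, map_add, map_add, map_mul]
        noncomm_ring
      inv_mem' := by
        rintro u ⟨x, hx, hu⟩
        obtain ⟨N, hN⟩ := hnil x hx
        refine ⟨∑ j ∈ Finset.range N, (-x) ^ (j + 1), ?_, ?_⟩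
        · apply AddSubgroup.sum_mem
          intro j _
          induction j with
          | zero => simpa using hx
          | succ j ih =>
            rw [pow_succ]
            exact BB_mul _ _ (ih (by simp at *; omega)) (neg_mem hx)
        · apply Units.inv_eq_of_mul_eq_one_right
          have h1 := mul_neg_geom_sum (-(act x)) (N + 1)
          rw [Finset.sum_range_succ', pow_zero, pow_succ' (-(act x)) N, neg_pow (act x) N, hN,
            mul_zero, mul_zero, sub_zero, sub_neg_eq_add] at h1
          rw [hu, map_sum, add_comm 1 (∑ _j ∈ _, _)]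
          simpa using h1 }
  have hunit : ∀ x ∈ BB K, ∃ g : G, ((g : (Module.End K V)ˣ) : Module.End K V) = 1 + act x := by
    intro x hx
    have hu : IsUnit (1 + act x) := IsNilpotent.isUnit_one_add (hnil x hx)
    exact ⟨⟨hu.unit, x, hx, rfl⟩, rfl⟩
  have hsingle : ∀ y : FreeMonoid (Fin 3), y ≠ 1 → MonoidAlgebra.single y (1 : K) ∈ BB K :=
    fun y hy => AddSubgroup.subset_closure ⟨y, hy, rfl⟩
  let ρ : Representation K G V := (Units.coeHom (Module.End K V)).comp G.subtype
  have hρ : ∀ g : G, ρ g = ((g : (Module.End K V)ˣ) : Module.End K V) := fun _ => rfl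
  have htriv := H G V ρ (IsSimpleModule.nontrivial (AA K) V) ?_ ?_
  · have h0 : act (aa ι) = 0 := by
      rw [aa, map_sum]
      apply Finset.sum_eq_zero
      intro i _
      obtain ⟨g, hg⟩ := hunit _ (hsingle (FreeMonoid.of i) (FreeMonoid.of_ne_one i))
      rw [← hρ, htriv g] at hg
      rw [map_smul, left_eq_add.mp hg, smul_zero]
    have h1 : act (aa ι) (Submodule.Quotient.mk 1) = 0 := by rw [h0]; rfl
    rw [hact, ← Submodule.Quotient.mk_smul, smul_eq_mul, mul_one] at h1
    have h2 := (Submodule.Quotient.mk_eq_zero _).mp h1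
    apply hM.ne_top
    rw [Ideal.eq_top_iff_one]
    simpa using add_mem hMa h2
  · intro W hW
    have hA : ∀ (x : AA K), ∀ v ∈ W, x • v ∈ W := by
      intro x v hv
      rw [← hact]
      induction x using MonoidAlgebra.induction_linear with
      | zero => simp
      | add x y hx hy => rw [map_add, LinearMap.add_apply]; exact add_mem hx hy
      | single y r =>
        have e : MonoidAlgebra.single y r = r • MonoidAlgebra.single y (1 : K) := by simp
        rw [e, map_smul, LinearMap.smul_apply]
        apply W.smul_mem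
        by_cases hy : y = 1
        · rw [hy, ← MonoidAlgebra.one_def, map_one]
          exact hv
        · obtain ⟨g, hg⟩ := hunit _ (hsingle y hy)
          have h1 := hW g v hv
          rw [hρ, hg, LinearMap.add_apply, Module.End.one_apply] at h1
          simpa using sub_mem h1 hv
    let W' : Submodule (AA K) V :=
      { carrier := W
        zero_mem' := W.zero_mem
        add_mem' := W.add_mem
        smul_mem' := fun c v hv => hA c v hv }
    rcases eq_bot_or_eq_top W' with h | h
    · left
      rw [eq_bot_iff]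
      intro v hv
      have : v ∈ W' := hv
      rw [h] at this
      exact this
    · right
      rw [eq_top_iff]
      intro v _
      have : v ∈ W' := by rw [h]; trivial
      exact this
  · intro g v
    obtain ⟨x, hx, hg⟩ := g.2
    obtain ⟨N, hN⟩ := hnil x hx
    refine ⟨N, ?_⟩
    rw [hρ, hg, add_sub_cancel_left, hN]
    rfl

end Pool.Agent.Lib.helper7.NR
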