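import Mathlib

set_option autoImplicit false

namespace Pool.Agent.Lib.helper7.PLCalc

open Set Filter Topology

variable {E F G : Type} [NormedAddCommGroup E] [NormedSpace ℝ E] [NormedAddCommGroup F]
  [NormedSpace ℝ F] [NormedAddCommGroup G] [NormedSpace ℝ G]

/-- A finite intersection of closed half-spaces. -/
def IsPoly (P : Set E) : Prop :=
  ∃ H : Set (E →ᵃ[ℝ] ℝ), H.Finite ∧ P = {x | ∀ h ∈ H, 0 ≤ h x}

theorem IsPoly.univ : IsPoly (Set.univ : Set E) :=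
  ⟨∅, finite_empty, by ext x; simp⟩

theorem IsPoly.half (h : E →ᵃ[ℝ] ℝ) : IsPoly {x | 0 ≤ h x} :=
  ⟨{h}, finite_singleton _, by ext x; simp⟩

theorem IsPoly.inter {P Q : Set E} (hP : IsPoly P) (hQ : IsPoly Q) : IsPoly (P ∩ Q) := by
  obtain ⟨H, hH, rfl⟩ := hP
  obtain ⟨K, hK, rfl⟩ := hQ
  refine ⟨H ∪ K, hH.union hK, ?_⟩
  ext x
  simp only [mem_inter_iff, mem_setOf_eq, mem_union]
  constructor
  · rintro ⟨h1, h2⟩ h (hh | hh)
    · exact h1 h hh
    · exact h2 h hh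
  · intro h
    exact ⟨fun k hk => h k (Or.inl hk), fun k hk => h k (Or.inr hk)⟩

theorem IsPoly.preimage {Q : Set F} (hQ : IsPoly Q) (A : E →ᵃ[ℝ] F) : IsPoly (A ⁻¹' Q) := by
  obtain ⟨K, hK, rfl⟩ := hQ
  refine ⟨(fun h => h.comp A) '' K, hK.image _, ?_⟩
  ext x
  simp

theorem IsPoly.convex {P : Set E} (hP : IsPoly P) : Convex ℝ P := by
  obtain ⟨H, -, rfl⟩ := hP
  have : {x | ∀ h ∈ H, 0 ≤ h x} = ⋂ h ∈ H, (h : E →ᵃ[ℝ] ℝ) ⁻¹' (Ici 0) := by
    ext x; simp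
  rw [this]
  exact convex_iInter₂ fun h _ => (convex_Ici 0).affine_preimage h

theorem IsPoly.isClosed [FiniteDimensional ℝ E] {P : Set E} (hP : IsPoly P) : IsClosed P := by
  obtain ⟨H, -, rfl⟩ := hP
  have : {x | ∀ h ∈ H, 0 ≤ h x} = ⋂ h ∈ H, (h : E →ᵃ[ℝ] ℝ) ⁻¹' (Ici 0) := by
    ext x; simp
  rw [this]
  exact isClosed_biInter fun h _ => isClosed_Ici.preimage h.continuous_of_finiteDimensional

theorem IsPoly.finite_extreme {P : Set E} (hP : IsPoly P) : (P.extremePoints ℝ).Finite := by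
  obtain ⟨H, hH, rfl⟩ := hP
  apply Set.Finite.of_finite_image (f := fun x => {h ∈ H | h x = 0})
  · apply (hH.finite_subsets).subset
    rintro _ ⟨x, -, rfl⟩
    exact fun h hh => hh.1
  · intro x hx y hy hxy
    have hxy' : ∀ h ∈ H, h x = 0 → h y = 0 := by
      intro h hh h0
      have : h ∈ {h ∈ H | h x = 0} := ⟨hh, h0⟩
      simp only at hxy
      rw [hxy] at this
      exact this.2
    have hev : ∀ᶠ ε : ℝ in 𝓝[>] 0, ∀ h ∈ H, 0 ≤ (1 + ε) * h x - ε * h y := by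
      rw [eventually_all_finite hH]
      intro h hh
      rcases (hx.1 h hh).eq_or_lt with h0 | h0
      · refine Eventually.of_forall fun ε => ?_
        rw [← h0, hxy' h hh h0.symm]; simp
      · apply Filter.Eventually.filter_mono nhdsWithin_le_nhds
        have hc : Continuous fun ε : ℝ => (1 + ε) * h x - ε * h y := by fun_prop
        have := hc.continuousAt (x := 0)
        have h1 : (0 : ℝ) < (1 + 0) * h x - 0 * h y := by simpa using h0
        exact (this.eventually (lt_mem_nhds h1)).mono fun ε hε => le_of_lt hε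
    obtain ⟨ε, hε, hε0⟩ := (hev.and self_mem_nhdsWithin).exists
    have hε0 : (0 : ℝ) < ε := hε0
    have hz : AffineMap.lineMap y x (1 + ε) ∈ {x | ∀ h ∈ H, 0 ≤ h x} := by
      intro h hh
      rw [AffineMap.apply_lineMap, AffineMap.lineMap_apply]
      have := hε h hh
      simp only [vsub_eq_sub, smul_eq_mul, vadd_eq_add]
      nlinarith
    have := (mem_extremePoints_iff_left.1 hx).2 y hy.1 _ hz ?_
    · exact this.symm
    · refine ⟨ε / (1 + ε), 1 / (1 + ε), by positivity, by positivity, by field_simp; ring, ?_⟩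
      rw [AffineMap.lineMap_apply]
      simp only [vsub_eq_sub, vadd_eq_add, smul_add, smul_smul]
      have h1 : (1 : ℝ) / (1 + ε) * (1 + ε) = 1 := by field_simp
      rw [h1, one_smul]
      have h2 : (ε / (1 + ε)) • y + (1 / (1 + ε)) • y = y := by
        rw [← add_smul]
        have : ε / (1 + ε) + 1 / (1 + ε) = 1 := by field_simp; ring
        rw [this, one_smul]
      calc (ε / (1 + ε)) • y + (x - y + (1 / (1 + ε)) • y)
          = ((ε / (1 + ε)) • y + (1 / (1 + ε)) • y) + (x - y) := by abel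
        _ = x := by rw [h2]; abel

theorem IsPoly.exists_finset [FiniteDimensional ℝ E] {P : Set E} (hP : IsPoly P)
    (hc : IsCompact P) : ∃ S : Finset E, convexHull ℝ (↑S : Set E) = P := by
  refine ⟨hP.finite_extreme.toFinset, ?_⟩
  rw [Set.Finite.coe_toFinset]
  have h1 := closure_convexHull_extremePoints hc hP.convex
  rw [(hP.finite_extreme.isClosed_convexHull ℝ).closure_eq] at h1
  exact h1

/-- Piecewise affine on `X`, with finitely many polyhedral pieces. -/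
def PLOn (f : E → F) (X : Set E) : Prop :=
  ∃ T : Set (Set E × (E →ᵃ[ℝ] F)), T.Finite ∧ (∀ p ∈ T, IsPoly p.1) ∧
    (∀ x ∈ X, ∃ p ∈ T, x ∈ p.1) ∧ ∀ p ∈ T, ∀ x ∈ X, x ∈ p.1 → f x = p.2 x

theorem PLOn.affine (A : E →ᵃ[ℝ] F) (X : Set E) : PLOn (fun x => A x) X :=
  ⟨{(Set.univ, A)}, finite_singleton _, by simpa using IsPoly.univ, by simp, by simp⟩

theorem PLOn.linear (A : E →ₗ[ℝ] F) (X : Set E) : PLOn (fun x => A x) X :=
  PLOn.affine A.toAffineMap X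

theorem PLOn.const (c : F) (X : Set E) : PLOn (fun _ => c) X :=
  PLOn.affine (AffineMap.const ℝ E c) X

theorem PLOn.id (X : Set E) : PLOn (fun x => x) X := PLOn.affine (AffineMap.id ℝ E) X

theorem PLOn.congr {f g : E → F} {X : Set E} (hf : PLOn f X) (h : ∀ x ∈ X, g x = f x) :
    PLOn g X := by
  obtain ⟨T, h1, h2, h3, h4⟩ := hf
  exact ⟨T, h1, h2, h3, fun p hp x hx hxp => (h x hx).trans (h4 p hp x hx hxp)⟩

theorem PLOn.mono {f : E → F} {X Y : Set E} (hf : PLOn f X) (h : Y ⊆ X) : PLOn f Y := by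
  obtain ⟨T, h1, h2, h3, h4⟩ := hf
  exact ⟨T, h1, h2, fun x hx => h3 x (h hx), fun p hp x hx hxp => h4 p hp x (h hx) hxp⟩

theorem PLOn.comp {g : F → G} {f : E → F} {X : Set E} {Y : Set F} (hg : PLOn g Y)
    (hf : PLOn f X) (hm : ∀ x ∈ X, f x ∈ Y) : PLOn (fun x => g (f x)) X := by
  obtain ⟨T, h1, h2, h3, h4⟩ := hf
  obtain ⟨U, k1, k2, k3, k4⟩ := hg
  refine ⟨Set.image2 (fun p q => (p.1 ∩ p.2 ⁻¹' q.1, q.2.comp p.2)) T U, h1.image2 _ k1, ?_, ?_, ?_⟩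
  · rintro _ ⟨p, hp, q, hq, rfl⟩
    exact (h2 p hp).inter ((k2 q hq).preimage _)
  · intro x hx
    obtain ⟨p, hp, hxp⟩ := h3 x hx
    obtain ⟨q, hq, hxq⟩ := k3 _ (hm x hx)
    refine ⟨_, ⟨p, hp, q, hq, rfl⟩, hxp, ?_⟩
    rw [h4 p hp x hx hxp] at hxq
    exact hxq
  · rintro _ ⟨p, hp, q, hq, rfl⟩ x hx ⟨hxp, hxq⟩
    have e := h4 p hp x hx hxp
    show g (f x) = q.2 (p.2 x)
    rw [← e]
    apply k4 q hq _ (hm x hx)
    rw [e]; exact hxq

theorem PLOn.prod {f : E → F} {g : E → G} {X : Set E} (hf : PLOn f X) (hg : PLOn g X) :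
    PLOn (fun x => (f x, g x)) X := by
  obtain ⟨T, h1, h2, h3, h4⟩ := hf
  obtain ⟨U, k1, k2, k3, k4⟩ := hg
  refine ⟨Set.image2 (fun p q => (p.1 ∩ q.1, p.2.prod q.2)) T U, h1.image2 _ k1, ?_, ?_, ?_⟩
  · rintro _ ⟨p, hp, q, hq, rfl⟩
    exact (h2 p hp).inter (k2 q hq)
  · intro x hx
    obtain ⟨p, hp, hxp⟩ := h3 x hx
    obtain ⟨q, hq, hxq⟩ := k3 x hx
    exact ⟨_, ⟨p, hp, q, hq, rfl⟩, hxp, hxq⟩
  · rintro _ ⟨p, hp, q, hq, rfl⟩ x hx ⟨hxp, hxq⟩
    show (f x, g x) = (p.2 x, q.2 x)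
    rw [h4 p hp x hx hxp, k4 q hq x hx hxq]

theorem PLOn.split {f : E → F} {X : Set E} (h : E →ᵃ[ℝ] ℝ)
    (hf : PLOn f (X ∩ {x | 0 ≤ h x})) (hg : PLOn f (X ∩ {x | h x ≤ 0})) : PLOn f X := by
  obtain ⟨T, h1, h2, h3, h4⟩ := hf
  obtain ⟨U, k1, k2, k3, k4⟩ := hg
  refine ⟨((fun p => (p.1 ∩ {x | 0 ≤ h x}, p.2)) '' T) ∪
    ((fun p => (p.1 ∩ {x | 0 ≤ (-h) x}, p.2)) '' U), (h1.image _).union (k1.image _), ?_, ?_, ?_⟩
  · rintro _ (⟨p, hp, rfl⟩ | ⟨p, hp, rfl⟩)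
    · exact (h2 p hp).inter (IsPoly.half _)
    · exact (k2 p hp).inter (IsPoly.half _)
  · intro x hx
    rcases le_total 0 (h x) with h0 | h0
    · obtain ⟨p, hp, hxp⟩ := h3 x ⟨hx, h0⟩
      exact ⟨_, Or.inl ⟨p, hp, rfl⟩, hxp, h0⟩
    · obtain ⟨p, hp, hxp⟩ := k3 x ⟨hx, h0⟩
      refine ⟨_, Or.inr ⟨p, hp, rfl⟩, hxp, ?_⟩
      simpa using h0
  · rintro _ (⟨p, hp, rfl⟩ | ⟨p, hp, rfl⟩) x hx ⟨hxp, h0⟩
    · exact h4 p hp x ⟨hx, h0⟩ hxp
    · refine k4 p hp x ⟨hx, ?_⟩ hxp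
      simpa using h0

theorem PLOn.lin {f : E → F} {X : Set E} (hf : PLOn f X) (A : F →ₗ[ℝ] G) :
    PLOn (fun x => A (f x)) X :=
  (PLOn.linear A Set.univ).comp hf fun _ _ => mem_univ _

theorem PLOn.fst {f : E → F × G} {X : Set E} (hf : PLOn f X) : PLOn (fun x => (f x).1) X :=
  hf.lin (LinearMap.fst ℝ F G)

theorem PLOn.snd {f : E → F × G} {X : Set E} (hf : PLOn f X) : PLOn (fun x => (f x).2) X :=
  hf.lin (LinearMap.snd ℝ F G)

theorem PLOn.add {f g : E → F} {X : Set E} (hf : PLOn f X) (hg : PLOn g X) :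
    PLOn (fun x => f x + g x) X :=
  (hf.prod hg).lin (LinearMap.fst ℝ F F + LinearMap.snd ℝ F F)

theorem PLOn.sub {f g : E → F} {X : Set E} (hf : PLOn f X) (hg : PLOn g X) :
    PLOn (fun x => f x - g x) X :=
  (hf.prod hg).lin (LinearMap.fst ℝ F F - LinearMap.snd ℝ F F)

theorem PLOn.smul {f : E → F} {X : Set E} (c : ℝ) (hf : PLOn f X) :
    PLOn (fun x => c • f x) X :=
  hf.lin (c • LinearMap.id)

theorem PLOn.smulc {f : E → ℝ} {X : Set E} (hf : PLOn f X) (c : F) :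
    PLOn (fun x => f x • c) X :=
  hf.lin (LinearMap.smulRight LinearMap.id c)

theorem PLOn.min {f g : E → ℝ} {X : Set E} (hf : PLOn f X) (hg : PLOn g X) :
    PLOn (fun x => min (f x) (g x)) X := by
  have : PLOn (fun p : ℝ × ℝ => Min.min p.1 p.2) Set.univ := by
    apply PLOn.split (LinearMap.fst ℝ ℝ ℝ - LinearMap.snd ℝ ℝ ℝ).toAffineMap
    · refine (PLOn.id _).snd.congr ?_
      rintro x ⟨-, hx⟩
      have : 0 ≤ x.1 - x.2 := hx
      exact min_eq_right (by linarith)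
    · refine (PLOn.id _).fst.congr ?_
      rintro x ⟨-, hx⟩
      have : x.1 - x.2 ≤ 0 := hx
      exact min_eq_left (by linarith)
  exact this.comp (hf.prod hg) fun _ _ => mem_univ _

theorem PLOn.continuousOn [FiniteDimensional ℝ E] {f : E → F} {X : Set E} (hf : PLOn f X)
    (hX : IsClosed X) : ContinuousOn f X := by
  obtain ⟨T, h1, h2, h3, h4⟩ := hf
  haveI := h1.to_subtype
  have hX' : X = ⋃ p : T, (X ∩ p.1.1) := by
    ext x
    simp only [mem_iUnion, mem_inter_iff]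
    constructor
    · intro hx
      obtain ⟨p, hp, hxp⟩ := h3 x hx
      exact ⟨⟨p, hp⟩, hx, hxp⟩
    · rintro ⟨p, hx, -⟩
      exact hx
  rw [hX']
  apply (locallyFinite_of_finite _).continuousOn_iUnion
  · intro p
    exact hX.inter (h2 p.1 p.2).isClosed
  · intro p
    refine (p.1.2.continuous_of_finiteDimensional.continuousOn).congr ?_
    rintro x ⟨hx, hxp⟩
    exact h4 p.1 p.2 x hx hxp

theorem PLOn.exists_fin [FiniteDimensional ℝ E] {f : E → F} {X : Set E} (hf : PLOn f X)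
    (hX : IsPoly X) (hc : IsCompact X) :
    ∃ (k : ℕ) (S : Fin k → Finset E) (A : Fin k → (E →ᵃ[ℝ] F)),
      (∀ x ∈ X, ∃ i, x ∈ convexHull ℝ (↑(S i) : Set E)) ∧
      ∀ i, ∀ x ∈ X, x ∈ convexHull ℝ (↑(S i) : Set E) → f x = A i x := by
  obtain ⟨T, h1, h2, h3, h4⟩ := hf
  haveI := h1.to_subtype
  obtain ⟨k, ⟨e⟩⟩ := Finite.exists_equiv_fin T
  have : ∀ p : T, ∃ S : Finset E, convexHull ℝ (↑S : Set E) = X ∩ p.1.1 := fun p =>
    (hX.inter (h2 p.1 p.2)).exists_finset (hc.inter_right (h2 p.1 p.2).isClosed)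
  choose S hS using this
  refine ⟨k, fun i => S (e.symm i), fun i => (e.symm i).1.2, ?_, ?_⟩
  · intro x hx
    obtain ⟨p, hp, hxp⟩ := h3 x hx
    refine ⟨e ⟨p, hp⟩, ?_⟩
    simp only [Equiv.symm_apply_apply, hS]
    exact ⟨hx, hxp⟩
  · intro i x hx hxi
    rw [hS] at hxi
    exact h4 _ (e.symm i).2 x hx hxi.2

end Pool.Agent.Lib.helper7.PLCalc
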