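import Pool.Agent.Lib.helper7.EC2

set_option autoImplicit false

namespace Pool.Agent.Lib.helper7.PS

open Pool.Agent.Lib.helper7.EC
open scoped commutatorElement

abbrev F : Type := FreeGroup (Fin 2)

abbrev D (j : ℕ) : Subgroup F := derivedSeries F j

instance normalD (j : ℕ) : (D j).Normal := derivedSeries_normal F j

/-- Congruence subgroups. -/
def Gm (m k : ℤ) : Subgroup M2 where
  carrier := {x | m ∣ x.a - 1 ∧ k ∣ x.b ∧ m ∣ x.c ∧ m ∣ x.d - 1}
  one_mem' := by simp
  mul_mem' := by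
    rintro x y ⟨⟨a1, h1⟩, ⟨b1, h2⟩, ⟨c1, h3⟩, ⟨d1, h4⟩⟩ ⟨⟨a2, g1⟩, ⟨b2, g2⟩, ⟨c2, g3⟩, ⟨d2, g4⟩⟩
    refine ⟨⟨x.a * a2 + a1 + x.b * c2, ?_⟩, ⟨x.a * b2 + b1 * y.d, ?_⟩,
      ⟨c1 * y.a + x.d * c2, ?_⟩, ⟨c1 * y.b + x.d * d2 + d1, ?_⟩⟩
    · simp only [mul_a]; linear_combination x.a * g1 + h1 + x.b * g3
    · simp only [mul_b]; linear_combination x.a * g2 + y.d * h2
    · simp only [mul_c]; linear_combination y.a * h3 + x.d * g3
    · simp only [mul_d]; linear_combination y.b * h3 + x.d * g4 + h4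
  inv_mem' := by
    rintro x ⟨h1, h2, h3, h4⟩
    exact ⟨by simpa using h4, by simpa using h2, by simpa using h3, by simpa using h1⟩

theorem mem_Gm (m k : ℤ) (x : M2) :
    x ∈ Gm m k ↔ m ∣ x.a - 1 ∧ k ∣ x.b ∧ m ∣ x.c ∧ m ∣ x.d - 1 := Iff.rfl

theorem div_mem_Gm (n : ℤ) (p q : M2) (h1 : n ∣ p.a - q.a) (h2 : n ∣ p.b - q.b)
    (h3 : n ∣ p.c - q.c) (h4 : n ∣ p.d - q.d) : p * q⁻¹ ∈ Gm n n := by
  obtain ⟨a, h1⟩ := h1
  obtain ⟨b, h2⟩ := h2
  obtain ⟨c, h3⟩ := h3
  obtain ⟨d, h4⟩ := h4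
  have hq := q.h
  refine ⟨⟨a * q.d - b * q.c, ?_⟩, ⟨- a * q.b + b * q.a, ?_⟩, ⟨c * q.d - d * q.c, ?_⟩,
    ⟨- c * q.b + d * q.a, ?_⟩⟩
  · simp only [mul_a, inv_a, inv_c]; linear_combination q.d * h1 - q.c * h2 + hq
  · simp only [mul_b, inv_b, inv_d]; linear_combination - q.b * h1 + q.a * h2
  · simp only [mul_c, inv_a, inv_c]; linear_combination q.d * h3 - q.c * h4
  · simp only [mul_d, inv_b, inv_d]; linear_combination - q.b * h3 + q.a * h4 + hq

theorem comm_Gm (k t : ℤ) (x y : M2) (hx : x ∈ Gm (k * t) k) (hy : y ∈ Gm (k * t) k) :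
    ⁅x, y⁆ ∈ Gm (k * t * k) (k * t * k) := by
  have : ⁅x, y⁆ = (x * y) * (y * x)⁻¹ := by rw [commutatorElement_def]; group
  rw [this]
  obtain ⟨⟨a1, h1⟩, ⟨b1, h2⟩, ⟨c1, h3⟩, ⟨d1, h4⟩⟩ := hx
  obtain ⟨⟨a2, g1⟩, ⟨b2, g2⟩, ⟨c2, g3⟩, ⟨d2, g4⟩⟩ := hy
  have h1' : x.a = 1 + k * t * a1 := by linear_combination h1
  have h4' : x.d = 1 + k * t * d1 := by linear_combination h4
  have g1' : y.a = 1 + k * t * a2 := by linear_combination g1
  have g4' : y.d = 1 + k * t * d2 := by linear_combination g4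
  apply div_mem_Gm
  · refine ⟨b1 * c2 - b2 * c1, ?_⟩
    simp only [mul_a, h1', h2, h3, g1', g2, g3]; ring
  · refine ⟨a1 * b2 + b1 * d2 - a2 * b1 - b2 * d1, ?_⟩
    simp only [mul_b, h1', h2, h4', g1', g2, g4']; ring
  · refine ⟨t * (c1 * a2 + d1 * c2 - c2 * a1 - d2 * c1), ?_⟩
    simp only [mul_c, h1', h3, h4', g1', g3, g4']; ring
  · refine ⟨c1 * b2 - c2 * b1, ?_⟩
    simp only [mul_d, h2, h3, h4', g2, g3, g4']; ring

theorem Gm_mono (m k m' k' : ℤ) (hm : m' ∣ m) (hk : k' ∣ k) : Gm m k ≤ Gm m' k' := by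
  rintro x ⟨h1, h2, h3, h4⟩
  exact ⟨hm.trans h1, hk.trans h2, hm.trans h3, hm.trans h4⟩

theorem D_le (j : ℕ) (x : F) (hx : x ∈ D (j + 1)) :
    FreeGroup.lift gen x ∈ Gm (2 ^ (j + 1)) (2 ^ (j + 1)) := by
  have h0 : ∀ x : F, FreeGroup.lift gen x ∈ Gm (1 * 2) 1 := by
    intro x
    induction x using FreeGroup.induction_on with
    | C1 => rw [map_one]; exact one_mem _
    | of i =>
      rw [FreeGroup.lift_apply_of]
      fin_cases i
      · simp [mem_Gm, gen, T]
      · simp only [mem_Gm, gen, U]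
        simp
    | inv_of i hi => rw [map_inv]; exact inv_mem hi
    | mul x y hx hy => rw [map_mul]; exact mul_mem hx hy
  induction j generalizing x with
  | zero =>
    have : D (0 + 1) ≤ (Gm (2 ^ (0 + 1)) (2 ^ (0 + 1))).comap (FreeGroup.lift gen) := by
      rw [D, derivedSeries_succ, Subgroup.commutator_le]
      intro a _ b _
      rw [Subgroup.mem_comap, map_commutatorElement]
      simpa using comm_Gm 1 2 _ _ (h0 a) (h0 b)
    exact this hx
  | succ j ih =>
    have : D (j + 1 + 1) ≤ (Gm (2 ^ (j + 1 + 1)) (2 ^ (j + 1 + 1))).comap (FreeGroup.lift gen) := by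
      rw [D, derivedSeries_succ, Subgroup.commutator_le]
      intro a ha b hb
      rw [Subgroup.mem_comap, map_commutatorElement]
      have hd : (2 : ℤ) ^ (j + 1 + 1) ∣ 2 ^ (j + 1) * 1 * 2 ^ (j + 1) :=
        ⟨2 ^ j, by ring⟩
      exact Gm_mono _ _ _ _ hd hd
        (comm_Gm (2 ^ (j + 1)) 1 _ _ (by simpa using ih a ha) (by simpa using ih b hb))
    exact this hx

theorem resid (x : F) (hx : ∀ j, x ∈ D j) : x = 1 := by
  apply rho_inj
  rw [map_one]
  have key : ∀ z : ℤ, (∀ j : ℕ, (2 : ℤ) ^ (j + 1) ∣ z) → z = 0 := by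
    intro z hz
    apply Int.eq_zero_of_abs_lt_dvd (hz z.natAbs)
    have h1 : z.natAbs < 2 ^ z.natAbs := Nat.lt_two_pow_self
    have h2 : ((z.natAbs : ℕ) : ℤ) < 2 ^ z.natAbs := by exact_mod_cast h1
    rw [Int.natCast_natAbs] at h2
    have h3 : (0 : ℤ) < 2 ^ z.natAbs := by positivity
    rw [pow_succ]
    linarith
  have h := fun j => D_le j x (hx (j + 1))
  ext
  · have := key _ (fun j => (h j).1)
    simp only [one_a]; linarith
  · exact key _ (fun j => (h j).2.1)
  · exact key _ (fun j => (h j).2.2.1)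
  · have := key _ (fun j => (h j).2.2.2)
    simp only [one_d]; linarith

theorem D_ne (n : ℕ) : D n ≠ ⊥ := by
  intro hn
  have hs : Group.IsSolvable (FreeGroup (Fin 2)) := ⟨⟨n, hn⟩⟩
  let f : Fin 2 → Equiv.Perm (Fin 5) := ![finRotate 5, Equiv.swap 0 (finRotate 5 0)]
  have hf : Function.Surjective (FreeGroup.lift f) := by
    rw [← MonoidHom.range_eq_top, eq_top_iff,
      ← Equiv.Perm.closure_cycle_adjacent_swap (σ := finRotate 5) isCycle_finRotate
        support_finRotate 0, Subgroup.closure_le]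
    rintro x (rfl | rfl)
    · exact ⟨FreeGroup.of 0, by simp [f]⟩
    · exact ⟨FreeGroup.of 1, by simp [f]⟩
  exact Equiv.Perm.not_isSolvable_fin_5 (Group.isSolvable_of_surjective hf)

theorem D_anti {i j : ℕ} (h : i ≤ j) : D j ≤ D i := by
  induction j, h using Nat.le_induction with
  | base => exact le_rfl
  | succ j _ ih =>
    refine le_trans ?_ ih
    rw [D, derivedSeries_succ]
    exact Subgroup.commutator_le_left _ _

theorem exists_h (i : ℕ) : ∃ h : F, h ∈ D i ∧ h ∉ D (i + 1) := by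
  by_contra hc
  push Not at hc
  have h1 : ∀ k, D i ≤ D (i + k) := by
    intro k
    induction k with
    | zero => exact le_rfl
    | succ k ih =>
      refine le_trans (fun x hx => hc x hx) ?_
      rw [← add_assoc, D, D, derivedSeries_succ, derivedSeries_succ]
      exact Subgroup.commutator_mono ih ih
  apply D_ne i
  rw [eq_bot_iff]
  intro x hx
  rw [Subgroup.mem_bot]
  exact resid x (fun j => D_anti (Nat.le_add_left j i) (h1 j hx))

theorem root_free {G : Type} [Group G] [IsFreeGroup G] (u : G) (a : ℤ) (ha : a ≠ 0)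
    (h : u ^ a ∈ commutator G) : u ∈ commutator G := by
  let e := IsFreeGroup.toFreeGroup G
  have h1 : e u ^ a ∈ commutator (FreeGroup (IsFreeGroup.Generators G)) := by
    rw [← map_zpow]
    have : (commutator G).map e.toMonoidHom ≤ commutator _ := by
      rw [commutator, Subgroup.map_commutator]
      exact Subgroup.commutator_mono le_top le_top
    exact this ⟨_, h, rfl⟩
  have h2 : e u ∈ commutator (FreeGroup (IsFreeGroup.Generators G)) := by
    rw [← Abelianization.ker_of, MonoidHom.mem_ker] at h1 ⊢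
    rw [map_zpow] at h1
    let w : FreeAbelianGroup (IsFreeGroup.Generators G) := Additive.ofMul (Abelianization.of (e u))
    have hw : a • w = 0 := h1
    have hw0 : w = 0 := (smul_eq_zero.mp hw).resolve_left ha
    exact hw0
  have : (commutator _).map e.symm.toMonoidHom ≤ commutator G := by
    rw [commutator, Subgroup.map_commutator]
    exact Subgroup.commutator_mono le_top le_top
  have h3 := this ⟨_, h2, rfl⟩
  simpa using h3

theorem root_D (m : ℕ) (u : F) (a : ℤ) (ha : a ≠ 0) (h : u ^ a ∈ D m) : u ∈ D m := by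
  induction m with
  | zero => exact Subgroup.mem_top _
  | succ m ih =>
    have hu : u ∈ D m := ih (D_anti (Nat.le_succ m) h)
    rw [D, derivedSeries_succ, ← Subgroup.map_subtype_commutator] at h ⊢
    obtain ⟨v, hv, hvu⟩ := h
    have : v = (⟨u, hu⟩ : D m) ^ a := Subtype.ext (by simpa using hvu)
    rw [this] at hv
    exact ⟨_, root_free _ a ha hv, rfl⟩

theorem common_root (z a : F) (h : Commute a z) :
    ∃ (ρ : F) (j k : ℤ), ρ ^ j = a ∧ ρ ^ k = z := by
  classical
  let K : Subgroup F := Subgroup.closure {a, z}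
  have hK : ∀ p q : K, p * q = q * p := by
    intro p q
    apply Subtype.ext
    have hp := p.2
    have hq := q.2
    have : ∀ x ∈ K, Commute a x ∧ Commute z x := by
      intro x hx
      induction hx using Subgroup.closure_induction with
      | mem x hx =>
        rcases hx with rfl | rfl
        · exact ⟨Commute.refl _, h.symm⟩
        · exact ⟨h, Commute.refl _⟩
      | one => exact ⟨Commute.one_right _, Commute.one_right _⟩
      | mul x y _ _ hx hy => exact ⟨hx.1.mul_right hy.1, hx.2.mul_right hy.2⟩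
      | inv x _ hx => exact ⟨hx.1.inv_right, hx.2.inv_right⟩
    have h2 : ∀ x ∈ K, Commute x q.1 := by
      intro x hx
      induction hx using Subgroup.closure_induction with
      | mem x hx =>
        rcases hx with rfl | rfl
        · exact (this _ hq).1
        · exact (this _ hq).2
      | one => exact Commute.one_left _
      | mul x y _ _ hx hy => exact hx.mul_left hy
      | inv x _ hx => exact hx.inv_left
    exact h2 _ hp
  let e := IsFreeGroup.toFreeGroup K
  have hsub : ∀ i j : IsFreeGroup.Generators K, i = j := by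
    intro i j
    by_contra hij
    have h1 : FreeGroup.of i * FreeGroup.of j = FreeGroup.of j * FreeGroup.of i := by
      apply e.symm.injective
      rw [map_mul, map_mul, hK]
    have h2 := congrArg (FreeGroup.lift (fun k => if k = i then DihedralGroup.r (1 : ZMod 3)
      else DihedralGroup.sr 0)) h1
    simp only [map_mul, FreeGroup.lift_apply_of, if_true, if_neg (Ne.symm hij)] at h2
    exact absurd h2 (by decide)
  have hcyc : ∃ r : FreeGroup (IsFreeGroup.Generators K), ∀ w, w ∈ Subgroup.zpowers r := by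
    rcases isEmpty_or_nonempty (IsFreeGroup.Generators K) with hE | ⟨⟨i⟩⟩
    · exact ⟨1, fun w => by rw [Subsingleton.elim w 1]; exact one_mem _⟩
    · refine ⟨FreeGroup.of i, fun w => ?_⟩
      induction w using FreeGroup.induction_on with
      | C1 => exact one_mem _
      | of j => rw [hsub j i]; exact Subgroup.mem_zpowers _
      | inv_of j hj => exact inv_mem hj
      | mul x y hx hy => exact mul_mem hx hy
  obtain ⟨r, hr⟩ := hcyc
  obtain ⟨j, hj⟩ := hr (e ⟨a, Subgroup.subset_closure (by simp)⟩)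
  obtain ⟨k, hk⟩ := hr (e ⟨z, Subgroup.subset_closure (by simp)⟩)
  refine ⟨((e.symm r : K) : F), j, k, ?_, ?_⟩
  · have := congrArg (fun w => ((e.symm w : K) : F)) hj
    simpa using this
  · have := congrArg (fun w => ((e.symm w : K) : F)) hk
    simpa using this

theorem not_comm (m : ℕ) (z h : F) (hz : z ∈ D m) (hz1 : z ≠ 1) (hh : h ∉ D m) :
    ¬ Commute h z := by
  intro hc
  obtain ⟨ρ, j, k, rfl, rfl⟩ := common_root z h hc
  have hk : k ≠ 0 := by
    rintro rfl
    exact hz1 (zpow_zero _)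
  exact hh (zpow_mem (root_D m ρ k hk hz) j)

end Pool.Agent.Lib.helper7.PS
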