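import Pool.Agent.Lib.helper7.PS1

set_option autoImplicit false

namespace Pool.Agent.Lib.helper7.PS

open scoped commutatorElement

noncomputable def hh (i : ℕ) : F := (exists_h i).choose

theorem hh_mem (i : ℕ) : hh i ∈ D i := (exists_h i).choose_spec.1

theorem hh_not (i : ℕ) : hh i ∉ D (i + 1) := (exists_h i).choose_spec.2

/-- Truncated nested commutators. -/
noncomputable def W (f : ℕ → F) : ℕ → ℕ → F → F
  | 0, _, x => x
  | k + 1, n, x => f n * ⁅W f k (n + 1) x, hh (n + 1)⁆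

theorem W_add (f : ℕ → F) (a b n : ℕ) (x : F) :
    W f (a + b) n x = W f a n (W f b (n + a) x) := by
  induction a generalizing n with
  | zero => simp [W]
  | succ a ih =>
    rw [show a + 1 + b = (a + b) + 1 by ring, W, W, ih, show n + 1 + a = n + (a + 1) by ring]

theorem W_congr (f g : ℕ → F) (k n : ℕ) (x : F) (h : ∀ i, n ≤ i → i < n + k → f i = g i) :
    W f k n x = W g k n x := by
  induction k generalizing n with
  | zero => simp [W]
  | succ k ih =>
    rw [W, W, ih (n + 1) (fun i h1 h2 => h i (by omega) (by omega)), h n le_rfl (by omega)]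

theorem W_one (f : ℕ → F) (k n : ℕ) (h : ∀ i, n ≤ i → f i = 1) : W f k n 1 = 1 := by
  induction k generalizing n with
  | zero => simp [W]
  | succ k ih =>
    rw [W, ih (n + 1) (fun i h1 => h i (by omega)), h n le_rfl]
    simp

theorem W_diff (f : ℕ → F) (m k n : ℕ) (x y : F) (hm : n + k + 1 ≤ m) (h1 : x⁻¹ * y ∈ D m)
    (h2 : x⁻¹ * y ≠ 1) :
    (W f k n x)⁻¹ * W f k n y ∈ D m ∧ (W f k n x)⁻¹ * W f k n y ≠ 1 := by
  induction k generalizing n with
  | zero => exact ⟨h1, h2⟩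
  | succ k ih =>
    obtain ⟨i1, i2⟩ := ih (n + 1) (by omega)
    rw [W, W]
    generalize W f k (n + 1) x = X at i1 i2 ⊢
    generalize W f k (n + 1) y = Y at i1 i2 ⊢
    have hn : hh (n + 1) ∉ D m := fun h => hh_not (n + 1) (D_anti (by omega) h)
    generalize hh (n + 1) = h at hn ⊢
    have e : (f n * ⁅X, h⁆)⁻¹ * (f n * ⁅Y, h⁆) =
        (h * X) * ((h⁻¹ * (X⁻¹ * Y) * h⁻¹⁻¹) * (X⁻¹ * Y)⁻¹) * (h * X)⁻¹ := by
      simp only [commutatorElement_def]
      group
    rw [e]
    generalize X⁻¹ * Y = Z at i1 i2 ⊢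
    constructor
    · exact (normalD m).conj_mem _ (mul_mem ((normalD m).conj_mem _ i1 _) (inv_mem i1)) _
    · intro h3
      apply not_comm m Z h i1 i2 hn
      have h4 : (h⁻¹ * Z * h⁻¹⁻¹) * Z⁻¹ = 1 := by
        have := congrArg (fun t => (h * X)⁻¹ * t * (h * X)) h3
        simpa [mul_assoc] using this
      have h5 : h * Z = h * (((h⁻¹ * Z * h⁻¹⁻¹) * Z⁻¹) * Z) := by rw [h4, one_mul]
      show h * Z = Z * h
      rw [h5]
      group

abbrev P : Type := (j : ℕ) → F ⧸ D j

def io : F →* P := Pi.monoidHom (fun j => QuotientGroup.mk' (D j))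

noncomputable def ch (f : ℕ → F) (n : ℕ) : P := fun j => QuotientGroup.mk (W f (j - n) n 1)

theorem ch_eq (f : ℕ → F) (hf : ∀ i, f i ∈ D i) (n : ℕ) :
    ch f n = io (f n) * ⁅ch f (n + 1), io (hh (n + 1))⁆ := by
  funext j
  by_cases h : n < j
  · have : j - n = (j - (n + 1)) + 1 := by omega
    simp only [ch, this, W, commutatorElement_def, Pi.mul_apply, Pi.inv_apply]
    rfl
  · have h1 : j - n = 0 := by omega
    have h2 : j - (n + 1) = 0 := by omega
    have h3 : io (f n) j = 1 := (QuotientGroup.eq_one_iff _).mpr (D_anti (by omega) (hf n))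
    simp [ch, h1, h2, W, commutatorElement_def, h3]

def Gam : Subgroup P :=
  Subgroup.closure (Set.range io ∪ {p | ∃ f n, (∀ i, f i ∈ D i) ∧ p = ch f n})

def psi : F →* Gam := io.codRestrict Gam (fun x => Subgroup.subset_closure (Or.inl ⟨x, rfl⟩))

noncomputable def cg (f : ℕ → F) (hf : ∀ i, f i ∈ D i) (n : ℕ) : Gam :=
  ⟨ch f n, Subgroup.subset_closure (Or.inr ⟨f, n, hf, rfl⟩)⟩

theorem cg_eq (f : ℕ → F) (hf : ∀ i, f i ∈ D i) (n : ℕ) :
    cg f hf n = psi (f n) * ⁅cg f hf (n + 1), psi (hh (n + 1))⁆ :=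
  Subtype.ext (ch_eq f hf n)

theorem psi_mem (j : ℕ) (x : F) (hx : x ∈ D j) : psi x ∈ derivedSeries Gam j :=
  map_derivedSeries_le_derivedSeries psi j ⟨x, hx, rfl⟩

theorem cg_mem (f : ℕ → F) (hf : ∀ i, f i ∈ D i) (j n : ℕ) (h : j ≤ n) :
    cg f hf n ∈ derivedSeries Gam j := by
  induction j generalizing n with
  | zero => exact Subgroup.mem_top _
  | succ j ih =>
    rw [cg_eq]
    refine mul_mem (psi_mem _ _ (D_anti h (hf n))) ?_
    rw [derivedSeries_succ]
    exact Subgroup.commutator_mem_commutator (ih (n + 1) (by omega))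
      (psi_mem _ _ (D_anti (by omega) (hh_mem (n + 1))))

theorem surj (j : ℕ) (γ : Gam) : ∃ x : F, (psi x)⁻¹ * γ ∈ derivedSeries Gam j := by
  haveI : (derivedSeries Gam j).Normal := derivedSeries_normal _ _
  let π := QuotientGroup.mk' (derivedSeries Gam j)
  let R : Subgroup Gam := (π.comp psi).range.comap π
  have hpsi : ∀ x, psi x ∈ R := fun x => ⟨x, rfl⟩
  have hc : ∀ (f : ℕ → F) (hf : ∀ i, f i ∈ D i) (k n : ℕ), j ≤ n + k → cg f hf n ∈ R := by
    intro f hf k
    induction k with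
    | zero =>
      intro n hn
      refine ⟨1, ?_⟩
      rw [map_one]
      exact ((QuotientGroup.eq_one_iff _).mpr (cg_mem f hf j n hn)).symm
    | succ k ih =>
      intro n hn
      rw [cg_eq, commutatorElement_def]
      have := ih (n + 1) (by omega)
      exact mul_mem (hpsi _) (mul_mem (mul_mem (mul_mem this (hpsi _)) (inv_mem this))
        (inv_mem (hpsi _)))
  have hall : γ ∈ R := by
    obtain ⟨p, hp⟩ := γ
    induction hp using Subgroup.closure_induction with
    | mem x hx =>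
      rcases hx with ⟨y, rfl⟩ | ⟨f, n, hf, rfl⟩
      · exact hpsi y
      · exact hc f hf j n (by omega)
    | one => exact R.one_mem
    | mul x y _ _ hx hy => exact R.mul_mem hx hy
    | inv x _ hx => exact R.inv_mem hx
  obtain ⟨x, hx⟩ := hall
  exact ⟨x, QuotientGroup.eq.mp hx⟩

theorem quot_bot (j : ℕ) : derivedSeries (F ⧸ D j) j = ⊥ := by
  rw [← map_derivedSeries_eq (f := QuotientGroup.mk' (D j)) (QuotientGroup.mk'_surjective _) j,
    Subgroup.map_eq_bot_iff, QuotientGroup.ker_mk']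

def ev (j : ℕ) : Gam →* F ⧸ D j := (Pi.evalMonoidHom (fun j => F ⧸ D j) j).comp Gam.subtype

theorem comap_eq (j : ℕ) : (derivedSeries Gam j).comap psi = D j := by
  apply le_antisymm
  · intro x hx
    have h1 : ev j (psi x) ∈ derivedSeries (F ⧸ D j) j :=
      map_derivedSeries_le_derivedSeries (ev j) j ⟨_, hx, rfl⟩
    rw [quot_bot, Subgroup.mem_bot] at h1
    exact (QuotientGroup.eq_one_iff _).mp h1
  · intro x hx
    exact psi_mem j x hx

theorem step (γ : P) (n : ℕ) (f : ℕ → F) (hf : ∀ i, f i ∈ D i) :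
    ∃ (n' : ℕ) (g : ℕ → F), (∀ i, g i ∈ D i) ∧ n < n' ∧ (∀ i, i < n → g i = f i) ∧
      ch g 0 n' ≠ γ n' := by
  obtain ⟨z, hz, hz1⟩ : ∃ z : F, z ∈ D (n + 1) ∧ z ≠ 1 :=
    ⟨hh (n + 1), hh_mem _, fun h => hh_not (n + 1) (h ▸ one_mem _)⟩
  have hd := (W_diff f (n + 1) n 0 1 z (by omega) (by simpa using hz) (by simpa using hz1)).2
  obtain ⟨j0, hj0⟩ : ∃ j, (W f n 0 1)⁻¹ * W f n 0 z ∉ D j := by
    by_contra hc
    push Not at hc
    exact hd (resid _ hc)
  have hj : (W f n 0 1)⁻¹ * W f n 0 z ∉ D (n + (j0 + 1)) := fun h => hj0 (D_anti (by omega) h)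
  have main : ∀ y : F, y ∈ D n → ∃ g : ℕ → F, (∀ i, g i ∈ D i) ∧ (∀ i, i < n → g i = f i) ∧
      ch g 0 (n + (j0 + 1)) = QuotientGroup.mk (W f n 0 y) := by
    intro y hy
    refine ⟨fun i => if i < n then f i else if i = n then y else 1, ?_, ?_, ?_⟩
    · intro i
      dsimp only
      split_ifs with h1 h2
      · exact hf i
      · exact h2 ▸ hy
      · exact one_mem _
    · intro i hi
      exact if_pos hi
    · simp only [ch, Nat.sub_zero]
      rw [W_add, W, W_one _ _ _ (fun i hi => by rw [if_neg (by omega), if_neg (by omega)])]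
      congr 1
      rw [zero_add, if_neg (lt_irrefl n), if_pos rfl]
      simp only [commutatorElement_one_left, mul_one]
      exact W_congr _ _ _ _ _ (fun i _ hi => if_pos (by omega))
  obtain ⟨g0, a0, b0, c0⟩ := main 1 (one_mem _)
  obtain ⟨g1, a1, b1, c1⟩ := main z (D_anti (by omega) hz)
  by_cases h : ch g0 0 (n + (j0 + 1)) = γ (n + (j0 + 1))
  · refine ⟨n + (j0 + 1), g1, a1, by omega, b1, fun h' => hj ?_⟩
    rw [← QuotientGroup.eq, ← c0, ← c1, h, h']
  · exact ⟨n + (j0 + 1), g0, a0, by omega, b0, h⟩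

theorem diag (γ : ℕ → P) : ∃ g : ℕ → F, (∀ i, g i ∈ D i) ∧ ∀ k, ch g 0 ≠ γ k := by
  choose N Gf h1 h2 h3 h4 using step
  let s : ℕ → ℕ × {f : ℕ → F // ∀ i, f i ∈ D i} := fun k =>
    Nat.rec (0, ⟨fun _ => 1, fun _ => one_mem _⟩)
      (fun k p => (N (γ k) p.1 p.2.1 p.2.2, ⟨Gf (γ k) p.1 p.2.1 p.2.2, h1 _ _ _ _⟩)) k
  have s1 : ∀ k, (s k).1 < (s (k + 1)).1 := fun k => h2 _ _ _ _
  have s2 : ∀ k i, i < (s k).1 → (s (k + 1)).2.1 i = (s k).2.1 i := fun k i hi => h3 _ _ _ _ i hi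
  have s3 : ∀ k, ch (s (k + 1)).2.1 0 (s (k + 1)).1 ≠ γ k (s (k + 1)).1 := fun k => h4 _ _ _ _
  have s4 : ∀ k, k ≤ (s k).1 := by
    intro k
    induction k with
    | zero => exact Nat.zero_le _
    | succ k ih => exact Nat.succ_le_of_lt (lt_of_le_of_lt ih (s1 k))
  have s5 : ∀ k l i, i < (s k).1 → (s (k + l)).2.1 i = (s k).2.1 i ∧ i < (s (k + l)).1 := by
    intro k l i hi
    induction l with
    | zero => exact ⟨rfl, hi⟩
    | succ l ih => exact ⟨(s2 (k + l) i ih.2).trans ih.1, ih.2.trans (s1 (k + l))⟩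
  refine ⟨fun i => (s (i + 1)).2.1 i, fun i => (s (i + 1)).2.2 i, fun k hk => s3 k ?_⟩
  rw [← hk]
  simp only [ch, Nat.sub_zero]
  congr 1
  apply W_congr
  intro i _ hi
  have e1 := (s5 (k + 1) (i + 1) i (by omega)).1
  have e2 := (s5 (i + 1) (k + 1) i (lt_of_lt_of_le (Nat.lt_succ_self i) (s4 (i + 1)))).1
  rw [← e1, ← e2, add_comm (k + 1) (i + 1)]

theorem not_free : ¬ IsFreeGroup Gam := by
  classical
  intro hfree
  have hB : Countable (IsFreeGroup.Generators Gam) := by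
    choose x hx using surj 1
    refine Function.Injective.countable (f := fun b : IsFreeGroup.Generators Gam =>
      x (IsFreeGroup.of b)) ?_
    intro b b' hbb
    by_contra hne
    let φ : Gam →* Multiplicative ℤ :=
      IsFreeGroup.lift (fun c => if c = b then Multiplicative.ofAdd 1 else 1)
    have hk : derivedSeries Gam 1 ≤ φ.ker := by
      rw [derivedSeries_one]
      exact Abelianization.commutator_subset_ker φ
    have e1 := hk (hx (IsFreeGroup.of b))
    have e2 := hk (hx (IsFreeGroup.of b'))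
    dsimp only at hbb
    rw [MonoidHom.mem_ker, map_mul, map_inv, inv_mul_eq_one] at e1 e2
    rw [hbb, e2] at e1
    simp only [φ, IsFreeGroup.lift_of, if_neg (Ne.symm hne), if_true] at e1
    exact absurd e1 (by decide)
  have hG : Countable Gam := (IsFreeGroup.toFreeGroup Gam).injective.countable
  obtain ⟨γ, hγ⟩ := exists_surjective_nat Gam
  obtain ⟨g, hg, hk⟩ := diag (fun k => (γ k).1)
  obtain ⟨k, e⟩ := hγ (cg g hg 0)
  exact hk k (by rw [e]; rfl)

end Pool.Agent.Lib.helper7.PS
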