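import Mathlib

set_option autoImplicit false

namespace Pool.Agent.Lib.helper7.PSLn

open Matrix Matrix.SpecialLinearGroup
open scoped LinearAlgebra.Projectivization commutatorElement

variable {ι F : Type*} [Field F] [DecidableEq ι] [Fintype ι]

theorem w_coe {i j : ι} (h : i ≠ j) (a : F) (ha : a ≠ 0) :
    (transvection h a * transvection h.symm (-a⁻¹) * transvection h a).1 =
      1 - single i i 1 - single j j 1 + single i j a - single j i a⁻¹ := by
  simp only [Matrix.SpecialLinearGroup.coe_mul, transvection_coe, mul_add, add_mul, mul_one,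
    one_mul, single_mul_single_same, single_mul_single_of_ne _ _ _ _ h,
    single_mul_single_of_ne _ _ _ _ h.symm, mul_neg, neg_mul, mul_inv_cancel₀ ha,
    inv_mul_cancel₀ ha, add_zero, ← single_neg]
  abel

theorem diag_decomp {i j : ι} (h : i ≠ j) (a : F) (ha : a ≠ 0) :
    diag2n h a ha = (transvection h a * transvection h.symm (-a⁻¹) * transvection h a) *
      (transvection h (-1) * transvection h.symm (-(-1)⁻¹) * transvection h (-1)) := by
  apply Subtype.ext
  rw [Matrix.SpecialLinearGroup.coe_mul, w_coe h a ha, w_coe h (-1) (by simp), diag2n_coe]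
  simp only [mul_add, add_mul, mul_sub, sub_mul, mul_one,
    one_mul, single_mul_single_same, single_mul_single_of_ne _ _ _ _ h,
    single_mul_single_of_ne _ _ _ _ h.symm, mul_neg, inv_neg, inv_one, ← single_neg]
  ext k l
  by_cases h1 : k = i <;> by_cases h2 : k = j <;> by_cases h3 : l = i <;> by_cases h4 : l = j <;>
    simp_all [single_apply, one_apply, diagonal_apply, eq_comm]

theorem tv_induction [Nontrivial ι] (P : SpecialLinearGroup ι F → Prop)
    (ht : ∀ (i j : ι) (h : i ≠ j) c, P (transvection h c))
    (hmul : ∀ A B, P A → P B → P (A * B)) (A : SpecialLinearGroup ι F) : P A := by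
  refine diagonal_transvection_induction' P _ (fun i j hij c hc => ?_) ht hmul
  rw [diag_decomp]
  exact hmul _ _ (hmul _ _ (hmul _ _ (ht ..) (ht ..)) (ht ..))
    (hmul _ _ (hmul _ _ (ht ..) (ht ..)) (ht ..))

theorem tv_comm {i j k : ι} (h : i ≠ j) (h1 : i ≠ k) (h2 : k ≠ j) (c : F) :
    ⁅transvection h1 c, transvection h2 (1 : F)⁆ = transvection h c := by
  rw [commutatorElement_def, transvection_inv, transvection_inv]
  apply Subtype.ext
  simp only [Matrix.SpecialLinearGroup.coe_mul, transvection_coe, mul_add, add_mul, mul_one,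
    one_mul, single_mul_single_same, single_mul_single_of_ne _ _ _ _ h.symm,
    single_mul_single_of_ne _ _ _ _ h1.symm, single_mul_single_of_ne _ _ _ _ h2.symm,
    mul_neg, neg_mul, add_zero, ← single_neg, zero_mul, neg_zero]
  abel

theorem SL_perfect (h3 : 3 ≤ Fintype.card ι) : commutator (SpecialLinearGroup ι F) = ⊤ := by
  haveI : Nontrivial ι := Fintype.one_lt_card_iff_nontrivial.1 (by omega)
  refine le_antisymm le_top fun A _ => tv_induction _ (fun i j h c => ?_) (fun _ _ => mul_mem) A
  obtain ⟨k, hk⟩ : ∃ k, k ∉ ({i, j} : Finset ι) := by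
    by_contra hn
    push Not at hn
    have := Finset.card_le_card (fun x _ => hn x : (Finset.univ : Finset ι) ⊆ {i, j})
    have h2 := Finset.card_le_two (a := i) (b := j)
    rw [Finset.card_univ] at this
    omega
  simp only [Finset.mem_insert, Finset.mem_singleton, not_or] at hk
  rw [← tv_comm h (Ne.symm hk.1) hk.2 c]
  exact Subgroup.commutator_mem_commutator (Subgroup.mem_top _) (Subgroup.mem_top _)

theorem iSup_lineStab [Nontrivial ι] :
    (⨆ p : ℙ F (ι → F), lineStab p.submodule) = (⊤ : Subgroup (SpecialLinearGroup ι F)) := by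
  refine le_antisymm le_top fun A _ => tv_induction _ (fun i j h c => ?_) (fun _ _ => mul_mem) A
  refine Subgroup.mem_iSup_of_mem
    (Projectivization.mk F (Pi.single i 1) (Pi.single_ne_zero_iff.2 one_ne_zero)) ?_
  rw [Projectivization.submodule_mk]
  exact SL2Gen.transvection_mem_lineStab h c

theorem PSL_simple (h3 : 3 ≤ Fintype.card ι) :
    IsSimpleGroup (ProjectiveSpecialLinearGroup ι F) := by
  haveI : Nontrivial ι := Fintype.one_lt_card_iff_nontrivial.1 (by omega)
  have hp : Group.IsPerfect (SpecialLinearGroup ι F) := ⟨SL_perfect h3⟩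
  have hq : Group.IsPerfect (ProjectiveSpecialLinearGroup ι F) := inferInstance
  refine MulAction.IwasawaStructure.isSimpleGroup (α := ℙ F (ι → F)) hq.commutator_eq_top
    ⟨PSL.iwasawaT, fun p => ?_, fun g p => ?_, ?_⟩ inferInstance
  · have hSL : IsMulCommutative (lineStab (F := F) (ι := ι) p.submodule) := by
      rw [← Projectivization.mk_rep p, Projectivization.submodule_mk]
      exact lineStab_isMulCommutative_of_span p.rep p.rep_nonzero
    exact Subgroup.map_isMulCommutative _ _
  · obtain ⟨g, rfl⟩ := QuotientGroup.mk_surjective g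
    rw [Matrix.ProjectiveSpecialLinearGroup.smul_proj_mk]
    change Subgroup.map _ _ = _
    rw [PSL.smul_submodule, Matrix.SpecialLinearGroup.lineStab_smul, PSL.iwasawaT_map_conj]
  · have : iSup (PSL.iwasawaT (F := F) (ι := ι)) =
        Subgroup.map (QuotientGroup.mk' (Subgroup.center (SpecialLinearGroup ι F)))
          (⨆ p : ℙ F (ι → F), lineStab (F := F) (ι := ι) p.submodule) := by
      rw [Subgroup.map_iSup]
    rw [this, iSup_lineStab]
    exact Subgroup.map_top_of_surjective _ (QuotientGroup.mk'_surjective _)

end Pool.Agent.Lib.helper7.PSLn
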