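import Mathlib

namespace Pool.Agent.Lib.Helper7Pebble

variable {V : Type} [DecidableEq V]

def Step (G : SimpleGraph V) (A B : V → ℕ) : Prop :=
  ∃ u v : V, G.Adj u v ∧ 2 ≤ A u ∧
    B = Function.update (Function.update A u (A u - 2)) v (A v + 1)

def Reach (G : SimpleGraph V) : (V → ℕ) → (V → ℕ) → Prop := Relation.ReflTransGen (Step G)

theorem Reach.rfl' (G : SimpleGraph V) (A : V → ℕ) : Reach G A A := Relation.ReflTransGen.refl

theorem step_iff {G : SimpleGraph V} {A B : V → ℕ} : Step G A B ↔
    ∃ (u v : V) (C : V → ℕ), G.Adj u v ∧ A = C + Pi.single u 2 ∧ B = C + Pi.single v 1 := by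
  constructor
  · rintro ⟨u, v, huv, h2, rfl⟩
    refine ⟨u, v, Function.update A u (A u - 2), huv, ?_, ?_⟩
    · funext w
      by_cases hw : w = u
      · subst hw; simp; omega
      · simp [hw]
    · funext w
      by_cases hw : w = v
      · subst hw; simp [huv.ne.symm]
      · simp [hw]
  · rintro ⟨u, v, C, huv, rfl, rfl⟩
    refine ⟨u, v, huv, by simp, ?_⟩
    funext w
    by_cases hw : w = v
    · subst hw; simp [huv.ne.symm]
    · by_cases hw' : w = u
      · subst hw'; simp [hw]
      · simp [hw, hw']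

theorem Reach.add_right {G : SimpleGraph V} {A B : V → ℕ} (h : Reach G A B) (C : V → ℕ) :
    Reach G (A + C) (B + C) := by
  induction h with
  | refl => exact Relation.ReflTransGen.refl
  | tail _ hs ih =>
    refine Relation.ReflTransGen.tail ih ?_
    obtain ⟨u, v, D, huv, rfl, rfl⟩ := step_iff.1 hs
    exact step_iff.2 ⟨u, v, D + C, huv, by abel, by abel⟩

theorem Reach.add {G : SimpleGraph V} {A B A' B' : V → ℕ} (h : Reach G A B)
    (h' : Reach G A' B') : Reach G (A + A') (B + B') := by
  refine Relation.ReflTransGen.trans (h.add_right A') ?_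
  rw [add_comm B A', add_comm B B']
  exact h'.add_right B

theorem Reach.sum {G : SimpleGraph V} {ι : Type} (s : Finset ι) (A B : ι → V → ℕ)
    (h : ∀ i ∈ s, Reach G (A i) (B i)) : Reach G (∑ i ∈ s, A i) (∑ i ∈ s, B i) := by
  classical
  induction s using Finset.induction_on with
  | empty => exact Relation.ReflTransGen.refl
  | insert a s ha ih =>
    rw [Finset.sum_insert ha, Finset.sum_insert ha]
    exact (h a (by simp)).add (ih fun i hi => h i (by simp [hi]))

theorem reach_edge {G : SimpleGraph V} {u v : V} (h : G.Adj u v) (k : ℕ) :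
    Reach G (Pi.single u (2 * k)) (Pi.single v k) := by
  induction k with
  | zero => simpa using Reach.rfl' G 0
  | succ k ih =>
    have h1 : Reach G (Pi.single u 2) (Pi.single v 1) :=
      Relation.ReflTransGen.single (step_iff.2 ⟨u, v, 0, h, by simp, by simp⟩)
    have := ih.add h1
    rw [← Pi.single_add, ← Pi.single_add] at this
    exact this

theorem reach_path {G : SimpleGraph V} (p : ℕ → V) (n : ℕ)
    (h : ∀ j < n, G.Adj (p j) (p (j + 1))) (k : ℕ) :
    Reach G (Pi.single (p 0) (2 ^ n * k)) (Pi.single (p n) k) := by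
  induction n generalizing k with
  | zero => simpa using Reach.rfl' G _
  | succ n ih =>
    have h1 := ih (fun j hj => h j (by omega)) (2 * k)
    have e : 2 ^ (n + 1) * k = 2 ^ n * (2 * k) := by ring
    rw [e]
    exact Relation.ReflTransGen.trans h1 (reach_edge (h n (by omega)) k)

theorem Reach.of_le {G : SimpleGraph V} {A B D : V → ℕ} (h : Reach G A B) (hD : A ≤ D) :
    ∃ D', Reach G D D' ∧ B ≤ D' := by
  obtain ⟨C, rfl⟩ := exists_add_of_le hD
  exact ⟨B + C, h.add_right C, le_self_add⟩

theorem weight_lemma [Fintype V] {G : SimpleGraph V} {ι : Type} (ψ : ι → V → ℕ) (r : V) (M : ℕ)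
    (h1 : ∀ u v, G.Adj u v → u ≠ r → v ≠ r → ∀ i, ψ i v ≤ 2 * ψ i u)
    (h2 : ∀ u, G.Adj u r → ∃ i, M ≤ 2 * ψ i u) {A B : V → ℕ} (h : Reach G A B) (hB : 1 ≤ B r) :
    1 ≤ A r ∨ ∃ i, M ≤ ∑ v, A v * ψ i v := by
  induction h using Relation.ReflTransGen.head_induction_on with
  | refl => exact Or.inl hB
  | head hs _ ih =>
    obtain ⟨u, v, C, huv, rfl, rfl⟩ := step_iff.1 hs
    have e : ∀ (w : V) (k : ℕ) (i : ι), ∑ x, (C + Pi.single w k : V → ℕ) x * ψ i x =
        ∑ x, C x * ψ i x + k * ψ i w := by
      intro w k i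
      simp only [Pi.add_apply, add_mul, Finset.sum_add_distrib]
      congr 1
      rw [Finset.sum_eq_single w]
      · simp
      · intro b _ hb; simp [hb]
      · simp
    by_cases hu : u = r
    · left; subst hu; simp
    by_cases hv : v = r
    · right
      subst hv
      obtain ⟨i, hi⟩ := h2 u huv
      exact ⟨i, by rw [e]; omega⟩
    rcases ih with ih | ⟨i, hi⟩
    · left
      simpa [Ne.symm hu, Ne.symm hv] using ih
    · right
      refine ⟨i, ?_⟩
      rw [e] at hi ⊢
      have := h1 u v huv hu hv i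
      omega

end Pool.Agent.Lib.Helper7Pebble
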