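import Mathlib

set_option autoImplicit false

namespace Pool.Agent.Lib.helper7.Prim

/-- Semidirect product of a module by the units of the ring. -/
@[ext] structure SD (R M : Type) [Ring R] where
  m : M
  u : Rˣ

section SDsec
variable {R M M' : Type} [Ring R] [AddCommGroup M] [Module R M] [AddCommGroup M'] [Module R M']

instance : Mul (SD R M) := ⟨fun a b => ⟨a.m + (a.u : R) • b.m, a.u * b.u⟩⟩
instance : One (SD R M) := ⟨⟨0, 1⟩⟩
instance : Inv (SD R M) := ⟨fun a => ⟨-(((a.u⁻¹ : Rˣ) : R) • a.m), a.u⁻¹⟩⟩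

@[simp] lemma mul_m (a b : SD R M) : (a * b).m = a.m + (a.u : R) • b.m := rfl
@[simp] lemma mul_u (a b : SD R M) : (a * b).u = a.u * b.u := rfl
@[simp] lemma one_m : (1 : SD R M).m = 0 := rfl
@[simp] lemma one_u : (1 : SD R M).u = 1 := rfl
@[simp] lemma inv_m (a : SD R M) : (a⁻¹).m = -(((a.u⁻¹ : Rˣ) : R) • a.m) := rfl
@[simp] lemma inv_u (a : SD R M) : (a⁻¹).u = a.u⁻¹ := rfl

instance : Group (SD R M) := Group.ofLeftAxioms
  (fun a b c => by ext <;> simp [mul_smul, add_assoc, mul_assoc])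
  (fun a => by ext <;> simp)
  (fun a => by ext <;> simp)

def mapL (f : M →ₗ[R] M') : SD R M →* SD R M' where
  toFun a := ⟨f a.m, a.u⟩
  map_one' := by ext <;> simp
  map_mul' a b := by ext <;> simp

@[simp] lemma mapL_m (f : M →ₗ[R] M') (a : SD R M) : (mapL f a).m = f a.m := rfl
@[simp] lemma mapL_u (f : M →ₗ[R] M') (a : SD R M) : (mapL f a).u = a.u := rfl

lemma lift_u_mem {ι : Type} (G : Subgroup Rˣ) (s : ι → SD R M) (hs : ∀ i, (s i).u ∈ G)
    (w : FreeGroup ι) : (FreeGroup.lift s w).u ∈ G := by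
  induction w using FreeGroup.induction_on with
  | C1 => simp
  | of i => simpa using hs i
  | inv_of i _ => simpa using hs i
  | mul a b ha hb => rw [map_mul, mul_u]; exact G.mul_mem ha hb

lemma comm_eq (p q : SD R M) (h : p.u * q.u = q.u * p.u) :
    p * q * p⁻¹ * q⁻¹ = ⟨(1 - (q.u : R)) • p.m + ((p.u : R) - 1) • q.m, 1⟩ := by
  have : p * q = (⟨(1 - (q.u : R)) • p.m + ((p.u : R) - 1) • q.m, 1⟩ : SD R M) * (q * p) := by
    ext
    · simp [sub_smul]; abel
    · simp [h]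
  rw [this]; group

end SDsec

section Gen
variable {R : Type} [Ring R] {ι : Type} [Fintype ι] [DecidableEq ι]

def Psi (g : ι → Rˣ) : FreeGroup ι →* SD R (ι → R) :=
  FreeGroup.lift fun i => ⟨Pi.single i 1, g i⟩

omit [Fintype ι] in
@[simp] lemma Psi_of (g : ι → Rˣ) (i : ι) : Psi g (FreeGroup.of i) = ⟨Pi.single i 1, g i⟩ := by
  simp [Psi]

omit [Fintype ι] in
lemma Psi_u_mem (G : Subgroup Rˣ) (g : ι → Rˣ) (hg : ∀ i, g i ∈ G) (w : FreeGroup ι) :
    (Psi g w).u ∈ G := lift_u_mem G _ hg w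

def comb {M : Type} [AddCommGroup M] [Module R M] (v : ι → M) : (ι → R) →ₗ[R] M where
  toFun c := ∑ i, c i • v i
  map_add' a b := by simp [add_smul, Finset.sum_add_distrib]
  map_smul' r a := by simp [Finset.smul_sum, mul_smul]

omit [DecidableEq ι] in
lemma comb_apply {M : Type} [AddCommGroup M] [Module R M] (v : ι → M) (c : ι → R) :
    comb v c = ∑ i, c i • v i := rfl

lemma lift_eq {M : Type} [AddCommGroup M] [Module R M] (s : ι → SD R M) (w : FreeGroup ι) :
    FreeGroup.lift s w = mapL (comb fun i => (s i).m) (Psi (fun i => (s i).u) w) := by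
  have : FreeGroup.lift s = (mapL (comb fun i => (s i).m)).comp (Psi (fun i => (s i).u)) := by
    ext i
    · simp [comb_apply, Pi.single_apply]
    · simp
  rw [this]; rfl

lemma chain {κ : Type} [Fintype κ] [DecidableEq κ] (g : κ → Rˣ) (a : ι → FreeGroup κ)
    (w : FreeGroup ι) :
    Psi g (FreeGroup.lift a w) =
      mapL (comb fun i => (Psi g (a i)).m) (Psi (fun i => (Psi g (a i)).u) w) := by
  rw [← lift_eq]
  have : (Psi g).comp (FreeGroup.lift a) = FreeGroup.lift (fun i => Psi g (a i)) := by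
    ext i <;> simp
  exact DFunLike.congr_fun this w

/-- Membership in the verbal subgroup. -/
def InK (G : Subgroup Rˣ) (w : FreeGroup ι) : Prop :=
  ∀ g : ι → Rˣ, (∀ i, g i ∈ G) → Psi g w = 1

def Laws (G : Subgroup Rˣ) : Set (FreeGroup ℕ) :=
  {u | ∀ s : ℕ → SD R R, (∀ i, (s i).u ∈ G) → FreeGroup.lift s u = 1}

def KK (G : Subgroup Rˣ) (ι : Type) [Fintype ι] [DecidableEq ι] : Subgroup (FreeGroup ι) where
  carrier := {w | InK G w}
  one_mem' := fun g _ => map_one _
  mul_mem' := fun {a b} ha hb g hg => by rw [map_mul, ha g hg, hb g hg, one_mul]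
  inv_mem' := fun {a} ha g hg => by rw [map_inv, ha g hg, inv_one]

instance (G : Subgroup Rˣ) : (KK G ι).Normal :=
  ⟨fun a ha b g hg => by rw [map_mul, map_mul, ha g hg, mul_one, map_inv, mul_inv_cancel]⟩

lemma verbal_iff (G : Subgroup Rˣ) (n : ℕ) (x : FreeGroup (Fin n)) :
    (∃ u ∈ Laws G, ∃ f : ℕ → FreeGroup (Fin n), FreeGroup.lift f u = x) ↔ InK G x := by
  constructor
  · rintro ⟨u, hu, f, rfl⟩ g hg
    have key : ∀ L : (Fin n → R) →ₗ[R] R, mapL L (Psi g (FreeGroup.lift f u)) = 1 := by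
      intro L
      have : ((mapL L).comp (Psi g)).comp (FreeGroup.lift f) =
          FreeGroup.lift (fun k => mapL L (Psi g (f k))) := by
        ext k <;> simp
      have h2 := DFunLike.congr_fun this u
      simp only [MonoidHom.comp_apply] at h2
      rw [h2]
      exact hu _ (fun k => Psi_u_mem G g hg _)
    ext j
    · have := congrArg SD.m (key (LinearMap.proj j))
      simpa using this
    · have := congrArg SD.u (key 0)
      simpa using this
  · intro hx
    refine ⟨FreeGroup.map Fin.val x, ?_, fun k => if h : k < n then FreeGroup.of ⟨k, h⟩ else 1, ?_⟩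
    · intro s hs
      have : (FreeGroup.lift s).comp (FreeGroup.map Fin.val) =
          FreeGroup.lift (fun i : Fin n => s i.val) := by
        ext i <;> simp
      have h2 := DFunLike.congr_fun this x
      simp only [MonoidHom.comp_apply] at h2
      rw [h2, lift_eq, hx _ (fun i => hs _), map_one]
    · have : (FreeGroup.lift (fun k => if h : k < n then FreeGroup.of (⟨k, h⟩ : Fin n) else 1)).comp
          (FreeGroup.map Fin.val) = MonoidHom.id _ := by
        ext i; simp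
      exact DFunLike.congr_fun this x

def Real (G : Subgroup Rˣ) (ν : (ι → Rˣ) → ι → R) : Prop :=
  ∃ a : FreeGroup ι, ∀ g : ι → Rˣ, (∀ i, g i ∈ G) → Psi g a = ⟨ν g, 1⟩

def Scal (G : Subgroup Rˣ) (l : (ι → Rˣ) → R) : Prop :=
  ∀ ν : (ι → Rˣ) → ι → R, Real G ν → Real G (fun g => l g • ν g)

variable {G : Subgroup Rˣ}

omit [Fintype ι] in
lemma Real.congr {ν ν' : (ι → Rˣ) → ι → R} (h : Real G ν)
    (e : ∀ g : ι → Rˣ, (∀ i, g i ∈ G) → ν g = ν' g) : Real G ν' := by
  obtain ⟨a, ha⟩ := h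
  exact ⟨a, fun g hg => by rw [ha g hg, e g hg]⟩

omit [Fintype ι] in
lemma Real.zero : Real G (fun (_ : ι → Rˣ) => (0 : ι → R)) := ⟨1, fun g _ => map_one _⟩

omit [Fintype ι] in
lemma Real.add {ν ν' : (ι → Rˣ) → ι → R} (h : Real G ν) (h' : Real G ν') :
    Real G (fun g => ν g + ν' g) := by
  obtain ⟨a, ha⟩ := h
  obtain ⟨b, hb⟩ := h'
  exact ⟨a * b, fun g hg => by rw [map_mul, ha g hg, hb g hg]; ext <;> simp⟩

omit [Fintype ι] in
lemma Real.neg {ν : (ι → Rˣ) → ι → R} (h : Real G ν) : Real G (fun g => -ν g) := by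
  obtain ⟨a, ha⟩ := h
  exact ⟨a⁻¹, fun g hg => by rw [map_inv, ha g hg]; ext <;> simp⟩

omit [Fintype ι] in
lemma Real.sum {κ : Type} (s : Finset κ) {ν : κ → (ι → Rˣ) → ι → R} (h : ∀ k, Real G (ν k)) :
    Real G (fun g => ∑ k ∈ s, ν k g) := by
  classical
  induction s using Finset.induction_on with
  | empty => simpa using Real.zero
  | insert k s hk ih => simpa [Finset.sum_insert hk] using (h k).add ih

omit [Fintype ι] in
lemma Scal.one : Scal G (fun (_ : ι → Rˣ) => (1 : R)) := fun ν h => by simpa using h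

omit [Fintype ι] in
lemma Scal.zero : Scal G (fun (_ : ι → Rˣ) => (0 : R)) := fun ν _ => by simpa using Real.zero

omit [Fintype ι] in
lemma Scal.add {a b : (ι → Rˣ) → R} (ha : Scal G a) (hb : Scal G b) :
    Scal G (fun g => a g + b g) := fun ν h => by
  simpa [add_smul] using (ha ν h).add (hb ν h)

omit [Fintype ι] in
lemma Scal.neg {a : (ι → Rˣ) → R} (ha : Scal G a) : Scal G (fun g => -a g) := fun ν h => by
  simpa using (ha ν h).neg

omit [Fintype ι] in
lemma Scal.sub {a b : (ι → Rˣ) → R} (ha : Scal G a) (hb : Scal G b) :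
    Scal G (fun g => a g - b g) := by
  simpa [sub_eq_add_neg] using ha.add hb.neg

omit [Fintype ι] in
lemma Scal.mul {a b : (ι → Rˣ) → R} (ha : Scal G a) (hb : Scal G b) :
    Scal G (fun g => a g * b g) := fun ν h => by
  simpa [mul_smul] using ha _ (hb ν h)

omit [Fintype ι] in
lemma Scal.two : Scal G (fun (_ : ι → Rˣ) => (2 : R)) := by
  simpa [one_add_one_eq_two] using (Scal.one (G := G) (ι := ι)).add Scal.one

omit [Fintype ι] in
lemma Scal.three : Scal G (fun (_ : ι → Rˣ) => (3 : R)) := by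
  simpa [two_add_one_eq_three] using (Scal.two (G := G) (ι := ι)).add Scal.one

omit [Fintype ι] in
lemma Scal.var (i : ι) : Scal G (fun g : ι → Rˣ => (g i : R)) := fun ν h => by
  obtain ⟨a, ha⟩ := h
  refine ⟨FreeGroup.of i * a * (FreeGroup.of i)⁻¹, fun g hg => ?_⟩
  rw [map_mul, map_mul, map_inv, ha g hg, Psi_of]
  ext j
  · simp [← mul_assoc]
  · simp

omit [Fintype ι] in
lemma Scal.inv (i : ι) : Scal G (fun g : ι → Rˣ => (((g i)⁻¹ : Rˣ) : R)) := fun ν h => by
  obtain ⟨a, ha⟩ := h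
  refine ⟨(FreeGroup.of i)⁻¹ * a * FreeGroup.of i, fun g hg => ?_⟩
  rw [map_mul, map_mul, map_inv, ha g hg, Psi_of]
  ext j
  · simp
  · simp

lemma key (h5 : (5 : R) = 0)
    (hG : ∀ g ∈ G, ∀ h ∈ G, (g : R) * h = h * g ∨ (g : R) * h = -(h * g)) (i0 i1 : ι)
    (ν : (ι → Rˣ) → ι → R) (hs : ∀ j, Scal G (fun g => ν g j))
    (hc : ∀ g : ι → Rˣ, (∀ i, g i ∈ G) → (g i0 : R) * g i1 = g i1 * g i0 → ν g = 0)
    (ha : ∀ g : ι → Rˣ, (∀ i, g i ∈ G) → (g i0 : R) * g i1 = -(g i1 * g i0) →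
      ∑ j, ν g j * ((g j : R) - 1) = 0) : Real G ν := by
  set γ : FreeGroup ι := FreeGroup.of i0 * FreeGroup.of i1 * (FreeGroup.of i0)⁻¹ *
    (FreeGroup.of i1)⁻¹ with hγ
  have hu : ∀ g : ι → Rˣ, (Psi g γ).u = g i0 * g i1 * (g i0)⁻¹ * (g i1)⁻¹ := by
    intro g; simp [hγ]
  have hu1 : ∀ g : ι → Rˣ, (g i0 : R) * g i1 = g i1 * g i0 → (Psi g γ).u = 1 := by
    intro g h
    have : g i0 * g i1 = g i1 * g i0 := Units.ext (by simpa using h)
    rw [hu, this]; group
  have hu2 : ∀ g : ι → Rˣ, (g i0 : R) * g i1 = -(g i1 * g i0) → (Psi g γ).u = -1 := by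
    intro g h
    have : g i0 * g i1 = -(g i1 * g i0) := Units.ext (by simpa using h)
    rw [hu, this]; simp
  have hrow : ∀ j, Real G (fun g => (1 - (g j : R)) • (Psi g γ).m +
      (((Psi g γ).u : R) - 1) • (Pi.single j 1 : ι → R)) := by
    intro j
    refine ⟨γ * FreeGroup.of j * γ⁻¹ * (FreeGroup.of j)⁻¹, fun g hg => ?_⟩
    rw [map_mul, map_mul, map_mul, map_inv, map_inv, comm_eq]
    · simp
    · rcases hG _ (hg i0) _ (hg i1) with h | h
      · simp [hu1 g h]
      · simp [hu2 g h]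
  refine (Real.sum Finset.univ (fun j => ((Scal.three.mul (hs j)).neg) _ (hrow j))).congr ?_
  intro g hg
  rcases hG _ (hg i0) _ (hg i1) with h | h
  · simp [hc g hg h]
  · have h6 : (3 : R) * 2 = 1 := by
      have : (3 : R) * 2 = 5 + 1 := by norm_num
      rw [this, h5, zero_add]
    simp only [hu2 g h, smul_add, Finset.sum_add_distrib, smul_smul]
    rw [← Finset.sum_smul]
    have e1 : ∑ j, -(3 * ν g j) * (1 - (g j : R)) = 0 := by
      have : ∀ j, -(3 * ν g j) * (1 - (g j : R)) = 3 * (ν g j * ((g j : R) - 1)) := by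
        intro j; noncomm_ring
      simp only [this]
      rw [← Finset.mul_sum, ha g hg h, mul_zero]
    rw [e1, zero_smul, zero_add]
    ext k
    have : ∀ j, -(3 * ν g j) * (((-1 : Rˣ) : R) - 1) = ν g j := by
      intro j
      have : -(3 * ν g j) * (((-1 : Rˣ) : R) - 1) = (3 * 2) * ν g j := by
        simp; noncomm_ring
      rw [this, h6, one_mul]
    simp only [this]
    simp [Finset.sum_apply, Pi.single_apply]

/-- The words `a` induce the transformation `m ↦ m + (m·u) ν` on Fox rows. -/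
def IsT (G : Subgroup Rˣ) (u ν : (ι → Rˣ) → ι → R) (a : ι → FreeGroup ι) : Prop :=
  ∀ g : ι → Rˣ, (∀ i, g i ∈ G) → ∀ w, Psi g (FreeGroup.lift a w) =
    ⟨(Psi g w).m + (∑ i, (Psi g w).m i * u g i) • ν g, (Psi g w).u⟩

lemma exists_isT (u ν : (ι → Rˣ) → ι → R) (hu : ∀ i, Scal G (fun g => u g i)) (hν : Real G ν) :
    ∃ a, IsT G u ν a := by
  choose c hc using fun i => hu i ν hν
  refine ⟨fun i => c i * FreeGroup.of i, fun g hg w => ?_⟩
  rw [chain]
  have e1 : (fun i => (Psi g (c i * FreeGroup.of i)).u) = g := by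
    funext i; simp [hc i g hg]
  rw [e1]
  ext j
  · simp [comb_apply, hc _ g hg, Finset.sum_add_distrib, Pi.single_apply, Finset.sum_mul,
      mul_assoc, mul_add, add_comm]
  · simp

lemma IsT.cancel {u ν ν' : (ι → Rˣ) → ι → R} {a b : ι → FreeGroup ι} (ha : IsT G u ν a)
    (hb : IsT G u ν' b) (hn : ∀ g, ν' g = -ν g)
    (h0 : ∀ g : ι → Rˣ, (∀ i, g i ∈ G) → ∑ i, ν g i * u g i = 0)
    (g : ι → Rˣ) (hg : ∀ i, g i ∈ G) (w : FreeGroup ι) :
    Psi g (FreeGroup.lift b (FreeGroup.lift a w)) = Psi g w := by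
  rw [hb g hg, ha g hg, hn]
  ext j
  · have : ∑ i, ((Psi g w).m + (∑ i, (Psi g w).m i * u g i) • ν g) i * u g i =
        ∑ i, (Psi g w).m i * u g i := by
      simp only [Pi.add_apply, Pi.smul_apply, smul_eq_mul, add_mul, Finset.sum_add_distrib,
        mul_assoc]
      rw [← Finset.mul_sum, h0 g hg, mul_zero, add_zero]
    simp only [this]
    simp
  · simp

lemma IsT.inK {u ν : (ι → Rˣ) → ι → R} {a : ι → FreeGroup ι} (ha : IsT G u ν a)
    {w : FreeGroup ι} (hw : InK G w) : InK G (FreeGroup.lift a w) := by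
  intro g hg
  rw [ha g hg, hw g hg]; ext <;> simp

omit [Fintype ι] in
lemma inK_iff (v w : FreeGroup ι) :
    InK G (v⁻¹ * w) ↔ ∀ g : ι → Rˣ, (∀ i, g i ∈ G) → Psi g v = Psi g w := by
  simp [InK, inv_mul_eq_one]

lemma exists_aut (N : Subgroup (FreeGroup ι)) [N.Normal] (hN : ∀ w, w ∈ N ↔ InK G w)
    (u ν : (ι → Rˣ) → ι → R) (hu : ∀ i, Scal G (fun g => u g i)) (hν : Real G ν)
    (h0 : ∀ g : ι → Rˣ, (∀ i, g i ∈ G) → ∑ i, ν g i * u g i = 0) :
    ∃ (a : ι → FreeGroup ι) (ψ : (FreeGroup ι ⧸ N) ≃* (FreeGroup ι ⧸ N)), IsT G u ν a ∧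
      ∀ w, ψ (QuotientGroup.mk w) = QuotientGroup.mk (FreeGroup.lift a w) := by
  obtain ⟨a, ha⟩ := exists_isT u ν hu hν
  obtain ⟨b, hb⟩ := exists_isT u (fun g => -ν g) hu hν.neg
  have la : N ≤ N.comap (FreeGroup.lift a) := fun w hw => (hN _).2 (ha.inK ((hN _).1 hw))
  have lb : N ≤ N.comap (FreeGroup.lift b) := fun w hw => (hN _).2 (hb.inK ((hN _).1 hw))
  refine ⟨a, MonoidHom.toMulEquiv (QuotientGroup.map N N _ la) (QuotientGroup.map N N _ lb)
    ?_ ?_, ha, fun w => rfl⟩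
  · apply QuotientGroup.monoidHom_ext
    refine MonoidHom.ext fun w => ?_
    change (QuotientGroup.mk (FreeGroup.lift b (FreeGroup.lift a w)) : FreeGroup ι ⧸ N) =
      QuotientGroup.mk w
    rw [QuotientGroup.eq, hN, inK_iff]
    exact fun g hg => ha.cancel hb (fun _ => rfl) h0 g hg w
  · apply QuotientGroup.monoidHom_ext
    refine MonoidHom.ext fun w => ?_
    change (QuotientGroup.mk (FreeGroup.lift a (FreeGroup.lift b w)) : FreeGroup ι ⧸ N) =
      QuotientGroup.mk w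
    rw [QuotientGroup.eq, hN, inK_iff]
    exact fun g hg => hb.cancel ha (fun _ => by simp) (fun g hg => by simp [h0 g hg]) g hg w

end Gen

end Pool.Agent.Lib.helper7.Prim
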