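import Pool.Agent.Lib.helper7.Prim

set_option autoImplicit false

namespace Pool.Agent.Lib.helper7.Prim

variable {R : Type} [Ring R]

def eps (x y : Rˣ) : R := 3 * (1 - (x : R) * y * ((x⁻¹ : Rˣ) : R) * ((y⁻¹ : Rˣ) : R))
def rho0 (y : R) : R := y * (1 - y * y)
def rho1 (x y : R) : R := y * (x - 1) * (y + 1)
def uu0 (x y : R) : R := 3 * (2 - y * (1 - y * y) * (1 + x))
def uu1 (y : R) : R := 3 * ((1 - y + y * y * y) * (1 - y))
def wt0 (y : R) : R := 2 * (1 + y)
def wt1 (x : R) : R := 2 * (1 + x)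

lemma eps_comm {x y : Rˣ} (h : (x : R) * y = y * x) : eps x y = 0 := by
  rw [eps, h, mul_assoc (y : R)]; simp

lemma six (h5 : (5 : R) = 0) : (3 : R) * 2 = 1 := by
  have : (3 : R) * 2 = 5 + 1 := by norm_num
  rw [this, h5, zero_add]

lemma eps_anti (h5 : (5 : R) = 0) {x y : Rˣ} (h : (x : R) * y = -(y * x)) : eps x y = 1 := by
  rw [eps, h, neg_mul, mul_assoc (y : R)]; simp [one_add_one_eq_two, six h5]

section ids
variable {x y : R}

lemma F1 (h5 : (5 : R) = 0) (h : x * y = -(y * x)) : wt0 y * (x - 1) + wt1 x * (y - 1) = 1 := by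
  have e5 : (5 : R) = 1 + 1 + 1 + 1 + 1 := by norm_num
  have : wt0 y * (x - 1) + wt1 x * (y - 1) = 1 - (1 + 1 + 1 + 1 + 1) + 2 * (x * y + y * x) := by
    unfold wt0 wt1; noncomm_ring
  rw [this, h, ← e5, h5]; simp

lemma F2 (h : x * y = -(y * x)) : rho0 y * (x - 1) + rho1 x y * (y - 1) = 0 := by
  have h' : ∀ z, x * (y * z) = -(y * (x * z)) := fun z => by rw [← mul_assoc, h, neg_mul, mul_assoc]
  unfold rho0 rho1
  simp only [mul_add, add_mul, mul_sub, sub_mul, mul_one, one_mul, mul_assoc, h', h, mul_neg,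
    neg_mul, neg_neg]
  abel

lemma F3 (h5 : (5 : R) = 0) (h : x * y = -(y * x)) :
    (1 + rho0 y) * uu0 x y + rho1 x y * uu1 y = 1 := by
  have h' : ∀ z, x * (y * z) = -(y * (x * z)) := fun z => by rw [← mul_assoc, h, neg_mul, mul_assoc]
  have e : (1 + rho0 y) * ((1 + 1) - y * (1 - y * y) * (1 + x)) +
      rho1 x y * ((1 - y + y * y * y) * (1 - y)) = 1 + 1 := by
    unfold rho0 rho1
    simp only [mul_add, add_mul, mul_sub, sub_mul, mul_one, one_mul, mul_assoc, h', h, mul_neg,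
      neg_mul, neg_neg]
    abel
  rw [one_add_one_eq_two] at e
  have c3 : ∀ a b : R, a * (3 * b) = 3 * (a * b) := fun a b => by noncomm_ring
  rw [uu0, uu1, c3, c3, ← mul_add, e, six h5]

/-- first kernel element -/
lemma F4 (h : x * y = -(y * x)) :
    (1 + rho0 y) * (-((1 - rho0 y) * rho1 x y)) + rho1 x y * ((1 + rho0 y) * (1 - rho0 y)) = 0 := by
  have h' : ∀ z, x * (y * z) = -(y * (x * z)) := fun z => by rw [← mul_assoc, h, neg_mul, mul_assoc]
  unfold rho0 rho1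
  simp only [mul_add, add_mul, mul_sub, sub_mul, mul_one, one_mul, mul_assoc, h', h, mul_neg,
    neg_mul, neg_neg, neg_add, neg_sub]
  abel

/-- second kernel element -/
lemma F5 (h : x * y = -(y * x)) :
    (1 + rho0 y) * (-(y * (1 - y) * (y * (1 + y)) * (1 - x * x))) +
      rho1 x y * ((1 - rho0 y) * (y * (1 - y)) * x - (1 + rho0 y) * (y * (1 - y))) = 0 := by
  have h' : ∀ z, x * (y * z) = -(y * (x * z)) := fun z => by rw [← mul_assoc, h, neg_mul, mul_assoc]
  unfold rho0 rho1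
  simp only [mul_add, add_mul, mul_sub, sub_mul, mul_one, one_mul, mul_assoc, h', h, mul_neg,
    neg_mul, neg_neg, neg_add, neg_sub]
  abel

/-- norm of the first entry -/
lemma F6 (h : x * y = -(y * x)) :
    (2 - y * (1 - y * y) * (1 + x)) * (2 + y * (1 - y * y) * (1 + x)) =
      4 - (y * y) * (1 - y * y) * (1 - y * y) * (1 - x * x) := by
  have h' : ∀ z, x * (y * z) = -(y * (x * z)) := fun z => by rw [← mul_assoc, h, neg_mul, mul_assoc]
  have e4 : (4 : R) = 1 + 1 + 1 + 1 := by norm_num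
  rw [e4, ← one_add_one_eq_two]
  simp only [mul_add, add_mul, mul_sub, sub_mul, mul_one, one_mul, mul_assoc, h', h, mul_neg,
    neg_mul, neg_neg, neg_add, neg_sub]
  abel

end ids

variable {G : Subgroup Rˣ}

section scal
variable {ι : Type} [DecidableEq ι]

lemma scal_eps (i j : ι) : Scal G (fun g : ι → Rˣ => eps (g i) (g j)) :=
  Scal.three.mul (Scal.one.sub ((((Scal.var i).mul (Scal.var j)).mul (Scal.inv i)).mul (Scal.inv j)))

lemma scal_rho0 (j : ι) : Scal G (fun g : ι → Rˣ => rho0 (g j : R)) :=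
  (Scal.var j).mul (Scal.one.sub ((Scal.var j).mul (Scal.var j)))

lemma scal_rho1 (i j : ι) : Scal G (fun g : ι → Rˣ => rho1 (g i : R) (g j)) :=
  ((Scal.var j).mul ((Scal.var i).sub Scal.one)).mul ((Scal.var j).add Scal.one)

lemma scal_uu0 (i j : ι) : Scal G (fun g : ι → Rˣ => uu0 (g i : R) (g j)) :=
  Scal.three.mul (Scal.two.sub ((scal_rho0 j).mul (Scal.one.add (Scal.var i))))

lemma scal_uu1 (j : ι) : Scal G (fun g : ι → Rˣ => uu1 (g j : R)) :=
  Scal.three.mul (((Scal.one.sub (Scal.var j)).add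
    (((Scal.var j).mul (Scal.var j)).mul (Scal.var j))).mul (Scal.one.sub (Scal.var j)))

lemma scal_wt0 (j : ι) : Scal G (fun g : ι → Rˣ => wt0 (g j : R)) :=
  Scal.two.mul (Scal.one.add (Scal.var j))

lemma scal_wt1 (j : ι) : Scal G (fun g : ι → Rˣ => wt1 (g j : R)) :=
  Scal.two.mul (Scal.one.add (Scal.var j))

end scal

def rhoRow (g : Fin 2 → Rˣ) : Fin 2 → R :=
  ![eps (g 0) (g 1) * rho0 (g 1 : R), eps (g 0) (g 1) * rho1 (g 0 : R) (g 1)]

lemma real_rho (h5 : (5 : R) = 0)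
    (hG : ∀ g ∈ G, ∀ h ∈ G, (g : R) * h = h * g ∨ (g : R) * h = -(h * g)) :
    Real G (rhoRow (R := R)) := by
  refine key h5 hG 0 1 _ ?_ ?_ ?_
  · intro j
    fin_cases j
    · exact (scal_eps 0 1).mul (scal_rho0 1)
    · exact (scal_eps 0 1).mul (scal_rho1 0 1)
  · intro g _ h
    ext j; fin_cases j <;> simp [rhoRow, eps_comm h]
  · intro g _ h
    simp [rhoRow, eps_anti h5 h, Fin.sum_univ_two, F2 h]

/-- The element `h`. -/
lemma exists_h (h5 : (5 : R) = 0)
    (hG : ∀ g ∈ G, ∀ h ∈ G, (g : R) * h = h * g ∨ (g : R) * h = -(h * g)) :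
    ∃ h : FreeGroup (Fin 2), ∀ g : Fin 2 → Rˣ, (∀ i, g i ∈ G) →
      Psi g h = ⟨rhoRow g + Pi.single 0 1, g 0⟩ := by
  obtain ⟨a, ha⟩ := real_rho h5 hG
  exact ⟨a * FreeGroup.of 0, fun g hg => by rw [map_mul, ha g hg, Psi_of]; ext <;> simp⟩

lemma not_prim (h5 : (5 : R) = 0) (x y : Rˣ) (hx : x ∈ G) (hy : y ∈ G)
    (hxy : (x : R) * y = -(y * x))
    (hnc : ∀ p0 p1 t t' : R, (1 + rho0 (y : R)) * p0 + rho1 (x : R) y * p1 = 0 →
      p1 * t = (1 + rho0 (y : R)) * (1 - rho0 (y : R)) →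
      p1 * t' = (1 - rho0 (y : R)) * (y * (1 - y)) * x - (1 + rho0 (y : R)) * (y * (1 - y)) → False)
    (h : FreeGroup (Fin 2)) (hh : ∀ g : Fin 2 → Rˣ, (∀ i, g i ∈ G) →
      Psi g h = ⟨rhoRow g + Pi.single 0 1, g 0⟩)
    (a b : Fin 2 → FreeGroup (Fin 2)) (i : Fin 2)
    (h1 : ∀ j, InK G ((FreeGroup.lift b (a j))⁻¹ * FreeGroup.of j))
    (h2 : ∀ j, InK G ((FreeGroup.lift a (b j))⁻¹ * FreeGroup.of j))
    (h3 : InK G ((a i)⁻¹ * h)) : False := by
  set g : Fin 2 → Rˣ := ![x, y] with hgdef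
  have hg : ∀ i, g i ∈ G := by intro i; fin_cases i <;> simpa [hgdef]
  set g' : Fin 2 → Rˣ := fun j => (Psi g (a j)).u with hg'def
  have hg' : ∀ i, g' i ∈ G := fun j => Psi_u_mem G g hg _
  have e2 := fun j => (inK_iff _ _).1 (h2 j) g hg
  have e1 := fun j => (inK_iff _ _).1 (h1 j) g' hg'
  have e3 := (inK_iff _ _).1 h3 g hg
  simp only [chain, Psi_of] at e1 e2
  have hu : (fun j => (Psi g' (b j)).u) = g := by
    funext j
    have := congrArg SD.u (e2 j)
    simpa using this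
  rw [hu] at e1
  set J : Matrix (Fin 2) (Fin 2) R := fun j => (Psi g (a j)).m with hJ
  set B : Matrix (Fin 2) (Fin 2) R := fun j => (Psi g' (b j)).m with hB
  have BJ : B * J = 1 := by
    ext j k
    have := congrFun (congrArg SD.m (e2 j)) k
    simpa [comb_apply, Matrix.mul_apply, Matrix.one_apply, Pi.single_apply, eq_comm] using this
  have JB : J * B = 1 := by
    ext j k
    have := congrFun (congrArg SD.m (e1 j)) k
    simpa [comb_apply, Matrix.mul_apply, Matrix.one_apply, Pi.single_apply, eq_comm] using this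
  have hv0 : J i 0 = 1 + rho0 (y : R) := by
    have := congrFun (congrArg SD.m e3) 0
    rw [hh g hg] at this
    simpa [rhoRow, hgdef, eps_anti h5 hxy, add_comm] using this
  have hv1 : J i 1 = rho1 (x : R) y := by
    have := congrFun (congrArg SD.m e3) 1
    rw [hh g hg] at this
    simpa [rhoRow, hgdef, eps_anti h5 hxy] using this
  obtain ⟨k, hk, hall⟩ : ∃ k : Fin 2, k ≠ i ∧ ∀ f : Fin 2 → R, ∑ j, f j = f i + f k := by
    fin_cases i
    · exact ⟨1, by decide, fun f => by simp⟩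
    · exact ⟨0, by decide, fun f => by simp [add_comm]⟩
  have ker : ∀ q0 q1 : R, J i 0 * q0 + J i 1 * q1 = 0 →
      B 1 k * (J k 0 * q0 + J k 1 * q1) = q1 := by
    intro q0 q1 hq
    have a0 := congrFun (congrFun BJ 1) 0
    have a1 := congrFun (congrFun BJ 1) 1
    rw [Matrix.mul_apply, hall] at a0 a1
    simp only [Matrix.one_apply_eq, Matrix.one_apply_ne (show (1 : Fin 2) ≠ 0 by decide)] at a0 a1
    have : B 1 i * (J i 0 * q0 + J i 1 * q1) + B 1 k * (J k 0 * q0 + J k 1 * q1) =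
        (B 1 i * J i 0 + B 1 k * J k 0) * q0 + (B 1 i * J i 1 + B 1 k * J k 1) * q1 := by
      noncomm_ring
    rw [hq, a0, a1] at this
    simpa using this
  have hp := congrFun (congrFun JB i) k
  rw [Matrix.mul_apply, Fin.sum_univ_two, Matrix.one_apply_ne hk.symm, hv0, hv1] at hp
  rw [hv0, hv1] at ker
  exact hnc _ _ _ _ hp (ker _ _ (F4 hxy)) (ker _ _ (F5 hxy))

def uCol (g : Fin 2 → Rˣ) : Fin 2 → R := ![uu0 (g 0 : R) (g 1), uu1 (g 1 : R)]

lemma mono (h5 : (5 : R) = 0)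
    (hG : ∀ g ∈ G, ∀ h ∈ G, (g : R) * h = h * g ∨ (g : R) * h = -(h * g))
    (hreg : ∀ x ∈ G, ∀ y ∈ G, (x : R) * y = -(y * x) → ∀ m : R, m * uu0 (x : R) y = 0 → m = 0)
    (h : FreeGroup (Fin 2)) (hh : ∀ g : Fin 2 → Rˣ, (∀ i, g i ∈ G) →
      Psi g h = ⟨rhoRow g + Pi.single 0 1, g 0⟩) :
    ∃ a : Fin 2 → FreeGroup (Fin 2), (∀ w, InK G (FreeGroup.lift a w) → InK G w) ∧
      InK G ((FreeGroup.of 0)⁻¹ * FreeGroup.lift a h) := by
  obtain ⟨a, ha⟩ := exists_isT (G := G) uCol (fun g => -rhoRow g) (by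
    intro i; fin_cases i
    · exact scal_uu0 0 1
    · exact scal_uu1 1) (real_rho h5 hG).neg
  refine ⟨a, fun w hw g hg => ?_, (inK_iff _ _).2 fun g hg => ?_⟩
  · have e := hw g hg
    rw [ha g hg] at e
    have eu : (Psi g w).u = 1 := congrArg SD.u e
    have em : (Psi g w).m + (∑ i, (Psi g w).m i * uCol g i) • (-rhoRow g) = 0 := congrArg SD.m e
    rcases hG _ (hg 0) _ (hg 1) with hc | hc
    · have : rhoRow g = 0 := by ext j; fin_cases j <;> simp [rhoRow, eps_comm hc]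
      rw [this] at em
      ext1
      · simpa using em
      · exact eu
    · set μ := ∑ i, (Psi g w).m i * uCol g i with hμ
      have m0 := congrFun em 0
      have m1 := congrFun em 1
      simp [rhoRow, eps_anti h5 hc, add_neg_eq_zero] at m0 m1
      have : μ * uu0 (g 0 : R) (g 1) = 0 := by
        have f3 := F3 h5 hc
        have : μ = μ * rho0 (g 1 : R) * uu0 (g 0 : R) (g 1) +
            μ * rho1 (g 0 : R) (g 1) * uu1 (g 1 : R) := by
          conv_lhs => rw [hμ, Fin.sum_univ_two, m0, m1]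
          simp [uCol]
        have h2 : μ * ((1 + rho0 (g 1 : R)) * uu0 (g 0 : R) (g 1) +
          rho1 (g 0 : R) (g 1) * uu1 (g 1 : R)) = μ * uu0 (g 0 : R) (g 1) +
          (μ * rho0 (g 1 : R) * uu0 (g 0 : R) (g 1) +
            μ * rho1 (g 0 : R) (g 1) * uu1 (g 1 : R)) := by noncomm_ring
        rw [f3, ← this, mul_one] at h2
        simpa using h2
      have hμ0 := hreg _ (hg 0) _ (hg 1) hc μ this
      rw [hμ0] at em
      ext1
      · simpa using em
      · exact eu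
  · rw [ha g hg, hh g hg, Psi_of]
    rcases hG _ (hg 0) _ (hg 1) with hc | hc
    · have : rhoRow g = 0 := by ext j; fin_cases j <;> simp [rhoRow, eps_comm hc]
      ext <;> simp [this]
    · have : ∑ i, (rhoRow g + Pi.single 0 1 : Fin 2 → R) i * uCol g i = 1 := by
        have f3 := F3 h5 hc
        simpa [rhoRow, uCol, eps_anti h5 hc, Fin.sum_univ_two, add_comm] using f3
      simp only [this]
      ext <;> simp

def U1 (g : Fin 4 → Rˣ) : Fin 4 → R :=
  ![uu0 (g 0 : R) (g 1), uu1 (g 1 : R),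
    ((g 2 : R) - 2) * (wt0 (g 1 : R) * uu0 (g 0 : R) (g 1) + wt1 (g 0 : R) * uu1 (g 1 : R)), 1]

def U2 (g : Fin 4 → Rˣ) : Fin 4 → R := ![1, 0, ((g 2 : R) - 2) * wt0 (g 1 : R), 0]

def N2 (g : Fin 4 → Rˣ) : Fin 4 → R :=
  ![eps (g 0) (g 1) * ((1 - uu0 (g 0 : R) (g 1)) * (((g 3 : R) - 1) * (((g 2 : R) - 2) * wt0 (g 1 : R)))),
    eps (g 0) (g 1) * ((1 - uu0 (g 0 : R) (g 1)) * (((g 3 : R) - 1) * (((g 2 : R) - 2) * wt1 (g 0 : R)))),
    eps (g 0) (g 1) * ((1 - uu0 (g 0 : R) (g 1)) * (-((g 3 : R) - 1))),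
    eps (g 0) (g 1) * (1 - uu0 (g 0 : R) (g 1))]

def Rho4 (g : Fin 4 → Rˣ) : Fin 4 → R :=
  ![eps (g 0) (g 1) * rho0 (g 1 : R), eps (g 0) (g 1) * rho1 (g 0 : R) (g 1), 0, 0]

lemma prim4 (h5 : (5 : R) = 0)
    (hG : ∀ g ∈ G, ∀ h ∈ G, (g : R) * h = h * g ∨ (g : R) * h = -(h * g))
    (h : FreeGroup (Fin 2)) (hh : ∀ g : Fin 2 → Rˣ, (∀ i, g i ∈ G) →
      Psi g h = ⟨rhoRow g + Pi.single 0 1, g 0⟩)
    (N : Subgroup (FreeGroup (Fin 4))) [N.Normal] (hN : ∀ w, w ∈ N ↔ InK G w) (hle : 2 ≤ 4) :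
    ∃ ψ : (FreeGroup (Fin 4) ⧸ N) ≃* (FreeGroup (Fin 4) ⧸ N),
      ψ (QuotientGroup.mk (FreeGroup.of 0)) =
        QuotientGroup.mk (FreeGroup.map (Fin.castLE hle) h) := by
  have z2 : Scal G (fun g : Fin 4 → Rˣ => (g 2 : R) - 2) := (Scal.var 2).sub Scal.two
  have z3 : Scal G (fun g : Fin 4 → Rˣ => (g 3 : R) - 1) := (Scal.var 3).sub Scal.one
  have ou : Scal G (fun g : Fin 4 → Rˣ => 1 - uu0 (g 0 : R) (g 1)) := Scal.one.sub (scal_uu0 0 1)
  have rN2 : Real G (N2 (R := R)) := by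
    refine key h5 hG 0 1 _ ?_ ?_ ?_
    · intro j
      fin_cases j
      · exact (scal_eps 0 1).mul (ou.mul (z3.mul (z2.mul (scal_wt0 1))))
      · exact (scal_eps 0 1).mul (ou.mul (z3.mul (z2.mul (scal_wt1 0))))
      · exact (scal_eps 0 1).mul (ou.mul z3.neg)
      · exact (scal_eps 0 1).mul ou
    · intro g _ h
      ext j; fin_cases j <;> simp [N2, eps_comm h]
    · intro g _ h
      have f1 := F1 h5 h
      simp only [N2, eps_anti h5 h, Fin.sum_univ_four, one_mul, Matrix.cons_val_zero,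
        Matrix.cons_val_one, Matrix.cons_val]
      generalize wt0 (g 1 : R) = w0 at *
      generalize wt1 (g 0 : R) = w1 at *
      generalize 1 - uu0 (g 0 : R) (g 1) = o
      have : o * (((g 3 : R) - 1) * (((g 2 : R) - 2) * w0)) * ((g 0 : R) - 1) +
          o * (((g 3 : R) - 1) * (((g 2 : R) - 2) * w1)) * ((g 1 : R) - 1) =
          o * (((g 3 : R) - 1) * (((g 2 : R) - 2) * (w0 * ((g 0 : R) - 1) + w1 * ((g 1 : R) - 1)))) := by
        noncomm_ring
      rw [this, f1]; noncomm_ring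
  have rR : Real G (Rho4 (R := R)) := by
    refine key h5 hG 0 1 _ ?_ ?_ ?_
    · intro j
      fin_cases j
      · exact (scal_eps 0 1).mul (scal_rho0 1)
      · exact (scal_eps 0 1).mul (scal_rho1 0 1)
      · exact Scal.zero
      · exact Scal.zero
    · intro g _ h
      ext j; fin_cases j <;> simp [Rho4, eps_comm h]
    · intro g _ h
      simp [Rho4, eps_anti h5 h, Fin.sum_univ_four, F2 h]
  have d1 : ∀ g : Fin 4 → Rˣ, (g 0 : R) * g 1 = -(g 1 * g 0) →
      ∑ i, N2 g i * U1 g i = 1 - uu0 (g 0 : R) (g 1) := by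
    intro g h
    simp only [N2, U1, eps_anti h5 h, Fin.sum_univ_four, one_mul, Matrix.cons_val_zero,
        Matrix.cons_val_one, Matrix.cons_val]
    noncomm_ring
  have d2 : ∀ g : Fin 4 → Rˣ, (g 0 : R) * g 1 = -(g 1 * g 0) →
      ∑ i, N2 g i * U2 g i = 0 := by
    intro g h
    simp only [N2, U2, eps_anti h5 h, Fin.sum_univ_four, one_mul, Matrix.cons_val_zero,
        Matrix.cons_val_one, Matrix.cons_val]
    noncomm_ring
  have d3 : ∀ g : Fin 4 → Rˣ, (g 0 : R) * g 1 = -(g 1 * g 0) →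
      ∑ i, Rho4 g i * U1 g i = 1 - uu0 (g 0 : R) (g 1) := by
    intro g h
    have f3 := F3 h5 h
    simp only [Rho4, U1, eps_anti h5 h, Fin.sum_univ_four, one_mul, Matrix.cons_val_zero,
        Matrix.cons_val_one, Matrix.cons_val, zero_mul, add_zero]
    rw [← f3]; noncomm_ring
  have c1 : ∀ g : Fin 4 → Rˣ, (g 0 : R) * g 1 = g 1 * g 0 → N2 g = 0 := by
    intro g h; ext j; fin_cases j <;> simp [N2, eps_comm h]
  have c2 : ∀ g : Fin 4 → Rˣ, (g 0 : R) * g 1 = g 1 * g 0 → Rho4 g = 0 := by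
    intro g h; ext j; fin_cases j <;> simp [Rho4, eps_comm h]
  obtain ⟨a1, ψ1, ha1, hψ1⟩ := exists_aut N hN U1 (fun g => N2 g + -Rho4 g) (by
    intro i; fin_cases i
    · exact scal_uu0 0 1
    · exact scal_uu1 1
    · exact z2.mul (((scal_wt0 1).mul (scal_uu0 0 1)).add ((scal_wt1 0).mul (scal_uu1 1)))
    · exact Scal.one) (rN2.add rR.neg) (by
    intro g hg
    rcases hG _ (hg 0) _ (hg 1) with hc | hc
    · simp [c1 g hc, c2 g hc]
    · simp only [Pi.add_apply, Pi.neg_apply, add_mul, neg_mul, Finset.sum_add_distrib,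
        Finset.sum_neg_distrib, d1 g hc, d3 g hc, add_neg_cancel])
  obtain ⟨a2, ψ2, ha2, hψ2⟩ := exists_aut N hN U2 (fun g => -N2 g) (by
    intro i; fin_cases i
    · exact Scal.one
    · exact Scal.zero
    · exact z2.mul (scal_wt0 1)
    · exact Scal.zero) rN2.neg (by
    intro g hg
    rcases hG _ (hg 0) _ (hg 1) with hc | hc
    · simp [c1 g hc]
    · simp only [Pi.neg_apply, neg_mul, Finset.sum_neg_distrib, d2 g hc, neg_zero])
  refine ⟨(ψ1.trans ψ2).symm, ?_⟩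
  rw [MulEquiv.symm_apply_eq, MulEquiv.trans_apply, hψ1, hψ2, QuotientGroup.eq, hN, inK_iff]
  intro g hg
  have h4 : Psi g (FreeGroup.map (Fin.castLE hle) h) = ⟨Rho4 g + Pi.single 0 1, g 0⟩ := by
    have : FreeGroup.map (Fin.castLE hle) =
        FreeGroup.lift (fun i : Fin 2 => FreeGroup.of (Fin.castLE hle i)) := by
      ext i; simp
    rw [this, chain, hh _ (fun i => Psi_u_mem G g hg _)]
    ext j
    · fin_cases j <;> simp [comb_apply, rhoRow, Rho4, Fin.sum_univ_two, Fin.castLE, Pi.single_apply,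
        Matrix.vecHead, Matrix.vecTail]
    · simp [Fin.castLE]
  rw [ha2 g hg, ha1 g hg, h4, Psi_of]
  rcases hG _ (hg 0) _ (hg 1) with hc | hc
  · ext <;> simp [c1 g hc, c2 g hc]
  · have s1 : ∑ i, (Rho4 g + Pi.single 0 1 : Fin 4 → R) i * U1 g i = 1 := by
      simp only [Pi.add_apply, add_mul, Finset.sum_add_distrib, d3 g hc]
      simp [Pi.single_apply, U1]
    have s2 : Rho4 g + Pi.single 0 1 + (N2 g + -Rho4 g) = N2 g + Pi.single 0 1 := by abel
    have s3 : ∑ i, (N2 g + Pi.single 0 1 : Fin 4 → R) i * U2 g i = 1 := by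
      simp only [Pi.add_apply, add_mul, Finset.sum_add_distrib, d2 g hc]
      simp [Pi.single_apply, U2]
    simp only [s1, one_smul, s2, s3]
    ext <;> simp

end Pool.Agent.Lib.helper7.Prim
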