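import Pool.Agent.Lib.helper7.Prim2

set_option autoImplicit false

namespace Pool.Agent.Lib.helper7.Prim

open Polynomial

instance : Fact (Nat.Prime 5) := ⟨by norm_num⟩

abbrev S0 := Polynomial (ZMod 5)
abbrev B0 := Polynomial S0

noncomputable def s0 : S0 →+* S0 := Polynomial.compRingHom (-X)

lemma s0_s0 (a : S0) : s0 (s0 a) = a := by
  have : s0.comp s0 = RingHom.id _ := by
    apply Polynomial.ringHom_ext <;> simp [s0]
  exact DFunLike.congr_fun this a

lemma s0_inj : Function.Injective s0 := Function.LeftInverse.injective s0_s0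

lemma poly_lemma (c : S0) (hc : c ≠ 0) : ∀ (k : ℕ) (a b g : B0),
    (a * a.map s0 - X * (b * b.map s0)) * g = C c * X ^ k → a = 0 ∨ b = 0 := by
  intro k
  induction k with
  | zero =>
    intro a b g h
    by_contra hne
    push Not at hne
    obtain ⟨ha, hb⟩ := hne
    have ha' : a.map s0 ≠ 0 := by rwa [Ne, Polynomial.map_eq_zero_iff s0_inj]
    have hb' : b.map s0 ≠ 0 := by rwa [Ne, Polynomial.map_eq_zero_iff s0_inj]
    have d1 : (a * a.map s0).natDegree = 2 * a.natDegree := by
      rw [natDegree_mul ha ha', natDegree_map_eq_of_injective s0_inj]; ring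
    have d2 : (X * (b * b.map s0)).natDegree = 2 * b.natDegree + 1 := by
      rw [natDegree_mul X_ne_zero (mul_ne_zero hb hb'), natDegree_mul hb hb',
        natDegree_map_eq_of_injective s0_inj, natDegree_X]; ring
    have hC : (C c * X ^ 0 : B0) ≠ 0 := by simpa using hc
    have hf : a * a.map s0 - X * (b * b.map s0) ≠ 0 := by
      intro e; rw [e, zero_mul] at h; exact hC h.symm
    have hg : g ≠ 0 := by
      intro e; rw [e, mul_zero] at h; exact hC h.symm
    have d3 := congrArg natDegree h
    rw [natDegree_mul hf hg] at d3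
    simp only [pow_zero, mul_one, natDegree_C] at d3
    rcases lt_trichotomy (a * a.map s0).natDegree (X * (b * b.map s0)).natDegree with l | l | l
    · rw [natDegree_sub_eq_right_of_natDegree_lt l] at d3; omega
    · omega
    · rw [natDegree_sub_eq_left_of_natDegree_lt l] at d3; omega
  | succ k ih =>
    intro a b g h
    have h0 := congrArg (fun p => p.coeff 0) h
    simp only [mul_coeff_zero, coeff_sub, coeff_map, coeff_X_zero, zero_mul, sub_zero,
      coeff_X_pow, coeff_C_zero] at h0
    simp only [Nat.right_eq_add, Nat.add_eq_zero_iff, one_ne_zero, and_false, if_false, mul_zero,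
      mul_eq_zero, (by omega : ¬ 0 = k + 1)] at h0
    have hA : a.coeff 0 = 0 → a = 0 ∨ b = 0 := by
      intro e
      obtain ⟨a1, rfl⟩ := X_dvd_iff.2 e
      have : X * ((b * b.map s0 - X * (a1 * a1.map s0)) * (-g)) = X * (C c * X ^ k) := by
        simp only [Polynomial.map_mul, map_X] at h
        linear_combination h
      rcases ih _ _ _ (mul_left_cancel₀ X_ne_zero this) with e | e
      · exact Or.inr e
      · left; simp [e]
    rcases h0 with (e | e) | e
    · exact hA e
    · exact hA (s0_inj (by simpa using e))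
    · obtain ⟨g1, rfl⟩ := X_dvd_iff.2 e
      have : X * ((a * a.map s0 - X * (b * b.map s0)) * g1) = X * (C c * X ^ k) := by
        linear_combination h
      exact ih _ _ _ (mul_left_cancel₀ X_ne_zero this)

noncomputable def dd : B0 := X * C X

lemma dd_ne : dd ≠ 0 := mul_ne_zero X_ne_zero (by simp)

abbrev A0 := Localization.Away dd

lemma hpow : Submonoid.powers dd ≤ nonZeroDivisors B0 :=
  powers_le_nonZeroDivisors_of_noZeroDivisors dd_ne

instance : IsDomain A0 := IsLocalization.isDomain_localization hpow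

noncomputable abbrev al : B0 →+* A0 := algebraMap B0 A0

lemma al_inj : Function.Injective al := IsLocalization.injective A0 hpow

lemma map_dd : dd.map s0 = -dd := by
  simp only [dd, s0, Polynomial.map_mul, map_X, map_C, coe_compRingHom, X_comp, map_neg]; ring

noncomputable def sg : A0 →+* A0 :=
  IsLocalization.Away.lift dd (g := al.comp (mapRingHom s0)) (by
    simp only [RingHom.comp_apply, coe_mapRingHom, map_dd, map_neg, IsUnit.neg_iff]
    exact IsLocalization.Away.algebraMap_isUnit dd)

lemma sg_al (p : B0) : sg (al p) = al (p.map s0) := by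
  simp [sg]

lemma sg_sg (a : A0) : sg (sg a) = a := by
  have : sg.comp sg = RingHom.id _ := by
    apply IsLocalization.ringHom_ext (Submonoid.powers dd)
    refine RingHom.ext fun p => ?_
    have e : s0.comp s0 = RingHom.id _ := RingHom.ext s0_s0
    simp only [RingHom.comp_apply, RingHom.id_apply]
    rw [sg_al, sg_al, Polynomial.map_map, e, Polynomial.map_id]
  exact DFunLike.congr_fun this a

noncomputable def ev : A0 →+* ZMod 5 :=
  IsLocalization.Away.lift dd (g := (evalRingHom (3 : ZMod 5)).comp (evalRingHom (1 : S0))) (by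
    simp only [dd, RingHom.comp_apply, coe_evalRingHom, eval_mul, eval_X, eval_C, one_mul]
    exact isUnit_iff_ne_zero.2 (by decide))

lemma ev_al (p : B0) : ev (al p) = (p.eval 1).eval 3 := by simp [ev]

noncomputable def XX : A0 := al X
noncomputable def yy : A0 := al (C X)
noncomputable def ii : A0 := IsLocalization.Away.invSelf dd

lemma h_ii : XX * yy * ii = 1 := by
  rw [XX, yy, ← map_mul]; exact IsLocalization.Away.mul_invSelf dd

lemma sg_XX : sg XX = XX := by simp [XX, sg_al]
lemma sg_yy : sg yy = -yy := by simp [yy, sg_al, s0]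
lemma sg_ii : sg ii = -ii := by
  have h := congrArg sg h_ii
  rw [map_mul, map_mul, sg_XX, sg_yy, map_one] at h
  linear_combination (-ii) * h + (-sg ii) * h_ii
lemma ev_XX : ev XX = 1 := by simp [XX, ev_al]
lemma ev_yy : ev yy = 3 := by simp [yy, ev_al]

lemma loc_lemma (c : S0) (hc : c ≠ 0) (a b g : A0)
    (h : (a * sg a - XX * (b * sg b)) * g = al (C c)) : a = 0 ∨ b = 0 := by
  obtain ⟨n1, a1, ha⟩ := IsLocalization.Away.surj dd a
  obtain ⟨n2, b1, hb⟩ := IsLocalization.Away.surj dd b
  obtain ⟨m, g1, hg⟩ := IsLocalization.Away.surj dd g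
  have ha2 : a * al dd ^ (n1 + n2) = al (a1 * dd ^ n2) := by
    rw [map_mul, map_pow, ← ha]; ring
  have hb2 : b * al dd ^ (n1 + n2) = al (b1 * dd ^ n1) := by
    rw [map_mul, map_pow, ← hb]; ring
  generalize a1 * dd ^ n2 = a2 at ha2
  generalize b1 * dd ^ n1 = b2 at hb2
  generalize n1 + n2 = n at ha2 hb2
  have ha3 := congrArg sg ha2
  have hb3 := congrArg sg hb2
  rw [map_mul, map_pow, sg_al, sg_al, map_dd, map_neg] at ha3 hb3
  have e : al ((a2 * a2.map s0 - X * (b2 * b2.map s0)) * g1) =
      al (C (c * (X ^ n * (-X) ^ n * X ^ m)) * X ^ (n + n + m)) := by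
    have : (C (c * (X ^ n * (-X) ^ n * X ^ m)) * X ^ (n + n + m) : B0) =
        C c * (dd ^ n * (-dd) ^ n * dd ^ m) := by
      have : -dd = X * C (-X) := by rw [dd, map_neg]; ring
      rw [this, dd]
      simp only [map_mul, map_pow, mul_pow]; ring
    rw [this]
    simp only [map_mul, map_sub, map_pow, map_neg]
    rw [← ha2, ← hb2, ← ha3, ← hb3, ← hg, ← h, XX]; ring
  have hd : al dd ^ n ≠ 0 := pow_ne_zero _ (fun e => dd_ne (al_inj (by simpa using e)))
  rcases poly_lemma _ (mul_ne_zero hc (mul_ne_zero (mul_ne_zero (pow_ne_zero _ X_ne_zero)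
    (pow_ne_zero _ (neg_ne_zero.2 X_ne_zero))) (pow_ne_zero _ X_ne_zero))) _ _ _ _ (al_inj e)
    with z | z
  · left; rw [z, map_zero] at ha2; exact (mul_eq_zero.1 ha2).resolve_right hd
  · right; rw [z, map_zero] at hb2; exact (mul_eq_zero.1 hb2).resolve_right hd

abbrev M2 := Matrix (Fin 2) (Fin 2) A0

noncomputable def TT : Subring M2 where
  carrier := {M | M 1 1 = sg (M 0 0) ∧ M 0 1 = XX * sg (M 1 0)}
  one_mem' := by simp
  zero_mem' := by simp
  add_mem' := by
    rintro a b ⟨h1, h2⟩ ⟨h3, h4⟩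
    constructor <;> simp [h1, h2, h3, h4, mul_add]
  neg_mem' := by
    rintro a ⟨h1, h2⟩
    constructor <;> simp [h1, h2]
  mul_mem' := by
    rintro a b ⟨h1, h2⟩ ⟨h3, h4⟩
    constructor
    · simp [Matrix.mul_apply, Fin.sum_univ_two, h1, h2, h3, h4, sg_sg, sg_XX]; ring
    · simp [Matrix.mul_apply, Fin.sum_univ_two, h1, h2, h3, h4, sg_sg, sg_XX]; ring

noncomputable def xT : TT := ⟨!![0, XX; 1, 0], by constructor <;> simp⟩
noncomputable def xT' : TT := ⟨!![0, 1; ii * yy, 0], by
  constructor
  · simp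
  · simp [sg_ii, sg_yy]; linear_combination -h_ii⟩
noncomputable def yT : TT := ⟨!![yy, 0; 0, -yy], by constructor <;> simp [sg_yy]⟩
noncomputable def yT' : TT := ⟨!![ii * XX, 0; 0, -(ii * XX)], by
  constructor <;> simp [sg_ii, sg_XX]⟩

noncomputable def xU : TTˣ := ⟨xT, xT', by
    apply Subtype.ext; ext i j
    fin_cases i <;> fin_cases j <;> simp [xT, xT', Matrix.mul_apply, Fin.sum_univ_two]
    linear_combination h_ii, by
    apply Subtype.ext; ext i j
    fin_cases i <;> fin_cases j <;> simp [xT, xT', Matrix.mul_apply, Fin.sum_univ_two]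
    linear_combination h_ii⟩

noncomputable def yU : TTˣ := ⟨yT, yT', by
    apply Subtype.ext; ext i j
    fin_cases i <;> fin_cases j <;> simp [yT, yT', Matrix.mul_apply, Fin.sum_univ_two] <;>
    linear_combination h_ii, by
    apply Subtype.ext; ext i j
    fin_cases i <;> fin_cases j <;> simp [yT, yT', Matrix.mul_apply, Fin.sum_univ_two] <;>
    linear_combination h_ii⟩

lemma hxy : (xU : TT) * yU = -(yU * xU) := by
  apply Subtype.ext; ext i j
  fin_cases i <;> fin_cases j <;> simp [xU, yU, xT, yT, Matrix.mul_apply, Fin.sum_univ_two, mul_comm]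

lemma h5A : (5 : A0) = 0 := by
  have : ((al.comp C).comp (C : ZMod 5 →+* S0)) 5 = 0 := by
    rw [show (5 : ZMod 5) = 0 from rfl, map_zero]
  rwa [map_ofNat] at this

lemma h5T : (5 : TT) = 0 := by
  apply Subtype.ext
  have : ((5 : TT) : M2) = algebraMap A0 M2 5 := by
    rw [map_ofNat]; exact map_ofNat TT.subtype 5
  rw [this, h5A, map_zero]; rfl

noncomputable def GG : Subgroup TTˣ := Subgroup.closure {xU, yU}

section pm
variable {R : Type} [Ring R]

def Pm (g h : Rˣ) : Prop := (g : R) * h = h * g ∨ (g : R) * h = -(h * g)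

lemma Pm.symm {g h : Rˣ} (e : Pm g h) : Pm h g := by
  rcases e with e | e
  · exact Or.inl e.symm
  · right; rw [e, neg_neg]

lemma Pm.mul {g g' h : Rˣ} (e : Pm g h) (e' : Pm g' h) : Pm (g * g') h := by
  unfold Pm at *
  simp only [Units.val_mul]
  rcases e with e | e <;> rcases e' with e' | e'
  · left; rw [mul_assoc, e', ← mul_assoc, e, mul_assoc]
  · right; rw [mul_assoc, e', mul_neg, ← mul_assoc, e, mul_assoc]
  · right; rw [mul_assoc, e', ← mul_assoc, e, neg_mul, mul_assoc]
  · left; rw [mul_assoc, e', mul_neg, ← mul_assoc, e, neg_mul, neg_neg, mul_assoc]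

lemma Pm.inv {g h : Rˣ} (e : Pm g h) : Pm g⁻¹ h := by
  unfold Pm at *
  rcases e with e | e
  · left
    rw [Units.inv_mul_eq_iff_eq_mul, ← mul_assoc, e]; simp
  · right
    rw [Units.inv_mul_eq_iff_eq_mul, mul_neg, ← mul_assoc, e]; simp

lemma Pm.closure {s : Set Rˣ} {h : Rˣ} (hs : ∀ g ∈ s, Pm g h) :
    ∀ g ∈ Subgroup.closure s, Pm g h := by
  intro g hg
  induction hg using Subgroup.closure_induction with
  | mem g hg => exact hs g hg
  | one => left; simp
  | mul a b _ _ ha hb => exact ha.mul hb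
  | inv a _ ha => exact ha.inv

end pm

lemma hGG : ∀ g ∈ GG, ∀ h ∈ GG, (g : TT) * h = h * g ∨ (g : TT) * h = -(h * g) := by
  intro g hg h hh
  refine Pm.closure (fun a ha => (Pm.closure (fun b hb => ?_) h hh).symm) g hg
  rcases ha with rfl | rfl <;> rcases hb with rfl | rfl
  · exact Or.inl rfl
  · exact Pm.symm (Or.inr hxy)
  · exact Or.inr hxy
  · exact Or.inl rfl

noncomputable def EE : TT →+* Matrix (Fin 2) (Fin 2) (ZMod 5) := ev.mapMatrix.comp TT.subtype

lemma EE_apply (t : TT) (i j : Fin 2) : EE t i j = ev ((t : M2) i j) := rfl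

lemma sq_GG : ∀ g ∈ GG, EE g * EE g = 1 ∨ EE g * EE g = -1 := by
  intro g hg
  induction hg using Subgroup.closure_induction with
  | mem g hg =>
    rcases hg with rfl | rfl
    · left; ext i j
      fin_cases i <;> fin_cases j <;>
        simp [xU, xT, Matrix.mul_apply, Fin.sum_univ_two, EE_apply, ev_XX]
    · right; ext i j
      fin_cases i <;> fin_cases j <;>
        simp [yU, yT, Matrix.mul_apply, Fin.sum_univ_two, EE_apply, ev_yy] <;> decide
  | one => left; simp
  | mul a b ha' hb' ha hb =>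
    have e : EE ((a * b : TTˣ) : TT) * EE ((a * b : TTˣ) : TT) =
        EE a * (EE b * EE a) * EE b := by simp [mul_assoc]
    rw [e]
    rcases hGG b hb' a ha' with c | c
    · have c' := congrArg EE c
      simp only [map_mul] at c'
      have : EE a * (EE b * EE a) * EE b = (EE a * EE a) * (EE b * EE b) := by
        rw [c']; simp [mul_assoc]
      rw [this]
      rcases ha with ha | ha <;> rcases hb with hb | hb <;> simp [ha, hb]
    · have c' := congrArg EE c
      simp only [map_mul, map_neg] at c'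
      have : EE a * (EE b * EE a) * EE b = -((EE a * EE a) * (EE b * EE b)) := by
        rw [c']; simp [mul_assoc]
      rw [this]
      rcases ha with ha | ha <;> rcases hb with hb | hb <;> simp [ha, hb]
  | inv a _ ha =>
    have i1 : EE a * EE ((a⁻¹ : TTˣ) : TT) = 1 := by rw [← map_mul]; simp
    have i2 : (EE a * EE a) * (EE ((a⁻¹ : TTˣ) : TT) * EE ((a⁻¹ : TTˣ) : TT)) = 1 := by
      rw [mul_assoc, ← mul_assoc (EE a) (EE _) (EE _), i1, one_mul, i1]
    rcases ha with ha | ha
    · left; simpa [ha] using i2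
    · right; rw [ha] at i2; rw [← i2]; simp

lemma hreg : ∀ x ∈ GG, ∀ y ∈ GG, (x : TT) * y = -(y * x) →
    ∀ m : TT, m * uu0 (x : TT) y = 0 → m = 0 := by
  intro x hx y hy h m hm
  have f6 := F6 h
  set N : TT := 4 - ((y : TT) * y) * (1 - y * y) * (1 - y * y) * (1 - x * x) with hN
  have h1 : m * N = 0 := by
    have c : (2 : TT) * (m * uu0 (x : TT) y) * (2 + y * (1 - y * y) * (1 + x)) =
        (3 * 2) * (m * ((2 - y * (1 - y * y) * (1 + x)) * (2 + y * (1 - y * y) * (1 + x)))) := by
      rw [uu0]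
      generalize (2 - (y : TT) * (1 - y * y) * (1 + x)) = p
      generalize (2 + (y : TT) * (1 - y * y) * (1 + x)) = q
      noncomm_ring
    rw [hm, six h5T, f6] at c
    simpa using c.symm
  have hdet : (N : M2).det ≠ 0 := by
    intro e
    have e2 : (EE N).det = 0 := by
      have : EE N = ev.mapMatrix (N : M2) := rfl
      rw [this, ← RingHom.map_det, e, map_zero]
    have e3 : EE N = 4 - (EE y * EE y) * (1 - EE y * EE y) * (1 - EE y * EE y) *
        (1 - EE x * EE x) := by
      simp only [hN, map_sub, map_mul, map_one, map_ofNat]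
    rw [e3] at e2
    rcases sq_GG x hx with a | a <;> rcases sq_GG y hy with b | b <;> rw [a, b] at e2 <;>
      revert e2 <;> decide
  have h2 : (m : M2) * (N : M2) = 0 := congrArg Subtype.val h1
  have h3 : (N : M2).det • (m : M2) = 0 := by
    have := congrArg (· * (N : M2).adjugate) h2
    simpa [Matrix.mul_assoc, Matrix.mul_adjugate] using this
  apply Subtype.ext
  exact (smul_eq_zero.1 h3).resolve_left hdet

lemma hnc : ∀ p0 p1 t t' : TT, (1 + rho0 (yU : TT)) * p0 + rho1 (xU : TT) yU * p1 = 0 →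
      p1 * t = (1 + rho0 (yU : TT)) * (1 - rho0 (yU : TT)) →
      p1 * t' = (1 - rho0 (yU : TT)) * (yU * (1 - yU)) * xU -
        (1 + rho0 (yU : TT)) * (yU * (1 - yU)) → False := by
  intro p0 p1 t t' h1 h2 h3
  obtain ⟨q1, q2⟩ := p1.2
  have r0 : ((rho0 (yU : TT) : TT) : M2) = !![yy * (1 - yy * yy), 0; 0, -(yy * (1 - yy * yy))] := by
    ext i j
    fin_cases i <;> fin_cases j <;>
      simp [rho0, yU, yT, Matrix.mul_apply, Fin.sum_univ_two, Matrix.one_apply]
  have hd := congrArg (fun z : TT => (z : M2).det) h2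
  simp only [Subring.coe_mul, Matrix.det_mul, Subring.coe_add, Subring.coe_one,
    AddSubgroupClass.coe_sub, r0] at hd
  have hz : (p1 : M2) 0 0 = 0 ∨ (p1 : M2) 1 0 = 0 := by
    refine loc_lemma (((1 + X * (1 - X * X)) * (1 - X * (1 - X * X))) ^ 2) ?_ _ _ (t : M2).det ?_
    · intro e
      have := congrArg (eval 0) e
      simp at this
    · rw [Matrix.det_fin_two (p1 : M2), q1, q2] at hd
      have : al (C (((1 + X * (1 - X * X)) * (1 - X * (1 - X * X))) ^ 2)) =
          ((1 + yy * (1 - yy * yy)) * (1 - yy * (1 - yy * yy))) ^ 2 := by simp [yy]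
      rw [this]
      simp only [Matrix.det_fin_two ((1 : M2) + _), Matrix.det_fin_two ((1 : M2) - _)] at hd
      simp at hd
      linear_combination hd
  have ex : EE xU = !![0, 1; 1, 0] := by
    ext i j; fin_cases i <;> fin_cases j <;> simp [xU, xT, EE_apply, ev_XX]
  have ey : EE yU = !![3, 0; 0, -3] := by
    ext i j; fin_cases i <;> fin_cases j <;> simp [yU, yT, EE_apply, ev_yy]
  have k1 := congrArg EE h1
  have k3 := congrArg EE h3
  simp only [rho0, rho1, map_add, map_mul, map_sub, map_one, map_zero, ex, ey] at k1 k3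
  have v0 : (1 + !![3, 0; 0, -3] * (1 - !![3, 0; 0, -3] * !![3, 0; 0, -3]) :
      Matrix (Fin 2) (Fin 2) (ZMod 5)) = !![2, 0; 0, 0] := by decide
  have v1 : (!![3, 0; 0, -3] * (!![0, 1; 1, 0] - 1) * (!![3, 0; 0, -3] + 1) :
      Matrix (Fin 2) (Fin 2) (ZMod 5)) = !![3, 4; 3, 4] := by decide
  have v2 : ((1 - !![3, 0; 0, -3] * (1 - !![3, 0; 0, -3] * !![3, 0; 0, -3])) *
      (!![3, 0; 0, -3] * (1 - !![3, 0; 0, -3])) * !![0, 1; 1, 0] - !![2, 0; 0, 0] *
      (!![3, 0; 0, -3] * (1 - !![3, 0; 0, -3])) :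
      Matrix (Fin 2) (Fin 2) (ZMod 5)) 0 0 = 2 := by decide
  rw [v0, v1] at k1
  rw [v0] at k3
  have m0 := congrFun (congrFun k1 1) 0
  have m1 := congrFun (congrFun k1 1) 1
  have m2 := congrFun (congrFun k3 0) 0
  rw [v2] at m2
  simp only [Matrix.add_apply, Matrix.mul_apply, Fin.sum_univ_two, Matrix.of_apply,
    Matrix.cons_val', Matrix.cons_val_zero, Matrix.cons_val_one, Matrix.cons_val_fin_one,
    Matrix.zero_apply, zero_mul, zero_add] at m0 m1 m2
  have key : EE p1 0 0 = 0 ∧ EE p1 0 1 = 0 := by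
    rcases hz with z | z
    · have z1 : EE p1 0 0 = 0 := by rw [EE_apply, z, map_zero]
      have z2 : EE p1 1 1 = 0 := by rw [EE_apply, q1, z, map_zero, map_zero]
      refine ⟨z1, ?_⟩
      rw [z2] at m1
      revert m1; generalize EE p1 0 1 = s; revert s; decide
    · have z1 : EE p1 1 0 = 0 := by rw [EE_apply, z, map_zero]
      have z2 : EE p1 0 1 = 0 := by rw [EE_apply, q2, z, map_zero, mul_zero, map_zero]
      refine ⟨?_, z2⟩
      rw [z1] at m0
      revert m0; generalize EE p1 0 0 = s; revert s; decide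
  rw [key.1, key.2] at m2
  simp at m2
  revert m2; decide

lemma xmem : xU ∈ GG := Subgroup.subset_closure (by simp)
lemma ymem : yU ∈ GG := Subgroup.subset_closure (by simp)

end Pool.Agent.Lib.helper7.Prim
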