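import Mathlib

namespace Pool.Agent.Lib.Helper7Sigma

open Set Filter Topology Cardinal

variable {I : Type}

abbrev S (I : Type) := {x : I → Bool // {i | x i = true}.Countable}

abbrev Cd (I : Type) := Finset I × Finset I

def cyl (r : Cd I) : Set (S I) := {x | ∀ i ∈ r.1, (x.1 i = true ↔ i ∈ r.2)}

def le (r q : Cd I) : Prop := r.1 ⊆ q.1 ∧ ∀ i ∈ r.1, (i ∈ q.2 ↔ i ∈ r.2)

lemma le.refl (r : Cd I) : le r r := ⟨Finset.Subset.refl _, fun _ _ => Iff.rfl⟩

lemma le.trans {r q s : Cd I} (a : le r q) (b : le q s) : le r s :=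
  ⟨a.1.trans b.1, fun i hi => (b.2 i (a.1 hi)).trans (a.2 i hi)⟩

lemma le.sub {r q : Cd I} (a : le r q) : cyl q ⊆ cyl r := fun _ h i hi => (h i (a.1 hi)).trans (a.2 i hi)

lemma ev (i : I) : Continuous fun x : S I => x.1 i := (continuous_apply i).comp continuous_subtype_val

lemma cyl_open (r : Cd I) : IsOpen (cyl r) := by
  have : cyl r = ⋂ i ∈ r.1, (fun x : S I => x.1 i) ⁻¹' {b | b = true ↔ i ∈ r.2} := by ext; simp [cyl]
  exact this ▸ isOpen_biInter_finset fun i _ => (isOpen_discrete _).preimage (ev i)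

lemma nb {U : Set (S I)} {x : S I} (h : U ∈ 𝓝 x) (s : Finset I) :
    ∃ r : Cd I, s ⊆ r.1 ∧ x ∈ cyl r ∧ cyl r ⊆ U := by
  classical
  obtain ⟨V, hV, h⟩ := mem_nhds_induced _ _ _ |>.1 h
  obtain ⟨t, u, h1, h2⟩ := isOpen_pi_iff.1 isOpen_interior x.1 (mem_interior_iff_mem_nhds.2 hV)
  refine ⟨(s ∪ t, (s ∪ t).filter fun i => x.1 i = true), Finset.subset_union_left,
    fun i hi => by simp [-Finset.mem_union, show i ∈ s ∪ t from hi], fun y hy =>
      h (show y.1 ∈ V from interior_subset (h2 fun i hi => ?_))⟩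
  have hi' : i ∈ s ∪ t := Finset.mem_union_right _ hi
  have : y.1 i = x.1 i := Bool.eq_iff_iff.2 (by simpa [-Finset.mem_union, hi'] using hy i hi')
  exact this ▸ (h1 i hi).2

open Classical in
noncomputable def pt (s : Finset I) : S I :=
  ⟨fun i => decide (i ∈ s), s.countable_toSet.mono fun i h => by simpa using h⟩

lemma pt_mem (r : Cd I) : pt r.2 ∈ cyl r := fun i _ => by simp [pt]

theorem dsep : ∃ E : ℕ → Set (S I), (∀ n, DiscreteTopology (E n)) ∧ Dense (⋃ n, E n) := by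
  refine ⟨fun n => pt '' {s | s.card = n}, fun n => discreteTopology_subtype_iff'.2 ?_, fun x =>
    mem_closure_iff_nhds.2 fun U hU => ?_⟩
  · rintro _ ⟨s, hs, rfl⟩
    refine ⟨cyl (s, s), cyl_open _, Subset.antisymm ?_ (singleton_subset_iff.2 ⟨pt_mem (s, s), s, hs, rfl⟩)⟩
    rintro _ ⟨h, t, ht, rfl⟩
    rw [Finset.eq_of_subset_of_card_le (s := s) (t := t) (fun i hi => by simpa [pt, hi] using h i hi)
      (ht.trans hs.symm).le]
    rfl
  · obtain ⟨r, -, -, h⟩ := nb hU ∅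
    exact ⟨_, h (pt_mem r), mem_iUnion.2 ⟨_, r.2, rfl, rfl⟩⟩

theorem fu [Nonempty I] : FrechetUrysohnSpace (S I) := ⟨fun A x hx => by
  classical
  have h1 : ∀ y : S I, ∃ f : ℕ → I, {i | y.1 i = true} ⊆ range f := fun y =>
    countable_iff_exists_subset_range.1 y.2
  choose en he using h1
  have h2 : ∀ s : Finset I, ∃ a ∈ A, ∀ i ∈ s, a.1 i = x.1 i := fun s => by
    obtain ⟨r, r1, r2, -⟩ := nb (x := x) univ_mem s
    obtain ⟨a, a1, a2⟩ := mem_closure_iff.1 hx _ (cyl_open r) r2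
    exact ⟨a, a2, fun i hi => Bool.eq_iff_iff.2 ((a1 i (r1 hi)).trans (r2 i (r1 hi)).symm)⟩
  choose a a1 a2 using h2
  let F : Finset (S I) → ℕ → Finset I := fun P n => P.biUnion fun y => (Finset.range n).image (en y)
  let P : ℕ → Finset (S I) := fun n => Nat.rec {x} (fun n P => insert (a (F P n)) P) n
  have pm : Monotone P := monotone_nat_of_le_succ fun n => Finset.subset_insert _ _
  refine ⟨fun n => a (F (P n) n), fun n => a1 _, tendsto_subtype_rng.2 (tendsto_pi_nhds.2 fun i =>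
    tendsto_const_nhds.congr' ?_)⟩
  by_cases h : ∃ m, ∃ y ∈ P m, y.1 i = true
  · obtain ⟨m, y, y1, y2⟩ := h
    obtain ⟨k, rfl⟩ := he y y2
    filter_upwards [eventually_ge_atTop m, eventually_gt_atTop k] with n n1 n2
    exact (a2 _ _ (Finset.mem_biUnion.2 ⟨y, pm n1 y1,
      Finset.mem_image_of_mem _ (Finset.mem_range.2 n2)⟩)).symm
  · push Not at h
    exact .of_forall fun n => Bool.eq_iff_iff.2 (iff_of_false (h 0 x (Finset.mem_singleton_self x))
      (h (n + 1) _ (Finset.mem_insert_self _ _)))⟩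

def Dn (u : ℕ → Cd I) : Prop := ∀ r, ∃ q k, le r q ∧ le (u k) q

lemma close {E : Set (S I)} [Infinite I] (h : DiscreteTopology E) :
    ∃ u : ℕ → Cd I, Dn u ∧ ∀ k, Disjoint (cyl (u k)) E := by
  classical
  have h1 : ∀ r : Cd I, ∃ q, le r q ∧ Disjoint (cyl q) E := fun r => by
    by_cases h0 : Disjoint (cyl r) E
    · exact ⟨r, le.refl r, h0⟩
    obtain ⟨x, x1, x2⟩ := not_disjoint_iff.1 h0
    obtain ⟨U, u1, u2⟩ := discreteTopology_subtype_iff'.1 h x x2
    obtain ⟨q, q1, q2, q3⟩ := nb (u1.mem_nhds (u2.symm ▸ mem_singleton x : x ∈ U ∩ E).1) r.1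
    obtain ⟨j, hj⟩ := Infinite.exists_notMem_finset q.1
    have k : ∀ i ∈ q.1, i ∈ (insert j q.1).filter (fun i => x.1 i = true ↔ i ≠ j) ↔ i ∈ q.2 := fun i hi => by
      simp [hi, show i ≠ j from fun e => hj (e ▸ hi), q2 i hi]
    refine ⟨(insert j q.1, (insert j q.1).filter fun i => x.1 i = true ↔ i ≠ j),
      ⟨q1.trans (Finset.subset_insert _ _), fun i hi => (k i (q1 hi)).trans
        ((q2 i (q1 hi)).symm.trans (x1 i hi))⟩, disjoint_left.2 fun y y1 y2 => ?_⟩
    obtain rfl : y = x := show y ∈ ({x} : Set _) from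
      u2 ▸ ⟨q3 (le.sub ⟨Finset.subset_insert _ _, k⟩ y1), y2⟩
    simpa using y1 j (Finset.mem_insert_self _ _)
  choose f f1 f2 using h1
  have cc : ∀ C : Set I, C.Countable → {r : Cd I | ↑r.1 ⊆ C ∧ ↑r.2 ⊆ C}.Countable := fun C hC => by
    have : {s : Finset I | ↑s ⊆ C}.Countable := by
      refine ((countable_ofPred_finite_subset hC).preimage_of_injOn
        (f := fun s : Finset I => (s : Set I)) Finset.coe_injective.injOn).mono fun s hs => ?_
      exact ⟨s.finite_toSet, hs⟩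
    exact this.prod this
  let C : ℕ → Set I := fun n => Nat.rec ∅ (fun _ C => C ∪ ⋃ r ∈ {r : Cd I | ↑r.1 ⊆ C ∧ ↑r.2 ⊆ C}, (f r).1) n
  have c1 : ∀ n, (C n).Countable := fun n => by
    induction n with
    | zero => exact countable_empty
    | succ n ih => exact ih.union ((cc _ ih).biUnion fun r _ => Finset.countable_toSet _)
  have cm : Monotone C := monotone_nat_of_le_succ fun n => subset_union_left
  obtain ⟨g, hg⟩ := countable_iff_exists_subset_range.1 (cc _ (countable_iUnion c1))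
  refine ⟨fun k => f (g k), fun r => ?_, fun k => f2 _⟩
  let p : Cd I := (r.1.filter (· ∈ ⋃ n, C n), r.2.filter (· ∈ ⋃ n, C n))
  obtain ⟨k, hk⟩ := hg (a := p) ⟨fun i hi => (Finset.mem_filter.1 hi).2, fun i hi => (Finset.mem_filter.1 hi).2⟩
  obtain ⟨n, hn⟩ := cm.directed_le.exists_mem_subset_of_finset_subset_biUnion (s := p.1 ∪ p.2) (fun i hi => by
    rcases Finset.mem_union.1 hi with h | h <;> exact (Finset.mem_filter.1 h).2)
  have : ∀ i ∈ (f p).1, i ∈ ⋃ n, C n := fun i hi => mem_iUnion.2 ⟨n + 1, Or.inr (mem_biUnion (x := p)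
    ⟨fun j hj => hn (by simp [-Finset.coe_filter, Finset.mem_coe.1 hj]),
      fun j hj => hn (by simp [-Finset.coe_filter, Finset.mem_coe.1 hj])⟩ hi)⟩
  refine ⟨(r.1 ∪ (f p).1, (r.1 ∩ r.2) ∪ ((f p).2 \ r.1)), k, ⟨Finset.subset_union_left, fun i hi => by
    simp [hi]⟩, ?_⟩
  simp only [hk]
  refine ⟨Finset.subset_union_right, fun i hi => ?_⟩
  by_cases h : i ∈ r.1
  · simp only [Finset.mem_union, Finset.mem_inter, Finset.mem_sdiff, h, true_and, not_true, and_false, or_false]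
    rw [(f1 p).2 i (Finset.mem_filter.2 ⟨h, this i hi⟩), Finset.mem_filter, and_iff_left (this i hi)]
  · simp [h]

theorem notD [Infinite I] (h : #I ^ ℵ₀ = #I) : ∃ D : Set (S I), Dense D ∧
    ∀ F : ℕ → Set (S I), (∀ n, F n ⊆ D ∧ DiscreteTopology (F n)) → ¬ Dense (⋃ n, F n) := by
  classical
  obtain ⟨e⟩ : Nonempty (I ≃ (ℕ → ℕ → Cd I)) := Cardinal.eq.1 (by
    simp [mk_finset_of_infinite, mul_eq_self (aleph0_le_mk I), h])
  refine ⟨{x | ∀ a, x.1 a = true → ∀ n, Dn (e a n) → ∃ k, x ∈ cyl (e a n k)}, fun x =>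
    mem_closure_iff_nhds.2 fun U hU => ?_, fun F hF hd => ?_⟩
  · obtain ⟨r0, -, -, h0⟩ := nb hU ∅
    have : ∀ (s : Finset (I × ℕ)) (r : Cd I), ∃ q, le r q ∧ ∀ p ∈ s, Dn (e p.1 p.2) →
        ∃ k, le (e p.1 p.2 k) q := fun s => by
      induction s using Finset.induction_on with
      | empty => exact fun r => ⟨r, le.refl r, by simp⟩
      | insert p s _ ih =>
        intro r
        obtain ⟨q, q1, q2⟩ := ih r
        by_cases h : Dn (e p.1 p.2)
        · obtain ⟨t, k, t1, t2⟩ := h q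
          exact ⟨t, q1.trans t1, Finset.forall_mem_insert _ _ _ |>.2 ⟨fun _ => ⟨k, t2⟩,
            fun p hp h => (q2 p hp h).imp fun k hk => hk.trans t1⟩⟩
        · exact ⟨q, q1, Finset.forall_mem_insert _ _ _ |>.2 ⟨fun h' => absurd h' h, q2⟩⟩
    choose st s1 s2 using this
    let r : ℕ → Cd I := fun n => Nat.rec r0 (fun n r => st (r.1 ×ˢ Finset.range n) r) n
    have rm : ∀ {m n}, m ≤ n → le (r m) (r n) := fun h => by
      induction h with
      | refl => exact le.refl _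
      | step _ ih => exact ih.trans (s1 _ _)
    let y : S I := ⟨fun i => decide (∃ n, i ∈ (r n).1 ∧ i ∈ (r n).2),
      (countable_iUnion fun n => (r n).1.countable_toSet).mono fun i hi => by
        obtain ⟨n, h, -⟩ := of_decide_eq_true hi
        exact mem_iUnion.2 ⟨n, h⟩⟩
    have hy : ∀ n, y ∈ cyl (r n) := fun n i hi => decide_eq_true_iff.trans
      ⟨fun ⟨m, h1, h2⟩ => ((rm (le_max_left n m)).2 i hi).1 (((rm (le_max_right n m)).2 i h1).2 h2),
        fun h => ⟨n, hi, h⟩⟩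
    refine ⟨y, h0 (hy 0), fun a ha n hn => ?_⟩
    obtain ⟨m, h1, -⟩ := of_decide_eq_true ha
    obtain ⟨k, hk⟩ := s2 ((r (max m (n + 1))).1 ×ˢ Finset.range (max m (n + 1))) (r (max m (n + 1))) (a, n)
      (Finset.mem_product.2 ⟨(rm (le_max_left _ _)).1 h1, Finset.mem_range.2 (Nat.lt_of_succ_le (le_max_right _ _))⟩) hn
    exact ⟨k, hk.sub (hy (max m (n + 1) + 1))⟩
  · choose u u1 u2 using fun n => close (hF n).2
    obtain ⟨a, rfl⟩ := e.surjective u
    obtain ⟨x, x1, x2⟩ := hd.inter_open_nonempty _ (cyl_open ({a}, {a})) ⟨_, pt_mem _⟩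
    obtain ⟨n, hn⟩ := mem_iUnion.1 x2
    obtain ⟨k, hk⟩ := (hF n).1 hn a (by simpa using x1 a) n (u1 n)
    exact disjoint_left.1 (u2 n k) hk hn

end Pool.Agent.Lib.Helper7Sigma
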