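import Mathlib

set_option autoImplicit false

namespace Pool.Agent.Lib.helper7.SolAut

open scoped commutatorElement

/-- Triples: a function on `ℚ × G`, a sign function on `ℚ`, and an affine map of `ℚ`. -/
@[ext] structure B (G : Type) where
  f : ℚ × G → ZMod 3
  e : ℚ → (ZMod 3)ˣ
  a : ℚˣ
  b : ℚ

variable {G : Type}

noncomputable instance : Mul (B G) := ⟨fun p q =>
  { f := fun z => p.f z + p.e z.1 * q.f (p.a * z.1 + p.b, z.2)
    e := fun x => p.e x * q.e (p.a * x + p.b)
    a := p.a * q.a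
    b := q.a * p.b + q.b }⟩

instance : One (B G) := ⟨{ f := 0, e := 1, a := 1, b := 0 }⟩

noncomputable instance : Inv (B G) := ⟨fun p =>
  { f := fun z => -(((p.e ((p.a⁻¹ : ℚˣ) * z.1 - (p.a⁻¹ : ℚˣ) * p.b))⁻¹ : (ZMod 3)ˣ) *
      p.f ((p.a⁻¹ : ℚˣ) * z.1 - (p.a⁻¹ : ℚˣ) * p.b, z.2))
    e := fun x => (p.e ((p.a⁻¹ : ℚˣ) * x - (p.a⁻¹ : ℚˣ) * p.b))⁻¹
    a := p.a⁻¹
    b := -((p.a⁻¹ : ℚˣ) * p.b) }⟩

@[simp] theorem mul_f (p q : B G) (z : ℚ × G) :
    (p * q).f z = p.f z + p.e z.1 * q.f (p.a * z.1 + p.b, z.2) := rfl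
@[simp] theorem mul_e (p q : B G) (x : ℚ) : (p * q).e x = p.e x * q.e (p.a * x + p.b) := rfl
@[simp] theorem mul_a (p q : B G) : (p * q).a = p.a * q.a := rfl
@[simp] theorem mul_b (p q : B G) : (p * q).b = q.a * p.b + q.b := rfl
@[simp] theorem one_f (z : ℚ × G) : (1 : B G).f z = 0 := rfl
@[simp] theorem one_e (x : ℚ) : (1 : B G).e x = 1 := rfl
@[simp] theorem one_a : (1 : B G).a = 1 := rfl
@[simp] theorem one_b : (1 : B G).b = 0 := rfl
theorem inv_f (p : B G) (z : ℚ × G) : (p⁻¹).f z =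
    -(((p.e ((p.a⁻¹ : ℚˣ) * z.1 - (p.a⁻¹ : ℚˣ) * p.b))⁻¹ : (ZMod 3)ˣ) *
      p.f ((p.a⁻¹ : ℚˣ) * z.1 - (p.a⁻¹ : ℚˣ) * p.b, z.2)) := rfl
theorem inv_e (p : B G) (x : ℚ) :
    (p⁻¹).e x = (p.e ((p.a⁻¹ : ℚˣ) * x - (p.a⁻¹ : ℚˣ) * p.b))⁻¹ := rfl
theorem inv_a (p : B G) : (p⁻¹).a = p.a⁻¹ := rfl
theorem inv_b (p : B G) : (p⁻¹).b = -((p.a⁻¹ : ℚˣ) * p.b) := rfl

noncomputable instance : Group (B G) := Group.ofLeftAxioms
  (fun p q r => by
    have h : ∀ x : ℚ, ((p.a * q.a : ℚˣ) : ℚ) * x + (q.a * p.b + q.b) =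
        q.a * (p.a * x + p.b) + q.b := fun x => by
      rw [Units.val_mul]; ring
    refine B.ext ?_ ?_ ?_ ?_
    · funext z
      simp only [mul_f, mul_e, mul_a, mul_b, h, Units.val_mul]
      ring
    · funext x
      simp only [mul_e, mul_a, mul_b, h, mul_assoc]
    · simp only [mul_a, mul_assoc]
    · simp only [mul_a, mul_b, Units.val_mul]; ring)
  (fun p => by
    refine B.ext ?_ ?_ ?_ ?_
    · funext z; simp
    · funext x; simp
    · simp
    · simp)
  (fun p => by
    refine B.ext ?_ ?_ ?_ ?_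
    · funext z
      simp only [mul_f, inv_f, inv_e, inv_a, inv_b, one_f, ← sub_eq_add_neg]
      ring
    · funext x
      simp only [mul_e, inv_e, inv_a, inv_b, one_e, ← sub_eq_add_neg, inv_mul_cancel]
    · simp only [mul_a, inv_a, inv_mul_cancel, one_a]
    · simp only [mul_b, inv_b, one_b]
      rw [mul_neg, ← mul_assoc, ← Units.val_mul, mul_inv_cancel]; simp)

def K1 (G : Type) : Subgroup (B G) where
  carrier := {p | p.a = 1}
  mul_mem' := by
    intro p q hp hq
    simp only [Set.mem_setOf_eq, mul_a] at *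
    rw [hp, hq, mul_one]
  one_mem' := rfl
  inv_mem' := by
    intro p hp
    simp only [Set.mem_setOf_eq, inv_a] at *
    rw [hp, inv_one]

def K2 (G : Type) : Subgroup (B G) where
  carrier := {p | p.a = 1 ∧ p.b = 0}
  mul_mem' := by
    intro p q hp hq
    simp only [Set.mem_setOf_eq, mul_a, mul_b] at *
    simp [hp.1, hq.1, hp.2, hq.2]
  one_mem' := ⟨rfl, rfl⟩
  inv_mem' := by
    intro p hp
    simp only [Set.mem_setOf_eq, inv_a, inv_b] at *
    simp [hp.1, hp.2]

def K3 (G : Type) : Subgroup (B G) where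
  carrier := {p | p.a = 1 ∧ p.b = 0 ∧ ∀ x, p.e x = 1}
  mul_mem' := by
    intro p q hp hq
    simp only [Set.mem_setOf_eq, mul_a, mul_b, mul_e] at *
    simp [hp.1, hq.1, hp.2.1, hq.2.1, hp.2.2, hq.2.2]
  one_mem' := ⟨rfl, rfl, fun _ => rfl⟩
  inv_mem' := by
    intro p hp
    simp only [Set.mem_setOf_eq, inv_a, inv_b, inv_e] at *
    simp [hp.1, hp.2.1, hp.2.2]

theorem comm_mul (p q : B G) : ⁅p, q⁆ * (q * p) = p * q := by
  rw [commutatorElement_def]; group

theorem comm_a (p q : B G) : (⁅p, q⁆ : B G).a = 1 := by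
  have h := congrArg B.a (comm_mul p q)
  simp only [mul_a] at h
  rw [mul_comm q.a p.a] at h
  simpa using h

theorem comm_b (p q : B G) (hp : p ∈ K1 G) (hq : q ∈ K1 G) : (⁅p, q⁆ : B G).b = 0 := by
  have h := congrArg B.b (comm_mul p q)
  have hp' : p.a = 1 := hp
  have hq' : q.a = 1 := hq
  simp only [mul_a, mul_b, hp', hq', mul_one, Units.val_one, one_mul] at h
  linarith

theorem comm_e (p q : B G) (hp : p ∈ K2 G) (hq : q ∈ K2 G) (x : ℚ) :
    (⁅p, q⁆ : B G).e x = 1 := by
  have h := congrArg (fun r => B.e r x) (comm_mul p q)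
  have hb := comm_b p q hp.1 hq.1
  simp only [mul_e, hp.1, hq.1, hp.2, hq.2, comm_a, hb, Units.val_one, one_mul, add_zero] at h
  rw [mul_comm (q.e x) (p.e x)] at h
  simpa using h

theorem comm_f (p q : B G) (hp : p ∈ K3 G) (hq : q ∈ K3 G) (z : ℚ × G) :
    (⁅p, q⁆ : B G).f z = 0 := by
  have h := congrArg (fun r => B.f r z) (comm_mul p q)
  have hb := comm_b p q hp.1 hq.1
  have he := comm_e p q ⟨hp.1, hp.2.1⟩ ⟨hq.1, hq.2.1⟩
  simp only [mul_f, hp.1, hq.1, hp.2.1, hq.2.1, hp.2.2, hq.2.2, comm_a, hb, he, Units.val_one,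
    one_mul, add_zero] at h
  linear_combination h

theorem ds_B : derivedSeries (B G) 4 = ⊥ := by
  have h1 : derivedSeries (B G) 1 ≤ K1 G := by
    rw [derivedSeries_succ, Subgroup.commutator_le]
    intro p _ q _
    exact comm_a p q
  have h2 : derivedSeries (B G) 2 ≤ K2 G := by
    rw [derivedSeries_succ, Subgroup.commutator_le]
    intro p hp q hq
    exact ⟨comm_a p q, comm_b p q (h1 hp) (h1 hq)⟩
  have h3 : derivedSeries (B G) 3 ≤ K3 G := by
    rw [derivedSeries_succ, Subgroup.commutator_le]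
    intro p hp q hq
    exact ⟨comm_a p q, comm_b p q (h2 hp).1 (h2 hq).1, comm_e p q (h2 hp) (h2 hq)⟩
  rw [eq_bot_iff, derivedSeries_succ, Subgroup.commutator_le]
  intro p hp q hq
  rw [Subgroup.mem_bot]
  refine B.ext ?_ ?_ (comm_a p q) (comm_b p q (h3 hp).1 (h3 hq).1)
  · funext z; exact comm_f p q (h3 hp) (h3 hq) z
  · funext x; exact comm_e p q ⟨(h3 hp).1, (h3 hp).2.1⟩ ⟨(h3 hq).1, (h3 hq).2.1⟩ x

theorem ds_sub (S : Subgroup (B G)) : derivedSeries S 4 = ⊥ := by
  have h := map_derivedSeries_le_derivedSeries S.subtype 4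
  rw [ds_B, le_bot_iff, Subgroup.map_eq_bot_iff, Subgroup.ker_subtype, le_bot_iff] at h
  exact h

/-- translation by a function -/
def T (f : ℚ × G → ZMod 3) : B G := { f := f, e := 1, a := 1, b := 0 }

theorem T_add (f g : ℚ × G → ZMod 3) : T (f + g) = T f * T g := by
  refine B.ext ?_ ?_ ?_ ?_
  · funext z; simp [T]
  · funext x; simp [T]
  · simp [T]
  · simp [T]

theorem T_conj (p : B G) (f : ℚ × G → ZMod 3) :
    T (fun z => p.e z.1 * f (p.a * z.1 + p.b, z.2)) = p * T f * p⁻¹ := by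
  rw [eq_mul_inv_iff_mul_eq]
  refine B.ext ?_ ?_ ?_ ?_
  · funext z; simp [T]; ring
  · funext x; simp [T]
  · simp [T]
  · simp [T]

open Classical in
/-- the sign `-1` on the natural numbers -/
noncomputable def sg (G : Type) : B G :=
  { f := 0, e := fun x => if ∃ k : ℕ, x = k then -1 else 1, a := 1, b := 0 }

/-- the shift -/
def sh (G : Type) : B G := { f := 0, e := 1, a := 1, b := 1 }

/-- the dilation -/
noncomputable def dl (G : Type) : B G := { f := 0, e := 1, a := Units.mk0 2 (by norm_num), b := 0 }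

variable [Group G]

/-- the recursive labelling of the natural numbers -/
noncomputable def gam (g : ℕ → G) (m : ℕ) : G :=
  if h : m = 0 then 1 else g (padicValNat 2 m) * gam g (m / 2 ^ (padicValNat 2 m + 1))
termination_by m
decreasing_by
  exact Nat.div_lt_self (Nat.pos_of_ne_zero h) (Nat.one_lt_two_pow (by omega))

theorem gam_zero (g : ℕ → G) : gam g 0 = 1 := by
  rw [gam]; simp

theorem gam_step (g : ℕ → G) (n x : ℕ) : gam g (2 ^ n * (2 * x + 1)) = g n * gam g x := by
  have hv : padicValNat 2 (2 ^ n * (2 * x + 1)) = n := by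
    rw [padicValNat.mul (by positivity) (by omega), padicValNat.prime_pow,
      padicValNat.eq_zero_of_not_dvd (by omega), add_zero]
  have hd : 2 ^ n * (2 * x + 1) / 2 ^ (n + 1) = x := by
    rw [pow_succ, Nat.mul_div_mul_left _ _ (by positivity)]; omega
  rw [gam, dif_neg (by positivity), hv, hd]

open Classical in
/-- the generating function -/
noncomputable def u (g : ℕ → G) : ℚ × G → ZMod 3 :=
  fun z => if ∃ k : ℕ, z.1 = k ∧ z.2 = gam g k then 1 else 0

/-- the action of `G` on the second coordinate -/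
noncomputable def rho (c : G) : B G →* B G where
  toFun p := { f := fun z => p.f (z.1, c⁻¹ * z.2), e := p.e, a := p.a, b := p.b }
  map_one' := rfl
  map_mul' _ _ := rfl

theorem rho_mul (c d : G) (p : B G) : rho (c * d) p = rho c (rho d p) := by
  refine B.ext ?_ rfl rfl rfl
  funext z
  show p.f (z.1, (c * d)⁻¹ * z.2) = p.f (z.1, d⁻¹ * (c⁻¹ * z.2))
  rw [mul_inv_rev, mul_assoc]

theorem rho_one (p : B G) : rho (1 : G) p = p := by
  refine B.ext ?_ rfl rfl rfl
  funext z
  show p.f (z.1, (1 : G)⁻¹ * z.2) = p.f z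
  simp

/-- the finitely generated soluble group -/
noncomputable def S (g : ℕ → G) : Subgroup (B G) :=
  Subgroup.closure {T (u g), sg G, sh G, dl G}

theorem u_mem (g : ℕ → G) : T (u g) ∈ S g := Subgroup.subset_closure (by simp)
theorem sg_mem (g : ℕ → G) : sg G ∈ S g := Subgroup.subset_closure (by simp)
theorem sh_mem (g : ℕ → G) : sh G ∈ S g := Subgroup.subset_closure (by simp)
theorem dl_mem (g : ℕ → G) : dl G ∈ S g := Subgroup.subset_closure (by simp)

theorem conj_mem (g : ℕ → G) {p : B G} (hp : p ∈ S g) {f : ℚ × G → ZMod 3} (hf : T f ∈ S g) :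
    T (fun z => p.e z.1 * f (p.a * z.1 + p.b, z.2)) ∈ S g := by
  rw [T_conj]
  exact (S g).mul_mem ((S g).mul_mem hp hf) ((S g).inv_mem hp)

theorem dl_cl (g : ℕ → G) {f : ℚ × G → ZMod 3} (hf : T f ∈ S g) :
    T (fun z => f (2 * z.1, z.2)) ∈ S g := by
  have h := conj_mem g (dl_mem g) hf
  simpa [dl] using h

theorem sh_cl (g : ℕ → G) {f : ℚ × G → ZMod 3} (hf : T f ∈ S g) :
    T (fun z => f (z.1 + 1, z.2)) ∈ S g := by
  have h := conj_mem g (sh_mem g) hf
  simpa [sh] using h

theorem pow_cl (g : ℕ → G) {f : ℚ × G → ZMod 3} (hf : T f ∈ S g) (n : ℕ) :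
    T (fun z => f (2 ^ n * z.1, z.2)) ∈ S g := by
  induction n with
  | zero => simpa using hf
  | succ n ih =>
    have h := dl_cl g ih
    simpa [pow_succ, mul_assoc] using h

open Classical in
theorem cut_cl (g : ℕ → G) {f : ℚ × G → ZMod 3} (hf : T f ∈ S g) :
    T (fun z => if ∃ k : ℕ, z.1 = k then f z else 0) ∈ S g := by
  have h := conj_mem g (sg_mem g) hf
  have h2 := (S g).mul_mem ((S g).mul_mem h hf) hf
  rw [← T_add, ← T_add] at h2
  convert h2 using 2
  funext z
  simp only [sg, Pi.add_apply, Units.val_one, one_mul, add_zero]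
  split_ifs
  · simp
  · have h3 : (3 : ZMod 3) = 0 := rfl
    simp only [Units.val_one, one_mul]
    linear_combination (-f z) * h3

theorem rho_u (g : ℕ → G) (n : ℕ) : rho (g n) (T (u g)) ∈ S g := by
  classical
  have h := cut_cl g (dl_cl g (sh_cl g (pow_cl g (u_mem g) n)))
  convert h using 1
  refine B.ext ?_ rfl rfl rfl
  funext z
  show u g (z.1, (g n)⁻¹ * z.2) =
    if ∃ k : ℕ, z.1 = k then u g (2 ^ n * (2 * z.1 + 1), z.2) else 0
  by_cases hk : ∃ k : ℕ, z.1 = k
  · rw [if_pos hk]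
    obtain ⟨k, hk⟩ := hk
    unfold u
    refine if_congr ?_ rfl rfl
    constructor
    · rintro ⟨j, h1, h2⟩
      have hj : j = k := by
        have : (j : ℚ) = k := by rw [← hk]; exact h1.symm
        exact_mod_cast this
      subst hj
      refine ⟨2 ^ n * (2 * j + 1), ?_, ?_⟩
      · show (2 : ℚ) ^ n * (2 * z.1 + 1) = _
        rw [hk]; push_cast; ring
      · show z.2 = _
        rw [gam_step, ← h2]; simp
    · rintro ⟨j, h1, h2⟩
      have hj : j = 2 ^ n * (2 * k + 1) := by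
        have : (j : ℚ) = ((2 ^ n * (2 * k + 1) : ℕ) : ℚ) := by
          rw [← h1]
          show (2 : ℚ) ^ n * (2 * z.1 + 1) = _
          rw [hk]; push_cast; ring
        exact_mod_cast this
      subst hj
      refine ⟨k, hk, ?_⟩
      have h3 : z.2 = _ := h2
      show (g n)⁻¹ * z.2 = _
      rw [h3, gam_step]; simp
  · rw [if_neg hk]
    unfold u
    rw [if_neg]
    rintro ⟨j, h1, -⟩
    exact hk ⟨j, h1⟩

theorem rho_mem (g : ℕ → G) (hg : Function.Surjective g) (c : G) {p : B G} (hp : p ∈ S g) :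
    rho c p ∈ S g := by
  obtain ⟨n, rfl⟩ := hg c
  have h : S g ≤ (S g).comap (rho (g n)) := by
    refine (Subgroup.closure_le _).2 ?_
    intro q hq
    simp only [Set.mem_insert_iff, Set.mem_singleton_iff] at hq
    rcases hq with rfl | rfl | rfl | rfl
    · exact rho_u g n
    · exact sg_mem g
    · exact sh_mem g
    · exact dl_mem g
  exact h hp

/-- the action on the finitely generated subgroup -/
noncomputable def act (g : ℕ → G) (hg : Function.Surjective g) : G →* MulAut (S g) where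
  toFun c :=
    { toFun := fun s => ⟨rho c s.1, rho_mem g hg c s.2⟩
      invFun := fun s => ⟨rho c⁻¹ s.1, rho_mem g hg c⁻¹ s.2⟩
      left_inv := fun s => Subtype.ext (by
        show rho c⁻¹ (rho c s.1) = s.1
        rw [← rho_mul, inv_mul_cancel, rho_one])
      right_inv := fun s => Subtype.ext (by
        show rho c (rho c⁻¹ s.1) = s.1
        rw [← rho_mul, mul_inv_cancel, rho_one])
      map_mul' := fun s t => Subtype.ext (map_mul (rho c) s.1 t.1) }
  map_one' := MulEquiv.ext fun s => Subtype.ext (rho_one s.1)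
  map_mul' c d := MulEquiv.ext fun s => Subtype.ext (rho_mul c d s.1)

theorem act_inj (g : ℕ → G) (hg : Function.Surjective g) : Function.Injective (act g hg) := by
  rw [injective_iff_map_eq_one]
  intro c hc
  have h : rho c (T (u g)) = T (u g) :=
    congrArg Subtype.val (MulEquiv.congr_fun hc ⟨T (u g), u_mem g⟩)
  have h2 : u g (0, c⁻¹ * c) = u g (0, c) := congrArg (fun p => B.f p (0, c)) h
  unfold u at h2
  rw [if_pos ⟨0, by simp, by simp [gam_zero]⟩] at h2
  by_contra hne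
  rw [if_neg] at h2
  · exact absurd h2 (by decide)
  · rintro ⟨k, h3, h4⟩
    have hk : k = 0 := by
      have : (k : ℚ) = 0 := h3.symm
      exact_mod_cast this
    subst hk
    exact hne (by simpa [gam_zero] using h4)

theorem main (G : Type) [Group G] [Countable G] :
    ∃ (S : Type) (_ : Group S), Group.FG S ∧ derivedSeries S 4 = ⊥ ∧
      ∃ f : G →* MulAut S, Function.Injective f := by
  obtain ⟨g, hg⟩ := exists_surjective_nat G
  refine ⟨S g, inferInstance, ?_, ds_sub _, act g hg, act_inj g hg⟩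
  exact Group.closure_finite_fg _

end Pool.Agent.Lib.helper7.SolAut
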