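import Mathlib

set_option autoImplicit false

namespace Pool.Agent.Lib.helper7.SubLat

open FirstOrder

/-- The two binary operation symbols of lattices. -/
inductive LatFun : ℕ → Type
  | sup : LatFun 2
  | inf : LatFun 2

/-- The first-order language of lattices: join and meet, no relation symbols. -/
def latL : FirstOrder.Language.{0, 0} := ⟨LatFun, fun _ => Empty⟩

/-- A lattice as a structure for the language of lattices. -/
instance latS (L : Type) [Lattice L] : latL.Structure L where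
  funMap f x := match f, x with
    | .sup, x => x 0 ⊔ x 1
    | .inf, x => x 0 ⊓ x 1
  RelMap r _ := r.elim

/-- `L` embeds as a lattice in the subspace lattice of a vector space over a division ring. -/
def InDiv (L : Type) [Lattice L] : Prop :=
  ∃ (D : Type) (_ : DivisionRing D) (V : Type) (_ : AddCommGroup V) (_ : Module D V)
    (f : LatticeHom L (Submodule D V)), Function.Injective f

/-- `L` embeds as a lattice in the subspace lattice of a vector space over a field. -/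
def InFld (L : Type) [Lattice L] : Prop :=
  ∃ (F : Type) (_ : Field F) (V : Type) (_ : AddCommGroup V) (_ : Module F V)
    (f : LatticeHom L (Submodule F V)), Function.Injective f

theorem InFld.inDiv {L : Type} [Lattice L] (h : InFld L) : InDiv L := by
  obtain ⟨F, _, V, _, _, f, hf⟩ := h
  exact ⟨F, inferInstance, V, inferInstance, inferInstance, f, hf⟩

section Char
variable {R : Type} [CommRing R] (I : Ideal R)

def ln (w : Fin 3 → R) : Submodule R (Fin 3 → R) :=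
  Submodule.map (LinearMap.toSpanSingleton R _ w) I

theorem mem_ln {w v : Fin 3 → R} : v ∈ ln I w ↔ ∃ t ∈ I, t • w = v := Submodule.mem_map

theorem mem_ln2 {w w' v : Fin 3 → R} :
    v ∈ ln I w ⊔ ln I w' ↔ ∃ t ∈ I, ∃ s ∈ I, t • w + s • w' = v := by
  rw [Submodule.mem_sup]
  constructor
  · rintro ⟨_, ⟨t, ht, rfl⟩, _, ⟨s, hs, rfl⟩, h⟩
    exact ⟨t, ht, s, hs, h⟩
  · rintro ⟨t, ht, s, hs, h⟩
    exact ⟨_, ⟨t, ht, rfl⟩, _, ⟨s, hs, rfl⟩, h⟩

theorem meet_le {a1 a2 a3 b1 b2 b3 c1 c2 c3 d1 d2 d3 e1 e2 e3 : R}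
    (h : ∀ t s t' s' : R, t * a1 + s * b1 = t' * c1 + s' * d1 →
      t * a2 + s * b2 = t' * c2 + s' * d2 → t * a3 + s * b3 = t' * c3 + s' * d3 →
      t * e1 = t * a1 + s * b1 ∧ t * e2 = t * a2 + s * b2 ∧ t * e3 = t * a3 + s * b3) :
    (ln I ![a1, a2, a3] ⊔ ln I ![b1, b2, b3]) ⊓ (ln I ![c1, c2, c3] ⊔ ln I ![d1, d2, d3]) ≤
      ln I ![e1, e2, e3] := by
  rintro v ⟨h1, h2⟩
  obtain ⟨t, ht, s, -, rfl⟩ := (mem_ln2 I).1 h1
  obtain ⟨t', -, s', -, e⟩ := (mem_ln2 I).1 h2
  obtain ⟨k1, k2, k3⟩ := h t s t' s' (congrFun e 0).symm (congrFun e 1).symm (congrFun e 2).symm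
  refine ⟨t, ht, ?_⟩
  ext i
  fin_cases i
  · exact k1
  · exact k2
  · exact k3

theorem meet_bot {a1 a2 a3 b1 b2 b3 : R}
    (h : ∀ t s : R, t * a1 = s * b1 → t * a2 = s * b2 → t * a3 = s * b3 → t = 0) :
    ln I ![a1, a2, a3] ⊓ ln I ![b1, b2, b3] ≤ ⊥ := by
  rintro v ⟨⟨t, -, rfl⟩, ⟨s, -, e⟩⟩
  rw [h t s (congrFun e 0).symm (congrFun e 1).symm (congrFun e 2).symm]
  simp

theorem char_eq {D : Type*} [DivisionRing D] {V : Type*} [AddCommGroup V] [Module D V]
    (f : LatticeHom (Submodule R (Fin 3 → R)) (Submodule D V)) (hf : Function.Injective f)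
    (hI : I ≠ ⊥) (k : ℕ) (hk : ∀ t ∈ I, (k : R) * t = 0) : (k : D) = 0 := by
  have mono : Monotone f := OrderHomClass.mono f
  have h1 : ¬ f (ln I ![1, 0, 0]) ≤ f ⊥ := by
    intro h
    rw [← inf_eq_left, ← map_inf] at h
    have h2 := inf_eq_left.1 (hf h)
    apply hI
    rw [eq_bot_iff]
    intro t ht
    simpa using congrFun ((Submodule.mem_bot R).1 (h2 ⟨t, ht, rfl⟩)) 0
  obtain ⟨x, hx, hx0⟩ := SetLike.not_le_iff_exists.1 h1
  have e2 : x ∈ f (ln I ![0, 1, 0] ⊔ ln I ![1, -1, 0]) := by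
    refine mono ?_ hx
    rintro _ ⟨t, ht, rfl⟩
    refine (mem_ln2 I).2 ⟨t, ht, t, ht, ?_⟩
    ext i; fin_cases i <;> simp
  have e3 : x ∈ f (ln I ![0, 0, 1] ⊔ ln I ![1, 0, -1]) := by
    refine mono ?_ hx
    rintro _ ⟨t, ht, rfl⟩
    refine (mem_ln2 I).2 ⟨t, ht, t, ht, ?_⟩
    ext i; fin_cases i <;> simp
  rw [map_sup] at e2 e3
  obtain ⟨y, hy, p, hp, e2⟩ := Submodule.mem_sup.1 e2
  obtain ⟨z, hz, q, hq, e3⟩ := Submodule.mem_sup.1 e3
  obtain rfl : p = x - y := by rw [← e2]; abel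
  obtain rfl : q = x - z := by rw [← e3]; abel
  have key : ∀ {a b c d e : Submodule R (Fin 3 → R)} {v v1 v2 v3 v4 : V},
      (a ⊔ b) ⊓ (c ⊔ d) ≤ e → v1 ∈ f a → v2 ∈ f b → v3 ∈ f c → v4 ∈ f d → v = v1 + v2 →
      v = v3 + v4 → v ∈ f e := by
    intro a b c d e v v1 v2 v3 v4 h h1 h2 h3 h4 e1 e2
    apply mono h
    rw [map_inf, map_sup, map_sup]
    exact ⟨e1 ▸ Submodule.add_mem_sup h1 h2, e2 ▸ Submodule.add_mem_sup h3 h4⟩
  have hu : x - y - z ∈ f (ln I ![1, -1, -1]) :=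
    key (meet_le I fun t s t' s' k1 k2 k3 => ⟨by ring, by ring, by linear_combination -k1 - k3⟩)
      hp (Submodule.neg_mem _ hz) hq (Submodule.neg_mem _ hy) (by abel) (by abel)
  have hh : ∀ n : ℕ, x - (n : D) • y ∈ f (ln I ![1, -n, 0]) := by
    intro n
    induction n with
    | zero => simpa using hx
    | succ n ih =>
      have ht : z - (n : D) • y ∈ f (ln I ![0, -n, 1]) :=
        key (meet_le I fun t s t' s' k1 k2 k3 =>
            ⟨by linear_combination -k1, by ring, by linear_combination k1⟩)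
          ih (Submodule.neg_mem _ hq) (Submodule.neg_mem _ (Submodule.smul_mem _ (n : D) hy)) hz
          (by abel) (by abel)
      refine key (meet_le I fun t s t' s' k1 k2 k3 =>
            ⟨by ring, by push_cast; linear_combination (n : R) * k3, by linear_combination -k3⟩)
          hu ht hx (Submodule.neg_mem _ (Submodule.smul_mem _ ((n + 1 : ℕ) : D) hy)) ?_ (by abel)
      push_cast
      rw [add_smul, one_smul]
      abel
  by_contra hkD
  apply hx0
  have h2 : x - (k : D) • y ∈ f (ln I ![1, 0, 0]) := by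
    refine mono ?_ (hh k)
    rintro _ ⟨t, ht, rfl⟩
    refine ⟨t, ht, ?_⟩
    ext i; fin_cases i <;> simp [mul_comm t, hk t ht]
  have h3 : y ∈ f (ln I ![1, 0, 0]) := by
    have := Submodule.smul_mem _ (k : D)⁻¹ (Submodule.sub_mem _ hx h2)
    rwa [sub_sub_cancel, smul_smul, inv_mul_cancel₀ hkD, one_smul] at this
  have h4 : y ∈ f ⊥ := by
    refine mono (meet_bot I (a1 := 1) (a2 := 0) (a3 := 0) (b1 := 0) (b2 := 1) (b3 := 0)
      fun t s k1 _ _ => by simpa using k1) ?_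
    rw [map_inf]; exact ⟨h3, hy⟩
  refine mono (meet_bot I (a1 := 1) (a2 := 0) (a3 := 0) (b1 := 1) (b2 := -1) (b3 := 0)
    fun t s k1 k2 _ => by linear_combination k1 + k2) ?_
  rw [map_inf]
  exact ⟨hx, e2 ▸ Submodule.add_mem _ (mono bot_le h4) hp⟩

end Char

def mm (n : ℕ) : ℕ := (n.factorial + 1) * (2 * n.factorial + 1)

abbrev LL (n : ℕ) : Type := Submodule (ZMod (mm n)) (Fin 3 → ZMod (mm n))

theorem LL_not (n : ℕ) : ¬ InDiv (LL n) := by
  rintro ⟨D, _, V, _, _, f, hf⟩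
  have hp := n.factorial_pos
  have aux : ∀ a b : ℕ, a * b = mm n → 1 < a → 0 < b → (a : D) = 0 := by
    intro a b hab ha hb
    refine char_eq (Ideal.span {(b : ZMod (mm n))}) f hf ?_ a ?_
    · rw [Ne, Ideal.span_singleton_eq_bot, ZMod.natCast_eq_zero_iff]
      exact Nat.not_dvd_of_pos_of_lt hb (by rw [← hab]; nlinarith)
    · intro t ht
      obtain ⟨s, rfl⟩ := Ideal.mem_span_singleton'.1 ht
      rw [mul_left_comm, ← Nat.cast_mul, hab, ZMod.natCast_self, mul_zero]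
  have h1 := aux (n.factorial + 1) (2 * n.factorial + 1) rfl (by omega) (by omega)
  have h2 := aux (2 * n.factorial + 1) (n.factorial + 1) (mul_comm _ _) (by omega) (by omega)
  have h3 : ((2 * (n.factorial + 1) : ℕ) : D) = ((2 * n.factorial + 1 : ℕ) : D) + 1 := by
    rw [← Nat.cast_succ]; congr 1
  rw [Nat.cast_mul, h1, h2, mul_zero, zero_add] at h3
  exact zero_ne_one h3

theorem mm_coprime (k n : ℕ) (hk : 0 < k) (h : k ≤ n) : Nat.Coprime k (mm n) := by
  obtain ⟨c, hc⟩ := Nat.dvd_factorial hk h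
  unfold mm
  rw [hc]
  refine Nat.Coprime.mul_right ?_ ?_
  · simp
  · rw [mul_left_comm]; simp

open Filter

section Ultra
variable (U : Ultrafilter ℕ)

def nul : Ideal (∀ n, ZMod (mm n)) where
  carrier := {x | ∀ᶠ n in U, x n = 0}
  add_mem' := fun ha hb => (ha.and hb).mono fun n h => by simp [h.1, h.2]
  zero_mem' := Eventually.of_forall fun _ => rfl
  smul_mem' := fun c x hx => hx.mono fun n h => by simp [h]

abbrev RR : Type := (∀ n, ZMod (mm n)) ⧸ nul U

def pr (w : ∀ n, Fin 3 → ZMod (mm n)) : Fin 3 → RR U := fun i => Ideal.Quotient.mk _ fun n => w n i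

theorem pr_eq (w w' : ∀ n, Fin 3 → ZMod (mm n)) : pr U w = pr U w' ↔ ∀ᶠ n in U, w n = w' n := by
  simp only [funext_iff, pr, Ideal.Quotient.eq, eventually_all]
  exact forall_congr' fun i => ⟨fun h => h.mono fun n h => sub_eq_zero.1 h,
    fun h => h.mono fun n h => sub_eq_zero.2 h⟩

def Ps (S : ∀ n, LL n) : Submodule (RR U) (Fin 3 → RR U) where
  carrier := {v | ∃ w, (∀ᶠ n in U, w n ∈ S n) ∧ pr U w = v}
  add_mem' := by
    rintro _ _ ⟨w, hw, rfl⟩ ⟨w', hw', rfl⟩
    exact ⟨w + w', (hw.and hw').mono fun n h => (S n).add_mem h.1 h.2, rfl⟩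
  zero_mem' := ⟨0, Eventually.of_forall fun n => (S n).zero_mem, rfl⟩
  smul_mem' := by
    rintro c _ ⟨w, hw, rfl⟩
    obtain ⟨c, rfl⟩ := Ideal.Quotient.mk_surjective c
    exact ⟨fun n => c n • w n, hw.mono fun n h => (S n).smul_mem _ h, rfl⟩

theorem Ps_le (S T : ∀ n, LL n) : Ps U S ≤ Ps U T ↔ ∀ᶠ n in U, S n ≤ T n := by
  constructor
  · intro h
    by_contra hn
    rw [← Ultrafilter.eventually_not] at hn
    have : ∀ n, ∃ w : Fin 3 → ZMod (mm n), ¬ S n ≤ T n → w ∈ S n ∧ w ∉ T n := by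
      intro n
      by_cases h : S n ≤ T n
      · exact ⟨0, fun h' => absurd h h'⟩
      · obtain ⟨w, hw⟩ := SetLike.not_le_iff_exists.1 h
        exact ⟨w, fun _ => hw⟩
    choose w hw using this
    obtain ⟨w', h1, h2⟩ := h ⟨w, hn.mono fun n h => (hw n h).1, rfl⟩
    obtain ⟨n, ⟨h3, h4⟩, h5⟩ := ((hn.and h1).and ((pr_eq U _ _).1 h2)).exists
    exact (hw n h3).2 (h5 ▸ h4)
  · rintro h _ ⟨w, hw, rfl⟩
    exact ⟨w, (h.and hw).mono fun n h => h.1 h.2, rfl⟩

theorem Ps_eq (S T : ∀ n, LL n) : Ps U S = Ps U T ↔ ∀ᶠ n in U, S n = T n := by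
  simp only [le_antisymm_iff, Ps_le, eventually_and]

theorem Ps_inf (S T : ∀ n, LL n) : Ps U (fun n => S n ⊓ T n) = Ps U S ⊓ Ps U T := by
  refine le_antisymm (le_inf ((Ps_le U _ _).2 (Eventually.of_forall fun n => inf_le_left))
    ((Ps_le U _ _).2 (Eventually.of_forall fun n => inf_le_right))) ?_
  rintro _ ⟨⟨w, hw, rfl⟩, w', h1, h2⟩
  exact ⟨w, ((hw.and h1).and ((pr_eq U _ _).1 h2)).mono fun n h => ⟨h.1.1, h.2 ▸ h.1.2⟩, rfl⟩

theorem Ps_sup (S T : ∀ n, LL n) : Ps U (fun n => S n ⊔ T n) = Ps U S ⊔ Ps U T := by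
  refine le_antisymm ?_ (sup_le ((Ps_le U _ _).2 (Eventually.of_forall fun n => le_sup_left))
    ((Ps_le U _ _).2 (Eventually.of_forall fun n => le_sup_right)))
  rintro _ ⟨w, hw, rfl⟩
  have : ∀ n, ∃ a b : Fin 3 → ZMod (mm n), a ∈ S n ∧ b ∈ T n ∧ (w n ∈ S n ⊔ T n → w n = a + b) := by
    intro n
    by_cases h : w n ∈ S n ⊔ T n
    · obtain ⟨a, ha, b, hb, e⟩ := Submodule.mem_sup.1 h
      exact ⟨a, b, ha, hb, fun _ => e.symm⟩
    · exact ⟨0, 0, (S n).zero_mem, (T n).zero_mem, fun h' => absurd h' h⟩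
  choose a b ha hb hab using this
  have e : pr U w = pr U a + pr U b := (pr_eq U w (a + b)).2 (hw.mono fun n h => hab n h)
  rw [e]
  exact Submodule.add_mem_sup ⟨a, Eventually.of_forall ha, rfl⟩ ⟨b, Eventually.of_forall hb, rfl⟩

theorem RR_unit (hU : (U : Filter ℕ) ≤ atTop) (y : nonZeroDivisors ℤ) :
    IsUnit (Int.castRingHom (RR U) y) := by
  have h : IsUnit ((y.1.natAbs : ℕ) : RR U) := by
    have h0 : 0 < y.1.natAbs := Int.natAbs_pos.2 (nonZeroDivisors.coe_ne_zero y)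
    refine IsUnit.of_mul_eq_one (Ideal.Quotient.mk _ fun n => ((y.1.natAbs : ℕ) : ZMod (mm n))⁻¹) ?_
    rw [← map_natCast (Ideal.Quotient.mk (nul U)), ← map_mul, ← map_one (Ideal.Quotient.mk (nul U)),
      Ideal.Quotient.eq]
    refine hU ((eventually_ge_atTop y.1.natAbs).mono fun n hn => ?_)
    exact sub_eq_zero.2 (ZMod.coe_mul_inv_eq_one _ (mm_coprime _ _ h0 hn))
  rcases Int.natAbs_eq y.1 with e | e
  · rw [e]; simpa using h
  · rw [e, map_neg, map_natCast]; exact h.neg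

end Ultra

theorem not_finite (K : ∀ (L : Type) [Lattice L], Prop)
    (h1 : ∀ (L : Type) [Lattice L], K L → InDiv L) (h2 : ∀ (L : Type) [Lattice L], InFld L → K L) :
    ¬ ∃ T : Set latL.Sentence, T.Finite ∧ ∀ (L : Type) [Lattice L], K L ↔ ∀ φ ∈ T, L ⊨ φ := by
  rintro ⟨T, hT, h⟩
  let U : Ultrafilter ℕ := Ultrafilter.of atTop
  have hU : (U : Filter ℕ) ≤ atTop := Ultrafilter.of_le _
  letI : Algebra ℚ (RR U) := (IsLocalization.lift (S := ℚ) (RR_unit U hU)).toAlgebra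
  let j : (U : Filter ℕ).Product LL → Submodule (RR U) (Fin 3 → RR U) :=
    Quotient.lift (Ps U) fun S T h => (Ps_eq U S T).2 h
  let L : Sublattice (Submodule (RR U) (Fin 3 → RR U)) :=
    { carrier := Set.range (Ps U)
      supClosed' := by
        rintro _ ⟨S, rfl⟩ _ ⟨T, rfl⟩
        exact ⟨_, Ps_sup U S T⟩
      infClosed' := by
        rintro _ ⟨S, rfl⟩ _ ⟨T, rfl⟩
        exact ⟨_, Ps_inf U S T⟩ }
  have hL : InFld L := by
    refine ⟨ℚ, inferInstance, Fin 3 → RR U, inferInstance, inferInstance,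
      ⟨⟨fun x => x.1.restrictScalars ℚ, fun x y => ?_⟩, fun x y => rfl⟩, fun x y h => ?_⟩
    · ext v
      simp [Submodule.mem_sup]
    · exact Subtype.ext (Submodule.restrictScalars_injective ℚ _ _ h)
  let j' : (U : Filter ℕ).Product LL → L := fun x => ⟨j x, by
    obtain ⟨S⟩ := x
    exact ⟨S, rfl⟩⟩
  have hj : Function.Bijective j' := by
    constructor
    · rintro ⟨S⟩ ⟨T⟩ h
      exact Quotient.sound ((Ps_eq U S T).1 (congrArg Subtype.val h))
    · rintro ⟨_, S, rfl⟩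
      exact ⟨(S : (U : Filter ℕ).Product LL), rfl⟩
  let e : FirstOrder.Language.Equiv latL ((U : Filter ℕ).Product LL) L :=
    { toEquiv := Equiv.ofBijective j' hj
      map_fun' := fun {n} f x => by
        have : ∀ i, ∃ S : ∀ n, LL n, x i = (S : (U : Filter ℕ).Product LL) := fun i => by
          obtain ⟨S, hS⟩ := Quotient.exists_rep (x i)
          exact ⟨S, hS.symm⟩
        choose S hS using this
        obtain rfl : x = fun i => (S i : (U : Filter ℕ).Product LL) := funext hS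
        refine (congrArg j' (FirstOrder.Language.Ultraproduct.funMap_cast f S)).trans ?_
        apply Subtype.ext
        cases f
        · exact Ps_sup U (S 0) (S 1)
        · exact Ps_inf U (S 0) (S 1)
      map_rel' := fun r => r.elim }
  have h3 : ∀ φ ∈ T, ∀ᶠ n in U, LL n ⊨ φ := fun φ hφ =>
    (FirstOrder.Language.Ultraproduct.sentence_realize φ).1
      ((FirstOrder.Language.StrongHomClass.realize_sentence e φ).2 ((h L).1 (h2 L hL) φ hφ))
  obtain ⟨n, hn⟩ := ((eventually_all_finite hT).2 h3).exists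
  exact LL_not n (h1 _ ((h _).2 hn))

theorem realize_prod {L M : Type} [Lattice L] [Lattice M] (v : ℕ → L × M) (t : latL.Term ℕ) :
    t.realize v = (t.realize fun i => (v i).1, t.realize fun i => (v i).2) := by
  induction t with
  | var => rfl
  | func f ts ih =>
    simp only [FirstOrder.Language.Term.realize, ih]
    cases f <;> rfl

theorem prod_not : ¬ InDiv (Submodule (ZMod 2) (Fin 3 → ZMod 2) ×
    Submodule (ZMod 3) (Fin 3 → ZMod 3)) := by
  rintro ⟨D, _, V, _, _, f, hf⟩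
  have h1 := char_eq (R := ZMod 2) ⊤ (f.comp ⟨⟨fun x => (x, ⊥), fun x y => by simp⟩,
    fun x y => by simp⟩) (hf.comp fun x y h => congrArg Prod.fst h) top_ne_bot 2
    (fun t _ => by rw [ZMod.natCast_self, zero_mul])
  have h2 := char_eq (R := ZMod 3) ⊤ (f.comp ⟨⟨fun x => (⊥, x), fun x y => by simp⟩,
    fun x y => by simp⟩) (hf.comp fun x y h => congrArg Prod.snd h) top_ne_bot 3
    (fun t _ => by rw [ZMod.natCast_self, zero_mul])
  rw [show (3 : ℕ) = 2 + 1 from rfl, Nat.cast_succ, h1, zero_add] at h2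
  exact one_ne_zero h2

end Pool.Agent.Lib.helper7.SubLat
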