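import Mathlib

set_option autoImplicit false

namespace Pool.Agent.Lib.helper7.TPA

universe u v

/-- A transposed Poisson algebra structure on the `F`-vector space `A`. -/
structure TP (F : Type u) [Field F] (A : Type v) [AddCommGroup A] [Module F A] where
  mul : A →ₗ[F] A →ₗ[F] A
  br : A →ₗ[F] A →ₗ[F] A
  mul_comm : ∀ x y, mul x y = mul y x
  mul_assoc : ∀ x y z, mul (mul x y) z = mul x (mul y z)
  br_self : ∀ x, br x x = 0
  jacobi : ∀ x y z, br x (br y z) + br y (br z x) + br z (br x y) = 0
  compat : ∀ x y z, (2 : F) • mul z (br x y) = br (mul z x) y + br x (mul z y)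

section defs

variable {F : Type u} [Field F] {A : Type v} [AddCommGroup A] [Module F A]

/-- A linear map preserving both products. -/
def IsHom {B : Type u} [AddCommGroup B] [Module F B] (P : TP F A) (Q : TP F B)
    (h : A →ₗ[F] B) : Prop :=
  (∀ a b, h (P.mul a b) = Q.mul (h a) (h b)) ∧ ∀ a b, h (P.br a b) = Q.br (h a) (h b)

/-- `(A, P)` is the free transposed Poisson algebra on `x 0, …, x (n-1)`. -/
def IsFree {n : ℕ} (P : TP F A) (x : Fin n → A) : Prop :=
  ∀ (B : Type u) [AddCommGroup B] [Module F B] (Q : TP F B) (b : Fin n → B),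
    ∃! h : A →ₗ[F] B, IsHom P Q h ∧ ∀ i, h (x i) = b i

/-- The subalgebra generated by `S` (closed under both products). -/
def subalg (P : TP F A) (S : Set A) : Submodule F A :=
  sInf {U | S ⊆ U ∧ ∀ a ∈ U, ∀ b ∈ U, P.mul a b ∈ U ∧ P.br a b ∈ U}

/-- The ideal generated by `f`. -/
def idl (P : TP F A) (f : A) : Submodule F A :=
  sInf {U | f ∈ U ∧ ∀ a, ∀ w ∈ U, P.mul a w ∈ U ∧ P.br a w ∈ U}

end defs

section jets

variable {A : Type*} [AddCommGroup A] {R : Type*} [CommRing R]

/-- Standard alternating sums. -/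
def s2 (br : A → A → A) (c d y : A) : A := br c (br d y) - br d (br c y)

def s3 (br : A → A → A) (b c d y : A) : A :=
  br b (s2 br c d y) - br c (s2 br b d y) + br d (s2 br b c y)

def s4 (br : A → A → A) (a b c d y : A) : A :=
  br a (s3 br b c d y) - br b (s3 br a c d y) + br c (s3 br a b d y) - br d (s3 br a b c y)

theorem jet (br : A →+ A →+ A) (ι : A →+ R) (D : A →+ A) (E : R)
    (h1 : ∀ x y, E * ι (br x y) = ι x * ι (D y) - ι (D x) * ι y)
    (h2 : ∀ x y, D (br x y) = br (D x) y + br x (D y)) (a b c d y : A) :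
    E ^ 4 * ι (s4 (fun p q => br p q) a b c d y) = 0 := by
  have k1 : ∀ x y, E * ι (D (br x y)) = ι x * ι (D (D y)) - ι (D (D x)) * ι y := by
    intro x y
    rw [h2, map_add, mul_add, h1, h1]; ring
  have k2 : ∀ x y, E * ι (D (D (br x y))) = ι x * ι (D (D (D y))) + ι (D x) * ι (D (D y))
      - ι (D (D x)) * ι (D y) - ι (D (D (D x))) * ι y := by
    intro x y
    rw [h2, map_add, map_add, mul_add, k1, k1]; ring
  have k3 : ∀ x y, E * ι (D (D (D (br x y)))) = ι x * ι (D (D (D (D y))))
      + 2 * ι (D x) * ι (D (D (D y))) - 2 * ι (D (D (D x))) * ι (D y)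
      - ι (D (D (D (D x)))) * ι y := by
    intro x y
    rw [h2, map_add, map_add, map_add, mul_add, k2, k2]; ring
  have nest : ∀ a b c d y : A, E ^ 4 * ι (br a (br b (br c (br d y)))) =
      (ι a * ι b * ι c) * (ι d * ι (D (D (D (D y))))
        + 2 * ι (D d) * ι (D (D (D y))) - 2 * ι (D (D (D d))) * ι (D y)
        - ι (D (D (D (D d)))) * ι y)
      + (ι a * ι b * ι (D c) - ι (D a) * ι b * ι c) * (ι d * ι (D (D (D y)))
        + ι (D d) * ι (D (D y)) - ι (D (D d)) * ι (D y) - ι (D (D (D d))) * ι y)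
      + (- ι a * ι b * ι (D (D c)) - ι a * ι (D (D b)) * ι c + ι (D a) * ι (D b) * ι c) *
        (ι d * ι (D (D y)) - ι (D (D d)) * ι y)
      + (- ι a * ι b * ι (D (D (D c))) + ι a * ι (D (D b)) * ι (D c)
        + ι (D a) * ι b * ι (D (D c)) - ι (D a) * ι (D b) * ι (D c)) *
        (ι d * ι (D y) - ι (D d) * ι y) := by
    intro a b c d y
    have e1 := h1 a (br b (br c (br d y)))
    have e2 := h1 b (br c (br d y))
    have e3 := k1 b (br c (br d y))
    have e4 := h1 c (br d y)
    have e5 := k1 c (br d y)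
    have e6 := k2 c (br d y)
    rw [← h1 d y, ← k1 d y, ← k2 d y, ← k3 d y]
    linear_combination E ^ 3 * e1 + E ^ 2 * ι a * e3 - E ^ 2 * ι (D a) * e2
      + E * (ι a * ι b) * e6 - E * (ι (D a) * ι b) * e5
      + E * (ι (D a) * ι (D b) - ι a * ι (D (D b))) * e4
  simp only [s4, s3, s2, map_add, map_sub, mul_add, mul_sub, nest]
  ring

end jets

section calc1

variable {F : Type u} [Field F] [CharZero F] {A : Type v} [AddCommGroup A] [Module F A]
  (P : TP F A)

omit [CharZero F] in
theorem br_anti (x y : A) : P.br x y = - P.br y x := by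
  have h := P.br_self (x + y)
  simp only [map_add, LinearMap.add_apply, P.br_self] at h
  rw [eq_neg_iff_add_eq_zero]
  linear_combination (norm := abel) h

theorem two_inj {w : A} (h : (2 : F) • w = 0) : w = 0 := by
  rcases smul_eq_zero.mp h with h | h
  · exact absurd h two_ne_zero
  · exact h

theorem cyc (x y z : A) : P.mul x (P.br y z) + P.mul y (P.br z x) + P.mul z (P.br x y) = 0 := by
  apply two_inj (F := F)
  rw [smul_add, smul_add, P.compat, P.compat, P.compat, br_anti P y (P.mul x z),
    br_anti P z (P.mul y x), br_anti P x (P.mul z y), P.mul_comm x y, P.mul_comm y z,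
    P.mul_comm z x]
  abel

omit [CharZero F] in
theorem der (e x y : A) : P.br e (P.br x y) = P.br (P.br e x) y + P.br x (P.br e y) := by
  have h := P.jacobi e x y
  rw [br_anti P y e, br_anti P y (P.br e x), map_neg] at h
  linear_combination (norm := abel) h

/-- The commutative ring structure. -/
@[reducible] def nuRing : NonUnitalCommRing A :=
  { (inferInstance : AddCommGroup A) with
    mul := fun a b => P.mul a b
    left_distrib := fun a b c => map_add (P.mul a) b c
    right_distrib := fun a b c => by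
      change P.mul (a + b) c = P.mul a c + P.mul b c
      rw [map_add, LinearMap.add_apply]
    zero_mul := fun a => by
      change P.mul 0 a = 0
      rw [map_zero, LinearMap.zero_apply]
    mul_zero := fun a => map_zero (P.mul a)
    mul_assoc := P.mul_assoc
    mul_comm := P.mul_comm }

theorem e4 (e a b c d y : A) :
    P.mul e (P.mul e (P.mul e (P.mul e (s4 (fun p q => P.br p q) a b c d y)))) = 0 := by
  letI := nuRing P
  let ι : A →+ Unitization ℤ A := (Unitization.inrHom ℤ ℤ A).toAddMonoidHom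
  have hι : ∀ p q : A, ι (P.mul p q) = ι p * ι q := fun p q => Unitization.inr_mul ℤ p q
  let br : A →+ A →+ A :=
    { toFun := fun p => (P.br p).toAddMonoidHom
      map_zero' := by ext; simp
      map_add' := by intro p q; ext; simp }
  have h := jet br ι (P.br e).toAddMonoidHom (ι e) (by
    intro x y
    change ι e * ι (P.br x y) = ι x * ι (P.br e y) - ι (P.br e x) * ι y
    rw [← hι, ← hι, ← hι, ← map_sub]
    congr 1
    have h := cyc P e x y
    rw [br_anti P y e, map_neg, P.mul_comm y] at h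
    linear_combination (norm := abel) h) (fun x y => der P e x y) a b c d y
  have h' : ι (P.mul e (P.mul e (P.mul e (P.mul e (s4 (fun p q => P.br p q) a b c d y))))) = 0 := by
    rw [hι, hι, hι, hι]
    change ι e ^ 4 * ι (s4 (fun p q => P.br p q) a b c d y) = 0 at h
    linear_combination h
  have hinj : Function.Injective ι := Unitization.inr_injective
  exact hinj (by rw [h', map_zero])

/-- `φ = 1 - L_e`. -/
def ph (e : A) : Module.End F A := 1 - P.mul e

omit [CharZero F] in
theorem ph_apply (e w : A) : ph P e w = w - P.mul e w := rfl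

omit [CharZero F] in
theorem ph_half (e x y : A) :
    (2 : F) • ph P e (P.br x y) = P.br (ph P e x) y + P.br x (ph P e y) := by
  simp only [ph_apply, smul_sub, P.compat, map_sub, LinearMap.sub_apply, two_smul]
  abel

omit [CharZero F] in
theorem ee (e x y : A) : P.br (P.mul e (P.mul e x)) y + P.br x (P.mul e (P.mul e y)) =
    (2 : F) • P.br (P.mul e x) (P.mul e y) := by
  have h1 := P.compat x y (P.mul e e)
  have h2 := P.compat x y e
  have h3 := P.compat (P.mul e x) y e
  have h4 := P.compat x (P.mul e y) e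
  have h5 := congrArg (P.mul e) h2
  rw [P.mul_assoc, P.mul_assoc, P.mul_assoc] at h1
  rw [map_smul, map_add] at h5
  linear_combination (norm := module) - (2 : F) • h1 + (2 : F) • h5 + h3 + h4

omit [CharZero F] in
theorem phph (e x y : A) : P.br (ph P e (ph P e x)) y + P.br x (ph P e (ph P e y)) =
    (2 : F) • P.br (ph P e x) (ph P e y) := by
  have h := ee P e x y
  simp only [ph_apply, map_sub, LinearMap.sub_apply]
  linear_combination (norm := module) h

theorem ph_pow (e : A) (m : ℕ) (x w : A) :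
    (2 : F) • (ph P e ^ (m + 1)) (P.br x w) = ((m : F) + 1) • P.br (ph P e x) ((ph P e ^ m) w)
      + (1 - (m : F)) • P.br x ((ph P e ^ (m + 1)) w) := by
  induction m with
  | zero => simpa using ph_half P e x w
  | succ m ih =>
    have h1 := congrArg (ph P e) ih
    rw [map_smul, map_add, map_smul, map_smul] at h1
    have h2 := ph_half P e (ph P e x) ((ph P e ^ m) w)
    have h3 := ph_half P e x ((ph P e ^ (m + 1)) w)
    have h4 := phph P e x ((ph P e ^ m) w)
    have q1 : ∀ (k : ℕ) (z : A), (ph P e ^ (k + 1)) z = ph P e ((ph P e ^ k) z) := by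
      intro k z; rw [pow_succ']; rfl
    rw [q1 (m + 1), q1 (m + 1)]
    rw [q1 m w] at h1 h3 ⊢
    rw [← sub_eq_zero]
    apply two_inj (F := F)
    push_cast
    linear_combination (norm := module) (2 : F) • h1 + ((m : F) + 1) • h2 + (1 - (m : F)) • h3
      + ((m : F) + 1) • h4

theorem ph_mem (U : Submodule F A) (hU : ∀ a, ∀ w ∈ U, P.mul a w ∈ U ∧ P.br a w ∈ U) (e : A)
    (m : ℕ) (x w : A) (hw : (ph P e ^ m) w ∈ U) : (ph P e ^ (m + 1)) (P.br x w) ∈ U := by
  have h := ph_pow P e m x w
  have h1 : (ph P e ^ (m + 1)) w ∈ U := by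
    rw [pow_succ']
    exact U.sub_mem hw (hU e _ hw).1
  have h2 : (2 : F) • (ph P e ^ (m + 1)) (P.br x w) ∈ U := by
    rw [h]
    exact U.add_mem (U.smul_mem _ (hU _ _ hw).2) (U.smul_mem _ (hU _ _ h1).2)
  exact (U.smul_mem_iff two_ne_zero).mp h2

omit [CharZero F] in
theorem coprime_mem (U : Submodule F A) (hU : ∀ a, ∀ w ∈ U, P.mul a w ∈ U ∧ P.br a w ∈ U)
    (e : A) (m : ℕ) : ∀ w : A, P.mul e (P.mul e (P.mul e (P.mul e w))) = 0 →
      (ph P e ^ m) w ∈ U → w ∈ U := by
  induction m with
  | zero => intro w _ h; simpa using h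
  | succ m ih =>
    intro w h0 h
    rw [pow_succ] at h
    have h1 : ph P e w ∈ U := ih _ (by
      simp only [ph_apply, map_sub, h0, map_zero, sub_zero]) h
    have h2 := (hU e _ h1).1
    have h3 := (hU e _ h2).1
    have h4 := (hU e _ h3).1
    have h5 := U.add_mem (U.add_mem (U.add_mem h1 h2) h3) h4
    simp only [ph_apply, map_sub, h0] at h5
    convert h5 using 1
    abel

theorem s4_mem (U : Submodule F A) (hU : ∀ a, ∀ w ∈ U, P.mul a w ∈ U ∧ P.br a w ∈ U)
    (e y : A) (hy : y - P.mul e y ∈ U) (a b c d : A) :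
    s4 (fun p q => P.br p q) a b c d y ∈ U := by
  apply coprime_mem P U hU e 5 _ (e4 P e a b c d y)
  have h1 : (ph P e ^ 1) y ∈ U := by simpa [ph_apply] using hy
  have h : ∀ a b c d, (ph P e ^ 5) (P.br a (P.br b (P.br c (P.br d y)))) ∈ U := fun a b c d =>
    ph_mem P U hU e 4 _ _ (ph_mem P U hU e 3 _ _ (ph_mem P U hU e 2 _ _
      (ph_mem P U hU e 1 _ _ h1)))
  have h2 : ∀ a b c d, (ph P e ^ 5) (P.br a (P.br b (s2 (fun p q => P.br p q) c d y))) ∈ U := by
    intro a b c d
    simp only [s2, map_sub]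
    exact U.sub_mem (h _ _ _ _) (h _ _ _ _)
  have h3 : ∀ a b c d, (ph P e ^ 5) (P.br a (s3 (fun p q => P.br p q) b c d y)) ∈ U := by
    intro a b c d
    simp only [s3, map_sub, map_add]
    exact U.add_mem (U.sub_mem (h2 _ _ _ _) (h2 _ _ _ _)) (h2 _ _ _ _)
  simp only [s4, map_add, map_sub]
  exact U.sub_mem (U.add_mem (U.sub_mem (h3 _ _ _ _) (h3 _ _ _ _)) (h3 _ _ _ _)) (h3 _ _ _ _)

end calc1

end Pool.Agent.Lib.helper7.TPA
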