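import Pool.Agent.Lib.helper7.TP1

set_option autoImplicit false

namespace Pool.Agent.Lib.helper7.TPA

universe u v

/-- Formal terms. -/
inductive Tm (F : Type u) (n : ℕ) : Type u
  | var : Fin n → Tm F n
  | zero : Tm F n
  | add : Tm F n → Tm F n → Tm F n
  | smul : F → Tm F n → Tm F n
  | mul : Tm F n → Tm F n → Tm F n
  | br : Tm F n → Tm F n → Tm F n

variable {F : Type u} [Field F] {n : ℕ}

def Tm.ev {B : Type u} [AddCommGroup B] [Module F B] (Q : TP F B) (b : Fin n → B) : Tm F n → B
  | .var i => b i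
  | .zero => 0
  | .add s t => s.ev Q b + t.ev Q b
  | .smul c s => c • s.ev Q b
  | .mul s t => Q.mul (s.ev Q b) (t.ev Q b)
  | .br s t => Q.br (s.ev Q b) (t.ev Q b)

def tmRel (F : Type u) [Field F] (n : ℕ) : Setoid (Tm F n) where
  r s t := ∀ (B : Type u) [AddCommGroup B] [Module F B] (Q : TP F B) (b : Fin n → B),
    s.ev Q b = t.ev Q b
  iseqv := ⟨fun _ _ _ _ _ _ => rfl, fun h B _ _ Q b => (h B Q b).symm,
    fun h k B _ _ Q b => (h B Q b).trans (k B Q b)⟩

def Fr (F : Type u) [Field F] (n : ℕ) : Type u := Quotient (tmRel F n)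

def Fr.mk (s : Tm F n) : Fr F n := Quotient.mk (tmRel F n) s

theorem Fr.sound {s t : Tm F n}
    (h : ∀ (B : Type u) [AddCommGroup B] [Module F B] (Q : TP F B) (b : Fin n → B),
      s.ev Q b = t.ev Q b) : Fr.mk s = Fr.mk t := Quotient.sound h

theorem Fr.ind {p : Fr F n → Prop} (h : ∀ s, p (Fr.mk s)) (a : Fr F n) : p a :=
  Quotient.inductionOn a h

def Fr.op2 (f : Tm F n → Tm F n → Tm F n)
    (hf : ∀ s t s' t', (tmRel F n).r s s' → (tmRel F n).r t t' → (tmRel F n).r (f s t) (f s' t')) :
    Fr F n → Fr F n → Fr F n :=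
  Quotient.map₂ f (fun s s' h t t' k => hf s t s' t' h k)

instance : Zero (Fr F n) := ⟨Fr.mk .zero⟩

instance : Add (Fr F n) := ⟨Fr.op2 .add (fun s t s' t' h k B _ _ Q b => by
  simp only [Tm.ev, h B Q b, k B Q b])⟩

instance : SMul F (Fr F n) := ⟨fun c => Quotient.map (.smul c) (fun s s' h B _ _ Q b => by
  simp only [Tm.ev, h B Q b])⟩

instance : Neg (Fr F n) := ⟨fun a => (-1 : F) • a⟩

def Fr.mul : Fr F n → Fr F n → Fr F n := Fr.op2 .mul (fun s t s' t' h k B _ _ Q b => by
  simp only [Tm.ev, h B Q b, k B Q b])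

def Fr.br : Fr F n → Fr F n → Fr F n := Fr.op2 .br (fun s t s' t' h k B _ _ Q b => by
  simp only [Tm.ev, h B Q b, k B Q b])

theorem Fr.zero_def : (0 : Fr F n) = Fr.mk .zero := rfl
theorem Fr.add_def (s t : Tm F n) : Fr.mk s + Fr.mk t = Fr.mk (.add s t) := rfl
theorem Fr.smul_def (c : F) (s : Tm F n) : c • Fr.mk s = Fr.mk (.smul c s) := rfl
theorem Fr.neg_def (s : Tm F n) : - Fr.mk s = Fr.mk (.smul (-1) s) := rfl
theorem Fr.mul_def (s t : Tm F n) : Fr.mul (Fr.mk s) (Fr.mk t) = Fr.mk (.mul s t) := rfl
theorem Fr.br_def (s t : Tm F n) : Fr.br (Fr.mk s) (Fr.mk t) = Fr.mk (.br s t) := rfl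

instance : AddCommGroup (Fr F n) where
  add_assoc a b c := by
    induction a using Fr.ind; induction b using Fr.ind; induction c using Fr.ind
    exact Fr.sound (fun B _ _ Q b => by simp only [Tm.ev, add_assoc])
  zero_add a := by
    induction a using Fr.ind
    exact Fr.sound (fun B _ _ Q b => by simp only [Tm.ev, zero_add])
  add_zero a := by
    induction a using Fr.ind
    exact Fr.sound (fun B _ _ Q b => by simp only [Tm.ev, add_zero])
  neg_add_cancel a := by
    induction a using Fr.ind
    exact Fr.sound (fun B _ _ Q b => by simp [Tm.ev])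
  add_comm a b := by
    induction a using Fr.ind; induction b using Fr.ind
    exact Fr.sound (fun B _ _ Q b => by simp only [Tm.ev, add_comm])
  nsmul := nsmulRec
  zsmul := zsmulRec

instance : Module F (Fr F n) where
  one_smul a := by
    induction a using Fr.ind
    exact Fr.sound (fun B _ _ Q b => by simp only [Tm.ev, one_smul])
  mul_smul c d a := by
    induction a using Fr.ind
    exact Fr.sound (fun B _ _ Q b => by simp only [Tm.ev, mul_smul])
  smul_zero c := Fr.sound (fun B _ _ Q b => by simp only [Tm.ev, smul_zero])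
  smul_add c a b := by
    induction a using Fr.ind; induction b using Fr.ind
    exact Fr.sound (fun B _ _ Q b => by simp only [Tm.ev, smul_add])
  add_smul c d a := by
    induction a using Fr.ind
    exact Fr.sound (fun B _ _ Q b => by simp only [Tm.ev, add_smul])
  zero_smul a := by
    induction a using Fr.ind
    exact Fr.sound (fun B _ _ Q b => by simp only [Tm.ev, zero_smul])

def frTP (F : Type u) [Field F] (n : ℕ) : TP F (Fr F n) where
  mul := LinearMap.mk₂ F Fr.mul
    (fun a b c => by
      induction a using Fr.ind; induction b using Fr.ind; induction c using Fr.ind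
      exact Fr.sound (fun B _ _ Q b => by simp [Tm.ev]))
    (fun c a b => by
      induction a using Fr.ind; induction b using Fr.ind
      exact Fr.sound (fun B _ _ Q b => by simp [Tm.ev]))
    (fun a b c => by
      induction a using Fr.ind; induction b using Fr.ind; induction c using Fr.ind
      exact Fr.sound (fun B _ _ Q b => by simp [Tm.ev]))
    (fun c a b => by
      induction a using Fr.ind; induction b using Fr.ind
      exact Fr.sound (fun B _ _ Q b => by simp [Tm.ev]))
  br := LinearMap.mk₂ F Fr.br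
    (fun a b c => by
      induction a using Fr.ind; induction b using Fr.ind; induction c using Fr.ind
      exact Fr.sound (fun B _ _ Q b => by simp [Tm.ev]))
    (fun c a b => by
      induction a using Fr.ind; induction b using Fr.ind
      exact Fr.sound (fun B _ _ Q b => by simp [Tm.ev]))
    (fun a b c => by
      induction a using Fr.ind; induction b using Fr.ind; induction c using Fr.ind
      exact Fr.sound (fun B _ _ Q b => by simp [Tm.ev]))
    (fun c a b => by
      induction a using Fr.ind; induction b using Fr.ind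
      exact Fr.sound (fun B _ _ Q b => by simp [Tm.ev]))
  mul_comm a b := by
    induction a using Fr.ind; induction b using Fr.ind
    exact Fr.sound (fun B _ _ Q b => Q.mul_comm _ _)
  mul_assoc a b c := by
    induction a using Fr.ind; induction b using Fr.ind; induction c using Fr.ind
    exact Fr.sound (fun B _ _ Q b => Q.mul_assoc _ _ _)
  br_self a := by
    induction a using Fr.ind
    exact Fr.sound (fun B _ _ Q b => Q.br_self _)
  jacobi a b c := by
    induction a using Fr.ind; induction b using Fr.ind; induction c using Fr.ind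
    exact Fr.sound (fun B _ _ Q b => Q.jacobi _ _ _)
  compat a b c := by
    induction a using Fr.ind; induction b using Fr.ind; induction c using Fr.ind
    exact Fr.sound (fun B _ _ Q b => Q.compat _ _ _)

theorem frTP_free (F : Type u) [Field F] (n : ℕ) :
    IsFree (frTP F n) (fun i => Fr.mk (.var i)) := by
  intro B _ _ Q b
  let h : Fr F n →ₗ[F] B :=
    { toFun := Quotient.lift (Tm.ev Q b) (fun s t h => h B Q b)
      map_add' := fun a c => by
        induction a using Fr.ind; induction c using Fr.ind; rfl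
      map_smul' := fun c a => by
        induction a using Fr.ind; rfl }
  refine ⟨h, ⟨⟨fun a c => ?_, fun a c => ?_⟩, fun i => rfl⟩, ?_⟩
  · induction a using Fr.ind; induction c using Fr.ind; rfl
  · induction a using Fr.ind; induction c using Fr.ind; rfl
  · rintro k ⟨⟨k1, k2⟩, k3⟩
    ext a
    induction a using Fr.ind with
    | h s =>
      change k (Fr.mk s) = s.ev Q b
      induction s with
      | var i => exact k3 i
      | zero => exact map_zero k
      | add s t hs ht => rw [← Fr.add_def, map_add, hs, ht]; rfl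
      | smul c s hs => rw [← Fr.smul_def, map_smul, hs]; rfl
      | mul s t hs ht =>
        have := k1 (Fr.mk s) (Fr.mk t)
        rw [hs, ht] at this
        exact this
      | br s t hs ht =>
        have := k2 (Fr.mk s) (Fr.mk t)
        rw [hs, ht] at this
        exact this

/-- The field with its product and zero bracket. -/
def fldTP (F : Type u) [Field F] : TP F F where
  mul := LinearMap.mul F F
  br := 0
  mul_comm := mul_comm
  mul_assoc := mul_assoc
  br_self := by simp
  jacobi := by simp
  compat := by simp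

/-- Matrices with zero product and the commutator bracket. -/
def matTP (F : Type u) [Field F] : TP F (Matrix (Fin 3) (Fin 3) F) where
  mul := 0
  br := LinearMap.mul F _ - (LinearMap.mul F _).flip
  mul_comm := by simp
  mul_assoc := by simp
  br_self := by simp
  jacobi := by
    intro x y z
    simp only [LinearMap.sub_apply, LinearMap.mul_apply', LinearMap.flip_apply]
    noncomm_ring
  compat := by simp

def cm {R : Type*} [Ring R] (p q : R) : R := p * q - q * p

def gg {A : Type*} [AddCommGroup A] (br : A → A → A) (a b : A) : A :=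
  s4 br a b (br a b) (br a (br a b)) a

theorem map_gg {A B : Type*} [AddCommGroup A] [AddCommGroup B] (f : A →+ B) (br : A → A → A)
    (br' : B → B → B) (h : ∀ p q, f (br p q) = br' (f p) (f q)) (a b : A) :
    f (gg br a b) = gg br' (f a) (f b) := by
  simp only [gg, s4, s3, s2, map_add, map_sub, h]

def ma : Matrix (Fin 3) (Fin 3) ℤ := !![0, 0, 0; 1, 0, 0; 0, 1, 0]
def mb : Matrix (Fin 3) (Fin 3) ℤ := !![0, 0, 1; 0, 0, 0; 0, 0, 0]

theorem gg_int : gg cm ma mb 0 1 = 12 := by decide +kernel

theorem gg_ne (F : Type u) [Field F] [CharZero F] :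
    gg (fun p q => (matTP F).br p q) ((Int.castRingHom F).mapMatrix ma)
      ((Int.castRingHom F).mapMatrix mb) ≠ 0 := by
  have h := map_gg ((Int.castRingHom F).mapMatrix :
      Matrix (Fin 3) (Fin 3) ℤ →+* Matrix (Fin 3) (Fin 3) F).toAddMonoidHom cm
    (fun p q => (matTP F).br p q) (by
      intro p q
      change (Int.castRingHom F).mapMatrix (p * q - q * p) = _
      rw [map_sub, map_mul, map_mul]
      rfl) ma mb
  intro h0
  have h1 : (Int.castRingHom F).mapMatrix (gg cm ma mb) = 0 := h.trans h0
  have h2 := congrFun (congrFun h1 0) 1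
  change ((gg cm ma mb 0 1 : ℤ) : F) = 0 at h2
  rw [gg_int] at h2
  norm_num at h2

theorem main [CharZero F] {A : Type v} [AddCommGroup A] [Module F A] (P : TP F A) (m : ℕ)
    (x : Fin (m + 3) → A) (hx : IsFree P x) :
    ∃ f, f ∉ subalg P (Set.range fun i : Fin (m + 2) => x i.castSucc) ∧
      ∃ g, g ≠ 0 ∧ g ∈ idl P f ∧ g ∈ subalg P (Set.range fun i : Fin (m + 2) => x i.castSucc) := by
  classical
  have h0l : (0 : Fin (m + 3)) ≠ Fin.last (m + 2) := by
    intro h; have := congrArg Fin.val h; simp at this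
  have h01 : (1 : Fin (m + 3)) ≠ 0 := by
    intro h; have := congrArg Fin.val h; simp at this
  refine ⟨x 0 - P.mul (x (Fin.last _)) (x 0), ?_, gg (fun p q => P.br p q) (x 0) (x 1), ?_, ?_, ?_⟩
  · intro hf
    obtain ⟨h1, ⟨⟨a1, b1⟩, c1⟩, -⟩ := hx F (fldTP F) (fun _ => 1)
    obtain ⟨h2, ⟨⟨a2, b2⟩, c2⟩, -⟩ := hx F (fldTP F)
      (fun i => if i = Fin.last (m + 2) then 0 else 1)
    have hle : subalg P (Set.range fun i : Fin (m + 2) => x i.castSucc) ≤
        LinearMap.ker (h1 - h2) := by
      apply sInf_le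
      refine ⟨?_, ?_⟩
      · rintro _ ⟨i, rfl⟩
        simp [c1, c2, Fin.castSucc_ne_last]
      · intro a ha b hb
        simp only [LinearMap.mem_ker, LinearMap.sub_apply, sub_eq_zero] at ha hb ⊢
        rw [a1, a2, b1, b2, ha, hb]
        exact ⟨rfl, rfl⟩
    have := hle hf
    simp only [LinearMap.mem_ker, LinearMap.sub_apply, map_sub, a1, a2, c1, c2, if_neg h0l] at this
    simp [fldTP] at this
  · intro hg
    obtain ⟨h, ⟨⟨-, b1⟩, c1⟩, -⟩ := hx _ (matTP F)
      (fun i => if i = 0 then (Int.castRingHom F).mapMatrix ma else (Int.castRingHom F).mapMatrix mb)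
    have := map_gg h.toAddMonoidHom (fun p q => P.br p q) (fun p q => (matTP F).br p q) b1
      (x 0) (x 1)
    rw [hg, map_zero] at this
    apply gg_ne F
    simp only [LinearMap.toAddMonoidHom_coe, c1, if_neg h01, if_true] at this
    exact this.symm
  · rw [idl, Submodule.mem_sInf]
    rintro U ⟨hf, hU⟩
    exact s4_mem P U hU _ _ hf _ _ _ _
  · rw [subalg, Submodule.mem_sInf]
    rintro U ⟨hS, hU⟩
    have k0 : x 0 ∈ U := hS ⟨0, rfl⟩
    have k1 : x 1 ∈ U := hS ⟨1, rfl⟩
    have hb : ∀ {a b}, a ∈ U → b ∈ U → P.br a b ∈ U := fun ha hb => (hU _ ha _ hb).2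
    have q2 : ∀ {c d y}, c ∈ U → d ∈ U → y ∈ U → s2 (fun p q => P.br p q) c d y ∈ U :=
      fun hc hd hy => U.sub_mem (hb hc (hb hd hy)) (hb hd (hb hc hy))
    have q3 : ∀ {b c d y}, b ∈ U → c ∈ U → d ∈ U → y ∈ U →
        s3 (fun p q => P.br p q) b c d y ∈ U :=
      fun h1 h2 h3 hy => U.add_mem (U.sub_mem (hb h1 (q2 h2 h3 hy)) (hb h2 (q2 h1 h3 hy)))
        (hb h3 (q2 h1 h2 hy))
    have k2 := hb k0 k1
    have k3 := hb k0 k2
    exact U.sub_mem (U.add_mem (U.sub_mem (hb k0 (q3 k1 k2 k3 k0)) (hb k1 (q3 k0 k2 k3 k0)))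
      (hb k2 (q3 k0 k1 k3 k0))) (hb k3 (q3 k0 k1 k2 k0))

end Pool.Agent.Lib.helper7.TPA
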