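import Mathlib

namespace Pool.Agent.Lib.Helper7Vd

open Set Topology Filter MeasureTheory
open Cardinal hiding univ

def RC (φ : ℝ → ℝ) : Prop := ∀ x, ContinuousWithinAt φ (Ioi x) x

def C (φ : ℝ → ℝ) (q : ℤ × ℝ) : Set ℝ := {x | φ x - q.1 * x = q.2}

def Small (φ : ℝ → ℝ) (S : Set ℝ) : Prop :=
  ∃ T : Set (ℤ × ℝ), T.Countable ∧ S ⊆ ⋃ q ∈ T, C φ q

variable {φ : ℝ → ℝ}

lemma Small.mono {S S' : Set ℝ} (h : Small φ S) (hs : S' ⊆ S) : Small φ S' :=
  let ⟨T, h1, h2⟩ := h; ⟨T, h1, hs.trans h2⟩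

lemma small_iUnion {ι : Type} [Countable ι] {S : ι → Set ℝ} (h : ∀ i, Small φ (S i)) :
    Small φ (⋃ i, S i) := by
  choose T h1 h2 using h
  exact ⟨⋃ i, T i, countable_iUnion h1, iUnion_subset fun i =>
    (h2 i).trans (biUnion_subset_biUnion_left (subset_iUnion T i))⟩

lemma Small.union {S S' : Set ℝ} (h : Small φ S) (h' : Small φ S') : Small φ (S ∪ S') := by
  rw [union_eq_iUnion]; exact small_iUnion fun b => by cases b <;> assumption

lemma small_count {S : Set ℝ} (h : S.Countable) : Small φ S :=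
  ⟨(fun x => (0, φ x)) '' S, h.image _, fun x hx =>
    mem_iUnion₂.2 ⟨_, ⟨x, hx, rfl⟩, by simp [C]⟩⟩

lemma RC.count (h : RC φ) : {x | ¬ ContinuousAt φ x}.Countable := by
  let S : ℕ → Set ℝ := fun k => {x | ¬ ∀ᶠ y in 𝓝 x, dist (φ y) (φ x) < 1 / ((k : ℝ) + 1)}
  refine (countable_iUnion fun k =>
    countable_setOfPred_isolated_right_within (s := S k)).mono fun x hx => ?_
  have : ∃ k, x ∈ S k := by
    by_contra hn
    push Not at hn
    refine hx (Metric.tendsto_nhds.2 fun ε hε => ?_)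
    obtain ⟨k, hk⟩ := exists_nat_one_div_lt hε
    exact (not_not.1 (hn k)).mono fun y hy => hy.trans hk
  obtain ⟨k, hk⟩ := this
  refine mem_iUnion.2 ⟨k, hk, ?_⟩
  have p : (0 : ℝ) < 1 / ((k : ℝ) + 1) / 2 := by positivity
  obtain ⟨u, hu, h2⟩ := mem_nhdsGT_iff_exists_Ioo_subset.1 (Metric.tendsto_nhds.1 (h x) _ p)
  rw [← empty_mem_iff_bot]
  filter_upwards [self_mem_nhdsWithin, nhdsWithin_le_nhds (Iio_mem_nhds hu)] with y hy hy2
  refine hy.1 ?_
  filter_upwards [Ioo_mem_nhds hy.2 hy2] with z hz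
  have a : dist (φ z) (φ x) < _ := h2 hz
  have b : dist (φ y) (φ x) < _ := h2 ⟨hy.2, hy2⟩
  linarith [dist_triangle_right (φ z) (φ y) (φ x)]

lemma RC_card : #{φ : ℝ → ℝ // RC φ} ≤ 𝔠 := by
  have : Function.Injective fun (φ : {φ : ℝ → ℝ // RC φ}) (q : ℚ) => φ.1 q := by
    intro f g h
    refine Subtype.ext (funext fun x => ?_)
    have fr : ∃ᶠ y in 𝓝[>] x, f.1 y = g.1 y := by
      intro hn
      obtain ⟨u, hu, h2⟩ := mem_nhdsGT_iff_exists_Ioo_subset.1 hn
      obtain ⟨q, hq⟩ := exists_rat_btwn (mem_Ioi.1 hu)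
      exact h2 hq (congrFun h q)
    exact tendsto_nhds_unique_of_frequently_eq (f.2 x) (g.2 x) fr
  refine (mk_le_of_injective this).trans ?_
  simp [mk_real]

lemma kernel {a b : ℝ} (h : ¬ Small φ (Ioo a b)) {S : Set ℝ} (hS : Small φ S) :
    ∃ x ∈ Ioo a b, x ∉ S ∧ ∀ c d, c < x → x < d → ¬ Small φ (Ioo c d) := by
  by_contra hn
  push Not at hn
  refine h ((hS.union (small_iUnion (ι := {p : ℚ × ℚ // Small φ (Ioo p.1 p.2)})
    fun p => p.2)).mono fun x hx => ?_)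
  by_cases h1 : x ∈ S
  · exact Or.inl h1
  obtain ⟨c, d, h2, h3, h4⟩ := hn x hx h1
  obtain ⟨p, p1, p2⟩ := exists_rat_btwn h2
  obtain ⟨q, q1, q2⟩ := exists_rat_btwn h3
  exact Or.inr (mem_iUnion.2 ⟨⟨(p, q), h4.mono (Ioo_subset_Ioo p1.le q2.le)⟩, p2, q1⟩)

lemma split (hφ : RC φ) (l : ℕ) (I : {p : ℝ × ℝ // ¬ Small φ (Ioo p.1 p.2)}) :
    ∃ J : Bool → {p : ℝ × ℝ // ¬ Small φ (Ioo p.1 p.2)},
      (∀ b, Icc (J b).1.1 (J b).1.2 ⊆ Ioo I.1.1 I.1.2) ∧
      ∀ n ∈ Finset.Icc (-l : ℤ) l, ∀ s ∈ Icc (J false).1.1 (J false).1.2,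
        ∀ t ∈ Icc (J true).1.1 (J true).1.2, φ s - n * s ≠ φ t - n * t := by
  obtain ⟨x, x1, x2, x3⟩ := kernel I.2 (small_count hφ.count)
  obtain ⟨y, y1, y2, y3⟩ := kernel I.2 ((small_count hφ.count).union
    (S' := ⋃ n : ℤ, C φ (n, φ x - n * x)) (small_iUnion fun n =>
      ⟨{(n, φ x - n * x)}, countable_singleton _, by simp⟩))
  have cx : ContinuousAt φ x := not_not.1 x2
  have cy : ContinuousAt φ y := not_not.1 fun h => y2 (Or.inl h)
  have ev : ∀ᶠ p : ℝ × ℝ in 𝓝 (x, y), (p.1 ∈ Ioo I.1.1 I.1.2 ∧ p.2 ∈ Ioo I.1.1 I.1.2) ∧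
      ∀ n ∈ Finset.Icc (-l : ℤ) l, φ p.1 - n * p.1 ≠ φ p.2 - n * p.2 := by
    refine Eventually.and ((isOpen_Ioo.prod isOpen_Ioo).mem_nhds ⟨x1, y1⟩) ?_
    refine (eventually_all_finset _).2 fun n _ => ?_
    have c1 : ContinuousAt (fun p : ℝ × ℝ => φ p.1) (x, y) := cx.comp_of_eq continuousAt_fst rfl
    have c2 : ContinuousAt (fun p : ℝ × ℝ => φ p.2) (x, y) := cy.comp_of_eq continuousAt_snd rfl
    have : ContinuousAt (fun p : ℝ × ℝ => (φ p.1 - n * p.1) - (φ p.2 - n * p.2)) (x, y) := by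
      fun_prop
    refine (this.eventually_ne (y := 0) ?_).mono fun p hp => sub_ne_zero.1 hp
    exact sub_ne_zero.2 fun e => y2 (Or.inr (mem_iUnion.2 ⟨n, e.symm⟩))
  obtain ⟨ε, hε, H⟩ := Metric.eventually_nhds_iff.1 ev
  have K : ∀ s ∈ Icc (x - ε / 2) (x + ε / 2), ∀ t ∈ Icc (y - ε / 2) (y + ε / 2),
      dist (s, t) (x, y) < ε := fun s hs t ht => by
    rw [Prod.dist_eq, max_lt_iff, Real.dist_eq, Real.dist_eq, abs_lt, abs_lt]
    refine ⟨⟨?_, ?_⟩, ?_, ?_⟩ <;> linarith [hs.1, hs.2, ht.1, ht.2]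
  refine ⟨fun b => cond b ⟨(y - ε / 2, y + ε / 2), y3 _ _ (by linarith) (by linarith)⟩
    ⟨(x - ε / 2, x + ε / 2), x3 _ _ (by linarith) (by linarith)⟩, fun b => ?_,
    fun n hn s hs t ht => (H (K s hs t ht)).2 n hn⟩
  cases b
  · exact fun s hs => (H (K s hs y ⟨by linarith, by linarith⟩)).1.1
  · exact fun t ht => (H (K x ⟨by linarith, by linarith⟩ t ht)).1.2

def P (φ : ℝ → ℝ) : Prop := ∀ E : Set ℝ, #E < 𝔠 →
  ∃ x, x ∈ Ioo (0 : ℝ) 1 ∧ ContinuousAt φ x ∧ x ∉ E ∧ ∀ n : ℤ, φ x - n * x ∉ E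

lemma dich (hφ : RC φ) (h : ¬ Small φ (Ioo 0 1)) : P φ := by
  choose J j1 j2 using split hφ
  let I : (ℕ → Bool) → ℕ → {p : ℝ × ℝ // ¬ Small φ (Ioo p.1 p.2)} := fun σ l =>
    Nat.rec ⟨(0, 1), h⟩ (fun l i => J l i (σ l)) l
  have e : ∀ σ l, I σ (l + 1) = J l (I σ l) (σ l) := fun _ _ => rfl
  have ne : ∀ σ, (⋂ l, Icc (I σ l).1.1 (I σ l).1.2).Nonempty := fun σ =>
    IsCompact.nonempty_iInter_of_sequence_nonempty_isCompact_isClosed _
      (fun l => (j1 l _ _).trans Ioo_subset_Icc_self)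
      (fun l => by
        by_contra hn
        refine (I σ l).2 ((small_count countable_empty).mono ?_)
        rw [← not_nonempty_iff_eq_empty.1 hn]; exact Ioo_subset_Icc_self)
      isCompact_Icc fun _ => isClosed_Icc
  choose k hk using ne
  simp only [mem_iInter] at hk
  have same : ∀ σ τ l, (∀ i < l, σ i = τ i) → I σ l = I τ l := by
    intro σ τ l
    induction l with
    | zero => exact fun _ => rfl
    | succ l ih => intro h; rw [e, e, ih fun i hi => h i (by omega), h l (by omega)]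
  have sep : ∀ (n : ℤ) σ τ, φ (k σ) - n * k σ = φ (k τ) - n * k τ →
      (∀ i < n.natAbs, σ i = τ i) → σ = τ := by
    intro n σ τ h1 h2
    by_contra hn
    have ex : ∃ i, σ i ≠ τ i := Function.ne_iff.1 hn
    classical
    have l1 := Nat.find_spec ex
    have l2 : ∀ i < Nat.find ex, σ i = τ i := fun i hi => not_not.1 (Nat.find_min ex hi)
    have l3 : n ∈ Finset.Icc (-(Nat.find ex) : ℤ) (Nat.find ex) := by
      have : n.natAbs ≤ Nat.find ex := not_lt.1 fun h => l1 (h2 _ h)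
      rw [Finset.mem_Icc]; omega
    have a := hk σ (Nat.find ex + 1)
    have b := hk τ (Nat.find ex + 1)
    rw [e] at a b
    rw [← same σ τ _ l2] at b
    cases h3 : σ (Nat.find ex) <;> cases h4 : τ (Nat.find ex) <;> rw [h3] at a l1 <;>
      rw [h4] at b l1
    · exact l1 rfl
    · exact j2 _ _ n l3 _ a _ b h1
    · exact j2 _ _ n l3 _ b _ a h1.symm
    · exact l1 rfl
  have kin : Function.Injective k := fun σ τ h => sep 0 σ τ (by rw [h]) (by simp)
  intro E hE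
  by_contra hn
  push Not at hn
  let ψ : (ℕ → Bool) → {x | ¬ ContinuousAt φ x} ⊕ E ⊕ (Σ n : ℤ, E × (Fin n.natAbs → Bool)) → Prop :=
    fun σ w => match w with
      | .inl x => k σ = x
      | .inr (.inl x) => k σ = x
      | .inr (.inr w) => φ (k σ) - w.1 * k σ = w.2.1 ∧ ∀ i : Fin w.1.natAbs, σ i = w.2.2 i
  have ex : ∀ σ, ∃ w, ψ σ w := fun σ => by
    by_cases h1 : ContinuousAt φ (k σ)
    · by_cases h2 : k σ ∈ E
      · exact ⟨.inr (.inl ⟨_, h2⟩), rfl⟩
      · obtain ⟨n, h3⟩ := hn (k σ) (j1 0 _ _ (hk σ 1)) h1 h2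
        exact ⟨.inr (.inr ⟨n, ⟨_, h3⟩, fun i => σ i⟩), rfl, fun _ => rfl⟩
    · exact ⟨.inl ⟨_, h1⟩, rfl⟩
  choose w hw using ex
  have inj : Function.Injective w := fun σ τ h => by
    have a := hw σ
    have b := hw τ
    rw [← h] at b
    rcases hh : w σ with x | x | x <;> rw [hh] at a b
    · exact kin (a.trans b.symm)
    · exact kin (a.trans b.symm)
    · exact sep x.1 σ τ (a.1.trans b.1.symm) fun i hi => (a.2 ⟨i, hi⟩).trans (b.2 ⟨i, hi⟩).symm
  have c := mk_le_of_injective inj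
  have c0 : #(ℕ → Bool) = 𝔠 := by simp
  rw [c0, mk_sum, mk_sum, lift_id, lift_id, lift_id, lift_id] at c
  refine absurd c (not_le.2 (add_lt_of_lt aleph0_le_continuum
    ((le_aleph0_iff_set_countable.2 hφ.count).trans_lt aleph0_lt_continuum)
    (add_lt_of_lt aleph0_le_continuum hE ?_)))
  have : #(Σ n : ℤ, E × (Fin n.natAbs → Bool)) ≤ #(E × Σ n : ℤ, (Fin n.natAbs → Bool)) :=
    mk_le_of_injective (f := fun w => (w.2.1, ⟨w.1, w.2.2⟩)) (by
      rintro ⟨n, a, b⟩ ⟨m, c, d⟩ h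
      simp only [Prod.mk.injEq, Sigma.mk.injEq] at h
      obtain ⟨rfl, rfl, h⟩ := h
      rw [eq_of_heq h])
  refine this.trans_lt ?_
  rw [mk_prod, lift_id, lift_id]
  exact mul_lt_of_lt aleph0_le_continuum hE (mk_le_aleph0.trans_lt aleph0_lt_continuum)

theorem exists_H0 : ∃ H : AddSubgroup ℝ, 1 ∈ H ∧ √2 ∈ H ∧
    ∀ φ, RC φ → P φ → ∃ x ∈ H, x ∈ Ioo (0 : ℝ) 1 ∧ ContinuousAt φ x ∧ φ x ∉ H := by
  classical
  let I : Type := (𝔠).ord.ToType
  obtain ⟨f, hf⟩ : ∃ f : I → {φ : ℝ → ℝ // RC φ}, Function.Surjective f := by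
    have : Nonempty ({φ : ℝ → ℝ // RC φ} ↪ I) := by
      rw [← Cardinal.le_def, mk_ord_toType]; exact RC_card
    obtain ⟨e⟩ := this
    have : Nonempty {φ : ℝ → ℝ // RC φ} := ⟨⟨0, fun _ => continuousWithinAt_const⟩⟩
    exact ⟨_, Function.invFun_surjective e.injective⟩
  let gen : ∀ i : I, (∀ j, j < i → ℝ) → Set ℝ := fun i x =>
    {√2} ∪ range (fun j : Iio i => x j j.2) ∪ range (fun j : Iio i => (f j).1 (x j j.2))
  have gc : ∀ i x, #(Subfield.closure (gen i x)) < 𝔠 := fun i x => by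
    have : #(Iio i) < 𝔠 := by simpa [I] using mk_Iio_lt i
    refine (Subfield.cardinalMk_closure_le_max _).trans_lt (max_lt ?_ aleph0_lt_continuum)
    refine (mk_union_le _ _).trans_lt (add_lt_of_lt aleph0_le_continuum
      ((mk_union_le _ _).trans_lt (add_lt_of_lt aleph0_le_continuum ?_ (mk_range_le.trans_lt this)))
      (mk_range_le.trans_lt this))
    simpa using one_lt_aleph0.trans aleph0_lt_continuum
  let F : ∀ i : I, (∀ j, j < i → ℝ) → ℝ := fun i x =>
    if h : P (f i).1 then (h _ (gc i x)).choose else 0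
  let x : I → ℝ := wellFounded_lt.fix F
  have hx : ∀ i, x i = F i fun j _ => x j := fun i => wellFounded_lt.fix_eq F i
  let E : I → Subfield ℝ := fun i => Subfield.closure (gen i fun j _ => x j)
  have sp : ∀ i, P (f i).1 → x i ∈ Ioo (0 : ℝ) 1 ∧ ContinuousAt (f i).1 (x i) ∧ x i ∉ E i ∧
      ∀ n : ℤ, (f i).1 (x i) - n * x i ∉ E i := fun i h => by
    have := (h _ (gc i fun j _ => x j)).choose_spec
    rw [hx i]
    simp only [F, dif_pos h]
    exact this
  have s0 : ∀ i, ¬ P (f i).1 → x i = 0 := fun i h => by rw [hx i]; simp only [F, dif_neg h]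
  have m1 : ∀ i j, j < i → x j ∈ E i := fun i j h =>
    Subfield.subset_closure (Or.inl (Or.inr ⟨⟨j, h⟩, rfl⟩))
  have m2 : ∀ i j, j < i → (f j).1 (x j) ∈ E i := fun i j h =>
    Subfield.subset_closure (Or.inr ⟨⟨j, h⟩, rfl⟩)
  let G : Finset I → AddSubgroup ℝ := fun T => AddSubgroup.closure ({1, √2} ∪ x '' T)
  have GE : ∀ T i, (∀ j ∈ T, j < i) → ∀ y ∈ G T, y ∈ E i := fun T i h =>
    (AddSubgroup.closure_le (E i).toAddSubgroup).2 (by
      rintro _ ((rfl | rfl) | ⟨j, hj, rfl⟩)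
      · exact (E i).one_mem
      · exact Subfield.subset_closure (Or.inl (Or.inl rfl))
      · exact m1 i j (h j hj))
  have Gins : ∀ T i, ∀ y ∈ G (insert i T), ∃ n : ℤ, y - n * x i ∈ G T := fun T i y hy => by
    have : y ∈ G T ⊔ AddSubgroup.zmultiples (x i) := by
      refine (AddSubgroup.closure_le _).2 ?_ hy
      rintro z (hz | ⟨j, hj, rfl⟩)
      · exact AddSubgroup.mem_sup_left (AddSubgroup.subset_closure (Or.inl hz))
      · rcases Finset.mem_insert.1 hj with rfl | hj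
        · exact AddSubgroup.mem_sup_right (AddSubgroup.mem_zmultiples _)
        · exact AddSubgroup.mem_sup_left (AddSubgroup.subset_closure (Or.inr ⟨j, hj, rfl⟩))
    obtain ⟨a, ha, b, hb, rfl⟩ := AddSubgroup.mem_sup.1 this
    obtain ⟨n, rfl⟩ := AddSubgroup.mem_zmultiples_iff.1 hb
    exact ⟨n, by simpa using ha⟩
  refine ⟨⨆ T, G T, AddSubgroup.mem_iSup_of_mem ∅ (AddSubgroup.subset_closure (by simp)),
    AddSubgroup.mem_iSup_of_mem ∅ (AddSubgroup.subset_closure (by simp)), fun φ h1 h2 => ?_⟩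
  obtain ⟨i, hi⟩ := hf ⟨φ, h1⟩
  obtain rfl : φ = (f i).1 := by rw [hi]
  obtain ⟨a1, a2, a3, a4⟩ := sp i h2
  refine ⟨x i, AddSubgroup.mem_iSup_of_mem {i} (AddSubgroup.subset_closure (by simp)), a1, a2,
    fun hm => ?_⟩
  have dir : Directed (· ≤ ·) G := Monotone.directed_le fun T T' h =>
    AddSubgroup.closure_mono (union_subset_union_right _ (image_mono h))
  obtain ⟨T, hT⟩ := (AddSubgroup.mem_iSup_of_directed dir).1 hm
  induction T using Finset.induction_on_max with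
  | empty => exact a4 0 (by simpa using GE ∅ i (by simp) _ hT)
  | insert t T ht ih =>
    obtain ⟨n, hn⟩ := Gins T t _ hT
    rcases lt_trichotomy t i with h | rfl | h
    · refine a4 0 ?_
      rw [Int.cast_zero, zero_mul, sub_zero]
      refine GE _ i (fun j hj => ?_) _ hT
      rcases Finset.mem_insert.1 hj with rfl | hj
      · exact h
      · exact (ht j hj).trans h
    · exact a4 n (GE T t ht _ hn)
    · refine ih ?_
      by_cases hp : P (f t).1
      · by_cases h0 : n = 0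
        · simpa [h0] using hn
        · refine absurd ?_ (sp t hp).2.2.1
          have b1 := (E t).sub_mem (m2 t i h) (GE T t ht _ hn)
          have b2 := (E t).div_mem b1 (intCast_mem (E t) n)
          have : (n : ℝ) ≠ 0 := by exact_mod_cast h0
          convert b2 using 1
          field_simp; ring
      · simpa [s0 t hp] using hn

theorem exists_H : ∃ H : AddSubgroup ℝ, 1 ∈ H ∧ Dense (H : Set ℝ) ∧
    ∀ φ, RC φ → (∀ x ∈ H, x ∈ Ioo (0 : ℝ) 1 → ContinuousAt φ x → φ x ∈ H) →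
      (∀ x ∈ Ioo (0 : ℝ) 1, ∀ y ∈ Ioo (0 : ℝ) 1, x ≠ y → φ x = φ y → φ x ∈ H) →
      (∀ e, {x ∈ Ioo (0 : ℝ) 1 | φ x = e}.Countable) → (∀ x ∈ Ioo (0 : ℝ) 1, φ x ∈ Icc (0 : ℝ) 1) →
      ∀ a b : ℝ, 0 ≤ a → a < b → b ≤ 1 → ∃ x ∈ Ioo (0 : ℝ) 1, φ x ∈ Ioo a b := by
  obtain ⟨H, h1, h2, hH⟩ := exists_H0
  have dn : Dense (H : Set ℝ) := by
    refine (dense_addSubgroupClosure_pair_iff (a := √2) (b := 1)).2
      (by simpa using irrational_sqrt_two) |>.mono ?_
    exact (AddSubgroup.closure_le H).2 (by rintro _ (rfl | rfl) <;> assumption)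
  have small : ∀ φ, RC φ → (∀ x ∈ H, x ∈ Ioo (0 : ℝ) 1 → ContinuousAt φ x → φ x ∈ H) →
      Small φ (Ioo 0 1) := fun φ a b => by
    by_contra hn
    obtain ⟨x, x1, x2, x3, x4⟩ := hH φ a (dich a hn)
    exact x4 (b x x1 x2 x3)
  have nt : ∃ z, z ∉ H := by
    by_contra hn
    push Not at hn
    obtain ⟨T, t1, t2⟩ := small (fun x => x / 2) (fun x => by fun_prop) fun x _ _ _ => hn _
    have : (Ioo (0 : ℝ) 1).Countable := (t1.biUnion fun q _ => Subsingleton.countable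
      fun x hx y hy => by
        have hx : x / 2 - q.1 * x = q.2 := hx
        have hy : y / 2 - q.1 * y = q.2 := hy
        have : (1 - 2 * q.1 : ℝ) ≠ 0 := by
          have : (1 - 2 * q.1 : ℤ) ≠ 0 := by omega
          exact_mod_cast this
        exact mul_left_cancel₀ this (by linarith)).mono t2
    have := this.measure_zero volume
    simp at this
  have null : ∀ S : Set ℝ, MeasurableSet S → S ⊆ H → volume S = 0 := fun S s1 s2 => by
    by_contra hn
    have := Measure.sub_mem_nhds_zero_of_addHaar_pos volume S s1 (pos_iff_ne_zero.2 hn)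
    have o : IsOpen (H : Set ℝ) := H.isOpen_of_mem_nhds (mem_of_superset this (by
      rintro _ ⟨a, ha, b, hb, rfl⟩; exact H.sub_mem (s2 ha) (s2 hb)))
    obtain ⟨z, hz⟩ := nt
    have := (H.isClosed_of_isOpen o).closure_eq
    rw [dn.closure_eq] at this
    exact hz (show z ∈ (H : Set ℝ) from this ▸ mem_univ z)
  refine ⟨H, h1, dn, fun φ r1 r2 r3 r4 r5 a b ha hab hb => ?_⟩
  by_contra hn
  push Not at hn
  obtain ⟨T, t1, t2⟩ := small φ r1 r2
  obtain ⟨q, rfl⟩ := t1.exists_eq_range (by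
    obtain ⟨q, hq, -⟩ := mem_iUnion₂.1 (t2 (show (1 / 2 : ℝ) ∈ Ioo 0 1 by norm_num))
    exact ⟨q, hq⟩)
  rw [biUnion_range] at t2
  have mφ : Measurable φ := measurable_of_countable_not_continuousAt r1.count
  let A : ℕ → Set ℝ := disjointed fun k => C φ (q k) ∩ Ioo 0 1
  have mA : ∀ k, MeasurableSet (A k) := MeasurableSet.disjointed fun k =>
    (measurableSet_eq_fun (by fun_prop) measurable_const).inter measurableSet_Ioo
  have sA : ∀ k, A k ⊆ C φ (q k) ∩ Ioo 0 1 := disjointed_subset _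
  have uA : ⋃ k, A k = Ioo 0 1 := by
    rw [iUnion_disjointed, ← iUnion_inter]; exact inter_eq_right.2 t2
  have im : ∀ k, MeasurableSet (φ '' A k) ∧ volume (A k) ≤ volume (φ '' A k) := fun k => by
    by_cases h0 : (q k).1 = 0
    · have : (A k).Countable := (r4 (q k).2).mono fun x hx => And.intro (sA k hx).2 (by
        simpa [C, h0] using (sA k hx).1)
      exact ⟨(this.image _).measurableSet, by simp [this.measure_zero]⟩
    · have n0 : ((q k).1 : ℝ) ≠ 0 := by exact_mod_cast h0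
      have e : φ '' A k = (fun y => y + -(q k).2) ⁻¹' ((((q k).1 : ℝ)⁻¹ * ·) ⁻¹' A k) := by
        ext y
        constructor
        · rintro ⟨x, hx, rfl⟩
          have : φ x - (q k).1 * x = (q k).2 := (sA k hx).1
          simp only [mem_preimage]
          convert hx using 1
          field_simp; linarith
        · intro hy
          refine ⟨_, hy, ?_⟩
          have : φ _ - (q k).1 * _ = (q k).2 := (sA k hy).1
          rw [mul_inv_cancel_left₀ n0] at this
          linarith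
      rw [e, measure_preimage_add_right, Real.volume_preimage_mul_left (inv_ne_zero n0), inv_inv]
      refine ⟨((mA k).preimage (by fun_prop)).preimage (by fun_prop), le_mul_of_one_le_left' ?_⟩
      rw [ENNReal.one_le_ofReal]
      exact_mod_cast Int.one_le_abs h0
  have dis : Pairwise (Function.onFun (AEDisjoint volume) fun k => φ '' A k) := fun i j hij =>
    null _ ((im i).1.inter (im j).1) (by
      rintro _ ⟨⟨x, hx, rfl⟩, y, hy, e⟩
      refine r3 x (sA i hx).2 y (sA j hy).2 (fun h => ?_) e.symm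
      exact disjoint_left.1 (disjoint_disjointed _ hij) hx (h ▸ hy))
  have c1 : volume (Ioo (0 : ℝ) 1) ≤ volume (⋃ k, φ '' A k) := by
    rw [measure_iUnion₀ dis fun k => (im k).1.nullMeasurableSet, ← uA]
    exact (measure_iUnion_le _).trans (ENNReal.tsum_le_tsum fun k => (im k).2)
  have c2 : (⋃ k, φ '' A k) ⊆ Icc 0 a ∪ Icc b 1 := iUnion_subset fun k => by
    rintro _ ⟨x, hx, rfl⟩
    have a1 := r5 x (sA k hx).2
    have a2 := hn x (sA k hx).2
    by_cases h : φ x ≤ a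
    · exact Or.inl ⟨a1.1, h⟩
    · exact Or.inr ⟨not_lt.1 fun h2 => a2 ⟨not_le.1 h, h2⟩, a1.2⟩
  have c3 := c1.trans ((measure_mono c2).trans (measure_union_le _ _))
  rw [Real.volume_Ioo, Real.volume_Icc, Real.volume_Icc, ← ENNReal.ofReal_add (by linarith)
    (by linarith), ENNReal.ofReal_le_ofReal_iff (by linarith)] at c3
  linarith

end Pool.Agent.Lib.Helper7Vd
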