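import Mathlib
import Pool.Agent.Lib.helper7.VdA

namespace Pool.Agent.Lib.Helper7Vd

open Set Topology Filter

structure Good (H : AddSubgroup ℝ) : Prop where
  one : 1 ∈ H
  dn : Dense (H : Set ℝ)
  kill : ∀ φ, RC φ → (∀ x ∈ H, x ∈ Ioo (0 : ℝ) 1 → ContinuousAt φ x → φ x ∈ H) →
      (∀ x ∈ Ioo (0 : ℝ) 1, ∀ y ∈ Ioo (0 : ℝ) 1, x ≠ y → φ x = φ y → φ x ∈ H) →
      (∀ e, {x ∈ Ioo (0 : ℝ) 1 | φ x = e}.Countable) → (∀ x ∈ Ioo (0 : ℝ) 1, φ x ∈ Icc (0 : ℝ) 1) →
      ∀ a b : ℝ, 0 ≤ a → a < b → b ≤ 1 → ∃ x ∈ Ioo (0 : ℝ) 1, φ x ∈ Ioo a b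

noncomputable def H : AddSubgroup ℝ := exists_H.choose

lemma good : Good H := ⟨exists_H.choose_spec.1, exists_H.choose_spec.2.1, exists_H.choose_spec.2.2⟩

noncomputable def one : H := ⟨1, good.one⟩

@[simp] lemma one_val : (one : ℝ) = 1 := rfl

lemma btw {a b : ℝ} (h : a < b) : ∃ c : H, a < c ∧ (c : ℝ) < b := by
  obtain ⟨c, h1, h2⟩ := good.dn.exists_between h
  exact ⟨⟨c, h1⟩, h2⟩

def X : Type := {D : H → Bool // (∀ a b : H, (a : ℝ) ≤ b → D b = true → D a = true) ∧
  D 0 = true ∧ D one = false}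

instance : TopologicalSpace X := instTopologicalSpaceSubtype
instance : T2Space X := inferInstanceAs (T2Space (Subtype _))
instance : TotallyDisconnectedSpace X := inferInstanceAs (TotallyDisconnectedSpace (Subtype _))

lemma ev (a : H) : Continuous fun D : X => D.1 a := (continuous_apply a).comp continuous_subtype_val

lemma clo (a : H) (b : Bool) : IsClopen {D : X | D.1 a = b} :=
  (isClopen_discrete {b}).preimage (ev a)

instance : CompactSpace X := by
  refine isCompact_iff_compactSpace.1 (IsClosed.isCompact ?_)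
  have c : ∀ (a : H) (b : Bool), IsClopen {D : H → Bool | D a = b} := fun a b =>
    (isClopen_discrete {b}).preimage (continuous_apply a)
  refine IsClosed.inter ?_ ((c _ _).isClosed.inter (c _ _).isClosed)
  change IsClosed {D : H → Bool | _}
  simp only [ofPred_forall]
  refine isClosed_iInter fun a => isClosed_iInter fun b => isClosed_iInter fun _ => ?_
  have : {x : H → Bool | x b = true → x a = true} = {x | x b = true}ᶜ ∪ {x | x a = true} := by
    ext D; simp [imp_iff_not_or]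
  exact this ▸ ((c b true).compl.union (c a true)).isClosed

lemma X.dn (D : X) {a b : H} (h : (a : ℝ) ≤ b) (hb : D.1 b = true) : D.1 a = true := D.2.1 a b h hb

lemma X.up (D : X) {a b : H} (h : (a : ℝ) ≤ b) (ha : D.1 a = false) : D.1 b = false := by
  by_contra hn
  rw [D.dn h (by simpa using hn)] at ha
  exact Bool.noConfusion ha

lemma X.lt (D : X) {a b : H} (ha : D.1 a = true) (hb : D.1 b = false) : (a : ℝ) < b := by
  by_contra hn
  rw [D.dn (not_lt.1 hn) ha] at hb
  exact Bool.noConfusion hb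

lemma cont_iff {Y : Type} [TopologicalSpace Y] {F : Y → X} (h : ∀ a, Continuous fun y => (F y).1 a) :
    Continuous F := Continuous.subtype_mk (continuous_pi h) _

noncomputable def pr (D : X) : ℝ := sSup {a | ∃ h : H, D.1 h = true ∧ (h : ℝ) = a}

lemma le_pr {D : X} {a : H} (h : D.1 a = true) : (a : ℝ) ≤ pr D :=
  le_csSup ⟨1, by rintro _ ⟨b, hb, rfl⟩; exact (D.lt hb D.2.2.2).le⟩ ⟨a, h, rfl⟩

lemma pr_le {D : X} {a : H} (h : D.1 a = false) : pr D ≤ a :=
  csSup_le ⟨_, 0, D.2.2.1, rfl⟩ (by rintro _ ⟨b, hb, rfl⟩; exact (D.lt hb h).le)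

lemma of_lt_pr {D : X} {a : H} (h : (a : ℝ) < pr D) : D.1 a = true := by
  by_contra hn; exact absurd (pr_le (by simpa using hn)) (not_le.2 h)

lemma of_pr_lt {D : X} {a : H} (h : pr D < a) : D.1 a = false := by
  by_contra hn; exact absurd (le_pr (by simpa using hn)) (not_le.2 h)

lemma pr_cont : Continuous pr := by
  rw [continuous_iff_lower_upperSemicontinuous]
  constructor
  · intro D c hc
    obtain ⟨a, h1, h2⟩ := btw hc
    filter_upwards [(clo a true).isOpen.mem_nhds (of_lt_pr h2)] with E hE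
    exact h1.trans_le (le_pr hE)
  · intro D c hc
    obtain ⟨a, h1, h2⟩ := btw hc
    filter_upwards [(clo a false).isOpen.mem_nhds (of_pr_lt h1)] with E hE
    exact (pr_le hE).trans_lt h2

lemma pr_diff {D E : X} (h : pr D = pr E) {a : H} (ha : D.1 a ≠ E.1 a) : (a : ℝ) = pr D := by
  rcases lt_trichotomy (a : ℝ) (pr D) with h1 | h1 | h1
  · exact absurd ((of_lt_pr h1).trans (of_lt_pr (h ▸ h1)).symm) ha
  · exact h1
  · exact absurd ((of_pr_lt h1).trans (of_pr_lt (h ▸ h1)).symm) ha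

lemma pr_mem {D E : X} (h : pr D = pr E) (hn : D ≠ E) : pr D ∈ H := by
  obtain ⟨a, ha⟩ := Function.ne_iff.1 fun e : D.1 = E.1 => hn (Subtype.ext e)
  rw [← pr_diff h ha]; exact a.2

lemma pr_fin (e : ℝ) : (pr ⁻¹' {e}).Finite := by
  classical
  refine Finite.of_finite_image (f := fun D : X => if h : e ∈ H then D.1 ⟨e, h⟩ else true)
    (toFinite _) fun D hD E hE h => Subtype.ext (funext fun a => ?_)
  by_contra hn
  have := (pr_diff (hD.trans hE.symm) hn).trans hD
  subst this
  simp only [a.2, dif_pos] at h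
  exact hn h

lemma nbhd {W : Set X} (hW : IsOpen W) {D : X} (hD : D ∈ W) : ∃ a b : H, D.1 a = true ∧
    D.1 b = false ∧ (0 : ℝ) ≤ a ∧ (b : ℝ) ≤ 1 ∧ ∀ E : X, E.1 a = true → E.1 b = false → E ∈ W := by
  classical
  obtain ⟨O, hO, rfl⟩ := isOpen_induced_iff.1 hW
  obtain ⟨S, u, h1, h2⟩ := isOpen_pi_iff.1 hO D.1 hD
  obtain ⟨a, a1, a2⟩ := Finset.exists_max_image (insert 0 (S.filter fun s => D.1 s = true))
    (fun s : H => (s : ℝ)) (Finset.insert_nonempty _ _)
  obtain ⟨b, b1, b2⟩ := Finset.exists_min_image (insert one (S.filter fun s => D.1 s = false))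
    (fun s : H => (s : ℝ)) (Finset.insert_nonempty _ _)
  refine ⟨a, b, ?_, ?_, a2 0 (by simp), b2 one (by simp), fun E e1 e2 => h2 fun s hs => ?_⟩
  · rcases Finset.mem_insert.1 a1 with rfl | h
    · exact D.2.2.1
    · exact (Finset.mem_filter.1 h).2
  · rcases Finset.mem_insert.1 b1 with rfl | h
    · exact D.2.2.2
    · exact (Finset.mem_filter.1 h).2
  · have : E.1 s = D.1 s := by
      cases h : D.1 s
      · exact E.up (b2 s (by simp [h, Finset.mem_coe.1 hs])) e2
      · exact E.dn (a2 s (by simp [h, Finset.mem_coe.1 hs])) e1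
    change E.1 s ∈ u s
    rw [this]; exact (h1 s hs).2

open Classical in
noncomputable def plus (t : ℝ) : X := ⟨fun a => decide ((a : ℝ) ≤ 0 ∨ ((a : ℝ) ≤ t ∧ (a : ℝ) < 1)),
  fun a b h => by
    simp only [decide_eq_true_eq]
    exact fun h1 => h1.imp h.trans fun h1 => ⟨h.trans h1.1, h.trans_lt h1.2⟩, by simp, by simp⟩

open Classical in
noncomputable def minus (t : ℝ) : X := ⟨fun a => decide ((a : ℝ) ≤ 0 ∨ ((a : ℝ) < t ∧ (a : ℝ) < 1)),
  fun a b h => by
    simp only [decide_eq_true_eq]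
    exact fun h1 => h1.imp h.trans fun h1 => ⟨h.trans_lt h1.1, h.trans_lt h1.2⟩, by simp, by simp⟩

lemma tendsto_X {ι : Type} {l : Filter ι} {f : ι → X} {D : X}
    (h : ∀ a, ∀ᶠ i in l, (f i).1 a = D.1 a) : Tendsto f l (𝓝 D) :=
  tendsto_subtype_rng.2 (tendsto_pi_nhds.2 fun a => tendsto_const_nhds.congr'
    ((h a).mono fun _ h => h.symm))

lemma plus_right (x : ℝ) : Tendsto plus (𝓝[>] x) (𝓝 (plus x)) := tendsto_X fun a => by
  by_cases h : (a : ℝ) ≤ x
  · filter_upwards [self_mem_nhdsWithin] with y hy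
    simp [plus, h, h.trans (le_of_lt hy)]
  · filter_upwards [nhdsWithin_le_nhds (Iio_mem_nhds (not_le.1 h))] with y hy
    simp [plus, h, not_le.2 (mem_Iio.1 hy)]

lemma plus_left (x : ℝ) : Tendsto plus (𝓝[<] x) (𝓝 (minus x)) := tendsto_X fun a => by
  by_cases h : (a : ℝ) < x
  · filter_upwards [nhdsWithin_le_nhds (Ioi_mem_nhds h)] with y hy
    simp [plus, minus, h, le_of_lt (mem_Ioi.1 hy)]
  · filter_upwards [self_mem_nhdsWithin] with y hy
    simp [plus, minus, h, not_le.2 ((mem_Iio.1 hy).trans_le (not_lt.1 h))]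

lemma plus_inj {x y : ℝ} (hx : x ∈ Ioo (0 : ℝ) 1) (hy : y ∈ Ioo (0 : ℝ) 1) (h : plus x = plus y) :
    x = y := by
  wlog hxy : x < y generalizing x y
  · rcases (not_lt.1 hxy).eq_or_lt with h1 | h1
    · exact h1.symm
    · exact (this hy hx h.symm h1).symm
  obtain ⟨c, c1, c2⟩ := btw hxy
  have := congrFun (congrArg Subtype.val h) c
  simp [plus, not_le.2 c1, c2.le, c2.trans hy.2, not_le.2 (hx.1.trans c1)] at this

theorem coHopf {u : X → X} (hc : Continuous u) (hi : Function.Injective u) :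
    Function.Surjective u := by
  by_contra hn
  obtain ⟨D, hD⟩ : ∃ D, D ∉ range u := by simpa [Function.Surjective] using hn
  obtain ⟨a, b, a1, b1, a2, b2, h⟩ := nbhd (isCompact_range hc).isClosed.isOpen_compl hD
  have cu := pr_cont.comp hc
  obtain ⟨x, -, hx⟩ := good.kill (fun x => pr (u (plus x)))
    (fun x => (cu.tendsto _).comp (plus_right x)) (fun x h1 h2 h3 => by
      have t1 := (cu.tendsto _).comp (plus_left x)
      have := tendsto_nhds_unique (h3.tendsto.mono_left nhdsWithin_le_nhds) t1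
      refine pr_mem this fun e => ?_
      have := congrFun (congrArg Subtype.val (hi e)) ⟨x, h1⟩
      simp [plus, minus, h2.2, not_le.2 h2.1] at this)
    (fun x hx y hy hxy e => pr_mem e fun e2 => hxy (plus_inj hx hy (hi e2)))
    (fun e => (Finite.of_finite_image (f := fun x => u (plus x)) ((pr_fin e).subset (by
      rintro _ ⟨x, hx, rfl⟩; exact hx.2)) fun x hx y hy h => plus_inj hx.1 hy.1 (hi h)).countable)
    (fun x _ => ⟨le_pr (u (plus x)).2.2.1, pr_le (u (plus x)).2.2.2⟩) a b a2 (D.lt a1 b1) b2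
  exact h _ (of_lt_pr hx.1) (of_pr_lt hx.2) ⟨_, rfl⟩

theorem exch {ι : Type} (l r s : ι → H)
    (h0 : ∀ i, (0 : ℝ) ≤ s i) (h1 : ∀ i, (s i : ℝ) + r i - l i ≤ 1)
    (hd : ∀ i j, i ≠ j → (s i : ℝ) + r i - l i ≤ s j ∨ (s j : ℝ) + r j - l j ≤ s i)
    (hu : ∀ i j, i ≠ j → (r i : ℝ) ≤ l j ∨ (r j : ℝ) ≤ l i)
    (hf : ∀ h : ℝ, h < 1 → {i | (s i : ℝ) < h}.Finite)
    (hn : ∀ D : X, (∀ i, ¬ (D.1 (l i) = true ∧ D.1 (r i) = false)) →
      (∀ i, (s i : ℝ) + r i - l i < 1) ∧
      ∀ E : X, (∀ i, ¬ (E.1 (l i) = true ∧ E.1 (r i) = false)) → D = E) :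
    ∃ F : X ≃ₜ X, (∀ D i, D.1 (l i) = true → D.1 (r i) = false →
      ∀ h, (F D).1 h = D.1 (h - s i + l i)) ∧
      ∀ D : X, (∀ i, ¬ (D.1 (l i) = true ∧ D.1 (r i) = false)) → F D = plus 1 := by
  classical
  have uq : ∀ (D : X) i j, D.1 (l i) = true ∧ D.1 (r i) = false →
      D.1 (l j) = true ∧ D.1 (r j) = false → i = j := fun D i j a b => by
    by_contra hn
    rcases hu i j hn with h | h
    · exact absurd (D.lt b.1 a.2) (not_lt.2 h)
    · exact absurd (D.lt a.1 b.2) (not_lt.2 h)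
  let F : X → X := fun D => if h : ∃ i, D.1 (l i) = true ∧ D.1 (r i) = false then
    ⟨fun a => D.1 (a - s h.choose + l h.choose), fun a b hab => D.dn (by simpa using hab),
      D.dn (by simpa using h0 _) h.choose_spec.1,
      D.up (by have := h1 h.choose; simp; linarith) h.choose_spec.2⟩ else plus 1
  have f1 : ∀ D i, D.1 (l i) = true → D.1 (r i) = false →
      ∀ h, (F D).1 h = D.1 (h - s i + l i) := fun D i a b h => by
    have ex : ∃ i, D.1 (l i) = true ∧ D.1 (r i) = false := ⟨i, a, b⟩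
    simp only [F, dif_pos ex, uq D _ i ex.choose_spec ⟨a, b⟩]
  have f2 : ∀ D : X, (∀ i, ¬ (D.1 (l i) = true ∧ D.1 (r i) = false)) → F D = plus 1 :=
    fun D h => dif_neg (not_exists.2 h)
  have tp : ∀ a : H, (a : ℝ) < 1 → (plus 1).1 a = true := fun a h => by simp [plus, h, h.le]
  have fc : Continuous F := cont_iff fun a => by
    by_cases ha : (a : ℝ) < 1
    · rw [continuous_bool_rng true]
      have : (fun D => (F D).1 a) ⁻¹' {true} = ⋂ i ∈ {i | (s i : ℝ) < a},
          ({D : X | D.1 (l i) = true} ∩ {D | D.1 (r i) = false})ᶜ ∪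
            {D | D.1 (a - s i + l i) = true} := by
        ext D
        simp only [mem_preimage, mem_singleton_iff, mem_iInter, mem_union, mem_compl_iff,
          mem_inter_iff, mem_ofPred_eq]
        constructor
        · intro h i _
          by_cases h2 : D.1 (l i) = true ∧ D.1 (r i) = false
          · exact Or.inr (f1 D i h2.1 h2.2 a ▸ h)
          · exact Or.inl h2
        · intro h
          by_cases h2 : ∃ i, D.1 (l i) = true ∧ D.1 (r i) = false
          · obtain ⟨i, h2⟩ := h2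
            rw [f1 D i h2.1 h2.2]
            by_cases h3 : (s i : ℝ) < a
            · exact (h i h3).resolve_left (not_not.2 h2)
            · exact D.dn (by simpa using h3) h2.1
          · rw [f2 D (not_exists.1 h2), tp a ha]
      rw [this]
      exact (hf a ha).isClopen_biInter fun i _ => ((clo _ _).inter (clo _ _)).compl.union (clo _ _)
    · have : (fun D => (F D).1 a) = fun _ => false := funext fun D =>
        (F D).up (a := one) (not_lt.1 ha) (F D).2.2.2
      rw [this]; exact continuous_const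
  have id1 : ∀ i, s i + r i - l i - s i + l i = r i := fun i => by abel
  have fi : Function.Injective F := fun D E h => by
    by_cases hD : ∃ i, D.1 (l i) = true ∧ D.1 (r i) = false <;>
      by_cases hE : ∃ i, E.1 (l i) = true ∧ E.1 (r i) = false
    · obtain ⟨i, hi⟩ := hD
      obtain ⟨j, hj⟩ := hE
      have a1 := f1 D i hi.1 hi.2
      have a2 := f1 E j hj.1 hj.2
      rw [h] at a1
      obtain rfl : i = j := by
        by_contra hn
        have b1 := (F E).lt ((a1 (s i)).trans (by simpa using hi.1))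
          ((a2 (s j + r j - l j)).trans (by rw [id1]; exact hj.2))
        have b2 := (F E).lt ((a2 (s j)).trans (by simpa using hj.1))
          ((a1 (s i + r i - l i)).trans (by rw [id1]; exact hi.2))
        push_cast at b1 b2
        rcases hd i j hn with h | h <;> linarith
      refine Subtype.ext (funext fun a => ?_)
      have := (a1 (a + s i - l i)).symm.trans (a2 (a + s i - l i))
      rwa [show a + s i - l i - s i + l i = a by abel] at this
    · obtain ⟨i, hi⟩ := hD
      have := f1 D i hi.1 hi.2 (s i + r i - l i)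
      rw [h, f2 E (not_exists.1 hE), tp _ ((hn E (not_exists.1 hE)).1 i)] at this
      simp [id1, hi.2] at this
    · obtain ⟨i, hi⟩ := hE
      have := f1 E i hi.1 hi.2 (s i + r i - l i)
      rw [← h, f2 D (not_exists.1 hD), tp _ ((hn D (not_exists.1 hD)).1 i)] at this
      simp [id1, hi.2] at this
    · exact (hn D (not_exists.1 hD)).2 E (not_exists.1 hE)
  exact ⟨Continuous.homeoOfEquivCompactToT2 (f := Equiv.ofBijective F ⟨fi, coHopf fc fi⟩) fc, f1, f2⟩

theorem swap (a b c : H) (h0 : (0 : ℝ) ≤ a) (h1 : (a : ℝ) ≤ b) (h2 : (b : ℝ) ≤ c) (h3 : (c : ℝ) ≤ 1) :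
    ∃ F : X ≃ₜ X, ∀ D : X, (D.1 a = false → F D = D) ∧ (D.1 c = true → F D = D) ∧
      (D.1 a = true → D.1 b = false → ∀ h, (F D).1 h = D.1 (h - c + b)) ∧
      (D.1 b = true → D.1 c = false → ∀ h, (F D).1 h = D.1 (h - a + b)) := by
  obtain ⟨F, f1, -⟩ := exch (ι := Fin 4) ![0, b, a, c] ![a, c, b, one] ![0, a, a + c - b, c]
    (fun i => by fin_cases i <;> simp <;> linarith) (fun i => by fin_cases i <;> simp <;> linarith)
    (fun i j h => by
      fin_cases i <;> fin_cases j <;> simp [-Subtype.coe_le_coe] at h ⊢ <;>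
        first | (left; linarith) | (right; linarith))
    (fun i j h => by
      fin_cases i <;> fin_cases j <;> simp [-Subtype.coe_le_coe] at h ⊢ <;>
        first | (left; linarith) | (right; linarith))
    (fun _ _ => toFinite _) (fun D h => by
      exfalso
      have a0 := h 0
      have a1 := h 1
      have a2 := h 2
      have a3 := h 3
      simp [D.2.2.1, D.2.2.2] at a0 a1 a2 a3
      simp [a0, a3] at a1 a2
      simp [a1] at a2)
  refine ⟨F, fun D => ⟨fun h => Subtype.ext (funext fun x => ?_),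
    fun h => Subtype.ext (funext fun x => ?_), fun p q x => ?_, fun p q x => ?_⟩⟩
  · simpa using f1 D 0 D.2.2.1 h x
  · simpa using f1 D 3 h D.2.2.2 x
  · rw [f1 D 2 p q x]; exact congrArg D.1 (show x - (a + c - b) + a = _ by abel)
  · simpa using f1 D 1 p q x

lemma cof {α : Type} [ConditionallyCompleteLinearOrder α] [TopologicalSpace α] [OrderTopology α]
    [FirstCountableTopology α] {S : Set α} {z : α} (hz : z ∈ S) (hb : BddAbove S) :
    ∃ u : ℕ → α, u 0 = z ∧ Monotone u ∧ (∀ n, u n ∈ S) ∧ ∀ h ∈ S, ∃ n, h ≤ u n := by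
  have : ∃ u : ℕ → α, Monotone u ∧ (∀ n, u n ∈ S) ∧ ∀ h ∈ S, ∃ n, h ≤ u n := by
    by_cases h : sSup S ∈ S
    · exact ⟨fun _ => sSup S, monotone_const, fun _ => h, fun x hx => ⟨0, le_csSup hb hx⟩⟩
    · obtain ⟨u, u1, u2, u3⟩ := exists_seq_tendsto_sSup ⟨z, hz⟩ hb
      exact ⟨u, u1, u3, fun x hx => (u2.eventually (le_mem_nhds
        (lt_of_le_of_ne (le_csSup hb hx) fun e => h (e ▸ hx)))).exists⟩
  obtain ⟨u, u1, u2, u3⟩ := this
  refine ⟨fun n => Nat.casesOn n z fun n => max z (u n), rfl, monotone_nat_of_le_succ fun n => ?_,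
    fun n => ?_, fun h hh => ?_⟩
  · cases n
    · exact le_max_left _ _
    · exact max_le_max le_rfl (u1 (Nat.le_succ _))
  · cases n
    · exact hz
    · exact max_rec' (· ∈ S) hz (u2 _)
  · obtain ⟨n, hn⟩ := u3 h hh
    exact ⟨n + 1, hn.trans (le_max_right _ _)⟩

theorem toTop (p : X) : ∃ F : X ≃ₜ X, F p = plus 1 := by
  classical
  obtain ⟨A, a0, a1, a2, a3⟩ := cof (S := {x : ℝ | ∃ h : H, p.1 h = true ∧ (h : ℝ) = x})
    ⟨0, p.2.2.1, rfl⟩ ⟨1, by rintro _ ⟨b, hb, rfl⟩; exact (p.lt hb p.2.2.2).le⟩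
  obtain ⟨B, b0, b1, b2, b3⟩ := cof (α := ℝᵒᵈ) (S := {x : ℝ | ∃ h : H, p.1 h = false ∧ (h : ℝ) = x})
    ⟨one, p.2.2.2, rfl⟩ ⟨(0 : ℝ), by rintro _ ⟨b, hb, rfl⟩; exact (p.lt p.2.2.1 hb).le⟩
  choose a a4 a5 using a2
  choose b b4 b5 using b2
  obtain rfl : A = fun n => (a n : ℝ) := funext fun n => (a5 n).symm
  obtain rfl : B = fun n => (b n : ℝ) := funext fun n => (b5 n).symm
  have am : ∀ {i j}, i ≤ j → (a i : ℝ) ≤ a j := fun h => a1 h
  have bm : ∀ {i j}, i ≤ j → (b j : ℝ) ≤ b i := fun h => b1 h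
  have ab : ∀ i j, (a i : ℝ) < b j := fun i j => p.lt (a4 i) (b4 j)
  have a0' : (a 0 : ℝ) = 0 := a0
  have b0' : (b 0 : ℝ) = 1 := b0
  have inn : ∀ D : X, (∀ n, ¬ (D.1 (a n) = true ∧ D.1 (a (n + 1)) = false)) →
      (∀ n, ¬ (D.1 (b (n + 1)) = true ∧ D.1 (b n) = false)) → D = p := fun D h1 h2 => by
    have c1 : ∀ n, D.1 (a n) = true := fun n => by
      induction n with
      | zero => exact D.dn a0'.le D.2.2.1
      | succ n ih => by_contra h; exact h1 n ⟨ih, by simpa using h⟩
    have c2 : ∀ n, D.1 (b n) = false := fun n => by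
      induction n with
      | zero => exact D.up (a := one) b0'.ge D.2.2.2
      | succ n ih => by_contra h; exact h2 n ⟨by simpa using h, ih⟩
    refine Subtype.ext (funext fun h => ?_)
    cases e : p.1 h
    · obtain ⟨n, hn⟩ := b3 _ ⟨h, e, rfl⟩
      exact D.up hn (c2 n)
    · obtain ⟨n, hn⟩ := a3 _ ⟨h, e, rfl⟩
      exact D.dn hn (c1 n)
  have sm : ∀ δ : ℝ, 0 < δ → ∃ n, (b n : ℝ) - a n < δ := fun δ hδ => by
    obtain ⟨c, c1, c2⟩ := btw (show pr p - δ / 2 < pr p by linarith)
    obtain ⟨d, d1, d2⟩ := btw (show pr p < pr p + δ / 2 by linarith)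
    obtain ⟨n, hn⟩ := a3 _ ⟨c, of_lt_pr c2, rfl⟩
    obtain ⟨m, hm⟩ := b3 _ ⟨d, of_pr_lt d1, rfl⟩
    have hm : (b m : ℝ) ≤ d := hm
    exact ⟨max n m, by linarith [am (le_max_left n m), bm (le_max_right n m)]⟩
  obtain ⟨F, -, f2⟩ := exch (ι := ℕ × Bool) (fun i => cond i.2 (b (i.1 + 1)) (a i.1))
    (fun i => cond i.2 (b i.1) (a (i.1 + 1)))
    (fun i => cond i.2 (one - b i.1 + a (i.1 + 1)) (one - b i.1 + a i.1))
    (by rintro ⟨n, _ | _⟩ <;> simp <;>
          linarith [am (Nat.zero_le n), bm (Nat.zero_le n), am (Nat.zero_le (n + 1))])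
    (by rintro ⟨n, _ | _⟩ <;> simp <;> linarith [ab (n + 1) n, ab (n + 1) (n + 1)])
    (by
      rintro ⟨n, x⟩ ⟨m, y⟩ h
      rcases lt_trichotomy n m with h1 | rfl | h1
      · left; cases x <;> cases y <;> simp <;>
          linarith [am h1, bm h1, am (Nat.le_succ m), bm (Nat.le_succ n)]
      · cases x <;> cases y <;> simp at h ⊢ <;> first | (left; linarith) | (right; linarith)
      · right; cases x <;> cases y <;> simp <;>
          linarith [am h1, bm h1, am (Nat.le_succ n), bm (Nat.le_succ m)])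
    (by
      rintro ⟨n, x⟩ ⟨m, y⟩ h
      cases x <;> cases y <;> simp only [cond_true, cond_false]
      · rcases lt_trichotomy n m with h1 | rfl | h1
        exacts [Or.inl (am h1), absurd rfl h, Or.inr (am h1)]
      · exact Or.inl (ab _ _).le
      · exact Or.inr (ab _ _).le
      · rcases lt_trichotomy n m with h1 | rfl | h1
        exacts [Or.inr (bm h1), absurd rfl h, Or.inl (bm h1)])
    (fun h hh => by
      obtain ⟨N, hN⟩ := sm (1 - h) (by linarith)
      refine ((finite_lt_nat N).prod (finite_univ (α := Bool))).subset ?_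
      rintro ⟨n, x⟩ hx
      refine ⟨show n < N from not_le.1 fun h1 => ?_, trivial⟩
      cases x <;> simp at hx <;> linarith [am h1, bm h1, am (Nat.le_succ n)])
    (fun D h => ⟨by rintro ⟨n, _ | _⟩ <;> simp <;> linarith [ab (n + 1) n, ab (n + 1) (n + 1)],
      fun E h' => (inn D (fun n => h (n, false)) fun n => h (n, true)).trans
        (inn E (fun n => h' (n, false)) fun n => h' (n, true)).symm⟩)
  refine ⟨F, f2 p ?_⟩
  rintro ⟨n, _ | _⟩ <;> simp [a4, b4]

theorem homog (x y : X) : ∃ h : X ≃ₜ X, h x = y := by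
  obtain ⟨F, hF⟩ := toTop x
  obtain ⟨G, hG⟩ := toTop y
  exact ⟨F.trans G.symm, by simp [hF, ← hG]⟩

theorem push (A : Finset X) : ∀ δ : ℝ, 0 < δ → ∃ (F : X ≃ₜ X) (c : H), 1 - δ < c ∧
    ∀ D ∈ A, (F D).1 c = true := by
  classical
  induction A using Finset.induction_on with
  | empty =>
    intro δ hδ
    obtain ⟨c, c1, -⟩ := btw (show 1 - δ < 1 by linarith)
    exact ⟨Homeomorph.refl _, c, c1, by simp⟩
  | insert p A _ ih =>
    intro δ hδ
    obtain ⟨F, c, c1, c2⟩ := ih (δ / 2) (by linarith)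
    cases e : (F p).1 c
    · obtain ⟨a, b, a1, b1, a2, b2, h⟩ := nbhd (W := {D | (D.1 c = false) ∧
          pr D ∈ Ioo (pr (F p) - δ / 4) (pr (F p) + δ / 4)})
        ((clo c false).isOpen.inter (isOpen_Ioo.preimage pr_cont)) (D := F p)
        ⟨e, by constructor <;> linarith⟩
      have ab := (F p).lt a1 b1
      have k1 := h (plus a) (by simp [plus, ab.trans_le b2])
        (by simp [-Subtype.coe_le_coe, plus, not_le.2 ab, not_le.2 (a2.trans_lt ab)])
      have k2 := h (minus b) (by simp [-Subtype.coe_lt_coe, minus, ab, ab.trans_le b2])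
        (by simp [minus, not_le.2 (a2.trans_lt ab)])
      have bc : (b : ℝ) ≤ c := by
        by_contra hn
        have := k2.1
        simp [-Subtype.coe_lt_coe, minus, not_le.1 hn, (not_le.1 hn).trans_le b2] at this
      have p1 : pr (plus a) ≤ a := by
        by_contra hn
        obtain ⟨d, d1, d2⟩ := btw (not_le.1 hn)
        have := of_lt_pr d2
        simp [-Subtype.coe_le_coe, plus, not_le.2 d1, not_le.2 (a2.trans_lt d1)] at this
      have p2 : (b : ℝ) ≤ pr (minus b) := by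
        by_contra hn
        obtain ⟨d, d1, d2⟩ := btw (not_le.1 hn)
        have := of_pr_lt d1
        simp [-Subtype.coe_lt_coe, minus, d2, d2.trans_le b2] at this
      by_cases hc : (c : ℝ) ≤ 1
      · obtain ⟨G, hG⟩ := swap a b c a2 ab.le bc hc
        refine ⟨F.trans G, c - b + a, by push_cast; linarith [k1.2.1, k2.2.2], fun D hD => ?_⟩
        rcases Finset.mem_insert.1 hD with rfl | hD
        · rw [Homeomorph.trans_apply, (hG _).2.2.1 a1 b1, show c - b + a - c + b = a by abel]; exact a1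
        · rw [Homeomorph.trans_apply, (hG _).2.1 (c2 D hD)]
          exact (F D).dn (by push_cast; linarith) (c2 D hD)
      · obtain ⟨G, hG⟩ := toTop p
        obtain ⟨d, d1, d2⟩ := btw (show 1 - δ < 1 by linarith)
        refine ⟨G, d, d1, fun D hD => ?_⟩
        rcases Finset.mem_insert.1 hD with rfl | hD
        · simp [hG, plus, d2, d2.le]
        · exact absurd ((F D).lt (c2 D hD) (F D).2.2.2).le hc
    · refine ⟨F, c, by linarith, fun D hD => ?_⟩
      rcases Finset.mem_insert.1 hD with rfl | hD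
      exacts [e, c2 D hD]

end Pool.Agent.Lib.Helper7Vd
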